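import Pool.Agent.Lib.MP_3240be_co.S62.Defs
import Pool.Agent.Lib.MP_3240be_co.H34.Crisp

/-!
# MP_3240be_co, board t3s_modules, row DAT (helper34)
-/

set_option autoImplicit false

namespace MP3240S

open Finset
open MP3240L
open MP3240G
open MP3240Q (Sub SG)

/-- Two proper 2-colourings of a connected graph. -/
theorem dat_col {V : Type} {D : SimpleGraph V} (hD : D.Connected) (κ₁ κ₂ : V → Bool)
    (h1 : ∀ i j, D.Adj i j → κ₁ i ≠ κ₁ j) (h2 : ∀ i j, D.Adj i j → κ₂ i ≠ κ₂ j) :
    ∃ b : Bool, ∀ i, κ₂ i = xor b (κ₁ i) := by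
  obtain ⟨x⟩ := hD.nonempty
  refine ⟨xor (κ₂ x) (κ₁ x), ?_⟩
  have key : ∀ {u v : V} (_ : D.Walk u v),
      κ₂ u = xor (xor (κ₂ x) (κ₁ x)) (κ₁ u) → κ₂ v = xor (xor (κ₂ x) (κ₁ x)) (κ₁ v) := by
    intro u v p
    induction p with
    | nil => exact id
    | @cons a b c hab p ih =>
      intro h
      apply ih
      have h3 := h1 a b hab
      have h4 := h2 a b hab
      revert h h3 h4
      cases κ₁ a <;> cases κ₁ b <;> cases κ₂ a <;> cases κ₂ b <;> cases κ₂ x <;> cases κ₁ x <;> simp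
  intro i
  obtain ⟨p⟩ := hD.preconnected x i
  refine key p ?_
  cases κ₂ x <;> cases κ₁ x <;> rfl

theorem dat_small {n : ℕ} (κ : Fin n → Bool) (S : Finset (Fin n)) (s : Bool) :
    small κ S ≤ (S.filter (fun v => κ v = s)).card := by
  unfold small
  cases s
  · exact min_le_right _ _
  · exact min_le_left _ _

theorem dat_ncard {n : ℕ} (κ : Fin n → Bool) (T : Set (Fin n)) (S : Finset (Fin n))
    (hS : (S : Set (Fin n)) = T) (s : Bool) :
    (T ∩ {x | κ x = s}).ncard = (S.filter (fun v => κ v = s)).card := by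
  classical
  rw [← Set.ncard_coe_finset]
  congr 1
  ext x
  rw [← hS]
  simp

/-- The image of `D` in `T` has at least `h + 1` vertices in both classes. -/
theorem dat_big {n h : ℕ} {H : SimpleGraph (Fin n)} {κ : Fin n → Bool}
    (hκ : ∀ i j, H.Adj i j → κ i ≠ κ j) {S : Finset (Fin n)} (hS : Bg H κ h S)
    {T : Set (Fin n)} (hT : Sub (gr H S).2 (H.induce T)) (s : Bool) :
    h + 1 ≤ (T ∩ {x | κ x = s}).ncard := by
  classical
  obtain ⟨f, hf, hadj⟩ := hT
  obtain ⟨b, hb⟩ := dat_col (twoCn_gr hS.1.1).conn (fun i => κ (emb S i)) (fun i => κ (f i))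
    (fun i j hij => hκ _ _ hij) (fun i j hij => hκ _ _ (hadj i j hij))
  have h1 : h + 1 ≤ (univ.filter (fun i : Fin S.card => κ (f i) = s)).card := by
    have h2 : (univ.filter (fun i : Fin S.card => κ (f i) = s)) =
        univ.filter (fun i => κ (emb S i) = xor b s) := by
      ext i
      simp only [Finset.mem_filter, Finset.mem_univ, true_and]
      have h3 : κ (f i) = xor b (κ (emb S i)) := hb i
      rw [h3]
      cases b <;> cases s <;> cases κ (emb S i) <;> simp
    rw [h2, card_emb, ← hS.2]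
    exact dat_small κ S _
  refine h1.trans ?_
  rw [← Set.ncard_coe_finset]
  refine Set.ncard_le_ncard_of_injOn (fun i => ((f i : T) : Fin n)) ?_ ?_ (Set.toFinite _)
  · intro i hi
    refine ⟨(f i).2, ?_⟩
    simpa using hi
  · intro i _ j _ hij
    exact hf (Subtype.ext hij)

/-- Mutual embeddings. -/
theorem dat_iso {k m : ℕ} {D : SimpleGraph (Fin k)} {U : SimpleGraph (Fin m)} (h1 : Sub D U)
    (h2 : Sub U D) : ∃ f : Fin k → Fin m, Function.Bijective f ∧
      ∀ i j, U.Adj (f i) (f j) ↔ D.Adj i j := by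
  classical
  obtain ⟨f, hf, hfa⟩ := h1
  obtain ⟨g, hg, hga⟩ := h2
  have hkm : k = m := by
    have h3 := Fintype.card_le_of_injective f hf
    have h4 := Fintype.card_le_of_injective g hg
    rw [Fintype.card_fin, Fintype.card_fin] at h3 h4
    exact le_antisymm h3 h4
  have hfb : Function.Bijective f := (Fintype.bijective_iff_injective_and_card f).2
    ⟨hf, by rw [Fintype.card_fin, Fintype.card_fin]; exact hkm⟩
  refine ⟨f, hfb, ?_⟩
  intro i j
  refine ⟨fun hij => ?_, hfa i j⟩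
  -- the permutation `g ∘ f`
  have hφ : Function.Bijective (g ∘ f) :=
    (Finite.injective_iff_bijective).1 (hg.comp hf)
  let φ : Equiv.Perm (Fin k) := Equiv.ofBijective (g ∘ f) hφ
  have hφa : ∀ i j, D.Adj i j → D.Adj (φ i) (φ j) := fun i j h => hga _ _ (hfa _ _ h)
  have hpow : ∀ (N : ℕ) (i j), D.Adj i j → D.Adj ((φ ^ N) i) ((φ ^ N) j) := by
    intro N
    induction N with
    | zero => exact fun i j h => h
    | succ N ih =>
      intro i j h
      rw [pow_succ, Equiv.Perm.mul_apply, Equiv.Perm.mul_apply]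
      exact ih _ _ (hφa i j h)
  have h5 : D.Adj (φ i) (φ j) := hga _ _ hij
  have h6 := hpow (orderOf φ - 1) _ _ h5
  have h7 : φ ^ (orderOf φ - 1) * φ = 1 := by
    rw [← pow_succ, Nat.sub_add_cancel (orderOf_pos φ), pow_orderOf_eq_one]
  rw [← Equiv.Perm.mul_apply, ← Equiv.Perm.mul_apply, h7] at h6
  exact h6

/-- `T` contains `D`: the graph on `Fin`. -/
theorem dat_sub {n k : ℕ} {H : SimpleGraph (Fin n)} {D : SimpleGraph (Fin k)} {T : Set (Fin n)}
    {S : Finset (Fin n)} (hS : (S : Set (Fin n)) = T) :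
    Sub D (H.induce T) ↔ Sub D (gr H S).2 := by
  classical
  subst hS
  constructor
  · rintro ⟨f, hf, hadj⟩
    have hs : ∀ x : (S : Set (Fin n)), ∃ i, emb S i = x := fun x => emb_surj x.2
    choose g hg using hs
    refine ⟨fun i => g (f i), ?_, ?_⟩
    · intro i j hij
      have h1 := congrArg (emb S) hij
      simp only [hg] at h1
      exact hf (Subtype.ext h1)
    · intro i j hij
      have h1 := hadj i j hij
      show H.Adj (emb S (g _)) (emb S (g _))
      rw [hg, hg]
      exact h1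
  · rintro ⟨f, hf, hadj⟩
    refine ⟨fun i => ⟨emb S (f i), emb_mem S _⟩, ?_, ?_⟩
    · intro i j hij
      exact hf ((emb S).injective (Subtype.ext_iff.1 hij))
    · intro i j hij
      exact hadj i j hij

theorem dat_mdl {n : ℕ} (H : SimpleGraph (Fin n)) {T : Set (Fin n)} {S : Finset (Fin n)}
    (hS : (S : Set (Fin n)) = T) : Mdl H T (gr H S) :=
  ⟨emb S, (emb S).injective, (range_emb S).trans hS, fun _ _ => Iff.rfl⟩

/-- Row DAT. -/
theorem dat_proof (hcho : MP3240G.ChoStatement) : DatStatement := by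
  classical
  intro n H κ hH hκ hcyc hcross
  obtain ⟨S1, h1⟩ := exists_large κ hcyc
  have h2 : 2 ≤ small κ S1 := by
    unfold small
    exact le_min (small_two hκ h1.1.1 true) (small_two hκ h1.1.1 false)
  obtain ⟨h, hh, hh1⟩ : ∃ h, small κ S1 = h + 1 ∧ 1 ≤ h :=
    ⟨small κ S1 - 1, by omega, by omega⟩
  have hiff := large_iff h1 hh
  have hmax : ∀ S, IsBlock H S → small κ S ≤ h + 1 := fun S hS => hh ▸ h1.2 S hS
  have hfin : (fam H κ h).Finite := by
    refine (Set.finite_range (fun S : Finset (Fin n) => gr H S)).subset ?_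
    rintro x ⟨S, _, rfl⟩
    exact ⟨S, rfl⟩
  obtain ⟨x, hx⟩ := hcho h (fam H κ h) hh1 hfin ⟨gr H S1, S1, (hiff S1).1 h1, rfl⟩
    (by
      rintro x ⟨S, hS, rfl⟩
      exact big_gr hκ hS)
    (by
      rintro x y ⟨⟨S, hS, rfl⟩, hx⟩ ⟨⟨S', hS', rfl⟩, hy⟩ hcx hcy
      rw [sub_gr]
      refine hcross S S' ⟨(hiff S).2 hS, ?_⟩ ⟨(hiff S').2 hS', ?_⟩ (cross_gr hκ hcx)
        (cross_gr hκ hcy)
      · intro S2 h3 h4
        rw [← sub_gr] at h4 ⊢
        exact hx _ ⟨S2, (hiff S2).1 h3, rfl⟩ h4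
      · intro S2 h3 h4
        rw [← sub_gr] at h4 ⊢
        exact hy _ ⟨S2, (hiff S2).1 h3, rfl⟩ h4)
  -- the block of `x`
  obtain ⟨k, D⟩ := x
  obtain ⟨S, hS, hxS⟩ := hx.mx.1
  obtain ⟨rfl, hDS⟩ : k = S.card ∧ D ≍ (gr H S).2 := Sigma.mk.inj hxS
  have hDS' : D = (gr H S).2 := eq_of_heq hDS
  subst hDS'
  have hto : ∀ T : Set (Fin n), (T.toFinset : Set (Fin n)) = T := fun T => Set.coe_toFinset T
  -- blocks that contain `D`
  have hDB : ∀ T, DB H (gr H S).2 T → Bg H κ h T.toFinset ∧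
      Sub (gr H S).2 (gr H T.toFinset).2 := by
    rintro T ⟨hT, hsub⟩
    have h3 := (dat_sub (hto T)).1 hsub
    obtain ⟨f, hf, _⟩ := h3
    have h4 : S.card ≤ T.toFinset.card := by
      have := Fintype.card_le_of_injective f hf
      rwa [Fintype.card_fin, Fintype.card_fin] at this
    have h5 : IsBlock H T.toFinset := mx_isBlock (by rw [hto]; exact hT) (hS.1.1.three.trans h4)
    refine ⟨⟨h5, le_antisymm (hmax _ h5) ?_⟩, (dat_sub (hto T)).1 hsub⟩
    unfold small
    refine le_min ?_ ?_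
    · rw [← dat_ncard κ T _ (hto T)]
      exact dat_big hκ hS hsub _
    · rw [← dat_ncard κ T _ (hto T)]
      exact dat_big hκ hS hsub _
  refine ⟨h, S.card, {x | ∃ S, small κ S ≤ h ∧ x = gr H S}, (gr H S).2, hx, ?_, ?_, ?_, ?_⟩
  · refine (Set.finite_range (fun S : Finset (Fin n) => gr H S)).subset ?_
    rintro x ⟨S, _, rfl⟩
    exact ⟨S, rfl⟩
  · rintro x ⟨S, hs, rfl⟩
    exact tiny_gr hκ hs
  · refine ⟨hH, hκ, hh1, twoCn_gr hS.1.1, ⟨(S : Set (Fin n)), isBlock_mx hS.1, ?_⟩, ?_, ?_, ?_⟩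
    · exact (dat_sub rfl).2 ⟨id, Function.injective_id, fun _ _ h => h⟩
    · intro T hT
      obtain ⟨h3, h4⟩ := hDB T hT
      have h5 : Sub (gr H T.toFinset).2 (gr H S).2 := hx.mx.2 _ ⟨_, h3, rfl⟩ h4
      obtain ⟨f, hf, hfa⟩ := dat_iso h4 h5
      refine ⟨fun i => emb T.toFinset (f i), (emb _).injective.comp hf.1, ?_, ?_⟩
      · refine Set.Subset.antisymm ?_ ?_
        · rintro _ ⟨i, rfl⟩
          exact Set.mem_toFinset.1 (emb_mem T.toFinset (f i))
        · intro x hx
          obtain ⟨i, hi⟩ := emb_surj (Set.mem_toFinset.2 hx)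
          obtain ⟨j, hj⟩ := hf.2 i
          exact ⟨j, (congrArg (emb T.toFinset) hj).trans hi⟩
      · intro i j
        exact hfa i j
    · intro T hT s
      exact dat_big hκ hS hT.2 s
    · intro T hT
      by_cases h3 : 3 ≤ T.toFinset.card
      · have h4 := hmax _ (mx_isBlock (by rw [hto]; exact hT) h3)
        unfold small at h4
        rcases min_le_iff.1 h4 with h5 | h5
        · exact ⟨true, by rw [dat_ncard κ T _ (hto T)]; exact h5⟩
        · exact ⟨false, by rw [dat_ncard κ T _ (hto T)]; exact h5⟩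
      · refine ⟨true, ?_⟩
        rw [dat_ncard κ T _ (hto T)]
        have h4 := Finset.card_filter_le T.toFinset (fun v => κ v = true)
        omega
  · rintro T ⟨hT, hsub⟩
    refine ⟨gr H T.toFinset, ?_, dat_mdl H (hto T)⟩
    by_cases h3 : Bg H κ h T.toFinset
    · right
      exact ⟨⟨_, h3, rfl⟩, fun h4 => hsub ((dat_sub (hto T)).2 h4)⟩
    · left
      refine ⟨_, ?_, rfl⟩
      by_cases h4 : 3 ≤ T.toFinset.card
      · have h5 := mx_isBlock (by rw [hto]; exact hT) h4
        have h6 := hmax _ h5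
        have h7 : small κ T.toFinset ≠ h + 1 := fun h8 => h3 ⟨h5, h8⟩
        omega
      · have h5 : (T.toFinset.filter (fun v => κ v = true)).card +
            (T.toFinset.filter (fun v => κ v = false)).card = T.toFinset.card := by
          rw [← Finset.card_filter_add_card_filter_not (s := T.toFinset) (fun v => κ v = true)]
          congr 2
          ext v
          simp
        unfold small
        omega

end MP3240S
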