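import Pool.Agent.Lib.MP_3240be_co.S62.Defs

/-!
# MP_3240be_co, Theorem T2*, row GDX: the whole gadget
-/

set_option autoImplicit false

namespace MP3240S

open Finset
open MP3240G (TwoCn Bi Big Tiny IsNc Mx Fam Blobbed Prs KgdStatement GmcStatement LrgStatement)
open MP3240Q (Mono Bip SG Sub)
open Pool.Agent.Lib.MP_3240be_co.H82 (TC)

/-- Tiny graphs do not contain `D`. -/
theorem not_sub_tiny (hLrg : LrgStatement) {h k : ℕ} {fam : Set SG} {D : SimpleGraph (Fin k)}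
    (hF : Fam h fam D) {x : SG} (hx : Tiny h x) : ¬ Sub D x.2 := by
  rintro ⟨f, hf, hadj⟩
  obtain ⟨hTwo, κ, hκ⟩ := hF.big _ hF.mx.1
  obtain ⟨κ', h1, h2⟩ := hx
  refine hLrg k h D κ hTwo.conn hκ (Fin x.1) f (univ.filter (fun v => κ' v = true)) hf h2 ?_
  intro i j hij
  have h3 := h1 _ _ (hadj i j hij)
  simp only [mem_filter, mem_univ, true_and]
  revert h3
  cases κ' (f i) <;> cases κ' (f j) <;> simp

theorem prs_sub {L Q : Type} (S : SimpleGraph (L ⊕ Q)) (C : L ⊕ Q → L ⊕ Q → Bool) (c : Bool)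
    (x y : SG) (h : Sub x.2 y.2) (hy : Prs S C c y) : Prs S C c x := by
  obtain ⟨g, hg, hga⟩ := h
  obtain ⟨f, hf, hfa⟩ := hy
  refine ⟨fun v => f (g v), fun u v e => ?_, fun i j hij => hfa _ _ (hga _ _ hij)⟩
  have e' : (Sum.inl (f (g u)) : L ⊕ Q) = Sum.inl (f (g v)) := e
  exact hg (hf e')

theorem prs_of {L Q X : Type} {S : SimpleGraph (L ⊕ Q)} {Γ : SimpleGraph X} {i : X → L}
    (hi : Function.Injective i) (hΓ : ∀ u v, Γ.Adj u v → S.Adj (Sum.inl (i u)) (Sum.inl (i v)))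
    {C : L ⊕ Q → L ⊕ Q → Bool} {c : Bool} {x : SG} {f : Fin x.1 → X}
    (hf : Mono Γ (fun u v => C (Sum.inl (i u)) (Sum.inl (i v))) x.2 c f) : Prs S C c x := by
  refine ⟨fun v => i (f v), ?_, ?_⟩
  · intro u v e
    exact hf.1 (hi (Sum.inl_injective e))
  · intro u v huv
    obtain ⟨h1, h2⟩ := hf.2 u v huv
    exact ⟨hΓ _ _ h1, h2⟩

/-- The gadget with the members contained in `D`. -/
theorem gdc (hPgn : PgnStatement) (hPgc : PgcStatement) (hMox : MoxStatement)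
    (hUnx : UnxStatement) (hKgd : KgdStatement) {h k n m m₁ N : ℕ} {fam : Set SG}
    {D : SimpleGraph (Fin k)} (hF : Fam h fam D) (𝓛 : Set SG) (h𝓛 : 𝓛.Finite)
    (h𝓛D : ∀ x ∈ 𝓛, ¬ Sub D x.2) (hn : 1 ≤ n) (hN : 1 ≤ N) (hm : h ≤ m₁) :
    ∃ (L Q : Type) (_ : Finite L) (_ : Finite Q) (S : SimpleGraph (L ⊕ Q)),
      Gdg n m h m₁ N D 𝓛 {x | x ∈ fam ∧ ¬ Sub D x.2 ∧ Sub x.2 D} S := by
  classical
  rcases hF.alt with hnc | htc
  · obtain ⟨L, Q, hL, hQ, S, hG⟩ := hPgn h k n m m₁ N fam D 𝓛 hF hnc h𝓛 h𝓛D hn hN hm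
    let J : Type := {x : SG // x ∈ fam ∧ ¬ Sub D x.2 ∧ Sub x.2 D}
    have : Finite J := by
      have h1 : {x : SG | x ∈ fam ∧ ¬ Sub D x.2 ∧ Sub x.2 D}.Finite :=
        hF.fin.subset fun x hx => hx.1
      exact h1.to_subtype
    have hK : ∀ j : J, ∃ (X : Type) (_ : Finite X) (Γ : SimpleGraph X),
        (∃ C : X → X → Bool, (∀ x y, C x y = C y x) ∧ ∀ c f, ¬ Mono Γ C D c f) ∧
        ∀ C : X → X → Bool, (∀ x y, C x y = C y x) →
          (∃ c f, Mono Γ C D c f) ∨ ∀ c, ∃ f, Mono Γ C j.1.2 c f := by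
      intro j
      obtain ⟨κ, hκ⟩ := (hF.big _ j.2.1).2
      exact hKgd h k fam D (fun _ => ⟨k, D⟩) j.1 hF.one hF.big hF.mx.1 hF.nob
        (fun _ => hF.mx.1) ⟨true, hnc⟩ ⟨κ, hκ.prop⟩ j.2.2.1
    choose X hX Γ hΓ1 hΓ2 using hK
    have : ∀ j, Finite (X j) := hX
    obtain ⟨L', hL', S', i, i', hB', -, hi, hi', hadj, hadj'⟩ :=
      hUnx k n m h m₁ D (hF.big _ hF.mx.1).1 L Q S hG.base J X Γ hΓ1
    refine ⟨L', Q, hL', hQ, S', hB', ?_⟩
    intro C hC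
    by_cases hcase : ∃ c, Prs S' C c ⟨k, D⟩
    · exact Or.inl hcase
    · right
      obtain ⟨hm1, hm2⟩ := hMox k n m h (m₁ + 1) N D 𝓛 L L' Q S S' i hi hadj C
      rcases hG.arr (fun u v => C (Sum.map i id u) (Sum.map i id v)) (fun _ _ => hC _ _) with
        ⟨c, hc⟩ | ⟨hout, -⟩
      · exact absurd ⟨c, hm2 c _ hc⟩ hcase
      · refine ⟨hm1 hout, ?_⟩
        intro c x hx
        rcases hΓ2 ⟨x, hx⟩ (fun u v => C (Sum.inl (i' ⟨x, hx⟩ u)) (Sum.inl (i' ⟨x, hx⟩ v)))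
          (fun _ _ => hC _ _) with ⟨c', f, hf⟩ | h1
        · exact absurd ⟨c', prs_of (x := ⟨k, D⟩) (hi' ⟨x, hx⟩) (hadj' ⟨x, hx⟩) hf⟩ hcase
        · obtain ⟨f, hf⟩ := h1 c
          exact prs_of (hi' ⟨x, hx⟩) (hadj' ⟨x, hx⟩) hf
  · exact hPgc h k n m m₁ N fam D 𝓛 _ hF htc h𝓛 h𝓛D (hF.fin.subset fun x hx => hx.1)
      (fun x hx => hx.2.1) hn hN hm

theorem gdx_proof (hPgn : PgnStatement) (hPgc : PgcStatement) (hMox : MoxStatement)
    (hUnx : UnxStatement) (hCax : CaxStatement) (hKgd : KgdStatement) (hGmc : GmcStatement)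
    (hLrg : LrgStatement) : GdxStatement := by
  classical
  intro h k n m m₁ N fam Tn D hFam hTn htiny hn hN hm
  have hbigD : Big h ⟨k, D⟩ := hFam.big _ hFam.mx.1
  obtain ⟨L, Q, hL, hQ, S, hG⟩ := gdc (m := m) hPgn hPgc hMox hUnx hKgd hFam
    {x | x ∈ Tn ∨ (x ∈ fam ∧ ¬ Sub D x.2)}
    ((hTn.union hFam.fin).subset (by
      rintro x (hx | hx)
      · exact Or.inl hx
      · exact Or.inr hx.1)) (by
      rintro x (hx | hx)
      · exact not_sub_tiny hLrg hFam (htiny x hx)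
      · exact hx.2) hn hN hm
  -- the gadgets of the pairs
  let J0 : Type := {p : SG × SG // Mx fam p.1 ∧ Mx fam p.2 ∧ ¬ (Sub p.1.2 D ∧ Sub p.2.2 D)}
  have hJ0 : Finite J0 := by
    have h1 : (fam ×ˢ fam).Finite := hFam.fin.prod hFam.fin
    have h2 := h1.to_subtype
    exact Finite.of_injective (β := (fam ×ˢ fam : Set (SG × SG)))
      (fun p : J0 => ⟨p.1, p.2.1.1, p.2.2.1.1⟩) (fun p q e => Subtype.ext (by
        have := congrArg (fun z => z.1) e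
        exact this))
  have hkg : ∀ p : J0, ∃ (X : Type) (_ : Finite X) (Γ : SimpleGraph X),
      (∃ C : X → X → Bool, (∀ x y, C x y = C y x) ∧ ∀ c f, ¬ Mono Γ C D c f) ∧
      ∀ C : X → X → Bool, (∀ x y, C x y = C y x) →
        (∃ f, Mono Γ C p.1.1.2 true f) ∨ ∃ f, Mono Γ C p.1.2.2 false f := by
    rintro ⟨⟨x, y⟩, hx, hy, hxy⟩
    have hx' : Mx fam x := hx
    have hy' : Mx fam y := hy
    -- a member that is not contained in `D`
    have hnot : ∀ B : SG, Mx fam B → ¬ Sub B.2 D → IsNc h B ∧ Bip B.2 ∧ ¬ Sub D B.2 := by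
      intro B hB hBD
      refine ⟨hFam.nc B hB hBD, ?_, fun hs => hBD (hFam.mx.2 B hB.1 hs)⟩
      obtain ⟨_, κ, hκ⟩ := hFam.big B hB.1
      exact ⟨κ, hκ.prop⟩
    have hU : ∀ c, (fun c : Bool => if c = true then x else y) c ∈ fam := by
      intro c
      cases c
      · exact hy'.1
      · exact hx'.1
    by_cases hxD : Sub x.2 D
    · have hyD : ¬ Sub y.2 D := fun hs => hxy ⟨hxD, hs⟩
      obtain ⟨h1, h2, h3⟩ := hnot y hy' hyD
      obtain ⟨X, hX, Γ, h4, h5⟩ := hKgd h k fam D (fun c => if c = true then x else y) y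
        hFam.one hFam.big hFam.mx.1 hFam.nob hU ⟨false, h1⟩ h2 h3
      refine ⟨X, hX, Γ, h4, fun C hC => ?_⟩
      rcases h5 C hC with ⟨c, f, hf⟩ | h6
      · cases c
        · exact Or.inr ⟨f, hf⟩
        · exact Or.inl ⟨f, hf⟩
      · exact Or.inr (h6 false)
    · obtain ⟨h1, h2, h3⟩ := hnot x hx' hxD
      obtain ⟨X, hX, Γ, h4, h5⟩ := hKgd h k fam D (fun c => if c = true then x else y) x
        hFam.one hFam.big hFam.mx.1 hFam.nob hU ⟨true, h1⟩ h2 h3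
      refine ⟨X, hX, Γ, h4, fun C hC => ?_⟩
      rcases h5 C hC with ⟨c, f, hf⟩ | h6
      · cases c
        · exact Or.inr ⟨f, hf⟩
        · exact Or.inl ⟨f, hf⟩
      · exact Or.inl (h6 true)
  choose X hX Γ hgood hpair using hkg
  obtain ⟨X', hX', Γ', ⟨Cg, hCg, hCgn⟩, htn⟩ := hGmc h Tn fam hFam.one hTn hFam.fin htiny
    (fun x hx => (hFam.big x hx).2)
  -- all gadgets
  let XX : J0 ⊕ Unit → Type := fun j => Sum.elim X (fun _ => X') j
  have hXX : ∀ j, Finite (XX j) := by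
    rintro (j | j)
    · exact hX j
    · exact hX'
  let ΓΓ : ∀ j, SimpleGraph (XX j) := fun j => match j with
    | .inl p => Γ p
    | .inr _ => Γ'
  obtain ⟨L', hL', S', i, i', hB', htwo, hi, hi', hS, hΓ⟩ := hUnx k n m h m₁ D hbigD.1 L Q S
    hG.base (J0 ⊕ Unit) XX ΓΓ (by
      rintro (p | u)
      · exact hgood p
      · exact ⟨Cg, hCg, fun c f => hCgn k D hbigD.1.conn hbigD.2 c f⟩)
  refine ⟨L', Q, hL', hQ, S', hB', htwo, ?_⟩
  intro C hC
  obtain ⟨hm1, hm2⟩ := hMox k n m h (m₁ + 1) N D {x | x ∈ Tn ∨ (x ∈ fam ∧ ¬ Sub D x.2)} L L' Q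
    S S' i hi hS C
  have hprs : ∀ (j : J0 ⊕ Unit) (c : Bool) (x : SG) (f : Fin x.1 → XX j),
      Mono (ΓΓ j) (fun u v => C (Sum.inl (i' j u)) (Sum.inl (i' j v))) x.2 c f →
      Prs S' C c x := fun j c x f hf => prs_of (hi' j) (hΓ j) hf
  have hmain := hG.arr (fun u v => C (Sum.map i id u) (Sum.map i id v)) (fun u v => hC _ _)
  rcases hCax fam Tn ⟨k, D⟩ (fun c x => Prs S' C c x) hFam.fin hFam.mx
      (fun c x y hs hy => prs_sub S' C c x y hs hy) (by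
        intro x y hx hy hxy
        rcases hpair ⟨(x, y), hx, hy, hxy⟩
            (fun u v => C (Sum.inl (i' (.inl ⟨(x, y), hx, hy, hxy⟩) u))
              (Sum.inl (i' (.inl ⟨(x, y), hx, hy, hxy⟩) v))) (fun u v => hC _ _) with
          ⟨f, hf⟩ | ⟨f, hf⟩
        · exact Or.inl (hprs (.inl ⟨(x, y), hx, hy, hxy⟩) true x f hf)
        · exact Or.inr (hprs (.inl ⟨(x, y), hx, hy, hxy⟩) false y f hf)) (by
        intro c
        rcases htn (fun u v => C (Sum.inl (i' (.inr ()) u)) (Sum.inl (i' (.inr ()) v)))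
            (fun u v => hC _ _) c with h1 | h1
        · left
          intro x hx
          obtain ⟨f, hf⟩ := h1 x hx
          exact hprs (.inr ()) c x f hf
        · right
          intro x hx
          obtain ⟨f, hf⟩ := h1 x hx
          exact hprs (.inr ()) (!c) x f hf) (by
        rcases hmain with ⟨c, h1⟩ | ⟨-, h1⟩
        · exact Or.inl ⟨c, hm2 c _ h1⟩
        · right
          intro c x hx hx1 hx2
          exact hm2 c x (h1 c x ⟨hx, hx1, hx2⟩)) with h1 | ⟨h1, h2⟩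
  · exact Or.inl h1
  · right
    refine ⟨h2, ?_⟩
    rcases hmain with ⟨c, h3⟩ | ⟨h3, -⟩
    · exact absurd (hm2 c _ h3) (h1 c)
    · exact hm1 h3

end MP3240S
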