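import Pool.Agent.Lib.MP_3240be_co.S62.Defs

/-!
# MP_3240be_co, board t3s_modules, row MOX (helper41): everything is preserved by an embedding
-/

set_option autoImplicit false

namespace MP3240S

open MP3240G (Prs)
open MP3240Q (Mono SG Hang)

section Mox

variable {L L' Q : Type} {S : SimpleGraph (L ⊕ Q)} {S' : SimpleGraph (L' ⊕ Q)} {i : L → L'}
  {C : L' ⊕ Q → L' ⊕ Q → Bool}

theorem mox_inj (hi : Function.Injective i) :
    Function.Injective (Sum.map i (id : Q → Q)) :=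
  Function.Injective.sumMap hi Function.injective_id

theorem mox_mono {U : Type} {W : SimpleGraph U} {c : Bool} {f : U → L ⊕ Q}
    (hi : Function.Injective i)
    (h : ∀ u v, S.Adj u v → S'.Adj (Sum.map i id u) (Sum.map i id v))
    (hf : Mono S (fun u v => C (Sum.map i id u) (Sum.map i id v)) W c f) :
    Mono S' C W c (fun v => Sum.map i id (f v)) := by
  refine ⟨fun u v e => hf.1 (mox_inj hi e), fun u v huv => ?_⟩
  exact ⟨h _ _ (hf.2 u v huv).1, (hf.2 u v huv).2⟩

theorem mox_hang {t : ℕ} {U : SimpleGraph (Fin t)} {c : Bool} {N : ℕ} {q : Q} {w : Fin t}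
    (hi : Function.Injective i)
    (h : ∀ u v, S.Adj u v → S'.Adj (Sum.map i id u) (Sum.map i id v))
    (hh : Hang U S (fun u v => C (Sum.map i id u) (Sum.map i id v)) c N q w) :
    Hang U S' C c N q w := by
  obtain ⟨g, h1, h2, h3, h4⟩ := hh
  refine ⟨fun ν v => Sum.map i id (g ν v), fun ν => mox_mono hi h (h1 ν), ?_, ?_, ?_⟩
  · intro ν
    simp only [h2 ν, Sum.map_inr, id]
  · intro ν v hv
    obtain ⟨l, hl⟩ := h3 ν v hv
    exact ⟨i l, by simp only [hl, Sum.map_inl]⟩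
  · intro ν ν' v v' hv e
    exact h4 ν ν' v v' hv (mox_inj hi e)

theorem mox_prs {c : Bool} {x : SG} (hi : Function.Injective i)
    (h : ∀ u v, S.Adj u v → S'.Adj (Sum.map i id u) (Sum.map i id v))
    (hp : Prs S (fun u v => C (Sum.map i id u) (Sum.map i id v)) c x) : Prs S' C c x := by
  obtain ⟨f, hf⟩ := hp
  exact ⟨fun v => i (f v), mox_mono hi h hf⟩

theorem mox_star {k N : ℕ} {D : SimpleGraph (Fin k)} {𝓛 : Set SG} {c : Bool} {q : Q}
    (hi : Function.Injective i)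
    (h : ∀ u v, S.Adj u v → S'.Adj (Sum.map i id u) (Sum.map i id v))
    (hs : Star D 𝓛 N S (fun u v => C (Sum.map i id u) (Sum.map i id v)) c q) :
    Star D 𝓛 N S' C c q :=
  ⟨fun w => mox_hang hi h (hs.1 w), fun x hx w => mox_hang hi h (hs.2 x hx w)⟩

theorem mox_kp {c : Bool} {M h' N : ℕ} (hi : Function.Injective i)
    (h : ∀ u v, S.Adj u v → S'.Adj (Sum.map i id u) (Sum.map i id v))
    (hk : KP S (fun u v => C (Sum.map i id u) (Sum.map i id v)) c M h' N) :
    KP S' C c M h' N := by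
  obtain ⟨hb, lw, h1, h2, h3, h4, h5⟩ := hk
  refine ⟨fun a => Sum.map i id (hb a), fun b => i (lw b), fun a b e => h1 (mox_inj hi e),
    fun a b e => h2 (hi e), ?_, ?_, ?_⟩
  · intro a ha
    obtain ⟨l, hl⟩ := h3 a ha
    exact ⟨i l, by simp only [hl, Sum.map_inl]⟩
  · intro a b e
    apply h4 a b
    apply mox_inj hi
    simpa using e
  · intro a b
    exact ⟨h _ _ (h5 a b).1, (h5 a b).2⟩

theorem mox_full {k n m N : ℕ} {D : SimpleGraph (Fin k)} {𝓛 : Set SG} {c : Bool}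
    {zf : Fin n × Fin (m + 1) → Q} (hi : Function.Injective i)
    (h : ∀ u v, S.Adj u v → S'.Adj (Sum.map i id u) (Sum.map i id v))
    (hf : Full D 𝓛 N S (fun u v => C (Sum.map i id u) (Sum.map i id v)) c zf) :
    Full D 𝓛 N S' C c zf where
  inj := hf.inj
  zz := fun z z' hz => h _ _ (hf.zz z z' hz)
  blob := by
    intro z z' a b hz hab
    obtain ⟨g, h1, h2⟩ := hf.blob z z' a b hz hab
    refine ⟨fun ν v => Sum.map i id (g ν v), fun ν => ?_, ?_⟩
    · obtain ⟨j1, j2, j3, j4, j5⟩ := h1 ν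
      refine ⟨fun u v e => j1 (mox_inj hi e), ?_, ?_, ?_, ?_⟩
      · simp only [j2, Sum.map_inr, id]
      · simp only [j3, Sum.map_inr, id]
      · intro v ha hb
        obtain ⟨l, hl⟩ := j4 v ha hb
        exact ⟨i l, by simp only [hl, Sum.map_inl]⟩
      · intro v v' hv n1 n2
        exact ⟨h _ _ (j5 v v' hv n1 n2).1, (j5 v v' hv n1 n2).2⟩
    · intro ν ν' v v' ha hb e
      exact h2 ν ν' v v' ha hb (mox_inj hi e)
  world := by
    intro z
    obtain ⟨w, hw, h1⟩ := hf.world z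
    exact ⟨fun a => i (w a), fun a b e => hw (hi e),
      fun a b => ⟨h _ _ (h1 a b).1, (h1 a b).2⟩⟩
  hang := fun p x hx w => mox_hang hi h (hf.hang p x hx w)

end Mox

theorem mox_proof : MoxStatement := by
  intro k n m h' M N D 𝓛 L L' Q S S' i hi h C
  refine ⟨?_, fun c x hp => mox_prs hi h hp⟩
  rintro (⟨c, q, hs⟩ | ⟨c, hk⟩ | ⟨c, zf, hf⟩)
  · exact Or.inl ⟨c, q, mox_star hi h hs⟩
  · exact Or.inr (Or.inl ⟨c, mox_kp hi h hk⟩)
  · exact Or.inr (Or.inr ⟨c, zf, mox_full hi h hf⟩)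

end MP3240S
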