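import Pool.Agent.Lib.MP_3240be_co.S62.Defs
import Pool.Agent.Lib.MP_3240be_co.H82.Attach

set_option autoImplicit false

/-!
# Theorem T2*, row AT2: attaching long positive senders to any base graph

The file Q22/Att without the hypothesis that the base graph is bipartite: the sender is bipartite,
and this is enough to see that two vertices of a copy of `H` in the two ends of an edge are in
different classes of `H`.
-/

namespace MP3240S

open Pool.Agent.Lib.MP_3240be_co.H82

/-- A set `A` of vertices of a copy of `H` whose neighbours are in `A` or in the two ends of an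
edge of a bipartite piece contains all other vertices. -/
theorem sep_low {W X U : Type} {H : SimpleGraph W} (hH : TC True H) (f : W → X)
    (hf : Function.Injective f) (S : SimpleGraph U) (cl : U → Bool)
    (hcl : ∀ x y, S.Adj x y → cl x ≠ cl y) (ι : U → X) (hι : Function.Injective ι) (e₁ e₂ : U)
    (he : S.Adj e₁ e₂) (A : W → Prop) (hAe : ∀ x, A x → ∃ u, f x = ι u ∧ u ≠ e₁ ∧ u ≠ e₂)
    (hA : ∃ x, A x)
    (hadj : ∀ x y, H.Adj x y → A x → (A y ∨ f y = ι e₁ ∨ f y = ι e₂) ∧
      ∃ u v, f x = ι u ∧ f y = ι v ∧ S.Adj u v) :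
    ∀ y, f y ≠ ι e₁ → f y ≠ ι e₂ → A y := by
  obtain ⟨κ, hκ⟩ := hH.bip trivial
  obtain ⟨a₀, ha₀⟩ := hA
  obtain ⟨u₀, hu₀, hu₁, hu₂⟩ := hAe a₀ ha₀
  -- the vertices of `A` with the same parity
  let B : W → Prop := fun x => A x ∧ ∀ u, f x = ι u → xor (κ x) (cl u) = xor (κ a₀) (cl u₀)
  have hB0 : B a₀ := ⟨ha₀, fun u hu => by rw [hι (hu.symm.trans hu₀)]⟩
  have hstep : ∀ x y, H.Adj x y → B x → ∀ v, f y = ι v →
      xor (κ y) (cl v) = xor (κ a₀) (cl u₀) := by
    rintro x y hxy ⟨hx, hx'⟩ v hv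
    obtain ⟨-, u, v', hu, hv', huv⟩ := hadj x y hxy hx
    have e1 : v = v' := hι (hv.symm.trans hv')
    subst e1
    rw [← hx' u hu]
    have h1 := hκ _ _ hxy
    have h2 := hcl _ _ huv
    revert h1 h2
    cases κ x <;> cases κ y <;> cases cl u <;> cases cl v <;> decide
  have hend : ∀ e e' : U, (∀ y, A y ∨ f y = ι e ∨ f y = ι e' ↔ A y ∨ f y = ι e₁ ∨ f y = ι e₂) →
      (∀ x, A x → f x ≠ ι e ∧ f x ≠ ι e') → e ≠ e' → ∀ x x', f x = ι e → f x' = ι e' →
      xor (κ x') (cl e') = xor (κ a₀) (cl u₀) := by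
    intro e e' hor hne hee x x' hx hx'
    by_contra hcon
    have hno : ∀ a, B a → ¬ H.Adj a x' := fun a ha hax => hcon (hstep a x' hax ha e' hx')
    have h1 := hH.sep1 (fun y => y = x) (fun u v hu hv => hu.trans hv.symm) B
      ⟨a₀, fun h => (hne a₀ ha₀).1 (h ▸ hx), hB0⟩ (by
        intro a b _ hb hab hBa
        obtain ⟨h2, u, v, hu, hv, huv⟩ := hadj a b hab hBa.1
        have h3 := (hor b).2 h2
        refine ⟨?_, fun w hw => hstep a b hab hBa w hw⟩
        rcases h3 with h3 | h3 | h3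
        · exact h3
        · exact absurd (hf (h3.trans hx.symm)) hb
        · have h4 : b = x' := hf (h3.trans hx'.symm)
          exact absurd (h4 ▸ hab) (hno a hBa))
    have h5 := h1 x' (fun h => hee (hι (by rw [← hx, ← hx', h])))
    exact (hne x' h5.1).2 hx'
  have hne : ∀ x, A x → f x ≠ ι e₁ ∧ f x ≠ ι e₂ := by
    intro x hx
    obtain ⟨u, hu, h1, h2⟩ := hAe x hx
    exact ⟨fun h => h1 (hι (hu.symm.trans h)), fun h => h2 (hι (hu.symm.trans h))⟩
  refine hH.sep (fun x => f x = ι e₁) (fun x => f x = ι e₂)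
    (fun x y hx hy => hf (hx.trans hy.symm)) (fun x y hx hy => hf (hx.trans hy.symm))
    (fun _ => ⟨κ, hκ, fun x y hx hy => ?_⟩) A ⟨a₀, (hne a₀ ha₀).1, (hne a₀ ha₀).2, ha₀⟩ ?_
  · have h1 := hend e₁ e₂ (fun y => Iff.rfl) hne he.ne x y hx hy
    have h2 := hend e₂ e₁ (fun y => by tauto) (fun x hx => ⟨(hne x hx).2, (hne x hx).1⟩)
      he.ne.symm y x hy hx
    have h3 := hcl _ _ he
    revert h1 h2 h3
    cases κ x <;> cases κ y <;> cases cl e₁ <;> cases cl e₂ <;>
      cases xor (κ a₀) (cl u₀) <;> decide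
  · intro x y _ _ hy1 hy2 hxy hx
    rcases (hadj x y hxy hx).1 with h | h | h
    · exact h
    · exact absurd h hy1
    · exact absurd h hy2

theorem at2_proof : At2Statement := by
  classical
  intro n H hH W J _ _ G Z p₁ p₂ q₁ q₂ hp hq hpq hnon hZ
  obtain ⟨U, hU, S, e₁, e₂, f₁, f₂, ℓ, hℓ, he, hf, hℓ1, hℓ2, hℓ3, hℓ4, hb₁, ⟨d, hd, hdg⟩,
    hforce⟩ :=
    exists_long H hH (n + 2)
  have ne1 : e₁ ≠ f₁ := fun h => by rw [← h] at hℓ3; omega
  have ne2 : e₁ ≠ f₂ := fun h => by rw [← h] at hℓ4; omega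
  have ne3 : e₂ ≠ f₁ := fun h => by rw [← h] at hℓ3; omega
  have ne4 : e₂ ≠ f₂ := fun h => by rw [← h] at hℓ4; omega
  have nn1 : ¬ S.Adj e₁ f₁ := fun h => by have := hℓ _ _ h; omega
  have nn2 : ¬ S.Adj e₁ f₂ := fun h => by have := hℓ _ _ h; omega
  have nn3 : ¬ S.Adj e₂ f₁ := fun h => by have := hℓ _ _ h; omega
  have nn4 : ¬ S.Adj e₂ f₂ := fun h => by have := hℓ _ _ h; omega
  let T : U → Prop := fun u => u = e₁ ∨ u = e₂ ∨ u = f₁ ∨ u = f₂
  obtain ⟨t, t1, t2, t3, t4⟩ : ∃ t : J → U → W, (∀ j, t j e₁ = p₁ j) ∧ (∀ j, t j e₂ = p₂ j) ∧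
      (∀ j, t j f₁ = q₁ j) ∧ ∀ j, t j f₂ = q₂ j := by
    refine ⟨fun j u => if u = e₁ then p₁ j else if u = e₂ then p₂ j else if u = f₁ then q₁ j else
      q₂ j, fun j => if_pos rfl, fun j => ?_, fun j => ?_, fun j => ?_⟩
    · simp only [if_neg he.ne.symm, if_true]
    · simp only [if_neg ne1.symm, if_neg ne3.symm, if_true]
    · simp only [if_neg ne2.symm, if_neg ne4.symm, if_neg hf.ne.symm]
  have T1 : T e₁ := Or.inl rfl
  have T2 : T e₂ := Or.inr (Or.inl rfl)
  have T3 : T f₁ := Or.inr (Or.inr (Or.inl rfl))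
  have T4 : T f₂ := Or.inr (Or.inr (Or.inr rfl))
  have ht : ∀ j u v, T u → T v → t j u = t j v → u = v := by
    intro j
    obtain ⟨a1, a2, a3, a4⟩ := hpq j
    have b1 := (hp j).ne
    have b2 := (hq j).ne
    rintro u v (rfl | rfl | rfl | rfl) (rfl | rfl | rfl | rfl) h <;>
      simp only [t1, t2, t3, t4] at h
    · rfl
    · exact absurd h b1
    · exact absurd h a1
    · exact absurd h a2
    · exact absurd h.symm b1
    · rfl
    · exact absurd h a3
    · exact absurd h a4
    · exact absurd h.symm a1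
    · exact absurd h.symm a3
    · rfl
    · exact absurd h b2
    · exact absurd h.symm a2
    · exact absurd h.symm a4
    · exact absurd h.symm b2
    · rfl
  have hG : ∀ j u v, T u → T v → (S.Adj u v ↔ G.Adj (t j u) (t j v)) := by
    intro j
    obtain ⟨a1, a2, a3, a4⟩ := hnon j
    have b1 := hp j
    have b2 := hq j
    rintro u v (rfl | rfl | rfl | rfl) (rfl | rfl | rfl | rfl) <;>
      simp only [t1, t2, t3, t4]
    · exact ⟨fun h => absurd rfl h.ne, fun h => absurd rfl h.ne⟩
    · exact ⟨fun _ => b1, fun _ => he⟩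
    · exact ⟨fun h => absurd h nn1, fun h => absurd h a1⟩
    · exact ⟨fun h => absurd h nn2, fun h => absurd h a2⟩
    · exact ⟨fun _ => b1.symm, fun _ => he.symm⟩
    · exact ⟨fun h => absurd rfl h.ne, fun h => absurd rfl h.ne⟩
    · exact ⟨fun h => absurd h nn3, fun h => absurd h a3⟩
    · exact ⟨fun h => absurd h nn4, fun h => absurd h a4⟩
    · exact ⟨fun h => absurd h.symm nn1, fun h => absurd h.symm a1⟩
    · exact ⟨fun h => absurd h.symm nn3, fun h => absurd h.symm a3⟩
    · exact ⟨fun h => absurd rfl h.ne, fun h => absurd rfl h.ne⟩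
    · exact ⟨fun _ => b2, fun _ => hf⟩
    · exact ⟨fun h => absurd h.symm nn2, fun h => absurd h.symm a2⟩
    · exact ⟨fun h => absurd h.symm nn4, fun h => absurd h.symm a4⟩
    · exact ⟨fun _ => b2.symm, fun _ => hf.symm⟩
    · exact ⟨fun h => absurd rfl h.ne, fun h => absurd rfl h.ne⟩
  obtain ⟨cl₁, hcl₁, -⟩ := hb₁ trivial
  refine ⟨W ⊕ (J × U), inferInstance, Att G S T t ht, Sum.inl, Sum.inl_injective,
    fun u v => ⟨Att_base_ind ht hG, Att_base ht⟩, ?_, ?_, ?_⟩
  · intro C hC hCg j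
    have hgood : Good H S (fun u v => C (ia T t j u) (ia T t j v)) := by
      intro b f hf hcon
      obtain ⟨i, z, hz, hiz⟩ := hCg b (fun i => ia T t j (f i)) ⟨(ia_inj ht j).comp hf,
        fun i i' hii => ⟨Att_piece ht (hcon i i' hii).1, (hcon i i' hii).2⟩⟩
      obtain ⟨h1, h2⟩ := ia_eq_inl hiz
      obtain ⟨z1, z2, z3, z4⟩ := hZ j
      rw [← h2] at hz
      rcases h1 with h1 | h1 | h1 | h1
      · rw [h1, t1] at hz
        exact z1 hz
      · rw [h1, t2] at hz
        exact z2 hz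
      · rw [h1, t3] at hz
        exact z3 hz
      · rw [h1, t4] at hz
        exact z4 hz
    have k := hforce (fun u v => C (ia T t j u) (ia T t j v)) (fun u v => hC _ _) hgood
    simp only [ia_pos T1, ia_pos T2, ia_pos T3, ia_pos T4, t1, t2, t3, t4] at k
    exact k.2 trivial
  · intro c hc hcpq
    have hex : ∀ j, ∃ d' : U → U → Bool, (∀ x y, d' x y = d' y x) ∧ Good H S d' ∧
        d' e₁ e₂ = c (p₁ j) (p₂ j) := by
      intro j
      by_cases h : d e₁ e₂ = c (p₁ j) (p₂ j)
      · exact ⟨d, hd, hdg, h⟩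
      · refine ⟨fun x y => !d x y, fun x y => congrArg _ (hd x y), hdg.not, ?_⟩
        show (!d e₁ e₂) = c (p₁ j) (p₂ j)
        revert h
        cases d e₁ e₂ <;> cases c (p₁ j) (p₂ j) <;> decide
    choose D hD hDg hDe using hex
    have hDf : ∀ j, D j f₁ f₂ = c (q₁ j) (q₂ j) := by
      intro j
      rw [← (hforce (D j) (hD j) (hDg j)).2 rfl, hDe, hcpq]
    obtain ⟨C, hC1, hC2, hC3⟩ := Att_colour (S := S) (T := T) (t := t) ht c hc D hD (by
      rintro j u v (rfl | rfl | rfl | rfl) (rfl | rfl | rfl | rfl) h <;>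
        simp only [t1, t2, t3, t4]
      · exact absurd rfl h.ne
      · exact hDe j
      · exact absurd h nn1
      · exact absurd h nn2
      · rw [hD, hDe, hc]
      · exact absurd rfl h.ne
      · exact absurd h nn3
      · exact absurd h nn4
      · exact absurd h.symm nn1
      · exact absurd h.symm nn3
      · exact absurd rfl h.ne
      · exact hDf j
      · exact absurd h.symm nn2
      · exact absurd h.symm nn4
      · rw [hD, hDf, hc]
      · exact absurd rfl h.ne)
    refine ⟨C, hC1, hC2, ?_⟩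
    rintro b f ⟨hfi, hmono⟩
    refine Att_mono (H := H) ht hH.nbr hG (d := D) hDg hC3 f hfi b ?_ hmono
    intro i0 j u hi0 hTu
    -- an unoccupied level
    obtain ⟨s, hs1, hs2, hs⟩ : ∃ s, 1 ≤ s ∧ s ≤ n + 1 ∧
        ∀ i v, f i = Sum.inr (j, v) → ℓ v ≠ s := by
      by_contra hcon
      push Not at hcon
      have : Nonempty (Fin n) := ⟨i0⟩
      choose! g hg using hcon
      let φ : Fin (n + 1) → Fin n := fun s => g (s.1 + 1)
      have hφ : Function.Injective φ := by
        intro s s' hss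
        obtain ⟨v, hv1, hv2⟩ := hg (s.1 + 1) (by omega) (by omega)
        obtain ⟨v', hv1', hv2'⟩ := hg (s'.1 + 1) (by omega) (by omega)
        have e1 : g (s.1 + 1) = g (s'.1 + 1) := hss
        rw [e1, hv1'] at hv1
        have e2 := (Prod.ext_iff.1 (Sum.inr_injective hv1)).2
        simp only at e2
        rw [← e2, hv2'] at hv2
        exact Fin.ext (by omega)
      have := Fintype.card_le_of_injective φ hφ
      simp at this
    have hℓu := hs i0 u hi0
    rcases lt_or_gt_of_ne hℓu with hlt | hgt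
    · -- the low part
      have hall := sep_low hH f hfi S cl₁ hcl₁ (ia T t j) (ia_inj ht j) e₁ e₂ he
        (fun i => ∃ v, ¬ T v ∧ f i = Sum.inr (j, v) ∧ ℓ v < s)
        (by
          rintro x ⟨v, hv, hx, -⟩
          exact ⟨v, by rw [ia_neg hv, hx], fun h => hv (h ▸ T1), fun h => hv (h ▸ T2)⟩)
        ⟨i0, u, hTu, hi0, hlt⟩ (by
          rintro x y hxy ⟨v, hv, hx, hlv⟩
          have h3 := (hmono x y hxy).1
          rw [hx] at h3
          obtain ⟨v', hadj, hv'⟩ := Att_private ht h3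
          have h4 := hℓ _ _ hadj
          refine ⟨?_, v, v', by rw [ia_neg hv, hx], hv', hadj⟩
          by_cases hT : T v'
          · rcases hT with rfl | rfl | rfl | rfl
            · exact Or.inr (Or.inl hv')
            · exact Or.inr (Or.inr hv')
            · exfalso
              omega
            · exfalso
              omega
          · rw [ia_neg hT] at hv'
            have h5 := hs y v' hv'
            exact Or.inl ⟨v', hT, hv', by omega⟩)
      rw [ia_pos T1, ia_pos T2, t1, t2] at hall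
      intro i
      by_cases c1 : f i = Sum.inl (p₁ j)
      · exact ⟨e₁, by rw [ia_pos T1, t1, c1]⟩
      · by_cases c2 : f i = Sum.inl (p₂ j)
        · exact ⟨e₂, by rw [ia_pos T2, t2, c2]⟩
        · obtain ⟨v, hv, hi, _⟩ := hall i c1 c2
          exact ⟨v, by rw [ia_neg hv, hi]⟩
    · -- the high part
      have hall := sep_low hH f hfi S cl₁ hcl₁ (ia T t j) (ia_inj ht j) f₁ f₂ hf
        (fun i => ∃ v, ¬ T v ∧ f i = Sum.inr (j, v) ∧ s < ℓ v)
        (by
          rintro x ⟨v, hv, hx, -⟩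
          exact ⟨v, by rw [ia_neg hv, hx], fun h => hv (h ▸ T3), fun h => hv (h ▸ T4)⟩)
        ⟨i0, u, hTu, hi0, hgt⟩ (by
          rintro x y hxy ⟨v, hv, hx, hlv⟩
          have h3 := (hmono x y hxy).1
          rw [hx] at h3
          obtain ⟨v', hadj, hv'⟩ := Att_private ht h3
          have h4 := hℓ _ _ hadj.symm
          refine ⟨?_, v, v', by rw [ia_neg hv, hx], hv', hadj⟩
          by_cases hT : T v'
          · rcases hT with rfl | rfl | rfl | rfl
            · exfalso
              omega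
            · exfalso
              omega
            · exact Or.inr (Or.inl hv')
            · exact Or.inr (Or.inr hv')
          · rw [ia_neg hT] at hv'
            have h5 := hs y v' hv'
            exact Or.inl ⟨v', hT, hv', by omega⟩)
      rw [ia_pos T3, ia_pos T4, t3, t4] at hall
      intro i
      by_cases c1 : f i = Sum.inl (q₁ j)
      · exact ⟨f₁, by rw [ia_pos T3, t3, c1]⟩
      · by_cases c2 : f i = Sum.inl (q₂ j)
        · exact ⟨f₂, by rw [ia_pos T4, t4, c2]⟩
        · obtain ⟨v, hv, hi, _⟩ := hall i c1 c2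
          exact ⟨v, by rw [ia_neg hv, hi]⟩
  · intro u w h
    rcases w with v | ⟨j, v⟩
    · exact Or.inl ⟨v, rfl⟩
    · obtain ⟨x, hx1, hx2⟩ := Att_base_nbr ht h
      refine Or.inr ⟨j, ?_⟩
      rcases hx1 with rfl | rfl | rfl | rfl
      · exact Or.inl (by rw [← hx2, t1])
      · exact Or.inr (Or.inl (by rw [← hx2, t2]))
      · exact Or.inr (Or.inr (Or.inl (by rw [← hx2, t3])))
      · exact Or.inr (Or.inr (Or.inr (by rw [← hx2, t4])))

end MP3240S
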