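import Pool.Agent.Lib.MP_3240be_co.S62.Defs

/-! Row ARS of the board t3s_modules (helper92): the arrow for one gadget. -/

set_option autoImplicit false

namespace MP3240S

open MP3240L (Two MxTwo Cl Branch gr fam)
open MP3240G (TwoCn Bi Tiny Nc IsNc Mx Fam Blobbed WP WS Prs)
open MP3240Q (Mono Bip SG Sub em Gl Lin XS Hang)

namespace ArsH

theorem hang_mono {L Q : Type} {t : ℕ} {U : SimpleGraph (Fin t)} {S : SimpleGraph (L ⊕ Q)}
    {C : L ⊕ Q → L ⊕ Q → Bool} {c : Bool} {N N' : ℕ} {q : Q} {w : Fin t} (h : N' ≤ N)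
    (hg : Hang U S C c N q w) : Hang U S C c N' q w := by
  obtain ⟨g, h1, h2, h3, h4⟩ := hg
  refine ⟨fun ν => g (Fin.castLE h ν), fun ν => h1 _, fun ν => h2 _, fun ν => h3 _, ?_⟩
  intro ν ν' v v' hv he
  exact Fin.castLE_injective h (h4 _ _ v v' hv he)

end ArsH

/-- Row ARS. -/
theorem ars (hgra : GraStatement) (hgrs : GrsStatement) (hgrk : GrkStatement)
    (hgrf : GrfStatement) : ArsStatement := by
  intro h n k m₁ m r H κ D X y₀ y₁ hDt hNum 𝓛 h𝓛 L Q S C N hC hN hcase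
  have hN1 : n + 1 ≤ N := le_trans (Nat.le_mul_of_pos_left (n + 1) (Nat.succ_pos n)) hN
  rcases hcase with ⟨c, hD, hL⟩ | ⟨hL, hout⟩
  · left
    refine ⟨c, hgra n H L Q S C c hDt.conn ?_⟩
    intro T hT
    by_cases hs : Sub D (H.induce T)
    · exact ⟨⟨k, D⟩, hDt.iso T ⟨hT, hs⟩, hD⟩
    · obtain ⟨x, hx, hm⟩ := h𝓛 T ⟨hT, hs⟩
      exact ⟨x, hm, hL x hx⟩
  · rcases hout with ⟨c, q, hst⟩ | ⟨c, hkp⟩ | ⟨c, zf, hfull⟩
    · left
      refine ⟨c, hgrs h n k H κ D hDt 𝓛 h𝓛 L Q S C c q hC (hL c) ?_⟩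
      exact ⟨fun w => ArsH.hang_mono hN1 (hst.1 w),
        fun x hx w => ArsH.hang_mono hN1 (hst.2 x hx w)⟩
    · left
      refine ⟨c, hgrk h (m₁ + 1) n k H κ D hDt.prop hNum.red' 𝓛 h𝓛 L Q S C c hC (hL c) ?_⟩
      obtain ⟨hb, lw, h1, h2, h3, h4, h5⟩ := hkp
      have hnN : n ≤ N := le_trans (Nat.le_succ n) hN1
      exact ⟨hb, fun j => lw (Fin.castLE hnN j), h1,
        h2.comp (Fin.castLE_injective hnN), h3, fun i j => h4 i _, fun i j => h5 i _⟩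
    · rcases hgrf h n k m₁ m r H κ D X y₀ y₁ hDt hNum 𝓛 h𝓛 L Q S C c zf N hC hN (hL c) hfull
        with h1 | ⟨f, hf⟩
      · exact Or.inl ⟨c, h1⟩
      · exact Or.inr ⟨!c, f, hf⟩

end MP3240S
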