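import Pool.Agent.Lib.MP_3240be_co.S62.Defs

/-!
# MP_3240be_co, Theorem T2*, row MAIN: assembly
-/

set_option autoImplicit false

namespace MP3240S

open Finset
open MP3240L (Two MxTwo Cl Branch gr fam)
open MP3240G (TwoCn Bi Tiny Mx Fam Prs)
open MP3240Q (Mono Bip SG Sub em Gl Lin XS TypStatement LinStatement)
open Pool.Agent.Lib.MP_3240be_co.H36.Chrom (Sparse ArrowsT)

theorem em_injective {L Q I M : Type} {δ : M → L → I} (hδ : ∀ m, Function.Injective (δ m))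
    (m : M) : Function.Injective (em δ m : L ⊕ Q → I ⊕ (M × Q)) := by
  rintro (l | p) (l' | p') h
  · exact congrArg Sum.inl (hδ _ (Sum.inl_injective h))
  · exact absurd h (by simp [MP3240Q.em])
  · exact absurd h (by simp [MP3240Q.em])
  · exact congrArg Sum.inr (Prod.mk.inj (Sum.inr_injective h)).2

theorem main_proof (hNum : NumStatement) (hArs : ArsStatement) (hEmb : EmxStatement)
    (hNoh : NohStatement) (hGdx : GdxStatement) (hDat : DatStatement) (hTyp : TypStatement)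
    (hLin : LinStatement) : MainStatement := by
  classical
  intro n n' H H' κ hH hκ hcyc hcross hH' hsub hlt
  obtain ⟨h, k, Tn, D, hFam, hTn, hTiny, hDt, hsm⟩ := hDat n H κ hH hκ hcyc hcross
  obtain ⟨m₁, m, r, X, y₀, y₁, hN⟩ := hNum h n k H κ D hDt
  have hn1 : 1 ≤ n := by
    have : Nonempty (Fin n) := hH.nonempty
    exact Fin.pos_iff_nonempty.2 this
  obtain ⟨L, Q, hL, hQ, S, ⟨C₀, Hb, Lw, Wt, wd, hR, hB⟩, ⟨l0, l1, hl⟩, harr⟩ :=
    hGdx h k n m m₁ ((n + 1) * (n + 1)) (fam H κ h) Tn D hFam hTn hTiny hn1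
      (Nat.le_mul_of_pos_left _ (by omega) |>.trans' (by omega)) hN.le
  obtain ⟨I, M, hI, hM, δ, hδ, hsp, hty⟩ :=
    hTyp (n' * n' + 2) (n + 1) (n + 1) L (L ⊕ Q → L ⊕ Q → Bool) l0 l1 hl
  have hlin : Lin δ := hLin L I M δ (n' * n' + 2) (by omega) hsp
  refine ⟨I ⊕ (M × Q), inferInstance, Gl S δ, ?_, ?_⟩
  · intro C hC
    obtain ⟨φ, x, hx⟩ := hty (fun m s s' => C (em δ m s) (em δ m s'))
    -- one hyperedge of this type
    obtain ⟨g0, hg0, hg1⟩ := hx l0
    obtain ⟨hm, -, -⟩ := hg1 0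
    have hφs : ∀ s s', φ s s' = φ s' s := by
      intro s s'
      have h1 : C (em δ (g0 0) s) (em δ (g0 0) s') = φ s s' := congrFun (congrFun hm s) s'
      have h2 : C (em δ (g0 0) s') (em δ (g0 0) s) = φ s' s := congrFun (congrFun hm s') s
      rw [← h1, ← h2, hC]
    have hcase : (∃ c, Gr H (GSt H S φ c) Set.univ) ∨ ∃ c f, Mono S φ H c f := by
      refine hArs h n k m₁ m r H κ D X y₀ y₁ hDt hN
        {x | x ∈ Tn ∨ (x ∈ fam H κ h ∧ ¬ Sub D x.2)} (fun T hT => hsm T hT) L Q S φ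
        ((n + 1) * (n + 1)) hφs le_rfl ?_
      rcases harr φ hφs with ⟨c, hc⟩ | h1
      · refine Or.inl ⟨c, hc _ (Or.inr hFam.mx.1), ?_⟩
        rintro x (hx | hx)
        · exact hc x (Or.inl hx)
        · exact hc x (Or.inr hx.1)
      · exact Or.inr ⟨fun c x hx => h1.1 c x hx, h1.2⟩
    rcases hcase with ⟨c, hc⟩ | ⟨c, f, hf⟩
    · obtain ⟨f, hf⟩ := hEmb n H L Q I M S δ C
        (fun m => (fun s s' => C (em δ m s) (em δ m s')) = φ) φ c hδ hlin hC
        (fun m hm s s' => congrFun (congrFun hm s) s') hc x hx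
      exact ⟨c, f, hf.1, fun x y hxy => hf.2 x y hxy⟩
    · have hinj := em_injective (Q := Q) hδ (g0 0)
      refine ⟨c, fun q => em δ (g0 0) (f q), hinj.comp hf.1, ?_⟩
      intro q q' hqq
      obtain ⟨h1, h2⟩ := hf.2 q q' hqq
      refine ⟨⟨fun h3 => h1.ne (hinj h3), g0 0, f q, f q', h1, rfl, rfl⟩, ?_⟩
      rw [← h2, ← hm]
  · exact hNoh h n k n' m₁ m r H κ D X y₀ y₁ H' hDt hN hH' hsub hlt L Q I M Wt S C₀ Hb Lw wd δ hR
      hB hδ hlin hsp

end MP3240S
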