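import Pool.Agent.Lib.MP_3240be_co.S62.Defs

/-!
# MP_3240be_co, Theorem T2*, row NOH: the host does not arrow the larger graph
-/

set_option autoImplicit false

namespace MP3240S

open MP3240L (Two MxTwo Cl Branch gr fam)
open MP3240G (TwoCn)
open MP3240Q (Mono SG Sub Gl Lin)
open Pool.Agent.Lib.MP_3240be_co.H36.Chrom (Sparse ArrowsT)

theorem noh_sparse {T V M : Type} {g g' : ℕ} {δ : M → T → V} (hg : g ≤ g')
    (h : Sparse g' δ) : Sparse g δ :=
  fun S h1 h2 => h S h1 (h2.trans hg)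

/-- A red copy of a connected graph with more than `n` vertices uses only private vertices in
`Hb`. -/
theorem noh_pas {h k n n' M : ℕ} {D : SimpleGraph (Fin k)} {H' : SimpleGraph (Fin n')}
    (hH' : H'.Connected) (hn : n < n') {L Q I M' : Type} {S : SimpleGraph (L ⊕ Q)}
    {C₀ : L ⊕ Q → L ⊕ Q → Bool} {Hb Lw : Set (L ⊕ Q)} {δ : M' → L → I}
    (hR : RBase n h M D S C₀ Hb Lw) {C₁ : I ⊕ (M' × Q) → I ⊕ (M' × Q) → Bool}
    (hC₁ : ∀ m u v, S.Adj u v → C₁ (MP3240Q.em δ m u) (MP3240Q.em δ m v) = C₀ u v)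
    {f : Fin n' → I ⊕ (M' × Q)} (hf : Mono (Gl S δ) C₁ H' true f) :
    ∀ i m q, f i = Sum.inr (m, q) → Sum.inr q ∈ Hb := by
  classical
  intro i m q hi
  rcases hR.pas q with hq | ⟨A, hAf, hAc, hqA, hA⟩
  · exact hq
  · exfalso
    have hstep : ∀ a b, H'.Adj a b → (∃ p ∈ A, f a = Sum.inr (m, p)) →
        ∃ p ∈ A, f b = Sum.inr (m, p) := by
      rintro a b hab ⟨p, hp, hfa⟩
      obtain ⟨hadj, hcol⟩ := hf.2 a b hab
      obtain ⟨_, m', u, v, huv, hu, hv⟩ := hadj
      have hc : C₀ u v = true := by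
        rw [← hC₁ m' u v huv, hu, hv]
        exact hcol
      rw [hfa] at hu
      cases u with
      | inl l => exact absurd hu (by simp [MP3240Q.em])
      | inr p' =>
        have hu' : m' = m ∧ p' = p := by simpa [MP3240Q.em] using hu
        obtain ⟨rfl, rfl⟩ := hu'
        obtain ⟨q'', hq'', rfl⟩ := hA _ hp v huv hc
        exact ⟨q'', hq'', hv.symm⟩
    have hall : ∀ b, ∃ p ∈ A, f b = Sum.inr (m, p) := by
      intro b
      obtain ⟨w⟩ := hH'.preconnected i b
      have : ∀ a b, H'.Walk a b → (∃ p ∈ A, f a = Sum.inr (m, p)) →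
          ∃ p ∈ A, f b = Sum.inr (m, p) := by
        intro a b w
        induction w with
        | nil => exact id
        | cons hab _ ih => exact fun h => ih (hstep _ _ hab h)
      exact this i b w ⟨q, hqA, hi⟩
    choose g hgA hg using hall
    have hginj : Function.Injective g := by
      intro a b hab
      apply hf.1
      rw [hg a, hg b, hab]
    have h1 : n' ≤ A.ncard := by
      have h2 := Set.ncard_le_ncard_of_injOn (s := (Set.univ : Set (Fin n'))) (t := A) g
        (fun a _ => hgA a) (hginj.injOn) hAf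
      rw [Set.ncard_univ, Nat.card_eq_fintype_card, Fintype.card_fin] at h2
      exact h2
    omega

/-- Row NOH. -/
theorem noh (glc : GlcStatement) (loc : LocStatement) (rdn : RdnStatement)
    (bdn : BdnStatement) : NohStatement := by
  intro h n k n' m₁ m r H κ D X y₀ y₁ H' hD hN hH' hsub hn L Q I M Wt S C₀ Hb Lw wd δ hR hB
    hδ hlin hsp harr
  obtain ⟨C₁, hsym, hC₁⟩ := glc L Q I M S C₀ δ hR.symm hδ hlin
  obtain ⟨c, f', hf', hadj'⟩ := harr C₁ hsym
  have hmono' : Mono (Gl S δ) C₁ H' c f' := ⟨hf', hadj'⟩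
  obtain ⟨φ, hφ, hφ'⟩ := hsub
  have hmono : Mono (Gl S δ) C₁ H c (fun i => f' (φ i)) :=
    ⟨hf'.comp hφ, fun i j hij => hadj' _ _ (hφ' i j hij)⟩
  have hsp' : Sparse (n * n + 2) δ := by
    refine noh_sparse ?_ hsp
    have : n * n ≤ n' * n' := Nat.mul_le_mul hn.le hn.le
    omega
  have hloc := loc n H L Q I M S C₀ δ C₁ hδ hlin hsp' hC₁ c _ hmono
  cases c with
  | true =>
    refine hN.red (rdn h m₁ n k n H κ D hD L Q I M S C₀ Hb Lw δ _ hR hδ hlin hmono.1 hloc ?_)
    intro i m' q hi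
    exact noh_pas hH' hn hR hC₁ hmono' (φ i) m' q hi
  | false =>
    exact hN.blue (bdn h (m + 1) n k H κ D hD (Nat.succ_le_succ (Nat.zero_le m)) L Q I M Wt S C₀
      wd δ _ hB hδ hmono.1 hloc)

end MP3240S
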