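import Pool.Agent.Lib.MP_3240be_co.S62.Defs

/-!
# MP_3240be_co, Theorem T2*: row NUM (helper80)
-/

set_option autoImplicit false

namespace MP3240S

open Finset
open MP3240L (Two MxTwo Cl Branch gr fam)
open MP3240G (TwoCn Bi Tiny Nc IsNc Mx Fam Blobbed WP WS Prs)
open MP3240Q (Mono Bip SG Sub em Gl Lin XS Hang)

theorem Gr.mono {n : ℕ} {H : SimpleGraph (Fin n)} {st st' : Set (Fin n) → Fin n → Prop}
    (hst : ∀ W y, st W y → st' W y) {A : Set (Fin n)} (hA : Gr H st A) : Gr H st' A := by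
  induction hA with
  | start ρ => exact Gr.start ρ
  | next A W y _ clA clW yA yW h hs ih => exact Gr.next A W y ih clA clW yA yW h (hst W y hs)

theorem RR.mono {n k : ℕ} {H : SimpleGraph (Fin n)} {κ : Fin n → Bool}
    {D : SimpleGraph (Fin k)} {h M M' : ℕ} (hM : M ≤ M') {W : Set (Fin n)} {y : Fin n}
    (hr : RR H κ D h M W y) : RR H κ D h M' W y := by
  rcases hr with hr | ⟨s, Pv, h1, h2, h3, h4, h5⟩
  · exact Or.inl hr
  · exact Or.inr ⟨s, Pv, h1, h2, h3.trans hM, h4, h5⟩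

/-- Two different vertices of one class of a `D`-block. -/
theorem Dt.pair {h n k : ℕ} {H : SimpleGraph (Fin n)} {κ : Fin n → Bool}
    {D : SimpleGraph (Fin k)} (d : Dt h H κ D) {T : Set (Fin n)} (hT : DB H D T) (s : Bool) :
    ∃ x y, x ≠ y ∧ x ∈ T ∧ y ∈ T ∧ κ x = s ∧ κ y = s := by
  have h1 := d.big T hT s
  have h2 := d.one
  have h3 : 1 < (T ∩ {x | κ x = s}).ncard := by omega
  obtain ⟨x, y, hx, hy, hxy⟩ := (Set.one_lt_ncard_iff (Set.toFinite _)).mp h3
  exact ⟨x, y, hxy, hx.1, hy.1, hx.2, hy.2⟩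

/-- With `M = h` no closed set that contains a `D`-block can be reached. -/
theorem Gr.noDB {h n k : ℕ} {H : SimpleGraph (Fin n)} {κ : Fin n → Bool}
    {D : SimpleGraph (Fin k)} (d : Dt h H κ D) {A : Set (Fin n)}
    (hA : Gr H (RR H κ D h h) A) : ∀ T, DB H D T → ¬ T ⊆ A := by
  induction hA with
  | start ρ =>
    intro T hT hsub
    obtain ⟨x, y, hxy, hx, hy, -, -⟩ := d.pair hT true
    have h1 : x = ρ := hsub hx
    have h2 : y = ρ := hsub hy
    exact hxy (h1.trans h2.symm)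
  | next A W u _ clA clW uA uW hint hs ih =>
    intro T hT hsub
    -- at most one vertex of `T` is in `A`
    have h1 : ∀ x y, x ∈ T → y ∈ T → x ∈ A → y ∈ A → x = y := by
      intro x y hx hy hxA hyA
      by_contra hxy
      exact ih T hT (clA.cl T hT.1.1 x y hxy hx hy hxA hyA)
    -- so `T` is contained in `W`
    have h2 : T ⊆ W := by
      obtain ⟨x, y, hxy, hx, hy, kx, ky⟩ := d.pair hT true
      obtain ⟨x', y', hxy', hx', hy', kx', ky'⟩ := d.pair hT false
      have e1 : ∃ a ∈ T, κ a = true ∧ a ∈ W := by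
        rcases hsub hx with hxA | hxW
        · rcases hsub hy with hyA | hyW
          · exact absurd (h1 x y hx hy hxA hyA) hxy
          · exact ⟨y, hy, ky, hyW⟩
        · exact ⟨x, hx, kx, hxW⟩
      have e2 : ∃ a ∈ T, κ a = false ∧ a ∈ W := by
        rcases hsub hx' with hxA | hxW
        · rcases hsub hy' with hyA | hyW
          · exact absurd (h1 x' y' hx' hy' hxA hyA) hxy'
          · exact ⟨y', hy', ky', hyW⟩
        · exact ⟨x', hx', kx', hxW⟩
      obtain ⟨a, ha, ka, haW⟩ := e1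
      obtain ⟨b, hb, kb, hbW⟩ := e2
      refine clW.cl T hT.1.1 a b ?_ ha hb haW hbW
      intro hab
      rw [hab, kb] at ka
      exact Bool.false_ne_true ka
    rcases hs with hs | ⟨s, Pv, -, -, h3, -, -⟩
    · have h3 : W ⊆ T := hT.1.2 W hs.1.1 h2
      have h4 : W = T := Set.Subset.antisymm h3 h2
      apply hs.2
      rw [h4]
      exact hT.2
    · have h4 := d.big T hT s
      have h5 : (T ∩ {x | κ x = s}).ncard ≤ (W ∩ {x | κ x = s}).ncard :=
        Set.ncard_le_ncard (Set.inter_subset_inter_left _ h2) (Set.toFinite _)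
      omega

theorem num_red {h n k : ℕ} {H : SimpleGraph (Fin n)} {κ : Fin n → Bool}
    {D : SimpleGraph (Fin k)} (d : Dt h H κ D) :
    ∃ m₁, h ≤ m₁ ∧ ¬ Gr H (RR H κ D h m₁) Set.univ ∧
      Gr H (RR H κ D h (m₁ + 1)) Set.univ := by
  classical
  obtain ⟨T₀, hT₀⟩ := d.ex
  have hn : Gr H (RR H κ D h n) Set.univ := by
    obtain ⟨ρ⟩ := d.conn.nonempty
    have h1 : Gr H (RR H κ D h n) ({ρ} ∪ Set.univ) := by
      refine Gr.next {ρ} Set.univ ρ (Gr.start ρ) (Cl.single ρ) (Cl.univ d.conn) rfl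
        (Set.mem_univ _) (fun x hx _ => hx) (Or.inr ⟨!(κ ρ), {x | κ x = !(κ ρ)}, ?_, ?_, ?_, ?_, ?_⟩)
      · intro x hx
        exact ⟨Set.mem_univ _, hx⟩
      · intro hx
        have h2 : κ ρ = !(κ ρ) := hx
        cases h3 : κ ρ <;> rw [h3] at h2 <;> exact absurd h2 (by decide)
      · refine (Set.ncard_le_ncard (Set.subset_univ _) (Set.toFinite _)).trans ?_
        rw [Set.ncard_univ, Nat.card_eq_fintype_card, Fintype.card_fin]
      · have h2 : (Set.univ ∩ {x | κ x = !(κ ρ)}) \ {x | κ x = !(κ ρ)} = ∅ := by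
          ext x
          simp
        rw [h2, Set.ncard_empty]
        exact Nat.zero_le _
      · intro x _ x' _
        exact Set.mem_univ _
    rwa [Set.union_univ] at h1
  have hex : ∃ M, Gr H (RR H κ D h M) Set.univ := ⟨n, hn⟩
  have h1 := Nat.find_spec hex
  have h2 : h < Nat.find hex := by
    by_contra hle
    push Not at hle
    exact (h1.mono (fun W y hr => hr.mono hle)).noDB d T₀ hT₀ (Set.subset_univ _)
  refine ⟨Nat.find hex - 1, by omega, ?_, ?_⟩
  · exact Nat.find_min hex (by omega)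
  · have h3 : Nat.find hex - 1 + 1 = Nat.find hex := by omega
    rw [h3]
    exact h1

theorem num_blue {h n k : ℕ} {H : SimpleGraph (Fin n)} {κ : Fin n → Bool}
    {D : SimpleGraph (Fin k)} (d : Dt h H κ D) :
    ∃ m, (¬ ∃ X, Hubs H κ D X ∧ ClB H D X (m + 1)) ∧ ∃ X, Hubs H κ D X ∧ ClB H D X (m + 2) := by
  classical
  obtain ⟨T₀, hT₀⟩ := d.ex
  have hex : ∃ M, ∃ X, Hubs H κ D X ∧ ClB H D X M := by
    refine ⟨n, {x | κ x = true}, ?_, ?_⟩
    · intro T _
      exact ⟨true, fun x _ => Iff.rfl⟩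
    · intro x
      refine (Set.ncard_le_ncard (Set.subset_univ _) (Set.toFinite _)).trans ?_
      rw [Set.ncard_univ, Nat.card_eq_fintype_card, Fintype.card_fin]
  obtain ⟨X, hX, hcl⟩ := Nat.find_spec hex
  have h2 : 2 ≤ Nat.find hex := by
    obtain ⟨s, hs⟩ := hX T₀ hT₀
    obtain ⟨x, y, hxy, hx, hy, kx, ky⟩ := d.pair hT₀ s
    have hxX : x ∈ X := (hs x hx).mpr kx
    have hyX : y ∈ X := (hs y hy).mpr ky
    refine le_trans ?_ (hcl x)
    have h3 : ({x, y} : Set (Fin n)).ncard = 2 := Set.ncard_pair hxy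
    rw [← h3]
    refine Set.ncard_le_ncard ?_ (Set.toFinite _)
    intro z hz
    rcases hz with hz | hz
    · rw [hz]
      exact Relation.ReflTransGen.refl
    · have hz' : z = y := hz
      rw [hz']
      exact Relation.ReflTransGen.single ⟨hxX, hyX, T₀, hT₀, hx, hy⟩
  refine ⟨Nat.find hex - 2, ?_, ?_⟩
  · have h3 : Nat.find hex - 2 + 1 < Nat.find hex := by omega
    exact Nat.find_min hex h3
  · have h3 : Nat.find hex - 2 + 2 = Nat.find hex := by omega
    rw [h3]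
    exact ⟨X, hX, hcl⟩

/-- Row NUM: the numbers exist. -/
theorem num_proof : NumStatement := by
  classical
  intro h n k H κ D d
  obtain ⟨m₁, hle, hred, hred'⟩ := num_red d
  obtain ⟨m, hblue, X, hX, hcl⟩ := num_blue d
  obtain ⟨T₀, hT₀⟩ := d.ex
  obtain ⟨s, hs⟩ := hX T₀ hT₀
  obtain ⟨a, b, hab, ha, hb, ka, kb⟩ := d.pair hT₀ (!s)
  have hnot : ∀ x ∈ T₀, κ x = (!s) → x ∉ X := by
    intro x hx kx hxX
    have h1 := (hs x hx).mp hxX
    rw [kx] at h1
    cases s <;> exact absurd h1 (by decide)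
  have haX := hnot a ha ka
  have hbX := hnot b hb kb
  -- `y₀`
  obtain ⟨y₀, hy₀, hmax₀⟩ := Finset.exists_max_image (Finset.univ.filter (fun y => y ∉ X))
    (fun y => (qs H D y).ncard) ⟨a, by simp [haX]⟩
  -- `y₁`
  have hne : (Finset.univ.filter (fun y => y ∉ X ∧ y ≠ y₀)).Nonempty := by
    by_cases h1 : a = y₀
    · refine ⟨b, ?_⟩
      simp only [Finset.mem_filter, Finset.mem_univ, true_and]
      exact ⟨hbX, fun h2 => hab (h1.trans h2.symm)⟩
    · refine ⟨a, ?_⟩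
      simp only [Finset.mem_filter, Finset.mem_univ, true_and]
      exact ⟨haX, h1⟩
  obtain ⟨y₁, hy₁, hmax₁⟩ := Finset.exists_max_image
    (Finset.univ.filter (fun y => y ∉ X ∧ y ≠ y₀)) (fun y => (qs H D y).ncard) hne
  simp only [Finset.mem_filter, Finset.mem_univ, true_and] at hy₀ hy₁ hmax₀ hmax₁
  have hpos : 1 ≤ (qs H D y₁).ncard := by
    have h1 : ∃ c ∈ T₀, c ∉ X ∧ c ≠ y₀ := by
      by_cases h1 : a = y₀
      · exact ⟨b, hb, hbX, fun h2 => hab (h1.trans h2.symm)⟩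
      · exact ⟨a, ha, haX, h1⟩
    obtain ⟨c, hc, hcX, hcy⟩ := h1
    refine le_trans ?_ (hmax₁ c ⟨hcX, hcy⟩)
    have h2 : (qs H D c).Nonempty := ⟨T₀, hT₀, hc⟩
    exact (Set.ncard_pos (Set.toFinite _)).mpr h2
  refine ⟨m₁, m, (qs H D y₁).ncard - 1, X, y₀, y₁, ?_⟩
  have h3 : (qs H D y₁).ncard - 1 + 1 = (qs H D y₁).ncard := by omega
  refine ⟨hle, hred, hred', hblue, hX, hcl, fun h => hy₁.2 h.symm, ?_, ?_, ?_⟩
  · rw [h3]
    exact hmax₀ y₁ hy₁.1
  · rw [h3]
  · intro y hy hyX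
    rw [h3]
    exact hmax₁ y ⟨hyX, hy⟩

end MP3240S
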