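import Pool.Agent.Lib.MP_3240be_co.H62.Defs
import Pool.Agent.Lib.MP_3240be_co.H34.Br
import Pool.Agent.Lib.MP_3240be_co.H34.Blk

/-!
# MP_3240be_co, Theorem T2*: all connected bipartite graphs

Interface (board t3s_modules, helper62).  Paper: finding 4643.
-/

set_option autoImplicit false

namespace MP3240S

open Finset
open MP3240L (Two MxTwo Cl Branch gr fam)
open MP3240G (TwoCn Bi Tiny Nc IsNc Mx Fam Blobbed WP WS Prs)
open MP3240Q (Mono Bip SG Sub em Gl Lin XS Hang)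
open Pool.Agent.Lib.MP_3240be_co.H82 (TC)
open Pool.Agent.Lib.MP_3240be_co.H36.Chrom (Sparse ArrowsT)

/-! ## The graph `H`: blocks, steps, side assignments -/

/-- `T` is a block of `H` (`K_2` included) that contains `D`. -/
def DB {n k : ℕ} (H : SimpleGraph (Fin n)) (D : SimpleGraph (Fin k)) (T : Set (Fin n)) : Prop :=
  MxTwo H T ∧ Sub D (H.induce T)

/-- A small block: it does not contain `D`. -/
def SB {n k : ℕ} (H : SimpleGraph (Fin n)) (D : SimpleGraph (Fin k)) (T : Set (Fin n)) : Prop :=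
  MxTwo H T ∧ ¬ Sub D (H.induce T)

/-- The closed sets that can be reached from one vertex by steps `W` at a vertex `y` with
`st W y`. -/
inductive Gr {n : ℕ} (H : SimpleGraph (Fin n)) (st : Set (Fin n) → Fin n → Prop) :
    Set (Fin n) → Prop
  | start (ρ : Fin n) : Gr H st {ρ}
  | next (A W : Set (Fin n)) (y : Fin n) (hA : Gr H st A) (clA : Cl H A) (clW : Cl H W)
      (yA : y ∈ A) (yW : y ∈ W) (h : ∀ x ∈ A, x ∈ W → x = y) (hs : st W y) : Gr H st (A ∪ W)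

/-- `W` embeds into colour `c` of the gadget; `y` and all vertices with a neighbour outside `W`
are points. -/
def GSt {n : ℕ} {L Q : Type} (H : SimpleGraph (Fin n)) (S : SimpleGraph (L ⊕ Q))
    (C : L ⊕ Q → L ⊕ Q → Bool) (c : Bool) (W : Set (Fin n)) (y : Fin n) : Prop :=
  ∃ f : Fin n → L ⊕ Q, Set.InjOn f W ∧
    (∀ i ∈ W, ∀ j ∈ W, H.Adj i j → S.Adj (f i) (f j) ∧ C (f i) (f j) = c) ∧
    (∃ l, f y = Sum.inl l) ∧
    ∀ x ∈ W, (∃ x', x' ∉ W ∧ H.Adj x x') → ∃ l, f x = Sum.inl l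

/-- `x` is a copy of the block `T`. -/
def Mdl {n : ℕ} (H : SimpleGraph (Fin n)) (T : Set (Fin n)) (x : SG) : Prop :=
  ∃ e : Fin x.1 → Fin n, Function.Injective e ∧ Set.range e = T ∧
    ∀ i j, H.Adj (e i) (e j) ↔ x.2.Adj i j

/-- The assumptions on `H` and `D`. -/
structure Dt (h : ℕ) {n k : ℕ} (H : SimpleGraph (Fin n)) (κ : Fin n → Bool)
    (D : SimpleGraph (Fin k)) : Prop where
  conn : H.Connected
  prop : ∀ i j, H.Adj i j → κ i ≠ κ j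
  one : 1 ≤ h
  two : TwoCn D
  ex : ∃ T, DB H D T
  iso : ∀ T, DB H D T → Mdl H T ⟨k, D⟩
  big : ∀ T, DB H D T → ∀ s, h + 1 ≤ (T ∩ {x | κ x = s}).ncard
  cls : ∀ T, MxTwo H T → ∃ s, (T ∩ {x | κ x = s}).ncard ≤ h + 1

/-- The steps with pieces `K_(M, N)` (`h` hubs are points) and small blocks, paper 2 (a). -/
def RR {n k : ℕ} (H : SimpleGraph (Fin n)) (κ : Fin n → Bool) (D : SimpleGraph (Fin k))
    (h M : ℕ) (W : Set (Fin n)) (y : Fin n) : Prop :=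
  SB H D W ∨ ∃ (s : Bool) (Pv : Set (Fin n)), Pv ⊆ W ∩ {x | κ x = s} ∧ y ∉ Pv ∧
    (W ∩ {x | κ x = s}).ncard ≤ M ∧ ((W ∩ {x | κ x = s}) \ Pv).ncard ≤ h ∧
    ∀ x ∈ Pv, ∀ x', H.Adj x x' → x' ∈ W

/-- `X` = the hub vertices of a side assignment. -/
def Hubs {n k : ℕ} (H : SimpleGraph (Fin n)) (κ : Fin n → Bool) (D : SimpleGraph (Fin k))
    (X : Set (Fin n)) : Prop :=
  ∀ T, DB H D T → ∃ s, ∀ x ∈ T, x ∈ X ↔ κ x = s

/-- Two hub vertices in one `D`-block. -/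
def Lk {n k : ℕ} (H : SimpleGraph (Fin n)) (D : SimpleGraph (Fin k)) (X : Set (Fin n))
    (x y : Fin n) : Prop :=
  x ∈ X ∧ y ∈ X ∧ ∃ T, DB H D T ∧ x ∈ T ∧ y ∈ T

/-- All clusters of linked hub vertices have at most `M` vertices. -/
def ClB {n k : ℕ} (H : SimpleGraph (Fin n)) (D : SimpleGraph (Fin k)) (X : Set (Fin n))
    (M : ℕ) : Prop :=
  ∀ x, {y | Relation.ReflTransGen (Lk H D X) x y}.ncard ≤ M

/-- The `D`-blocks at `y`. -/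
def qs {n k : ℕ} (H : SimpleGraph (Fin n)) (D : SimpleGraph (Fin k)) (y : Fin n) :
    Set (Set (Fin n)) :=
  {T | DB H D T ∧ y ∈ T}

/-- The numbers of paper 2; `m + 1` = the number `m_2` of the paper. -/
structure Num (h : ℕ) {n k : ℕ} (H : SimpleGraph (Fin n)) (κ : Fin n → Bool)
    (D : SimpleGraph (Fin k)) (m₁ m r : ℕ) (X : Set (Fin n)) (y₀ y₁ : Fin n) : Prop where
  le : h ≤ m₁
  red : ¬ Gr H (RR H κ D h m₁) Set.univ
  red' : Gr H (RR H κ D h (m₁ + 1)) Set.univ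
  blue : ¬ ∃ X, Hubs H κ D X ∧ ClB H D X (m + 1)
  hub : Hubs H κ D X
  clb : ClB H D X (m + 2)
  ne : y₀ ≠ y₁
  q0 : r + 1 ≤ (qs H D y₀).ncard
  q1 : r + 1 ≤ (qs H D y₁).ncard
  mx : ∀ y, y ≠ y₀ → y ∉ X → (qs H D y).ncard ≤ r + 1

/-- Row NUM: the numbers exist. -/
def NumStatement : Prop :=
  ∀ (h n k : ℕ) (H : SimpleGraph (Fin n)) (κ : Fin n → Bool) (D : SimpleGraph (Fin k)),
    Dt h H κ D → ∃ m₁ m r X y₀ y₁, Num h H κ D m₁ m r X y₀ y₁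

/-- Row GRI (from 34's `Cl.glue`): the induction over the branches, with an invariant `P`. -/
def GriStatement : Prop :=
  ∀ (n : ℕ) (H : SimpleGraph (Fin n)) (st : Set (Fin n) → Fin n → Prop) (ρ : Fin n)
    (P : Fin n → Prop), H.Connected → P ρ →
    (∀ u K, Branch H u K → ρ ∉ K → P u → ∃ W, Cl H W ∧ u ∈ W ∧ W ≠ {u} ∧ W ⊆ insert u K ∧
      st W u ∧ ∀ x ∈ W, (∃ x', x' ∉ W ∧ H.Adj x x') → P x) → Gr H st Set.univ

/-- Row PCK (helper32): packing, paper (C4). -/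
def PckStatement : Prop :=
  ∀ (h n k r : ℕ) (H : SimpleGraph (Fin n)) (κ : Fin n → Bool) (D : SimpleGraph (Fin k)),
    Dt h H κ D → ∀ y₀ y₁, y₀ ≠ y₁ → r + 1 ≤ (qs H D y₀).ncard → r + 1 ≤ (qs H D y₁).ncard →
    ∀ β : SimpleGraph (Fin n), (∀ z, {z' | β.Adj z z'}.ncard ≤ r) →
    ∃ π : Equiv.Perm (Fin n), ∀ x y, H.Adj x y → ¬ β.Adj (π x) (π y)

/-! ## What the gadget provides in one colour -/

/-- `K_(M, N)` in colour `c`; the first `h` hubs are points, the lows `lw` are points. -/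
def KP {L Q : Type} (S : SimpleGraph (L ⊕ Q)) (C : L ⊕ Q → L ⊕ Q → Bool) (c : Bool)
    (M h N : ℕ) : Prop :=
  ∃ (hb : Fin M → L ⊕ Q) (lw : Fin N → L), Function.Injective hb ∧ Function.Injective lw ∧
    (∀ i : Fin M, i.1 < h → ∃ l, hb i = Sum.inl l) ∧ (∀ i j, hb i ≠ Sum.inl (lw j)) ∧
    ∀ i j, S.Adj (hb i) (Sum.inl (lw j)) ∧ C (hb i) (Sum.inl (lw j)) = c

/-- The star piece at the private vertex `q`. -/
def Star {k : ℕ} {L Q : Type} (D : SimpleGraph (Fin k)) (𝓛 : Set SG) (N : ℕ)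
    (S : SimpleGraph (L ⊕ Q)) (C : L ⊕ Q → L ⊕ Q → Bool) (c : Bool) (q : Q) : Prop :=
  (∀ w, Hang D S C c N q w) ∧ ∀ x ∈ 𝓛, ∀ w : Fin x.1, Hang x.2 S C c N q w

/-- All labels are completely of colour `c`, paper (N3) and (BC); `zf (z, 0)` = the passengers,
`zf (z, j)` = the other private hubs of the world of `z`. -/
structure Full {k n m : ℕ} {L Q : Type} (D : SimpleGraph (Fin k)) (𝓛 : Set SG) (N : ℕ)
    (S : SimpleGraph (L ⊕ Q)) (C : L ⊕ Q → L ⊕ Q → Bool) (c : Bool)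
    (zf : Fin n × Fin (m + 1) → Q) : Prop where
  inj : Function.Injective zf
  zz : ∀ z z', z ≠ z' → S.Adj (Sum.inr (zf (z, 0))) (Sum.inr (zf (z', 0)))
  blob : ∀ z z' a b, z ≠ z' → D.Adj a b → ∃ g : Fin N → Fin k → L ⊕ Q,
    (∀ ν, Function.Injective (g ν) ∧ g ν a = Sum.inr (zf (z, 0)) ∧
      g ν b = Sum.inr (zf (z', 0)) ∧ (∀ v, v ≠ a → v ≠ b → ∃ l, g ν v = Sum.inl l) ∧
      ∀ v v', D.Adj v v' → ¬ (v = a ∧ v' = b) → ¬ (v = b ∧ v' = a) →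
        S.Adj (g ν v) (g ν v') ∧ C (g ν v) (g ν v') = c) ∧
    ∀ ν ν' v v', v ≠ a → v ≠ b → g ν v = g ν' v' → ν = ν'
  world : ∀ z, ∃ w : Fin N → L, Function.Injective w ∧ ∀ i j,
    S.Adj (Sum.inr (zf (z, j))) (Sum.inl (w i)) ∧ C (Sum.inr (zf (z, j))) (Sum.inl (w i)) = c
  hang : ∀ p, ∀ x ∈ 𝓛, ∀ w : Fin x.1, Hang x.2 S C c N (zf p) w

/-- The outcomes of the arrow, paper 3: star piece, `K_(M, N)`, or all labels are complete. -/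
def Out {k : ℕ} {L Q : Type} (n m h M : ℕ) (D : SimpleGraph (Fin k)) (𝓛 : Set SG) (N : ℕ)
    (S : SimpleGraph (L ⊕ Q)) (C : L ⊕ Q → L ⊕ Q → Bool) : Prop :=
  (∃ c q, Star D 𝓛 N S C c q) ∨ (∃ c, KP S C c M h N) ∨
    ∃ (c : Bool) (zf : Fin n × Fin (m + 1) → Q), Full D 𝓛 N S C c zf

/-! ## Steps from the outcomes -/

/-- Row GEN: greedy choice of copies for the blocks of `W`; `pv` = the private vertices. -/
def GenStatement : Prop :=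
  ∀ (n : ℕ) (H : SimpleGraph (Fin n)) (L Q : Type) (S : SimpleGraph (L ⊕ Q))
    (C : L ⊕ Q → L ⊕ Q → Bool) (c : Bool) (W : Set (Fin n)) (y : Fin n)
    (pv : Fin n → Option Q), (∀ x x', C x x' = C x' x) → Cl H W → y ∈ W → W ≠ {y} →
    pv y = none → (∀ x x' q, pv x = some q → pv x' = some q → x = x') →
    (∀ x ∈ W, pv x ≠ none → ∀ x', H.Adj x x' → x' ∈ W) →
    (∀ T T' x, MxTwo H T → MxTwo H T' → T ⊆ W → T' ⊆ W → x ∈ T → x ∈ T' → pv x = none →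
      T = T') →
    (∀ T, MxTwo H T → T ⊆ W → ∃ g : Fin (n + 1) → Fin n → L ⊕ Q,
      (∀ ν, Set.InjOn (g ν) T ∧
        (∀ i ∈ T, ∀ j ∈ T, H.Adj i j → S.Adj (g ν i) (g ν j) ∧ C (g ν i) (g ν j) = c) ∧
        ∀ i ∈ T, (∀ q, pv i = some q → g ν i = Sum.inr q) ∧
          (pv i = none → ∃ l, g ν i = Sum.inl l)) ∧
      ∀ ν ν' i i', i ∈ T → i' ∈ T → pv i = none → g ν i = g ν' i' → ν = ν') →
    GSt H S C c W y

/-- Row GRA (from GRI): all blocks are present on points. -/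
def GraStatement : Prop :=
  ∀ (n : ℕ) (H : SimpleGraph (Fin n)) (L Q : Type) (S : SimpleGraph (L ⊕ Q))
    (C : L ⊕ Q → L ⊕ Q → Bool) (c : Bool), H.Connected →
    (∀ T, MxTwo H T → ∃ x : SG, Mdl H T x ∧ Prs S C c x) → Gr H (GSt H S C c) Set.univ

/-- Row GRS (from GRI, GEN): the star piece, paper (C1). -/
def GrsStatement : Prop :=
  ∀ (h n k : ℕ) (H : SimpleGraph (Fin n)) (κ : Fin n → Bool) (D : SimpleGraph (Fin k)),
    Dt h H κ D → ∀ (𝓛 : Set SG), (∀ T, SB H D T → ∃ x ∈ 𝓛, Mdl H T x) →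
    ∀ (L Q : Type) (S : SimpleGraph (L ⊕ Q)) (C : L ⊕ Q → L ⊕ Q → Bool) (c : Bool) (q : Q),
    (∀ x x', C x x' = C x' x) → (∀ x ∈ 𝓛, Prs S C c x) → Star D 𝓛 (n + 1) S C c q →
    Gr H (GSt H S C c) Set.univ

/-- Row GRK: the piece `K_(M, N)`, paper (C2). -/
def GrkStatement : Prop :=
  ∀ (h M n k : ℕ) (H : SimpleGraph (Fin n)) (κ : Fin n → Bool) (D : SimpleGraph (Fin k)),
    (∀ i j, H.Adj i j → κ i ≠ κ j) → Gr H (RR H κ D h M) Set.univ →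
    ∀ (𝓛 : Set SG), (∀ T, SB H D T → ∃ x ∈ 𝓛, Mdl H T x) →
    ∀ (L Q : Type) (S : SimpleGraph (L ⊕ Q)) (C : L ⊕ Q → L ⊕ Q → Bool) (c : Bool),
    (∀ x x', C x x' = C x' x) → (∀ x ∈ 𝓛, Prs S C c x) → KP S C c M h n →
    Gr H (GSt H S C c) Set.univ

/-- The description of a step of paper (C3): `pv x = some (z, j)`: the vertex `x` goes to
`zf (z, j)`; `z₀` and `zz i` (`i ≤ r`) are different passengers. -/
structure Ext {n k : ℕ} (H : SimpleGraph (Fin n)) (D : SimpleGraph (Fin k)) (m r : ℕ)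
    (z₀ : Fin n) (zz : Fin (r + 1) → Fin n) (W : Set (Fin n)) (u : Fin n)
    (pv : Fin n → Option (Fin n × Fin (m + 1))) : Prop where
  pu : pv u = none
  inj : ∀ x x' q, pv x = some q → pv x' = some q → x = x'
  all : ∀ x ∈ W, pv x ≠ none → ∀ x', H.Adj x x' → x' ∈ W
  sh : ∀ T T' x, MxTwo H T → MxTwo H T' → T ⊆ W → T' ⊆ W → x ∈ T → x ∈ T' → pv x = none →
    T = T'
  blk : ∀ T, MxTwo H T → T ⊆ W →
    (¬ Sub D (H.induce T) ∧ ∃ x ∈ T, pv x ≠ none ∧ ∀ x' ∈ T, x' ≠ x → pv x' = none) ∨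
    (DB H D T ∧ ∃ i, ∃ y ∈ T, ∃ x ∈ T, H.Adj y x ∧ pv y = some (z₀, 0) ∧
      pv x = some (zz i, 0) ∧ ∀ x' ∈ T, x' ≠ x → x' ≠ y → pv x' = none) ∨
    (DB H D T ∧ ∃ (i : Fin (r + 1)) (X : Set (Fin n)),
      (∀ x ∈ T, x ∈ X → ∃ j, pv x = some (zz i, j)) ∧ (∀ x ∈ T, x ∉ X → pv x = none) ∧
      ∀ x ∈ T, ∀ x' ∈ T, H.Adj x x' → (x ∈ X ↔ x' ∉ X))

/-- Row EXT: graph theory of paper (C3) (block theory only). -/
def ExtStatement : Prop :=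
  ∀ (h n k m r : ℕ) (H : SimpleGraph (Fin n)) (κ : Fin n → Bool) (D : SimpleGraph (Fin k)),
    Dt h H κ D → ∀ X : Set (Fin n), Hubs H κ D X → ClB H D X (m + 2) →
    ∀ (z₀ : Fin n) (zz : Fin (r + 1) → Fin n), Function.Injective zz → (∀ i, zz i ≠ z₀) →
    ∀ u K, Branch H u K → (∀ y ∈ K, y ∉ X → (qs H D y).ncard ≤ r + 1) →
    ∃ W, Cl H W ∧ u ∈ W ∧ W ≠ {u} ∧ W ⊆ insert u K ∧
      (SB H D W ∨ ∃ pv, Ext H D m r z₀ zz W u pv)

/-- Row GEX (from GEN): a step of paper (C3) is a step of the gadget. -/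
def GexStatement : Prop :=
  ∀ (h n k m r : ℕ) (H : SimpleGraph (Fin n)) (κ : Fin n → Bool) (D : SimpleGraph (Fin k)),
    Dt h H κ D → ∀ (𝓛 : Set SG), (∀ T, SB H D T → ∃ x ∈ 𝓛, Mdl H T x) →
    ∀ (z₀ : Fin n) (zz : Fin (r + 1) → Fin n), Function.Injective zz → (∀ i, zz i ≠ z₀) →
    ∀ (L Q : Type) (S : SimpleGraph (L ⊕ Q)) (C : L ⊕ Q → L ⊕ Q → Bool) (c : Bool)
      (zf : Fin n × Fin (m + 1) → Q) (N : ℕ), (∀ x x', C x x' = C x' x) →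
    (n + 1) * (n + 1) ≤ N → Full D 𝓛 N S C c zf →
    (∀ i, C (Sum.inr (zf (z₀, 0))) (Sum.inr (zf (zz i, 0))) = c) →
    ∀ W u pv, Cl H W → u ∈ W → W ≠ {u} → Ext H D m r z₀ zz W u pv → GSt H S C c W u

/-- Row GRF (from GRI, EXT, GEX, PCK): all labels are complete, paper (C3), (C4). -/
def GrfStatement : Prop :=
  ∀ (h n k m₁ m r : ℕ) (H : SimpleGraph (Fin n)) (κ : Fin n → Bool) (D : SimpleGraph (Fin k))
    (X : Set (Fin n)) (y₀ y₁ : Fin n), Dt h H κ D → Num h H κ D m₁ m r X y₀ y₁ →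
    ∀ (𝓛 : Set SG), (∀ T, SB H D T → ∃ x ∈ 𝓛, Mdl H T x) →
    ∀ (L Q : Type) (S : SimpleGraph (L ⊕ Q)) (C : L ⊕ Q → L ⊕ Q → Bool) (c : Bool)
      (zf : Fin n × Fin (m + 1) → Q) (N : ℕ), (∀ x x', C x x' = C x' x) →
    (n + 1) * (n + 1) ≤ N → (∀ x ∈ 𝓛, Prs S C c x) → Full D 𝓛 N S C c zf →
    Gr H (GSt H S C c) Set.univ ∨ ∃ f, Mono S C H (!c) f

/-- Row ARS (from GRA, GRS, GRK, GRF): the arrow for one gadget. -/
def ArsStatement : Prop :=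
  ∀ (h n k m₁ m r : ℕ) (H : SimpleGraph (Fin n)) (κ : Fin n → Bool) (D : SimpleGraph (Fin k))
    (X : Set (Fin n)) (y₀ y₁ : Fin n), Dt h H κ D → Num h H κ D m₁ m r X y₀ y₁ →
    ∀ (𝓛 : Set SG), (∀ T, SB H D T → ∃ x ∈ 𝓛, Mdl H T x) →
    ∀ (L Q : Type) (S : SimpleGraph (L ⊕ Q)) (C : L ⊕ Q → L ⊕ Q → Bool) (N : ℕ),
    (∀ x x', C x x' = C x' x) → (n + 1) * (n + 1) ≤ N →
    ((∃ c, Prs S C c ⟨k, D⟩ ∧ ∀ x ∈ 𝓛, Prs S C c x) ∨
      ((∀ c, ∀ x ∈ 𝓛, Prs S C c x) ∧ Out n m h (m₁ + 1) D 𝓛 N S C)) →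
    (∃ c, Gr H (GSt H S C c) Set.univ) ∨ ∃ c f, Mono S C H c f

/-! ## The host -/

/-- Row EMB (from FRE, MON): embedding in the host. -/
def EmxStatement : Prop :=
  ∀ (n : ℕ) (H : SimpleGraph (Fin n)) (L Q I M : Type) (S : SimpleGraph (L ⊕ Q))
    (δ : M → L → I) (C : I ⊕ (M × Q) → I ⊕ (M × Q) → Bool) (χ : M → Prop)
    (Cφ : L ⊕ Q → L ⊕ Q → Bool) (c : Bool), (∀ m, Function.Injective (δ m)) → Lin δ →
    (∀ x y, C x y = C y x) → (∀ m, χ m → ∀ s s', C (em δ m s) (em δ m s') = Cφ s s') →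
    Gr H (GSt H S Cφ c) Set.univ → ∀ x, XS δ χ (n + 1) (n + 1) x →
    ∃ f, Mono (Gl S δ) C H c f

/-- Row GLC: the intended colouring of the host. -/
def GlcStatement : Prop :=
  ∀ (L Q I M : Type) (S : SimpleGraph (L ⊕ Q)) (C₀ : L ⊕ Q → L ⊕ Q → Bool) (δ : M → L → I),
    (∀ x y, C₀ x y = C₀ y x) → (∀ m, Function.Injective (δ m)) → Lin δ →
    ∃ C₁ : I ⊕ (M × Q) → I ⊕ (M × Q) → Bool, (∀ x y, C₁ x y = C₁ y x) ∧
      ∀ m u v, S.Adj u v → C₁ (em δ m u) (em δ m v) = C₀ u v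

/-- Row LOC (compare H62/Nfb.lean): a set without cut vertices lies in one copy. -/
def LocStatement : Prop :=
  ∀ (n : ℕ) (H : SimpleGraph (Fin n)) (L Q I M : Type) (S : SimpleGraph (L ⊕ Q))
    (C₀ : L ⊕ Q → L ⊕ Q → Bool) (δ : M → L → I) (C₁ : I ⊕ (M × Q) → I ⊕ (M × Q) → Bool),
    (∀ m, Function.Injective (δ m)) → Lin δ → Sparse (n * n + 2) δ →
    (∀ m u v, S.Adj u v → C₁ (em δ m u) (em δ m v) = C₀ u v) →
    ∀ (c : Bool) (f : Fin n → I ⊕ (M × Q)), Mono (Gl S δ) C₁ H c f → ∀ T, Two H T →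
    ∃ (m : M) (g : Fin n → L ⊕ Q), (∀ x ∈ T, f x = em δ m (g x)) ∧
      ∀ x ∈ T, ∀ y ∈ T, H.Adj x y → S.Adj (g x) (g y) ∧ C₀ (g x) (g y) = c

/-! ## The intended colouring -/

/-- The red part (`true` = red) of the intended colouring: the private vertices are in `Hb` or in
small red components; `Hb` and `Lw` are the hubs and lows of `K_(M, N)`. -/
structure RBase {k : ℕ} {L Q : Type} (n h M : ℕ) (D : SimpleGraph (Fin k))
    (S : SimpleGraph (L ⊕ Q)) (C₀ : L ⊕ Q → L ⊕ Q → Bool) (Hb Lw : Set (L ⊕ Q)) : Prop where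
  symm : ∀ x y, C₀ x y = C₀ y x
  pas : ∀ q, Sum.inr q ∈ Hb ∨ ∃ A : Set Q, A.Finite ∧ A.ncard ≤ n ∧ q ∈ A ∧
    ∀ q' ∈ A, ∀ y, S.Adj (Sum.inr q') y → C₀ (Sum.inr q') y = true → ∃ q'' ∈ A, y = Sum.inr q''
  fin : Hb.Finite
  card : Hb.ncard ≤ M
  pub : {l : L | Sum.inl l ∈ Hb}.ncard ≤ h
  low : ∀ x ∈ Lw, ∃ l, x = Sum.inl l
  dis : ∀ x ∈ Lw, x ∉ Hb
  hub : ∀ x ∈ Hb, ∀ y, S.Adj x y → C₀ x y = true → y ∈ Lw
  lw : ∀ x ∈ Lw, ∀ y, S.Adj x y → C₀ x y = true → y ∈ Hb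
  dd : ∀ f : Fin k → L ⊕ Q, Mono S C₀ D true f →
    ∃ i, f i ∈ Hb ∨ f i ∈ Lw ∨ ∃ q, f i = Sum.inr q

/-- The blue part: in a blue copy of `D` one class is on private hubs of one world, the other on
points; `wd` = the world of a private vertex. -/
structure BBase {k : ℕ} {L Q Wt : Type} (M : ℕ) (D : SimpleGraph (Fin k))
    (S : SimpleGraph (L ⊕ Q)) (C₀ : L ⊕ Q → L ⊕ Q → Bool) (wd : Q → Wt) : Prop where
  symm : ∀ x y, C₀ x y = C₀ y x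
  fin : ∀ w, {q | wd q = w}.Finite
  card : ∀ w, {q | wd q = w}.ncard ≤ M
  dd : ∀ f : Fin k → L ⊕ Q, Mono S C₀ D false f →
    (∃ w, ∀ i q, f i = Sum.inr q → wd q = w) ∧
      ∀ i j, D.Adj i j → ((∃ q, f i = Sum.inr q) ↔ ¬ ∃ q, f j = Sum.inr q)

/-- Row RDN: red part, paper 6. -/
def RdnStatement : Prop :=
  ∀ (h M n k n' : ℕ) (H : SimpleGraph (Fin n)) (κ : Fin n → Bool) (D : SimpleGraph (Fin k)),
    Dt h H κ D → ∀ (L Q I M' : Type) (S : SimpleGraph (L ⊕ Q)) (C₀ : L ⊕ Q → L ⊕ Q → Bool)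
      (Hb Lw : Set (L ⊕ Q)) (δ : M' → L → I) (f : Fin n → I ⊕ (M' × Q)),
    RBase n' h M D S C₀ Hb Lw → (∀ m, Function.Injective (δ m)) → Lin δ →
    Function.Injective f →
    (∀ T, Two H T → ∃ (m : M') (g : Fin n → L ⊕ Q), (∀ x ∈ T, f x = em δ m (g x)) ∧
      ∀ x ∈ T, ∀ y ∈ T, H.Adj x y → S.Adj (g x) (g y) ∧ C₀ (g x) (g y) = true) →
    (∀ i m q, f i = Sum.inr (m, q) → Sum.inr q ∈ Hb) → Gr H (RR H κ D h M) Set.univ

/-- Row BDN: blue part, paper 6. -/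
def BdnStatement : Prop :=
  ∀ (h M n k : ℕ) (H : SimpleGraph (Fin n)) (κ : Fin n → Bool) (D : SimpleGraph (Fin k)),
    Dt h H κ D → 1 ≤ M → ∀ (L Q I M' Wt : Type) (S : SimpleGraph (L ⊕ Q))
      (C₀ : L ⊕ Q → L ⊕ Q → Bool) (wd : Q → Wt) (δ : M' → L → I) (f : Fin n → I ⊕ (M' × Q)),
    BBase M D S C₀ wd → (∀ m, Function.Injective (δ m)) → Function.Injective f →
    (∀ T, Two H T → ∃ (m : M') (g : Fin n → L ⊕ Q), (∀ x ∈ T, f x = em δ m (g x)) ∧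
      ∀ x ∈ T, ∀ y ∈ T, H.Adj x y → S.Adj (g x) (g y) ∧ C₀ (g x) (g y) = false) →
    ∃ X, Hubs H κ D X ∧ ClB H D X M

/-- Row NOH (from GLC, LOC, RDN, BDN): the host does not arrow `H'`. -/
def NohStatement : Prop :=
  ∀ (h n k n' m₁ m r : ℕ) (H : SimpleGraph (Fin n)) (κ : Fin n → Bool)
    (D : SimpleGraph (Fin k)) (X : Set (Fin n)) (y₀ y₁ : Fin n) (H' : SimpleGraph (Fin n')),
    Dt h H κ D → Num h H κ D m₁ m r X y₀ y₁ → H'.Connected → Sub H H' → n < n' →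
    ∀ (L Q I M Wt : Type) (S : SimpleGraph (L ⊕ Q)) (C₀ : L ⊕ Q → L ⊕ Q → Bool)
      (Hb Lw : Set (L ⊕ Q)) (wd : Q → Wt) (δ : M → L → I),
    RBase n h m₁ D S C₀ Hb Lw → BBase (m + 1) D S C₀ wd → (∀ m, Function.Injective (δ m)) →
    Lin δ → Sparse (n' * n' + 2) δ → ¬ ArrowsT (Gl S δ) H'

/-! ## Labels -/

/-- The kinds of labels; `G` = the graph, `p v = some q`: the vertex `v` is the private vertex
`q`.  Blob: a member of the family with an edge at two passengers.  World: a bipartite graph with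
classes `p v = none` and `p v ≠ none`.  One: at most one private vertex and no `D`. -/
def Kd {k K : ℕ} (n m : ℕ) (fam : Set SG) (D : SimpleGraph (Fin k)) (G : SimpleGraph (Fin K))
    (p : Fin K → Option (Fin n × Fin (m + 1))) : Prop :=
  (∃ (x : SG) (ψ : Fin K → Fin x.1) (a b : Fin x.1) (z z' : Fin n), x ∈ fam ∧ x.2.Adj a b ∧
    z ≠ z' ∧ (∀ v v', G.Adj v v' → x.2.Adj (ψ v) (ψ v')) ∧
    (∀ v v' u u', G.Adj v u → G.Adj v' u' → ψ v = ψ v' → v = v') ∧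
    ∀ v, (∃ u, G.Adj v u) → (ψ v = a ∧ p v = some (z, 0)) ∨ (ψ v = b ∧ p v = some (z', 0)) ∨
      (ψ v ≠ a ∧ ψ v ≠ b ∧ p v = none)) ∨
  (∃ z, (∀ v q, p v = some q → q.1 = z) ∧ ∀ v v', G.Adj v v' → (p v = none ↔ p v' ≠ none)) ∨
  (∃ v₀, (∀ v, v ≠ v₀ → p v = none) ∧ ¬ Sub D G)

/-- The role lows: label, index of the copy, vertex. -/
abbrev RL (Λ G : Type) (K : ℕ) : Type := Λ × G × Fin K

section Labels

variable {Λ G : Type} {K n m : ℕ} (Bl : Λ → SimpleGraph (Fin K))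
  (pr : Λ → Fin K → Option (Fin n × Fin (m + 1)))

/-- The edges of the graph of the labels, in one direction. -/
def relA (s t : RL Λ G K ⊕ (Fin n × Fin (m + 1))) : Prop :=
  (∃ l i v v', (Bl l).Adj v v' ∧ pr l v = none ∧ pr l v' = none ∧
    s = Sum.inl (l, i, v) ∧ t = Sum.inl (l, i, v')) ∨
  (∃ l i v v' q, (Bl l).Adj v v' ∧ pr l v = some q ∧ pr l v' = none ∧
    s = Sum.inr q ∧ t = Sum.inl (l, i, v')) ∨
  (∃ z z', z ≠ z' ∧ s = Sum.inr (z, 0) ∧ t = Sum.inr (z', 0))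

/-- The graph of the labels. -/
def GA : SimpleGraph (RL Λ G K ⊕ (Fin n × Fin (m + 1))) := SimpleGraph.fromRel (relA Bl pr)

end Labels

/-- Enough labels. -/
structure Lab {k K n m : ℕ} {Λ : Type} (fam : Set SG) (D : SimpleGraph (Fin k)) (𝓛 : Set SG)
    (Bl : Λ → SimpleGraph (Fin K)) (pr : Λ → Fin K → Option (Fin n × Fin (m + 1))) :
    Prop where
  kd : ∀ l, Kd n m fam D (Bl l) (pr l)
  inj : ∀ l v v' q, pr l v = some q → pr l v' = some q → v = v'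
  blob : ∀ z z' a b, z ≠ z' → D.Adj a b → ∃ (l : Λ) (e : Fin k → Fin K),
    Function.Injective e ∧ (∀ v v', D.Adj v v' → (Bl l).Adj (e v) (e v')) ∧
    pr l (e a) = some (z, 0) ∧ pr l (e b) = some (z', 0) ∧
    ∀ v, v ≠ a → v ≠ b → pr l (e v) = none
  world : ∀ z, ∃ l v, pr l v = none ∧ ∀ j, ∃ v', (Bl l).Adj v' v ∧ pr l v' = some (z, j)
  hang : ∀ p, ∀ x ∈ 𝓛, ∀ w : Fin x.1, ∃ (l : Λ) (e : Fin x.1 → Fin K),
    Function.Injective e ∧ (∀ v v', x.2.Adj v v' → (Bl l).Adj (e v) (e v')) ∧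
    pr l (e w) = some p ∧ ∀ v, v ≠ w → pr l (e v) = none
  star : ∀ w, ∃ (l : Λ) (e : Fin k → Fin K), Function.Injective e ∧
    (∀ v v', v ≠ w → v' ≠ w → D.Adj v v' → (Bl l).Adj (e v) (e v')) ∧
    ∀ v, v ≠ w → pr l (e v) = none

/-- Row LBX (compare Q22/Lbs.lean): the labels exist. -/
def LbxStatement : Prop :=
  ∀ (k n m : ℕ) (fam : Set SG) (D : SimpleGraph (Fin k)) (𝓛 : Set SG), TwoCn D →
    (⟨k, D⟩ : SG) ∈ fam → 𝓛.Finite → (∀ x ∈ 𝓛, ¬ Sub D x.2) → 1 ≤ n →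
    ∃ (K : ℕ) (Λ : Type) (_ : Finite Λ) (Bl : Λ → SimpleGraph (Fin K))
      (pr : Λ → Fin K → Option (Fin n × Fin (m + 1))), Lab fam D 𝓛 Bl pr ∧ Nonempty Λ ∧ 2 ≤ K

/-- Row GAX (compare H62/Gab.lean): a copy of `D` in the graph of the labels without the edges
between private vertices lies in one world. -/
def GaxStatement : Prop :=
  ∀ (k n m K : ℕ) (Λ G : Type) (fam : Set SG) (D : SimpleGraph (Fin k))
    (Bl : Λ → SimpleGraph (Fin K)) (pr : Λ → Fin K → Option (Fin n × Fin (m + 1))),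
    TwoCn D → (∀ x ∈ fam, Bip x.2) → Mx fam ⟨k, D⟩ → ¬ Blobbed fam D →
    (∀ l, Kd n m fam D (Bl l) (pr l)) →
    (∀ l v v' q, pr l v = some q → pr l v' = some q → v = v') →
    ∀ g : Fin k → RL Λ G K ⊕ (Fin n × Fin (m + 1)), Function.Injective g →
    (∀ i j, D.Adj i j → (GA Bl pr).Adj (g i) (g j) ∧
      ¬ ((∃ q, g i = Sum.inr q) ∧ ∃ q, g j = Sum.inr q)) →
    (∃ z, ∀ i q, g i = Sum.inr q → q.1 = z) ∧
      ∀ i j, D.Adj i j → ((∃ q, g i = Sum.inr q) ↔ ¬ ∃ q, g j = Sum.inr q)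

/-! ## The gadget for `D` with a separating pair (`IsNc`) -/

section WorldX

variable {h Nw e : ℕ} {I M R Z : Type} (Ga : SimpleGraph (R ⊕ Z)) (δ : M → Fin Nw ⊕ R → I)

/-- The edges of the extended world gadget (`Fin e` = the private common hubs), in one
direction. -/
def relX : WP h I M ⊕ ((M × Z) ⊕ Fin e) → WP h I M ⊕ ((M × Z) ⊕ Fin e) → Prop
  | .inl (.y _), .inl (.low _) => True
  | .inl (.p m _), .inl (.low i) => ∃ w, δ m (.inl w) = i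
  | .inl (.low i), .inl (.low i') => ∃ m r r', Ga.Adj (.inl r) (.inl r') ∧ δ m (.inr r) = i ∧
      δ m (.inr r') = i'
  | .inr (.inl q), .inl (.low i) => ∃ r, Ga.Adj (.inr q.2) (.inl r) ∧ δ q.1 (.inr r) = i
  | .inr (.inl q), .inr (.inl q') => q.1 = q'.1 ∧ Ga.Adj (.inr q.2) (.inr q'.2)
  | .inr (.inr _), .inl (.low _) => True
  | _, _ => False

/-- The extended world gadget. -/
def WX : SimpleGraph (WP h I M ⊕ ((M × Z) ⊕ Fin e)) := SimpleGraph.fromRel (relX Ga δ)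

/-- The red edges of the intended colouring, in one direction. -/
def redX : WP h I M ⊕ ((M × Z) ⊕ Fin e) → WP h I M ⊕ ((M × Z) ⊕ Fin e) → Prop
  | .inl (.y _), .inl (.low _) => True
  | .inr (.inl _), .inr (.inl _) => True
  | .inr (.inr _), .inl (.low _) => True
  | _, _ => False

/-- The intended colouring (`true` = red). -/
noncomputable def cX (a b : WP h I M ⊕ ((M × Z) ⊕ Fin e)) : Bool := by
  classical exact decide (redX a b ∨ redX b a)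

/-- The vertex in the position `s` of the piece `m`. -/
def wx (m : M) : WS h Nw R Z ⊕ Fin e → WP h I M ⊕ ((M × Z) ⊕ Fin e)
  | .inl (.y j) => .inl (.y j)
  | .inl (.p j) => .inl (.p m j)
  | .inl (.s t) => .inl (.low (δ m t))
  | .inl (.z ζ) => .inr (.inl (m, ζ))
  | .inr j => .inr (.inr j)

/-- The vertex of `Ga` in the piece `m`. -/
def px (m : M) : R ⊕ Z → WP h I M ⊕ ((M × Z) ⊕ Fin e)
  | .inl r => .inl (.low (δ m (.inr r)))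
  | .inr ζ => .inr (.inl (m, ζ))

end WorldX

/-- Row WXN (from WGP, KHN; compare H62/Wga.lean): purity with the private common hubs. -/
def WxnStatement : Prop :=
  ∀ (h K Nw e k : ℕ) (D : SimpleGraph (Fin k)) (κ : Fin k → Bool), 1 ≤ h → Bi D κ h →
    Nonempty (Nc D κ) → k ≤ K → K * 2 ^ h ≤ Nw → ∀ (I M R Z : Type)
      (Ga : SimpleGraph (R ⊕ Z)) (δ : M → Fin Nw ⊕ R → I),
    (∀ m, Function.Injective (δ m)) → Lin δ → Nonempty R →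
    ∀ C : WP h I M ⊕ ((M × Z) ⊕ Fin e) → WP h I M ⊕ ((M × Z) ⊕ Fin e) → Bool,
    (∀ x y, C x y = C y x) →
    ∀ (χ : M → Prop) (Cφ : WS h Nw R Z ⊕ Fin e → WS h Nw R Z ⊕ Fin e → Bool),
    (∀ m, χ m → ∀ s s', C (wx δ m s) (wx δ m s') = Cφ s s') →
    ∀ x, XS δ χ (K + 2) 2 x →
    (∃ (c : Bool) (f : Fin k → WP h I M), Mono (WX Ga δ) C D c (fun v => Sum.inl (f v))) ∨
    ∃ (col : Bool) (t : Fin e → Bool) (m : M), χ m ∧
      (∀ r r', Ga.Adj (Sum.inl r) (Sum.inl r') →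
        C (Sum.inl (.low (δ m (Sum.inr r)))) (Sum.inl (.low (δ m (Sum.inr r')))) = !col) ∧
      (∀ j r, C (Sum.inl (.y j)) (Sum.inl (.low (δ m (Sum.inr r)))) = col) ∧
      ∀ j r, C (Sum.inr (Sum.inr j)) (Sum.inl (.low (δ m (Sum.inr r)))) = t j

/-- Row OUX (paper 3, the three cases): from the purity to the outcomes; `G = Fin N₂`. -/
def OuxStatement : Prop :=
  ∀ (h Nw e k n m K N N₂ : ℕ) (fam : Set SG) (D : SimpleGraph (Fin k)) (𝓛 : Set SG)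
    (Λ : Type) (Bl : Λ → SimpleGraph (Fin K)) (pr : Λ → Fin K → Option (Fin n × Fin (m + 1))),
    Lab fam D 𝓛 Bl pr → 1 ≤ n → N + (n * (m + 1)) * N ≤ N₂ → ∀ (I M : Type)
      (δ : M → Fin Nw ⊕ RL Λ (Fin N₂) K → I), (∀ m, Function.Injective (δ m)) →
    ∀ C : WP h I M ⊕ ((M × (Fin n × Fin (m + 1))) ⊕ Fin e) →
      WP h I M ⊕ ((M × (Fin n × Fin (m + 1))) ⊕ Fin e) → Bool, (∀ x y, C x y = C y x) →
    ∀ (col : Bool) (t : Fin e → Bool) (mm : M),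
    (∀ r r', (GA Bl pr).Adj (Sum.inl r) (Sum.inl r') →
      C (Sum.inl (.low (δ mm (Sum.inr r)))) (Sum.inl (.low (δ mm (Sum.inr r')))) = !col) →
    (∀ j r, C (Sum.inl (.y j)) (Sum.inl (.low (δ mm (Sum.inr r)))) = col) →
    (∀ j r, C (Sum.inr (Sum.inr j)) (Sum.inl (.low (δ mm (Sum.inr r)))) = t j) →
    Out n m h (h + e + 1) D 𝓛 N (WX (h := h) (e := e) (GA Bl pr) δ) C

/-- Row WXB (from LRG, PC2, TWO, LIN; compare H62/Wgb.lean): a blue copy of `D` lies in `Ga`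
without the edges inside `Z`, in one piece. -/
def WxbStatement : Prop :=
  ∀ (k h Nw e : ℕ) (D : SimpleGraph (Fin k)) (κ : Fin k → Bool), TwoCn D → Bi D κ h →
    ∀ (I M R Z : Type) (Ga : SimpleGraph (R ⊕ Z)) (δ : M → Fin Nw ⊕ R → I),
      (∀ m, Function.Injective (δ m)) → Sparse (k * k) δ →
      ∀ f : Fin k → WP h I M ⊕ ((M × Z) ⊕ Fin e), Mono (WX Ga δ) cX D false f →
      ∃ (m : M) (g : Fin k → R ⊕ Z), Function.Injective g ∧ (∀ i, f i = px δ m (g i)) ∧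
        ∀ i j, D.Adj i j → Ga.Adj (g i) (g j) ∧
          ¬ ((∃ ζ, g i = Sum.inr ζ) ∧ ∃ ζ, g j = Sum.inr ζ)

/-- What the gadgets provide. -/
structure Gdg {k : ℕ} {L Q : Type} (n m h m₁ N : ℕ) (D : SimpleGraph (Fin k)) (𝓛 𝓒 : Set SG)
    (S : SimpleGraph (L ⊕ Q)) : Prop where
  base : ∃ (C₀ : L ⊕ Q → L ⊕ Q → Bool) (Hb Lw : Set (L ⊕ Q)) (Wt : Type) (wd : Q → Wt),
    RBase n h m₁ D S C₀ Hb Lw ∧ BBase (m + 1) D S C₀ wd
  arr : ∀ C : L ⊕ Q → L ⊕ Q → Bool, (∀ x y, C x y = C y x) →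
    (∃ c, Prs S C c ⟨k, D⟩) ∨
      (Out n m h (m₁ + 1) D 𝓛 N S C ∧ ∀ c, ∀ x ∈ 𝓒, Prs S C c x)

/-- Row PGN (from TYP, LIN, LBX, GAX, WXN, OUX, WXB): the gadget for `IsNc`. -/
def PgnStatement : Prop :=
  ∀ (h k n m m₁ N : ℕ) (fam : Set SG) (D : SimpleGraph (Fin k)) (𝓛 : Set SG), Fam h fam D →
    IsNc h ⟨k, D⟩ → 𝓛.Finite → (∀ x ∈ 𝓛, ¬ Sub D x.2) → 1 ≤ n → 1 ≤ N → h ≤ m₁ →
    ∃ (L Q : Type) (_ : Finite L) (_ : Finite Q) (S : SimpleGraph (L ⊕ Q)),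
      Gdg n m h m₁ N D 𝓛 ∅ S

/-! ## The gadget for cross-connected `D` (`TC True`) -/

/-- Row AT2: `MP3240Q.AttStatement` for bipartite `H` and any base graph `G` (see the paper,
section 3'; the class of `p₁ j` and `p₂ j` in a copy of `H` that enters a sender differ because
the sender is bipartite). -/
def At2Statement : Prop :=
  ∀ (n : ℕ) (H : SimpleGraph (Fin n)), TC True H → ∀ (W J : Type) [Finite W] [Finite J]
    (G : SimpleGraph W) (Z : W → Prop) (p₁ p₂ q₁ q₂ : J → W), (∀ j, G.Adj (p₁ j) (p₂ j)) →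
    (∀ j, G.Adj (q₁ j) (q₂ j)) →
    (∀ j, p₁ j ≠ q₁ j ∧ p₁ j ≠ q₂ j ∧ p₂ j ≠ q₁ j ∧ p₂ j ≠ q₂ j) →
    (∀ j, ¬ G.Adj (p₁ j) (q₁ j) ∧ ¬ G.Adj (p₁ j) (q₂ j) ∧ ¬ G.Adj (p₂ j) (q₁ j) ∧
      ¬ G.Adj (p₂ j) (q₂ j)) →
    (∀ j, ¬ Z (p₁ j) ∧ ¬ Z (p₂ j) ∧ ¬ Z (q₁ j) ∧ ¬ Z (q₂ j)) →
    ∃ (V : Type) (_ : Finite V) (F : SimpleGraph V) (ι : W → V), Function.Injective ι ∧
      (∀ u v, F.Adj (ι u) (ι v) ↔ G.Adj u v) ∧
      (∀ C : V → V → Bool, (∀ x y, C x y = C y x) →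
        (∀ (b : Bool) (f : Fin n → V), Mono F C H b f → ∃ i z, Z z ∧ f i = ι z) →
        ∀ j, C (ι (p₁ j)) (ι (p₂ j)) = C (ι (q₁ j)) (ι (q₂ j))) ∧
      (∀ c : W → W → Bool, (∀ x y, c x y = c y x) →
        (∀ j, c (p₁ j) (p₂ j) = c (q₁ j) (q₂ j)) →
        ∃ C : V → V → Bool, (∀ x y, C x y = C y x) ∧ (∀ u v, C (ι u) (ι v) = c u v) ∧
          ∀ (b : Bool) (f : Fin n → V), Mono F C H b f → ∀ i, ∃ w, f i = ι w) ∧
      (∀ u w, F.Adj (ι u) w →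
        (∃ v, w = ι v) ∨ ∃ j, u = p₁ j ∨ u = p₂ j ∨ u = q₁ j ∨ u = q₂ j)

/-- The pattern before the senders are attached: `Y` = points, passengers and private hubs
`Fin n × Fin (m + 1)`, intended colouring `c₁` (`true` = red). -/
structure PatX {k : ℕ} {Y : Type} (n m h N : ℕ) (D : SimpleGraph (Fin k)) (𝓛 𝓒 : Set SG)
    (P : SimpleGraph (Y ⊕ (Fin n × Fin (m + 1))))
    (c₁ : Y ⊕ (Fin n × Fin (m + 1)) → Y ⊕ (Fin n × Fin (m + 1)) → Bool) : Prop where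
  symm : ∀ x y, c₁ x y = c₁ y x
  pas : ∀ q y, P.Adj (Sum.inr q) y → c₁ (Sum.inr q) y = true →
    q.2 = 0 ∧ ∃ z : Fin n, y = Sum.inr (z, 0)
  red : ∀ f : Fin k → Y ⊕ (Fin n × Fin (m + 1)), Mono P c₁ D true f → ∃ i q, f i = Sum.inr q
  blue : ∀ f : Fin k → Y ⊕ (Fin n × Fin (m + 1)), Mono P c₁ D false f →
    (∃ z : Fin n, ∀ i q, f i = Sum.inr q → q.1 = z) ∧
      ∀ i j, D.Adj i j → ((∃ q, f i = Sum.inr q) ↔ ¬ ∃ q, f j = Sum.inr q)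
  two : ∃ l l' : Y, l ≠ l'
  arr : ∀ (C : Y ⊕ (Fin n × Fin (m + 1)) → Y ⊕ (Fin n × Fin (m + 1)) → Bool)
    (β : Bool → Bool), (∀ x y, C x y = C y x) →
    (∀ d d', P.Adj (Sum.inl d) (Sum.inl d') →
      C (Sum.inl d) (Sum.inl d') = β (c₁ (Sum.inl d) (Sum.inl d'))) →
    (∃ c, Prs P C c ⟨k, D⟩) ∨ (((∃ c q, Star D 𝓛 N P C c q) ∨
      ∃ (c : Bool) (zf : Fin n × Fin (m + 1) → Fin n × Fin (m + 1)), Full D 𝓛 N P C c zf) ∧
      ∀ c, ∀ x ∈ 𝓒, Prs P C c x)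

/-- Row RPX (from ONE; compare Q22/Rp2.lean): red copies of `D` use a passenger; the red edges of
`MP3240Q.ER2` for any labels. -/
def RpxStatement : Prop :=
  ∀ (Λ P G M : Type) (k n K N : ℕ) (D : SimpleGraph (Fin k))
    (H : SimpleGraph (Fin n)) (pr : Λ → Fin K → Option (Fin n))
    (Rd : P → SimpleGraph (Fin K)) (rt : P → Fin K) (δ : M → P × Fin N × Fin K → G),
    TC True D → (∀ ρ, ¬ ∃ f : Fin k → Fin K, Function.Injective f ∧ (∀ i, f i ≠ rt ρ) ∧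
      ∀ i j, D.Adj i j → (Rd ρ).Adj (f i) (f j)) →
    (∀ m, Function.Injective (δ m)) → Sparse (k * k) δ →
    ∀ f : Fin k → MP3240Q.GY Λ P G M K N ⊕ Fin n, Function.Injective f →
      (∀ i j, D.Adj i j → MP3240Q.ER2 H pr Rd rt δ (f i) (f j)) → ∃ i q, f i = Sum.inr q

/-- Row PTX (from LBX, GAX, RPX and the rows SY2, AL2, RCL, BCL, BCD, CST of Q22; compare
Q22/Pa2.lean): the pattern without the controlled graph. -/
def PtxStatement : Prop :=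
  ∀ (h k n m N : ℕ) (fam : Set SG) (D : SimpleGraph (Fin k)) (𝓛 : Set SG), Fam h fam D →
    TC True D → 𝓛.Finite → (∀ x ∈ 𝓛, ¬ Sub D x.2) → 1 ≤ n → 1 ≤ N →
    ∃ (Y : Type) (_ : Finite Y) (P : SimpleGraph (Y ⊕ (Fin n × Fin (m + 1))))
      (c₁ : Y ⊕ (Fin n × Fin (m + 1)) → Y ⊕ (Fin n × Fin (m + 1)) → Bool),
      (∀ x y, c₁ x y = c₁ y x) ∧
      (∀ q y, P.Adj (Sum.inr q) y → c₁ (Sum.inr q) y = true →
        q.2 = 0 ∧ ∃ z : Fin n, y = Sum.inr (z, 0)) ∧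
      (∀ f : Fin k → Y ⊕ (Fin n × Fin (m + 1)), Mono P c₁ D true f →
        ∃ i q, f i = Sum.inr q) ∧
      (∀ f : Fin k → Y ⊕ (Fin n × Fin (m + 1)), Mono P c₁ D false f →
        (∃ z : Fin n, ∀ i q, f i = Sum.inr q → q.1 = z) ∧
          ∀ i j, D.Adj i j → ((∃ q, f i = Sum.inr q) ↔ ¬ ∃ q, f j = Sum.inr q)) ∧
      ∀ (C : Y ⊕ (Fin n × Fin (m + 1)) → Y ⊕ (Fin n × Fin (m + 1)) → Bool)
        (β : Bool → Bool), (∀ x y, C x y = C y x) → β false ≠ β true →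
        (∀ d d', P.Adj (Sum.inl d) (Sum.inl d') →
          C (Sum.inl d) (Sum.inl d') = β (c₁ (Sum.inl d) (Sum.inl d'))) →
        (∃ c q, Star D 𝓛 N P C c q) ∨
          ∃ (c : Bool) (zf : Fin n × Fin (m + 1) → Fin n × Fin (m + 1)), Full D 𝓛 N P C c zf

/-- Row CTX (from PTX; compare Q22/Pa3.lean): add the disjoint controlled graph: `D` with one red
edge (the other edges blue), every graph of `𝓒` completely blue and completely red. -/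
def CtxStatement : Prop :=
  ∀ (h k n m N : ℕ) (fam : Set SG) (D : SimpleGraph (Fin k)) (𝓛 𝓒 : Set SG), Fam h fam D →
    TC True D → 𝓛.Finite → (∀ x ∈ 𝓛, ¬ Sub D x.2) → 𝓒.Finite →
    (∀ x ∈ 𝓒, ¬ Sub D x.2) → 1 ≤ n → 1 ≤ N →
    ∃ (Y : Type) (_ : Finite Y) (P : SimpleGraph (Y ⊕ (Fin n × Fin (m + 1))))
      (c₁ : Y ⊕ (Fin n × Fin (m + 1)) → Y ⊕ (Fin n × Fin (m + 1)) → Bool),
      PatX n m h N D 𝓛 𝓒 P c₁

/-- Row PGC (from CTX, AT2; compare Q22/Pie.lean): the gadget for `TC True`. -/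
def PgcStatement : Prop :=
  ∀ (h k n m m₁ N : ℕ) (fam : Set SG) (D : SimpleGraph (Fin k)) (𝓛 𝓒 : Set SG), Fam h fam D →
    TC True D → 𝓛.Finite → (∀ x ∈ 𝓛, ¬ Sub D x.2) → 𝓒.Finite →
    (∀ x ∈ 𝓒, ¬ Sub D x.2) → 1 ≤ n → 1 ≤ N → h ≤ m₁ →
    ∃ (L Q : Type) (_ : Finite L) (_ : Finite Q) (S : SimpleGraph (L ⊕ Q)),
      Gdg n m h m₁ N D 𝓛 𝓒 S

/-! ## The whole gadget -/

/-- Row MOX: everything is preserved by an embedding of gadgets. -/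
def MoxStatement : Prop :=
  ∀ (k n m h M N : ℕ) (D : SimpleGraph (Fin k)) (𝓛 : Set SG) (L L' Q : Type)
    (S : SimpleGraph (L ⊕ Q)) (S' : SimpleGraph (L' ⊕ Q)) (i : L → L'),
    Function.Injective i → (∀ u v, S.Adj u v → S'.Adj (Sum.map i id u) (Sum.map i id v)) →
    ∀ C : L' ⊕ Q → L' ⊕ Q → Bool,
    (Out n m h M D 𝓛 N S (fun u v => C (Sum.map i id u) (Sum.map i id v)) →
      Out n m h M D 𝓛 N S' C) ∧
    ∀ c x, Prs S (fun u v => C (Sum.map i id u) (Sum.map i id v)) c x → Prs S' C c x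

/-- Row UNX (compare H62/Unf.lean): disjoint union of a gadget and finitely many other
gadgets. -/
def UnxStatement : Prop :=
  ∀ (k n m h m₁ : ℕ) (D : SimpleGraph (Fin k)), TwoCn D → ∀ (L Q : Type) [Finite L]
      (S : SimpleGraph (L ⊕ Q)),
    (∃ (C₀ : L ⊕ Q → L ⊕ Q → Bool) (Hb Lw : Set (L ⊕ Q)) (Wt : Type) (wd : Q → Wt),
      RBase n h m₁ D S C₀ Hb Lw ∧ BBase (m + 1) D S C₀ wd) →
    ∀ (J : Type) [Finite J] (X : J → Type) [∀ j, Finite (X j)] (Γ : ∀ j, SimpleGraph (X j)),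
    (∀ j, ∃ C : X j → X j → Bool, (∀ x y, C x y = C y x) ∧ ∀ c f, ¬ Mono (Γ j) C D c f) →
    ∃ (L' : Type) (_ : Finite L') (S' : SimpleGraph (L' ⊕ Q)) (i : L → L')
      (i' : ∀ j, X j → L'),
      (∃ (C₀ : L' ⊕ Q → L' ⊕ Q → Bool) (Hb Lw : Set (L' ⊕ Q)) (Wt : Type) (wd : Q → Wt),
        RBase n h m₁ D S' C₀ Hb Lw ∧ BBase (m + 1) D S' C₀ wd) ∧
      (∃ l l' : L', l ≠ l') ∧ Function.Injective i ∧
      (∀ j, Function.Injective (i' j)) ∧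
      (∀ u v, S.Adj u v → S'.Adj (Sum.map i id u) (Sum.map i id v)) ∧
      ∀ j u v, (Γ j).Adj u v → S'.Adj (Sum.inl (i' j u)) (Sum.inl (i' j v))

/-- Row CAX (compare H62/Cas): the case distinction, pure logic. -/
def CaxStatement : Prop :=
  ∀ (fam Tn : Set SG) (D : SG) (P : Bool → SG → Prop), fam.Finite → Mx fam D →
    (∀ c x y, Sub x.2 y.2 → P c y → P c x) →
    (∀ x y, Mx fam x → Mx fam y → ¬ (Sub x.2 D.2 ∧ Sub y.2 D.2) → P true x ∨ P false y) →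
    (∀ c, (∀ x ∈ Tn, P c x) ∨ ∀ x ∈ Tn ∪ fam, P (!c) x) →
    ((∃ c, P c D) ∨ ∀ c, ∀ x ∈ fam, ¬ Sub D.2 x.2 → Sub x.2 D.2 → P c x) →
    (∃ c, ∀ x ∈ Tn ∪ fam, P c x) ∨
      ((∀ c, ¬ P c D) ∧ ∀ c, ∀ x, (x ∈ Tn ∨ (x ∈ fam ∧ ¬ Sub D.2 x.2)) → P c x)

/-- Row GDX (from PGN, PGC, KGD, GMC, UNX, MOX, CAX; compare H62/Pps.lean, H62/Bpc.lean): the
whole gadget. -/
def GdxStatement : Prop :=
  ∀ (h k n m m₁ N : ℕ) (fam Tn : Set SG) (D : SimpleGraph (Fin k)), Fam h fam D →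
    Tn.Finite → (∀ x ∈ Tn, Tiny h x) → 1 ≤ n → 1 ≤ N → h ≤ m₁ →
    ∃ (L Q : Type) (_ : Finite L) (_ : Finite Q) (S : SimpleGraph (L ⊕ Q)),
      (∃ (C₀ : L ⊕ Q → L ⊕ Q → Bool) (Hb Lw : Set (L ⊕ Q)) (Wt : Type) (wd : Q → Wt),
        RBase n h m₁ D S C₀ Hb Lw ∧ BBase (m + 1) D S C₀ wd) ∧
      (∃ l l' : L, l ≠ l') ∧
      ∀ C : L ⊕ Q → L ⊕ Q → Bool, (∀ x y, C x y = C y x) →
        (∃ c, ∀ x ∈ Tn ∪ fam, Prs S C c x) ∨
        ((∀ c, ∀ x, (x ∈ Tn ∨ (x ∈ fam ∧ ¬ Sub D x.2)) → Prs S C c x) ∧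
          Out n m h (m₁ + 1) D {x | x ∈ Tn ∨ (x ∈ fam ∧ ¬ Sub D x.2)} N S C)

/-! ## The theorem -/

/-- Row DAT (uses H34): the data of a connected bipartite graph with a cycle, paper SETTING. -/
def DatStatement : Prop :=
  ∀ (n : ℕ) (H : SimpleGraph (Fin n)) (κ : Fin n → Bool), H.Connected →
    (∀ i j, H.Adj i j → κ i ≠ κ j) → ¬ H.IsAcyclic →
    (∀ S S', MP3240L.Top H κ S → MP3240L.Top H κ S' → MP3240L.CrossS H κ S →
      MP3240L.CrossS H κ S' → Sub (H.induce {x | x ∈ S}) (H.induce {x | x ∈ S'})) →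
    ∃ (h k : ℕ) (Tn : Set SG) (D : SimpleGraph (Fin k)), Fam h (fam H κ h) D ∧
      Tn.Finite ∧ (∀ x ∈ Tn, Tiny h x) ∧ Dt h H κ D ∧
      (∀ T, SB H D T → ∃ x : SG, (x ∈ Tn ∨ (x ∈ fam H κ h ∧ ¬ Sub D x.2)) ∧ Mdl H T x)

/-- Row MAIN: Theorem T2*. -/
def MainStatement : Prop :=
  ∀ (n n' : ℕ) (H : SimpleGraph (Fin n)) (H' : SimpleGraph (Fin n')) (κ : Fin n → Bool),
    H.Connected → (∀ i j, H.Adj i j → κ i ≠ κ j) → ¬ H.IsAcyclic →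
    (∀ S S', MP3240L.Top H κ S → MP3240L.Top H κ S' → MP3240L.CrossS H κ S →
      MP3240L.CrossS H κ S' → Sub (H.induce {x | x ∈ S}) (H.induce {x | x ∈ S'})) →
    H'.Connected → Sub H H' → n < n' →
    ∃ (V : Type) (_ : Finite V) (F : SimpleGraph V), ArrowsT F H ∧ ¬ ArrowsT F H'

end MP3240S
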