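import Mathlib
import Pool.Agent.Lib.MP_3240be_co.S62.Defs
import Pool.Agent.Lib.MP_3240be_co.Q22.Pa3

set_option autoImplicit false

/-!
# Row CTX: the pattern with the controlled graph
-/

namespace MP3240S

open MP3240G (Fam Prs)
open MP3240Q (Mono SG Sub Hang)
open MP3240Q.Pa3 (XX GX3 psi psi_inj NP cS cS_symm cX_symm side no_copy)
open Pool.Agent.Lib.MP_3240be_co.H82 (TC)

namespace Ctx

/-- The embedding of the old pattern. -/
def emb (Y X Q : Type) : Y ⊕ Q → (Y ⊕ X) ⊕ Q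
  | Sum.inl y => Sum.inl (Sum.inl y)
  | Sum.inr q => Sum.inr q

theorem psi_emb {Y X Q : Type} (s : Y ⊕ Q) :
    psi (emb Y X Q s) = (Sum.inl s : (Y ⊕ Q) ⊕ X) := by
  rcases s with y | q <;> rfl

theorem emb_inj {Y X Q : Type} : Function.Injective (emb Y X Q) := by
  intro s t h
  have h1 := congrArg psi h
  rw [psi_emb, psi_emb] at h1
  exact Sum.inl_injective h1

theorem emb_inr {Y X Q : Type} (s : Y ⊕ Q) (q : Q) (h : emb Y X Q s = Sum.inr q) :
    s = Sum.inr q := by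
  rcases s with y | q'
  · have h' : (Sum.inl (Sum.inl y) : (Y ⊕ X) ⊕ Q) = Sum.inr q := h
    simp at h'
  · have h' : (Sum.inr q' : (Y ⊕ X) ⊕ Q) = Sum.inr q := h
    rw [Sum.inr_injective h']

theorem emb_inl {Y X Q : Type} (s : Y ⊕ Q) (h : ∃ l, s = Sum.inl l) :
    ∃ l, emb Y X Q s = Sum.inl l := by
  obtain ⟨l, rfl⟩ := h
  exact ⟨Sum.inl l, rfl⟩

section Transfer

variable {Y X Q : Type} {P : SimpleGraph (Y ⊕ Q)} {G : SimpleGraph X}

theorem emb_adj {s t : Y ⊕ Q} (h : P.Adj s t) :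
    (NP P G).Adj (emb Y X Q s) (emb Y X Q t) := by
  show (P ⊕g G).Adj (psi _) (psi _)
  rw [psi_emb, psi_emb]
  simpa using h

theorem mono {C : (Y ⊕ X) ⊕ Q → (Y ⊕ X) ⊕ Q → Bool} {c : Bool} {U : Type}
    (A : SimpleGraph U) (g : U → Y ⊕ Q)
    (hg : Mono P (fun s t => C (emb Y X Q s) (emb Y X Q t)) A c g) :
    Mono (NP P G) C A c (fun i => emb Y X Q (g i)) :=
  ⟨emb_inj.comp hg.1, fun i j hij => ⟨emb_adj (hg.2 i j hij).1, (hg.2 i j hij).2⟩⟩

theorem hang {C : (Y ⊕ X) ⊕ Q → (Y ⊕ X) ⊕ Q → Bool} {c : Bool} {t N : ℕ}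
    {U : SimpleGraph (Fin t)} {q : Q} {w : Fin t}
    (h : Hang U P (fun s t => C (emb Y X Q s) (emb Y X Q t)) c N q w) :
    Hang U (NP P G) C c N q w := by
  obtain ⟨g, hg1, hg2, hg3, hg4⟩ := h
  refine ⟨fun ν u => emb Y X Q (g ν u), fun ν => mono _ _ (hg1 ν), ?_, ?_, ?_⟩
  · intro ν
    show emb Y X Q (g ν w) = Sum.inr q
    rw [hg2]
    rfl
  · intro ν u hu
    exact emb_inl _ (hg3 ν u hu)
  · intro ν ν' u u' hu hh
    exact hg4 ν ν' u u' hu (emb_inj hh)

theorem star {C : (Y ⊕ X) ⊕ Q → (Y ⊕ X) ⊕ Q → Bool} {c : Bool} {k N : ℕ}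
    {D : SimpleGraph (Fin k)} {𝓛 : Set SG} {q : Q}
    (h : Star D 𝓛 N P (fun s t => C (emb Y X Q s) (emb Y X Q t)) c q) :
    Star D 𝓛 N (NP P G) C c q :=
  ⟨fun w => hang (h.1 w), fun x hx w => hang (h.2 x hx w)⟩

theorem full {C : (Y ⊕ X) ⊕ Q → (Y ⊕ X) ⊕ Q → Bool} {c : Bool} {k n m N : ℕ}
    {D : SimpleGraph (Fin k)} {𝓛 : Set SG} {zf : Fin n × Fin (m + 1) → Q}
    (h : Full D 𝓛 N P (fun s t => C (emb Y X Q s) (emb Y X Q t)) c zf) :
    Full D 𝓛 N (NP P G) C c zf := by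
  refine ⟨h.inj, fun z z' hz => emb_adj (h.zz z z' hz), ?_, ?_, fun p x hx w =>
    hang (h.hang p x hx w)⟩
  · intro z z' a b hz hab
    obtain ⟨g, hg1, hg2⟩ := h.blob z z' a b hz hab
    refine ⟨fun ν v => emb Y X Q (g ν v), fun ν => ?_, ?_⟩
    · obtain ⟨h1, h2, h3, h4, h5⟩ := hg1 ν
      refine ⟨emb_inj.comp h1, ?_, ?_, fun v hva hvb => emb_inl _ (h4 v hva hvb), ?_⟩
      · show emb Y X Q (g ν a) = _
        rw [h2]
        rfl
      · show emb Y X Q (g ν b) = _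
        rw [h3]
        rfl
      · intro v v' hv h6 h7
        exact ⟨emb_adj (h5 v v' hv h6 h7).1, (h5 v v' hv h6 h7).2⟩
    · intro ν ν' v v' hva hvb hh
      exact hg2 ν ν' v v' hva hvb (emb_inj hh)
  · intro z
    obtain ⟨w, hw1, hw2⟩ := h.world z
    refine ⟨fun i => Sum.inl (w i), fun i j hij => hw1 (Sum.inl_injective hij), ?_⟩
    intro i j
    exact ⟨emb_adj (hw2 i j).1, (hw2 i j).2⟩

end Transfer

end Ctx

open Ctx in
theorem ctx_proof (hPtx : PtxStatement) : CtxStatement := by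
  classical
  intro h k n m N fam D 𝓛 𝓒 hF hD hLfin hL hCfin hC𝓒 hn hN
  obtain ⟨Y, hY, P, c₁, hsymm, hpas, hred, hblue, harr⟩ :=
    hPtx h k n m N fam D 𝓛 hF hD hLfin hL hn hN
  obtain ⟨a₀⟩ := hD.ne
  obtain ⟨b₀, hab⟩ := hD.nbr a₀
  have hfin' : Finite 𝓒 := hCfin
  let Q := Fin n × Fin (m + 1)
  let X := XX k 𝓒
  let G := GX3 D 𝓒
  have hadj : ∀ s t, (NP P G).Adj s t ↔ (P ⊕g G).Adj (psi s) (psi t) := fun s t => Iff.rfl
  -- a monochromatic copy of `D` lies in the old pattern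
  have hcopy : ∀ (c : Bool) (f : Fin k → (Y ⊕ X) ⊕ Q),
      Mono (NP P G) (fun s t => cS c₁ (MP3240Q.Pa3.cX 𝓒 a₀ b₀) (psi s) (psi t)) D c f →
      ∃ g : Fin k → Y ⊕ Q, Mono P c₁ D c g ∧ ∀ i, f i = emb Y X Q (g i) := by
    rintro c f ⟨hf, hfE⟩
    rcases side hD P G (fun i => psi (f i)) (fun i j hij => (hfE i j hij).1) with h | h
    · choose g hg using h
      have hg' : ∀ i, psi (f i) = Sum.inl (g i) := hg
      have hginj : Function.Injective g := by
        intro i j hij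
        refine hf (psi_inj ?_)
        rw [hg', hg', hij]
      refine ⟨g, ⟨hginj, fun i j hij => ?_⟩, fun i => psi_inj ?_⟩
      · obtain ⟨h1, h2⟩ := hfE i j hij
        rw [hadj, hg' i, hg' j] at h1
        have h2' : cS c₁ (MP3240Q.Pa3.cX 𝓒 a₀ b₀) (psi (f i)) (psi (f j)) = c := h2
        rw [hg' i, hg' j] at h2'
        exact ⟨by simpa using h1, h2'⟩
      · rw [hg', psi_emb]
    · exfalso
      choose g hg using h
      have hg' : ∀ i, psi (f i) = Sum.inr (g i) := hg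
      have hginj : Function.Injective g := by
        intro i j hij
        refine hf (psi_inj ?_)
        rw [hg', hg', hij]
      refine no_copy hD 𝓒 hC𝓒 a₀ b₀ hab c g ⟨hginj, fun i j hij => ?_⟩
      obtain ⟨h1, h2⟩ := hfE i j hij
      rw [hadj, hg' i, hg' j] at h1
      have h2' : cS c₁ (MP3240Q.Pa3.cX 𝓒 a₀ b₀) (psi (f i)) (psi (f j)) = c := h2
      rw [hg' i, hg' j] at h2'
      exact ⟨by simpa using h1, h2'⟩
  refine ⟨Y ⊕ X, inferInstance, NP P G, fun s t => cS c₁ (MP3240Q.Pa3.cX 𝓒 a₀ b₀) (psi s) (psi t), ?_⟩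
  refine ⟨?_, ?_, ?_, ?_, ?_, ?_⟩
  · -- symm
    intro x y
    exact cS_symm _ _ hsymm (cX_symm 𝓒 a₀ b₀) _ _
  · -- pas
    intro q y hy hc
    rw [hadj] at hy
    rcases y with (y | x) | q'
    · have h1 : P.Adj (Sum.inr q) (Sum.inl y) := by simpa [psi] using hy
      obtain ⟨h2, z, h3⟩ := hpas q (Sum.inl y) h1 hc
      simp at h3
    · simp [psi] at hy
    · have h1 : P.Adj (Sum.inr q) (Sum.inr q') := by simpa [psi] using hy
      obtain ⟨h2, z, h3⟩ := hpas q (Sum.inr q') h1 hc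
      exact ⟨h2, z, by rw [Sum.inr_injective h3]⟩
  · -- red
    intro f hf
    obtain ⟨g, hg, hfg⟩ := hcopy true f hf
    obtain ⟨i, q, hq⟩ := hred g hg
    exact ⟨i, q, by rw [hfg, hq]; rfl⟩
  · -- blue
    intro f hf
    obtain ⟨g, hg, hfg⟩ := hcopy false f hf
    obtain ⟨⟨z, hz⟩, hcl⟩ := hblue g hg
    have hiff : ∀ i, (∃ q, f i = Sum.inr q) ↔ ∃ q, g i = Sum.inr q := by
      intro i
      constructor
      · rintro ⟨q, hq⟩
        exact ⟨q, emb_inr _ _ (by rw [← hfg, hq])⟩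
      · rintro ⟨q, hq⟩
        exact ⟨q, by rw [hfg, hq]; rfl⟩
    refine ⟨⟨z, fun i q hq => hz i q (emb_inr _ _ (by rw [← hfg, hq]))⟩, fun i j hij => ?_⟩
    rw [hiff, hiff]
    exact hcl i j hij
  · -- two
    refine ⟨Sum.inr (Sum.inl a₀), Sum.inr (Sum.inl b₀), fun h => ?_⟩
    exact hab.ne (Sum.inl_injective (Sum.inr_injective h))
  · -- arr
    intro C β hC hβ
    have hctl : ∀ s t : X, G.Adj s t →
        C (Sum.inl (Sum.inr s)) (Sum.inl (Sum.inr t)) = β (MP3240Q.Pa3.cX 𝓒 a₀ b₀ s t) := by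
      intro s t h
      exact hβ (Sum.inr s) (Sum.inr t) (by rw [hadj]; simpa [psi] using h)
    have hctlN : ∀ s t : X, G.Adj s t →
        (NP P G).Adj (Sum.inl (Sum.inr s)) (Sum.inl (Sum.inr t)) := by
      intro s t h
      rw [hadj]
      simpa [psi] using h
    have hDG : ∀ i j, D.Adj i j → G.Adj (Sum.inl i) (Sum.inl j) :=
      fun i j h => Or.inl ⟨i, j, h, rfl, rfl⟩
    by_cases hβe : β false = β true
    · -- `D` in one colour
      have hββ : ∀ b, β b = β true := by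
        intro b
        cases b
        · exact hβe
        · rfl
      refine Or.inl ⟨β true, fun v => Sum.inr (Sum.inl v), ?_, ?_⟩
      · intro v v' h
        exact Sum.inl_injective (Sum.inr_injective (Sum.inl_injective h))
      · intro i j hij
        exact ⟨hctlN _ _ (hDG i j hij), by rw [hctl _ _ (hDG i j hij), hββ]⟩
    · have hsurjβ : ∀ c, ∃ b, β b = c := by
        intro c
        by_contra hcon
        push Not at hcon
        have h1 := hcon true
        have h2 := hcon false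
        revert hβe h1 h2
        cases β false <;> cases β true <;> cases c <;> decide
      refine Or.inr ⟨?_, ?_⟩
      · rcases harr (fun s t => C (emb Y X Q s) (emb Y X Q t)) β (fun x y => hC _ _) hβe (by
          intro d d' h
          exact hβ (Sum.inl d) (Sum.inl d') (emb_adj (X := X) (G := G) h)) with
          ⟨c, q, h⟩ | ⟨c, zf, h⟩
        · exact Or.inl ⟨c, q, star h⟩
        · exact Or.inr ⟨c, zf, full h⟩
      · intro c x hx
        obtain ⟨b, hb⟩ := hsurjβ c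
        have hG : ∀ i j, x.2.Adj i j → G.Adj (Sum.inr ⟨⟨x, hx⟩, i, b⟩)
            (Sum.inr ⟨⟨x, hx⟩, j, b⟩) :=
          fun i j h => Or.inr ⟨⟨x, hx⟩, i, j, b, h, rfl, rfl⟩
        refine ⟨fun v => Sum.inr (Sum.inr ⟨⟨x, hx⟩, v, b⟩), ?_, ?_⟩
        · intro v v' h
          have h1 := Sum.inr_injective (Sum.inr_injective (Sum.inl_injective h))
          exact (Prod.mk.inj (eq_of_heq (Sigma.mk.inj h1).2)).1
        · intro i j hij
          refine ⟨hctlN _ _ (hG i j hij), ?_⟩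
          rw [hctl _ _ (hG i j hij), ← hb]
          refine congrArg β ?_
          show (b && b) = b
          exact Bool.and_self b

end MP3240S
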