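import Pool.Agent.Lib.MP_3240be_co.S62.Defs
import Pool.Agent.Lib.MP_3240be_co.Q22.Pie
import Pool.Agent.Lib.MP_3240be_co.H62.Pps

/-!
# MP_3240be_co, Theorem T2*, row PGC: the gadget for cross-connected `D`
-/

set_option autoImplicit false

namespace MP3240S

open MP3240G (Prs)
open MP3240Q (Mono Bip SG Sub Hang Bs cbs cbs_symm Bs_pat Bs_pat' mono_base)
open MP3240G.Pps (mono_map map_inj prs_map)
open Pool.Agent.Lib.MP_3240be_co.H82 (TC)

namespace Pgc

theorem hang_map {L L' Q : Type} {t : ℕ} {U : SimpleGraph (Fin t)} {S : SimpleGraph (L ⊕ Q)}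
    {S' : SimpleGraph (L' ⊕ Q)} {C : L' ⊕ Q → L' ⊕ Q → Bool} (i : L → L')
    (hi : Function.Injective i)
    (hadj : ∀ u v, S.Adj u v → S'.Adj (Sum.map i id u) (Sum.map i id v)) {c : Bool} {N : ℕ}
    {q : Q} {w : Fin t}
    (h : Hang U S (fun u v => C (Sum.map i id u) (Sum.map i id v)) c N q w) :
    Hang U S' C c N q w := by
  obtain ⟨g, h1, h2, h3, h4⟩ := h
  refine ⟨fun ν v => Sum.map i id (g ν v),
    fun ν => mono_map _ (map_inj hi) hadj (fun _ _ => rfl) (h1 ν), fun ν => ?_, ?_, ?_⟩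
  · simp only [h2 ν]
    rfl
  · intro ν v hv
    obtain ⟨l, hl⟩ := h3 ν v hv
    exact ⟨i l, by simp only [hl]; rfl⟩
  · intro ν ν' v v' hv h5
    exact h4 ν ν' v v' hv (map_inj hi h5)

theorem full_map {k n m : ℕ} {L L' Q : Type} {D : SimpleGraph (Fin k)} {𝓛 : Set SG} {N : ℕ}
    {S : SimpleGraph (L ⊕ Q)} {S' : SimpleGraph (L' ⊕ Q)} {C : L' ⊕ Q → L' ⊕ Q → Bool}
    (i : L → L') (hi : Function.Injective i)
    (hadj : ∀ u v, S.Adj u v → S'.Adj (Sum.map i id u) (Sum.map i id v)) {c : Bool}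
    {zf : Fin n × Fin (m + 1) → Q}
    (h : Full D 𝓛 N S (fun u v => C (Sum.map i id u) (Sum.map i id v)) c zf) :
    Full D 𝓛 N S' C c zf where
  inj := h.inj
  zz := fun z z' hz => hadj _ _ (h.zz z z' hz)
  blob := by
    intro z z' a b hz hab
    obtain ⟨g, h1, h2⟩ := h.blob z z' a b hz hab
    refine ⟨fun ν v => Sum.map i id (g ν v), fun ν => ?_, ?_⟩
    · obtain ⟨h3, h4, h5, h6, h7⟩ := h1 ν
      refine ⟨(map_inj hi).comp h3, ?_, ?_, ?_, ?_⟩
      · simp only [h4]
        rfl
      · simp only [h5]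
        rfl
      · intro v hva hvb
        obtain ⟨l, hl⟩ := h6 v hva hvb
        exact ⟨i l, by simp only [hl]; rfl⟩
      · intro v v' hvv n1 n2
        obtain ⟨h8, h9⟩ := h7 v v' hvv n1 n2
        exact ⟨hadj _ _ h8, h9⟩
    · intro ν ν' v v' hva hvb h3
      exact h2 ν ν' v v' hva hvb (map_inj hi h3)
  world := by
    intro z
    obtain ⟨w, hw, h1⟩ := h.world z
    refine ⟨fun j => i (w j), hi.comp hw, fun a j => ?_⟩
    obtain ⟨h2, h3⟩ := h1 a j
    exact ⟨hadj _ _ h2, h3⟩
  hang := fun p x hx w => hang_map i hi hadj (h.hang p x hx w)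

end Pgc

open Pgc in
/-- Row PGC. -/
theorem pgc_proof (hCtx : CtxStatement) (hAt2 : At2Statement) : PgcStatement := by
  classical
  intro h k n m m₁ N fam D 𝓛 𝓒 hF hTC h𝓛 h𝓛' h𝓒 h𝓒' hn hN _
  obtain ⟨Y, hY, P, c₁, hP⟩ := hCtx h k n m N fam D 𝓛 𝓒 hF hTC h𝓛 h𝓛' h𝓒 h𝓒' hn hN
  let G : SimpleGraph (((Y ⊕ (Fin n × Fin (m + 1))) ⊕ (Bool × Bool)) ⊕ Empty) :=
    Bs P (⊥ : SimpleGraph Empty)
  have hΓ0 : ∀ (c : Bool) (f : Fin k → Empty),
      ¬ Mono (⊥ : SimpleGraph Empty) (fun _ _ => true) D c f := by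
    intro c f
    exact (f hTC.ne.some).elim
  -- the senders
  let J := {q : Bool × Y × Y // P.Adj (Sum.inl q.2.1) (Sum.inl q.2.2) ∧
    c₁ (Sum.inl q.2.1) (Sum.inl q.2.2) = q.1}
  let Z : ((Y ⊕ (Fin n × Fin (m + 1))) ⊕ (Bool × Bool)) ⊕ Empty → Prop :=
    fun w => ∃ q, w = Sum.inl (Sum.inl (Sum.inr q))
  obtain ⟨V, hV, F, ι, hι, hind, hA, hB, hL⟩ := hAt2 k D hTC
    (((Y ⊕ (Fin n × Fin (m + 1))) ⊕ (Bool × Bool)) ⊕ Empty) J G Z
    (fun j => Sum.inl (Sum.inl (Sum.inl j.1.2.1))) (fun j => Sum.inl (Sum.inl (Sum.inl j.1.2.2)))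
    (fun j => Sum.inl (Sum.inr (j.1.1, false))) (fun j => Sum.inl (Sum.inr (j.1.1, true)))
    (fun j => Bs_pat.2 j.2.1)
    (fun j => Or.inr (Or.inl ⟨j.1.1, false, true, by decide, rfl, rfl⟩))
    (fun j => ⟨by simp, by simp, by simp, by simp⟩)
    (fun j => ⟨fun h => by obtain ⟨t, ht⟩ := Bs_pat' h; simp at ht,
      fun h => by obtain ⟨t, ht⟩ := Bs_pat' h; simp at ht,
      fun h => by obtain ⟨t, ht⟩ := Bs_pat' h; simp at ht,
      fun h => by obtain ⟨t, ht⟩ := Bs_pat' h; simp at ht⟩)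
    (fun j => ⟨by rintro ⟨q, hq⟩; simp at hq, by rintro ⟨q, hq⟩; simp at hq,
      by rintro ⟨q, hq⟩; simp at hq, by rintro ⟨q, hq⟩; simp at hq⟩)
  obtain ⟨Cs, hCs1, hCs2, hCs3⟩ := hB (cbs c₁ (fun _ _ => true))
    (cbs_symm hP.symm (fun _ _ => rfl)) (by
    rintro ⟨⟨c, d, d'⟩, h1, h2⟩
    show c₁ (Sum.inl d) (Sum.inl d') = (c && c)
    rw [Bool.and_self]
    exact h2)
  -- the vertices of the gadget
  let pas : Fin n × Fin (m + 1) → V := fun q => ι (Sum.inl (Sum.inl (Sum.inr q)))
  have hpas : Function.Injective pas := fun q q' h =>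
    Sum.inr_injective (Sum.inl_injective (Sum.inl_injective (hι h)))
  let L := {v : V // ∀ q, v ≠ pas q}
  let τ : L ⊕ (Fin n × Fin (m + 1)) → V := Sum.elim Subtype.val pas
  have hτl : ∀ l : L, τ (Sum.inl l) = l.1 := fun _ => rfl
  have hτr : ∀ q, τ (Sum.inr q) = pas q := fun _ => rfl
  have hτi : Function.Injective τ := by
    rintro (l | q) (l' | q') h
    · exact congrArg Sum.inl (Subtype.ext h)
    · exact absurd h (l.2 q')
    · exact absurd h.symm (l'.2 q)
    · exact congrArg Sum.inr (hpas h)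
  have hτs : Function.Surjective τ := by
    intro v
    by_cases hv : ∃ q, v = pas q
    · obtain ⟨q, hq⟩ := hv
      exact ⟨Sum.inr q, hq.symm⟩
    · push Not at hv
      exact ⟨Sum.inl ⟨v, hv⟩, rfl⟩
  have hYL : ∀ d : Y, ∀ q, ι (Sum.inl (Sum.inl (Sum.inl d))) ≠ pas q := by
    intro d q h
    have := hι h
    simp at this
  let yl : Y → L := fun d => ⟨ι (Sum.inl (Sum.inl (Sum.inl d))), hYL d⟩
  have hyl : Function.Injective yl := fun d d' h =>
    Sum.inl_injective (Sum.inl_injective (Sum.inl_injective (hι (congrArg Subtype.val h))))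
  let σ : Y ⊕ (Fin n × Fin (m + 1)) → L ⊕ (Fin n × Fin (m + 1)) := Sum.map yl id
  have hσ : ∀ s, τ (σ s) = ι (Sum.inl (Sum.inl s)) := by
    rintro (d | q)
    · rfl
    · rfl
  let S : SimpleGraph (L ⊕ (Fin n × Fin (m + 1))) := F.comap τ
  have hS : ∀ x y, S.Adj x y ↔ F.Adj (τ x) (τ y) := fun _ _ => Iff.rfl
  have hSσ : ∀ s t, S.Adj (σ s) (σ t) ↔ P.Adj s t := by
    intro s t
    rw [hS, hσ, hσ, hind]
    exact Bs_pat
  -- monochromatic copies of the intended colouring
  have hmono : ∀ (c : Bool) (f : Fin k → L ⊕ (Fin n × Fin (m + 1))),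
      Mono S (fun x y => Cs (τ x) (τ y)) D c f →
      ∃ g : Fin k → Y ⊕ (Fin n × Fin (m + 1)), (∀ v, f v = σ (g v)) ∧ Mono P c₁ D c g := by
    intro c f hf
    have h1 : Mono F Cs D c (fun v => τ (f v)) := ⟨hτi.comp hf.1, hf.2⟩
    choose g hg using hCs3 c _ h1
    have h2 : Mono G (cbs c₁ (fun _ _ => true)) D c g := by
      refine ⟨?_, ?_⟩
      · intro x y hxy
        exact h1.1 (by
          show τ (f x) = τ (f y)
          rw [hg, hg, hxy])
      · intro i j hij
        obtain ⟨h3, h4⟩ := h1.2 i j hij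
        simp only at h3 h4
        rw [hg, hg] at h3 h4
        exact ⟨(hind _ _).1 h3, (hCs2 _ _).symm.trans h4⟩
    obtain ⟨g', hg', hm'⟩ := mono_base hTC hΓ0 h2
    refine ⟨g', fun v => hτi ?_, hm'⟩
    rw [hg, hg', hσ]
  -- private vertices
  have hprv : ∀ (q : Fin n × Fin (m + 1)) (y : L ⊕ (Fin n × Fin (m + 1))),
      S.Adj (Sum.inr q) y → Cs (τ (Sum.inr q)) (τ y) = true →
      q.2 = 0 ∧ ∃ z : Fin n, y = Sum.inr (z, 0) := by
    intro q y hadj hred
    rcases hL (Sum.inl (Sum.inl (Sum.inr q))) (τ y) hadj with ⟨v, hv⟩ | ⟨j, hj⟩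
    · have h1 : F.Adj (ι (Sum.inl (Sum.inl (Sum.inr q)))) (ι v) := by
        rw [← hv]
        exact hadj
      have h2 := (hind _ _).1 h1
      obtain ⟨s, rfl⟩ := Bs_pat' h2
      have h3 := Bs_pat.1 h2
      have h4 : c₁ (Sum.inr q) s = true := by
        have h5 : Cs (τ (Sum.inr q)) (τ y) = true := hred
        rw [hv] at h5
        have h6 := hCs2 (Sum.inl (Sum.inl (Sum.inr q))) (Sum.inl (Sum.inl s))
        exact h6.symm.trans h5
      obtain ⟨h5, z, rfl⟩ := hP.pas q s h3 h4
      exact ⟨h5, z, hτi hv⟩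
    · exfalso
      rcases hj with hj | hj | hj | hj
      · simp at hj
      · simp at hj
      · simp at hj
      · simp at hj
  have hLfin : Finite L := inferInstance
  refine ⟨L, Fin n × Fin (m + 1), hLfin, inferInstance, S, ?_⟩
  refine { base := ?_, arr := ?_ }
  · refine ⟨fun x y => Cs (τ x) (τ y), ∅, ∅, Fin n, Prod.fst, ?_, ?_⟩
    · refine
      { symm := fun x y => hCs1 _ _
        pas := ?_
        fin := Set.finite_empty
        card := by simp
        pub := by simp
        low := fun x hx => absurd hx (Set.notMem_empty x)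
        dis := fun x hx => absurd hx (Set.notMem_empty x)
        hub := fun x hx => absurd hx (Set.notMem_empty x)
        lw := fun x hx => absurd hx (Set.notMem_empty x)
        dd := ?_ }
      · intro q
        right
        by_cases hq : q.2 = 0
        · refine ⟨Set.range (fun z : Fin n => (z, (0 : Fin (m + 1)))), Set.finite_range _, ?_,
            ⟨q.1, Prod.ext rfl hq.symm⟩, ?_⟩
          · rw [← Set.image_univ]
            refine (Set.ncard_image_le Set.finite_univ).trans ?_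
            rw [Set.ncard_univ, Nat.card_fin]
          · rintro _ ⟨z, rfl⟩ y hy hred
            obtain ⟨-, z', rfl⟩ := hprv _ y hy hred
            exact ⟨(z', 0), ⟨z', rfl⟩, rfl⟩
        · refine ⟨{q}, Set.finite_singleton q, ?_, rfl, ?_⟩
          · rw [Set.ncard_singleton]
            exact hn
          · rintro q' hq' y hy hred
            rw [Set.mem_singleton_iff] at hq'
            subst hq'
            exact absurd (hprv _ y hy hred).1 hq
      · intro f hf
        obtain ⟨g, hg, hm'⟩ := hmono true f hf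
        obtain ⟨i, q, hq⟩ := hP.red g hm'
        exact ⟨i, Or.inr (Or.inr ⟨q, by rw [hg, hq]; rfl⟩)⟩
    · refine
      { symm := fun x y => hCs1 _ _
        fin := fun w => Set.toFinite _
        card := ?_
        dd := ?_ }
      · intro w
        have h1 : {q : Fin n × Fin (m + 1) | q.1 = w} =
            (fun j : Fin (m + 1) => (w, j)) '' Set.univ := by
          ext ⟨a, b⟩
          rw [Set.mem_ofPred_eq, Set.image_univ, Set.mem_range]
          simp only [Prod.mk.injEq]
          constructor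
          · rintro rfl
            exact ⟨b, rfl, rfl⟩
          · rintro ⟨j, h1, h2⟩
            exact h1.symm
        rw [h1]
        refine (Set.ncard_image_le Set.finite_univ).trans ?_
        rw [Set.ncard_univ, Nat.card_fin]
      · intro f hf
        obtain ⟨g, hg, hm'⟩ := hmono false f hf
        have key : ∀ v q, f v = Sum.inr q ↔ g v = Sum.inr q := by
          intro v q
          rw [hg]
          constructor
          · intro h1
            rcases hgv : g v with y | q'
            · rw [hgv] at h1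
              exact absurd h1 (by simp [σ])
            · rw [hgv] at h1
              have h5 : (Sum.inr q' : L ⊕ (Fin n × Fin (m + 1))) = Sum.inr q := h1
              rw [Sum.inr_injective h5]
          · intro h1
            rw [h1]
            rfl
        obtain ⟨⟨z, hz⟩, h2⟩ := hP.blue g hm'
        refine ⟨⟨z, fun i q hq => hz i q ((key i q).1 hq)⟩, fun i j hij => ?_⟩
        have h3 := h2 i j hij
        have e1 : (∃ q, f i = Sum.inr q) ↔ ∃ q, g i = Sum.inr q :=
          exists_congr fun q => key i q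
        have e2 : (∃ q, f j = Sum.inr q) ↔ ∃ q, g j = Sum.inr q :=
          exists_congr fun q => key j q
        rw [e1, e2]
        exact h3
  · intro C hC
    by_cases hcase : ∃ c, Prs S C c ⟨k, D⟩
    · exact Or.inl hcase
    right
    let e : L ⊕ (Fin n × Fin (m + 1)) ≃ V := Equiv.ofBijective τ ⟨hτi, hτs⟩
    let C' : V → V → Bool := fun x y => C (e.symm x) (e.symm y)
    have hC' : ∀ x y, C' (τ x) (τ y) = C x y := by
      intro x y
      show C (e.symm (e x)) (e.symm (e y)) = C x y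
      rw [Equiv.symm_apply_apply, Equiv.symm_apply_apply]
    have hC'σ : ∀ s t, C' (ι (Sum.inl (Sum.inl s))) (ι (Sum.inl (Sum.inl t))) =
        C (σ s) (σ t) := by
      intro s t
      rw [← hσ, ← hσ, hC']
    -- the senders work
    have hforce := hA C' (fun x y => hC _ _) (by
      intro b f hf
      by_contra hcon
      push Not at hcon
      have h1 : ∀ i, ∃ l : L, f i = τ (Sum.inl l) := by
        intro i
        refine ⟨⟨f i, fun q hq => ?_⟩, rfl⟩
        exact hcon i _ ⟨q, rfl⟩ hq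
      choose g hg using h1
      refine hcase ⟨b, g, ?_, ?_⟩
      · intro i j hij
        apply hf.1
        rw [hg, hg]
        exact congrArg τ hij
      · intro i j hij
        obtain ⟨h2, h3⟩ := hf.2 i j hij
        rw [hg i, hg j] at h2 h3
        exact ⟨(hS _ _).2 h2, (hC' _ _).symm.trans h3⟩)
    have hφ : ∀ d d', P.Adj (Sum.inl d) (Sum.inl d') → C (σ (Sum.inl d)) (σ (Sum.inl d')) =
        (fun c => C' (ι (Sum.inl (Sum.inr (c, false)))) (ι (Sum.inl (Sum.inr (c, true)))))
          (c₁ (Sum.inl d) (Sum.inl d')) := by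
      intro d d' h
      have h1 := hforce ⟨(c₁ (Sum.inl d) (Sum.inl d'), d, d'), h, rfl⟩
      rw [← hC'σ]
      exact h1
    have hadj : ∀ u v, P.Adj u v → S.Adj (Sum.map yl id u) (Sum.map yl id v) :=
      fun u v huv => (hSσ u v).2 huv
    rcases hP.arr (fun s t => C (σ s) (σ t))
      (fun c => C' (ι (Sum.inl (Sum.inr (c, false)))) (ι (Sum.inl (Sum.inr (c, true)))))
      (fun s t => hC _ _) hφ with ⟨c, hc⟩ | ⟨h1, h2⟩
    · exact absurd ⟨c, prs_map yl hyl hadj hc⟩ hcase
    · refine ⟨?_, fun c x hx => prs_map yl hyl hadj (h2 c x hx)⟩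
      rcases h1 with ⟨c, q, h3, h4⟩ | ⟨c, zf, h3⟩
      · exact Or.inl ⟨c, q, fun w => hang_map yl hyl hadj (h3 w),
          fun x hx w => hang_map yl hyl hadj (h4 x hx w)⟩
      · exact Or.inr (Or.inr ⟨c, zf, full_map yl hyl hadj h3⟩)

end MP3240S
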