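import Pool.Agent.Lib.MP_3240be_co.S62.Defs

/-!
# MP_3240be_co, Theorem T2*, row BDN: the blue part of the intended colouring
-/

set_option autoImplicit false

namespace MP3240S

open MP3240L (Two MxTwo Cl Branch gr fam)
open MP3240G (TwoCn)
open MP3240Q (Mono SG Sub em Gl Lin)

/-- The blue copies of `D` on the blocks of `H`. -/
theorem bdn_block {h M n k : ℕ} {H : SimpleGraph (Fin n)} {κ : Fin n → Bool}
    {D : SimpleGraph (Fin k)} (hD : Dt h H κ D) {L Q I M' Wt : Type} {S : SimpleGraph (L ⊕ Q)}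
    {C₀ : L ⊕ Q → L ⊕ Q → Bool} {wd : Q → Wt} {δ : M' → L → I} {f : Fin n → I ⊕ (M' × Q)}
    (hB : BBase M D S C₀ wd) (hf : Function.Injective f)
    (hT : ∀ T, Two H T → ∃ (m : M') (g : Fin n → L ⊕ Q), (∀ x ∈ T, f x = em δ m (g x)) ∧
      ∀ x ∈ T, ∀ y ∈ T, H.Adj x y → S.Adj (g x) (g y) ∧ C₀ (g x) (g y) = false)
    {T : Set (Fin n)} (hDB : DB H D T) :
    ∃ (m : M') (w : Wt), (∀ x ∈ T, ∀ p, f x = Sum.inr p → p.1 = m ∧ wd p.2 = w) ∧
      ∃ s, ∀ x ∈ T, (∃ p, f x = Sum.inr p) ↔ κ x = s := by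
  obtain ⟨m, g, hg, hg'⟩ := hT T hDB.1.1
  obtain ⟨e, he, hr, hadj⟩ := hD.iso T hDB
  have hmem : ∀ i, e i ∈ T := fun i => hr ▸ Set.mem_range_self i
  have hmono : Mono S C₀ D false (fun i => g (e i)) := by
    refine ⟨?_, ?_⟩
    · intro i j hij
      have hij' : g (e i) = g (e j) := hij
      apply he
      apply hf
      rw [hg _ (hmem i), hg _ (hmem j), hij']
    · intro i j hij
      exact hg' _ (hmem i) _ (hmem j) ((hadj i j).2 hij)
  obtain ⟨⟨w, hw⟩, hpar⟩ := hB.dd _ hmono
  have hpriv : ∀ x ∈ T, ∀ p, f x = Sum.inr p → g x = Sum.inr p.2 ∧ p.1 = m := by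
    intro x hx p hp
    have h1 := hg x hx
    rw [hp] at h1
    cases hgx : g x with
    | inl l => rw [hgx] at h1; exact absurd h1 (by simp [MP3240Q.em])
    | inr q =>
      rw [hgx] at h1
      have h2 : p = (m, q) := by simpa [MP3240Q.em] using h1
      rw [h2]
      exact ⟨rfl, rfl⟩
  have hiff : ∀ x ∈ T, (∃ p, f x = Sum.inr p) ↔ ∃ q, g x = Sum.inr q := by
    intro x hx
    constructor
    · rintro ⟨p, hp⟩
      exact ⟨p.2, (hpriv x hx p hp).1⟩
    · rintro ⟨q, hq⟩
      refine ⟨(m, q), ?_⟩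
      rw [hg x hx, hq]
      rfl
  refine ⟨m, w, ?_, ?_⟩
  · intro x hx p hp
    obtain ⟨h1, h2⟩ := hpriv x hx p hp
    refine ⟨h2, ?_⟩
    obtain ⟨i, rfl⟩ : ∃ i, e i = x := by
      have : x ∈ Set.range e := hr.symm ▸ hx
      exact this
    exact hw i _ h1
  · classical
    have hpre : D.Preconnected := hD.two.conn.preconnected
    obtain ⟨i0⟩ := hD.two.conn.nonempty
    refine ⟨if (∃ p, f (e i0) = Sum.inr p) then κ (e i0) else !κ (e i0), ?_⟩
    set s := if (∃ p, f (e i0) = Sum.inr p) then κ (e i0) else !κ (e i0) with hs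
    have h0 : (∃ p, f (e i0) = Sum.inr p) ↔ κ (e i0) = s := by
      rw [hs]
      split_ifs with h
      · exact ⟨fun _ => rfl, fun _ => h⟩
      · constructor
        · intro h'; exact absurd h' h
        · intro h'
          cases hk : κ (e i0) <;> rw [hk] at h' <;> exact absurd h' (by decide)
    have hstep : ∀ i j, D.Adj i j → ((∃ p, f (e i) = Sum.inr p) ↔ κ (e i) = s) →
        ((∃ p, f (e j) = Sum.inr p) ↔ κ (e j) = s) := by
      intro i j hij hi
      have h1 := hpar i j hij
      have h2 := hD.prop _ _ ((hadj i j).2 hij)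
      rw [hiff _ (hmem i)] at hi
      rw [hiff _ (hmem j)]
      have h3 : κ (e j) = s ↔ ¬ κ (e i) = s := by
        revert h2
        cases κ (e i) <;> cases κ (e j) <;> cases s <;> simp
      rw [h3, ← hi]
      constructor
      · intro hj hi'
        exact (h1.1 hi') hj
      · intro hi'
        by_contra hj
        exact hi' (h1.2 hj)
    have hall : ∀ i j, D.Walk i j → ((∃ p, f (e i) = Sum.inr p) ↔ κ (e i) = s) →
        ((∃ p, f (e j) = Sum.inr p) ↔ κ (e j) = s) := by
      intro i j p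
      induction p with
      | nil => exact id
      | cons hab _ ih => exact fun hi => ih (hstep _ _ hab hi)
    intro x hx
    obtain ⟨i, rfl⟩ : ∃ i, e i = x := by
      have : x ∈ Set.range e := hr.symm ▸ hx
      exact this
    obtain ⟨p⟩ := hpre i0 i
    exact hall _ _ p h0

/-- Row BDN. -/
theorem bdn : BdnStatement := by
  intro h M n k H κ D hD hM L Q I M' Wt S C₀ wd δ f hB _ hf hT
  classical
  refine ⟨{x | ∃ p, f x = Sum.inr p}, ?_, ?_⟩
  · intro T hDB
    obtain ⟨m, w, _, s, hs⟩ := bdn_block hD hB hf hT hDB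
    exact ⟨s, fun x hx => hs x hx⟩
  · intro x
    by_cases hx : ∃ p, f x = Sum.inr p
    · obtain ⟨p, hp⟩ := hx
      have key : ∀ y, Relation.ReflTransGen (Lk H D {x | ∃ p, f x = Sum.inr p}) x y →
          ∃ q, f y = Sum.inr (p.1, q) ∧ wd q = wd p.2 := by
        intro y hy
        induction hy with
        | refl => exact ⟨p.2, hp, rfl⟩
        | tail _ hlk ih =>
          obtain ⟨q, hq, hwq⟩ := ih
          obtain ⟨_, ⟨p', hp'⟩, T, hDB, h1, h2⟩ := hlk
          obtain ⟨m, w, hmw, _⟩ := bdn_block hD hB hf hT hDB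
          obtain ⟨e1, e2⟩ := hmw _ h1 _ hq
          obtain ⟨e3, e4⟩ := hmw _ h2 _ hp'
          refine ⟨p'.2, ?_, ?_⟩
          · have e5 : p'.1 = p.1 := e3.trans e1.symm
            rw [hp', ← e5]
          · rw [e4, ← e2, ← hwq]
      refine le_trans ?_ (hB.card (wd p.2))
      refine Set.ncard_le_ncard_of_injOn (fun y => (Sum.elim (fun _ => p.2) (fun q => q.2) (f y)))
        ?_ ?_ (hB.fin _)
      · intro y hy
        obtain ⟨q, hq, hw⟩ := key y hy
        show wd _ = wd p.2
        rw [hq]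
        exact hw
      · intro y hy z hz hyz
        obtain ⟨q, hq, _⟩ := key y hy
        obtain ⟨q', hq', _⟩ := key z hz
        apply hf
        have hyz' : Sum.elim (fun _ => p.2) (fun q => q.2) (f y) =
          Sum.elim (fun _ => p.2) (fun q => q.2) (f z) := hyz
        rw [hq, hq'] at hyz'
        have : q = q' := hyz'
        rw [hq, hq', this]
    · have hset : {y | Relation.ReflTransGen (Lk H D {x | ∃ p, f x = Sum.inr p}) x y} = {x} := by
        ext y
        constructor
        · intro hy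
          have hy' : Relation.ReflTransGen (Lk H D {x | ∃ p, f x = Sum.inr p}) x y := hy
          rcases Relation.ReflTransGen.cases_head hy' with h1 | ⟨z, h1, _⟩
          · exact h1.symm
          · exact absurd h1.1 hx
        · rintro rfl
          exact Relation.ReflTransGen.refl
      rw [hset, Set.ncard_singleton]
      exact hM

end MP3240S
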