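import Pool.Agent.Lib.MP_3240be_co.S62.Defs
import Pool.Agent.Lib.MP_3240be_co.H62.Cho

/-!
# MP_3240be_co, Theorem T2*, row CAX: the case distinction
-/

set_option autoImplicit false

namespace MP3240S

open MP3240G (Mx sub_trans exists_mx)
open MP3240Q (SG Sub)

theorem cax_proof : CaxStatement := by
  classical
  intro fam Tn D P hfin hD hmono hkill hgam hpp
  by_cases hex : ∃ c, P c D
  · -- `D` is present in the colour `c`
    left
    obtain ⟨c, hc⟩ := hex
    by_contra hcon
    push Not at hcon
    obtain ⟨x, hx, hxP⟩ := hcon c
    obtain ⟨y, hy, hyP⟩ := hcon (!c)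
    rcases hx with hx | hx
    · rcases hgam c with h1 | h1
      · exact hxP (h1 x hx)
      · exact hyP (h1 y hy)
    · rcases hy with hy | hy
      · rcases hgam (!c) with h1 | h1
        · exact hyP (h1 y hy)
        · rw [Bool.not_not] at h1
          exact hxP (h1 x (Or.inr hx))
      · obtain ⟨x', hx', hxx⟩ := exists_mx hfin hx
        obtain ⟨y', hy', hyy⟩ := exists_mx hfin hy
        have hx'P : ¬ P c x' := fun h => hxP (hmono c _ _ hxx h)
        have hy'P : ¬ P (!c) y' := fun h => hyP (hmono _ _ _ hyy h)
        -- `x'` is not contained in `D`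
        have hx'D : ¬ Sub x'.2 D.2 := fun h => hx'P (hmono c _ _ h hc)
        cases c with
        | true =>
          rcases hkill x' y' hx' hy' (fun h => hx'D h.1) with h | h
          · exact hx'P h
          · exact hy'P h
        | false =>
          rcases hkill y' x' hy' hx' (fun h => hx'D h.2) with h | h
          · exact hy'P h
          · exact hx'P h
  · -- `D` is absent in both colours
    right
    have hpp' := hpp.resolve_left hex
    push Not at hex
    refine ⟨hex, ?_⟩
    rintro c x (hx | ⟨hx, hDx⟩)
    · rcases hgam c with h1 | h1
      · exact h1 x hx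
      · exact absurd (h1 D (Or.inr hD.1)) (hex _)
    · by_cases hxD : Sub x.2 D.2
      · exact hpp' c x hx hDx hxD
      · obtain ⟨x', hx', hxx⟩ := exists_mx hfin hx
        have hx'D : ¬ Sub x'.2 D.2 := fun h => hxD (sub_trans hxx h)
        cases c with
        | true =>
          rcases hkill x' D hx' hD (fun h => hx'D h.1) with h | h
          · exact hmono _ _ _ hxx h
          · exact absurd h (hex _)
        | false =>
          rcases hkill D x' hD hx' (fun h => hx'D h.2) with h | h
          · exact absurd h (hex _)
          · exact hmono _ _ _ hxx h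

end MP3240S
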