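import Pool.Agent.Lib.MP_3240be_co.S62.Defs

/-!
# MP_3240be_co, Theorem T2*, row EMB: embedding in the host (helper9)
-/

set_option autoImplicit false

namespace MP3240S

open MP3240L (Two MxTwo Cl)
open MP3240Q (Mono em Gl Lin XS)

theorem emb_xs (hMon : MP3240Q.MonStatement) {L I M : Type} {δ : M → L → I} {χ : M → Prop}
    {R : ℕ} {x : I} {i j : ℕ} (hij : i ≤ j) (h : XS δ χ R j x) : XS δ χ R i x := by
  induction j, hij using Nat.le_induction with
  | base => exact h
  | succ j _ ih => exact ih (hMon L I M δ χ R j x h)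

theorem emb_inj {L Q I M : Type} {δ : M → L → I} (hδ : ∀ m, Function.Injective (δ m)) (m : M) :
    Function.Injective (em (Q := Q) δ m) := by
  rintro (a | a) (b | b) h
  · exact congrArg Sum.inl (hδ m (Sum.inl.inj h))
  · exact absurd h (by simp [MP3240Q.em])
  · exact absurd h (by simp [MP3240Q.em])
  · exact congrArg Sum.inr (congrArg Prod.snd (Sum.inr.inj h))

/-- An edge from a closed set to another connected set that meets it. -/
theorem emb_no_edge {V : Type} [Finite V] {H : SimpleGraph V} {A W : Set V} (clA : Cl H A)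
    (cW : (H.induce W).Connected) {y u v : V} (yA : y ∈ A) (yW : y ∈ W) (hu : u ∈ A)
    (hv : v ∈ W) (hvA : v ∉ A) (huv : H.Adj u v) : u ∈ W := by
  obtain ⟨T, hT, h1, h2, h3⟩ := clA.leave hu hvA huv
  obtain ⟨p, _, hp⟩ := MP3240L.exists_path cW hv yW
  exact hp u (MP3240L.sep clA.conn hT hu h1 h3 h2 yA p)

theorem emb_leave {V : Type} {H : SimpleGraph V} {A W : Set V} (cW : (H.induce W).Connected)
    {y w : V} (yW : y ∈ W) (hw : w ∈ W) (hwy : w ≠ y) (h : ∀ x ∈ A, x ∈ W → x = y) :
    ∃ z, z ∉ A ∧ H.Adj y z := by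
  obtain ⟨p, _, hpW⟩ := MP3240L.exists_path cW yW hw
  cases p with
  | nil => exact absurd rfl hwy
  | @cons _ z _ hyz p =>
    refine ⟨z, ?_, hyz⟩
    intro hz
    have hzW : z ∈ W := hpW z (by
      rw [SimpleGraph.Walk.support_cons, List.mem_cons]
      exact Or.inr p.start_mem_support)
    exact hyz.ne (h z hz hzW).symm

theorem emb_aux (hMon : MP3240Q.MonStatement) (hFre : MP3240Q.FreStatement) {n : ℕ}
    {H : SimpleGraph (Fin n)} {L Q I M : Type} {S : SimpleGraph (L ⊕ Q)} {δ : M → L → I}
    {C : I ⊕ (M × Q) → I ⊕ (M × Q) → Bool} {χ : M → Prop} {Cφ : L ⊕ Q → L ⊕ Q → Bool} {c : Bool}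
    (hδ : ∀ m, Function.Injective (δ m)) (hL : Lin δ)
    (hC : ∀ m, χ m → ∀ s s', C (em δ m s) (em δ m s') = Cφ s s')
    {A : Set (Fin n)} (hA : Gr H (GSt H S Cφ c) A) :
    ∀ j x, XS δ χ (n + 1) (j + A.ncard) x → ∃ g : Fin n → I ⊕ (M × Q), Set.InjOn g A ∧
      (∀ u ∈ A, ∀ v ∈ A, H.Adj u v → (Gl S δ).Adj (g u) (g v) ∧ C (g u) (g v) = c) ∧
      ∀ v ∈ A, (∃ v', v' ∉ A ∧ H.Adj v v') → ∃ p, g v = Sum.inl p ∧ XS δ χ (n + 1) j p := by
  classical
  induction hA with
  | start ρ =>
    intro j x hx
    refine ⟨fun _ => Sum.inl x, ?_, ?_, ?_⟩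
    · intro u hu v hv _
      rw [Set.mem_singleton_iff.1 hu, Set.mem_singleton_iff.1 hv]
    · intro u hu v hv huv
      rw [Set.mem_singleton_iff.1 hu, Set.mem_singleton_iff.1 hv] at huv
      exact absurd huv (H.loopless.irrefl _)
    · intro v _ _
      exact ⟨x, rfl, emb_xs hMon (by omega) hx⟩
  | next A W y hA clA clW yA yW h hs ih =>
    intro j x hx
    by_cases hWA : W ⊆ A
    · rw [Set.union_eq_self_of_subset_right hWA] at hx ⊢
      exact ih j x hx
    · obtain ⟨w, hw, hwA⟩ := Set.not_subset.1 hWA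
      have hcard : A.ncard + 1 ≤ (A ∪ W).ncard := by
        have h1 : insert w A ⊆ A ∪ W := Set.insert_subset (Or.inr hw) Set.subset_union_left
        have h2 := Set.ncard_le_ncard h1 (Set.toFinite _)
        rwa [Set.ncard_insert_of_notMem hwA (Set.toFinite _)] at h2
      obtain ⟨g, hg1, hg2, hg3⟩ := ih (j + 1) x (emb_xs hMon (by omega) hx)
      have hwy : w ≠ y := by
        rintro rfl
        exact hwA yA
      obtain ⟨z, hz, hyz⟩ := emb_leave clW.conn yW hw hwy h
      obtain ⟨p, hp1, hp2⟩ := hg3 y yA ⟨z, hz, hyz⟩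
      obtain ⟨f, hf1, hf2, ⟨l, hl⟩, hf4⟩ := hs
      have hB : (g '' A).ncard < n + 1 := by
        have h1 := Set.ncard_image_le (f := g) (Set.toFinite A)
        have h2 := Set.ncard_le_card A
        rw [Nat.card_fin] at h2
        omega
      obtain ⟨m, hm1, hm2, hm3, hm4⟩ := hFre (n + 1) L Q I M δ χ hδ hL j p l (g '' A)
        (Set.toFinite _) hB hp2
      have heq : ∀ v ∈ W, (if v ∈ A then g v else em δ m (f v)) = em δ m (f v) := by
        intro v hv
        by_cases hvA : v ∈ A
        · rw [if_pos hvA, h v hvA hv, hp1, hl]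
          show Sum.inl p = Sum.inl (δ m l)
          rw [hm2]
        · rw [if_neg hvA]
      have hgA : ∀ v ∈ A, (if v ∈ A then g v else em δ m (f v)) = g v := fun v hv => if_pos hv
      have hmix : ∀ a ∈ A, ∀ b ∈ W, g a = em δ m (f b) → b = y := by
        intro a ha b hb hab
        have h1 : f b = Sum.inl l := hm4 (f b) (hab ▸ Set.mem_image_of_mem g ha)
        exact hf1 hb yW (h1.trans hl.symm)
      refine ⟨fun v => if v ∈ A then g v else em δ m (f v), ?_, ?_, ?_⟩
      · intro a ha b hb hab
        have hab' : (if a ∈ A then g a else em δ m (f a)) =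
            (if b ∈ A then g b else em δ m (f b)) := hab
        by_cases haA : a ∈ A
        · by_cases hbA : b ∈ A
          · rw [hgA a haA, hgA b hbA] at hab'
            exact hg1 haA hbA hab'
          · have hbW : b ∈ W := hb.resolve_left hbA
            rw [hgA a haA, heq b hbW] at hab'
            exact absurd (hmix a haA b hbW hab' ▸ yA) hbA
        · have haW : a ∈ W := ha.resolve_left haA
          by_cases hbA : b ∈ A
          · rw [hgA b hbA, heq a haW] at hab'
            exact absurd (hmix b hbA a haW hab'.symm ▸ yA) haA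
          · have hbW : b ∈ W := hb.resolve_left hbA
            rw [heq a haW, heq b hbW] at hab'
            exact hf1 haW hbW (emb_inj hδ m hab')
      · intro a ha b hb hab
        show (Gl S δ).Adj (if a ∈ A then g a else em δ m (f a))
            (if b ∈ A then g b else em δ m (f b)) ∧
          C (if a ∈ A then g a else em δ m (f a)) (if b ∈ A then g b else em δ m (f b)) = c
        have hWW : a ∈ W → b ∈ W → (Gl S δ).Adj (if a ∈ A then g a else em δ m (f a))
            (if b ∈ A then g b else em δ m (f b)) ∧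
            C (if a ∈ A then g a else em δ m (f a)) (if b ∈ A then g b else em δ m (f b)) =
              c := by
          intro haW hbW
          rw [heq a haW, heq b hbW]
          obtain ⟨h1, h2⟩ := hf2 a haW b hbW hab
          refine ⟨⟨fun h3 => h1.ne (emb_inj hδ m h3), m, f a, f b, h1, rfl, rfl⟩, ?_⟩
          rw [hC m hm1, h2]
        by_cases haA : a ∈ A
        · by_cases hbA : b ∈ A
          · rw [hgA a haA, hgA b hbA]
            exact hg2 a haA b hbA hab
          · have hbW : b ∈ W := hb.resolve_left hbA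
            exact hWW (emb_no_edge clA clW.conn yA yW haA hbW hbA hab) hbW
        · have haW : a ∈ W := ha.resolve_left haA
          by_cases hbA : b ∈ A
          · exact hWW haW (emb_no_edge clA clW.conn yA yW hbA haW haA hab.symm)
          · exact hWW haW (hb.resolve_left hbA)
      · intro v hv hv'
        show ∃ p, (if v ∈ A then g v else em δ m (f v)) = Sum.inl p ∧ XS δ χ (n + 1) j p
        obtain ⟨v', hv', hvv'⟩ := hv'
        by_cases hvW : v ∈ W
        · rw [heq v hvW]
          obtain ⟨l', hl'⟩ := hf4 v hvW ⟨v', fun h1 => hv' (Or.inr h1), hvv'⟩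
          refine ⟨δ m l', ?_, hm3 l'⟩
          rw [hl']
          rfl
        · have hvA : v ∈ A := hv.resolve_right hvW
          rw [hgA v hvA]
          obtain ⟨p', h1, h2⟩ := hg3 v hvA ⟨v', fun h1 => hv' (Or.inl h1), hvv'⟩
          exact ⟨p', h1, emb_xs hMon (by omega) h2⟩

/-- Row EMB. -/
theorem emb_proof (hMon : MP3240Q.MonStatement) (hFre : MP3240Q.FreStatement) :
    EmxStatement := by
  intro n H L Q I M S δ C χ Cφ c hδ hL _ hC hG x hx
  have hn : (Set.univ : Set (Fin n)).ncard = n := by
    rw [Set.ncard_univ, Nat.card_fin]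
  obtain ⟨g, hg1, hg2, _⟩ := emb_aux hMon hFre hδ hL hC hG 0 x (by
    rw [hn]
    exact emb_xs hMon (by omega) hx)
  exact ⟨g, fun a b hab => hg1 (Set.mem_univ a) (Set.mem_univ b) hab,
    fun a b hab => hg2 a (Set.mem_univ a) b (Set.mem_univ b) hab⟩

end MP3240S
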