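import Pool.Agent.Lib.MP_3240be_co.S62.Defs

/-!
# MP_3240be_co, board t3s_modules, tools for the row EXT (helper34)
-/

set_option autoImplicit false

namespace MP3240S

open MP3240L

variable {V : Type} {H : SimpleGraph V}

/-- `N` is closed and all its blocks satisfy `P`. -/
def Good (H : SimpleGraph V) (P : Set V → Prop) (N : Set V) : Prop :=
  Cl H N ∧ ∀ T, MxTwo H T → T ⊆ N → P T

/-- A block inside the union of two closed sets with a common vertex. -/
theorem block_union {A B T : Set V} (hA : Cl H A) (hB : Cl H B) (h : (A ∩ B).Nonempty)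
    (hT : MxTwo H T) (hTs : T ⊆ A ∪ B) : T ⊆ A ∨ T ⊆ B := by
  by_contra hcon
  push Not at hcon
  obtain ⟨h1, h2⟩ := hcon
  have h3 : ∀ x ∈ T, ∀ y ∈ T, x ∈ A → y ∈ A → x = y := fun x hx y hy hxA hyA => by
    by_contra hxy
    exact h1 (hA.cl T hT.1 x y hxy hx hy hxA hyA)
  have h4 : ∀ x ∈ T, ∀ y ∈ T, x ∈ B → y ∈ B → x = y := fun x hx y hy hxB hyB => by
    by_contra hxy
    exact h2 (hB.cl T hT.1 x y hxy hx hy hxB hyB)
  obtain ⟨a, haT, haB⟩ := Set.not_subset.1 h2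
  obtain ⟨b, hbT, hbA⟩ := Set.not_subset.1 h1
  have haA : a ∈ A := (hTs haT).resolve_right haB
  have hbB : b ∈ B := (hTs hbT).resolve_left hbA
  obtain ⟨z, hzA, hzB⟩ := h
  obtain ⟨p, _, hp⟩ := exists_path hB.conn hbB hzB
  exact haB (hp a (sep hA.conn hT haA haT (fun x hxA hxT => h3 x hxT a haT hxA haA) hbT hzA p))

theorem Good.union {P : Set V → Prop} {A B : Set V} (hA : Good H P A) (hB : Good H P B)
    (h : (A ∩ B).Nonempty) : Good H P (A ∪ B) := by
  refine ⟨hA.1.union hB.1 h, ?_⟩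
  intro T hT hTs
  rcases block_union hA.1 hB.1 h hT hTs with h1 | h1
  · exact hA.2 T hT h1
  · exact hB.2 T hT h1

theorem Good.iUnion {ι : Type*} [Nonempty ι] {P : Set V → Prop} (A : ι → Set V)
    (hA : ∀ i, Good H P (A i)) {v : V} (hv : ∀ i, v ∈ A i) : Good H P (⋃ i, A i) := by
  have hcl := Cl.iUnion A (fun i => (hA i).1) hv
  refine ⟨hcl, ?_⟩
  intro T hT hTs
  obtain ⟨x, hx, y, hy, hxy⟩ := hT.1.nt
  obtain ⟨i, hi⟩ := Set.mem_iUnion.1 (hTs hx)
  obtain ⟨j, hj⟩ := Set.mem_iUnion.1 (hTs hy)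
  have h1 := (hA i).union (hA j) ⟨v, hv i, hv j⟩
  exact h1.2 T hT (h1.1.cl T hT.1 x y hxy hx hy (Or.inl hi) (Or.inr hj))

theorem Good.block {P : Set V → Prop} {B : Set V} (hB : MxTwo H B) (h : P B) : Good H P B := by
  refine ⟨hB.cl, ?_⟩
  intro T hT hTB
  have : T = B := Set.Subset.antisymm hTB (hT.2 B hB.1 hTB)
  rw [this]
  exact h

/-- The union of the blocks at `p` with the property `P`. -/
def star (H : SimpleGraph V) (P : Set V → Prop) (p : V) : Set V :=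
  ⋃ B : {B : Set V // MxTwo H B ∧ P B ∧ p ∈ B}, B.1

theorem star_sub {P : Set V → Prop} {p : V} {B : Set V} (h1 : MxTwo H B) (h2 : P B)
    (h3 : p ∈ B) : B ⊆ star H P p :=
  Set.subset_iUnion (fun B : {B : Set V // MxTwo H B ∧ P B ∧ p ∈ B} => B.1) ⟨B, h1, h2, h3⟩

theorem star_good {P : Set V → Prop} {p : V} (h : ∃ B, MxTwo H B ∧ P B ∧ p ∈ B) :
    Good H (fun T => P T ∧ p ∈ T) (star H P p) := by
  obtain ⟨B, h1, h2, h3⟩ := h
  have : Nonempty {B : Set V // MxTwo H B ∧ P B ∧ p ∈ B} := ⟨⟨B, h1, h2, h3⟩⟩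
  exact Good.iUnion _ (fun B => Good.block B.2.1 ⟨B.2.2.1, B.2.2.2⟩) (v := p) fun B => B.2.2.2

theorem Good.mono {P Q : Set V → Prop} {N : Set V} (h : Good H P N) (hPQ : ∀ T, P T → Q T) :
    Good H Q N := ⟨h.1, fun T hT hTN => hPQ T (h.2 T hT hTN)⟩

/-- The branch at a vertex of a block that contains the rest of the block. -/
theorem exists_branch [Finite V] (hH : H.Connected) {B : Set V} (hB : MxTwo H B) {x : V}
    (hx : x ∈ B) : ∃ K, Branch H x K ∧ B \ {x} ⊆ K := by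
  obtain ⟨y, hy, hyx⟩ : ∃ y ∈ B, y ≠ x := by
    obtain ⟨a, ha, b, hb, hab⟩ := hB.1.nt
    by_cases h : a = x
    · exact ⟨b, hb, fun h' => hab (h.trans h'.symm)⟩
    · exact ⟨a, ha, h⟩
  obtain ⟨u, hu, K, hK, hyK, _⟩ := (Cl.single (H := H) x).branch hH (x := y) hyx
  rw [Set.mem_singleton_iff] at hu
  subst hu
  exact ⟨K, hK, hK.absorb (hB.1.cut u hx) (fun h => h.2 rfl) ⟨y, ⟨hy, hyx⟩, hyK⟩⟩

/-- Two blocks at the root of a branch that meet the branch are equal. -/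
theorem Branch.eq [Finite V] {u : V} {K : Set V} (hK : Branch H u K) {S T : Set V}
    (hS : MxTwo H S) (hT : MxTwo H T) (h1 : u ∈ S) (h2 : (S ∩ K).Nonempty) (h3 : u ∈ T)
    (h4 : (T ∩ K).Nonempty) : S = T := by
  obtain ⟨B, _, _, _, _, h⟩ := hK.block
  rw [h S hS h1 h2, h T hT h3 h4]

/-- A block with a vertex in a branch lies in the branch with its root. -/
theorem _root_.MP3240L.Branch.sub {u : V} {K : Set V} (hK : Branch H u K) {B : Set V} (hB : Two H B) {c : V}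
    (hcB : c ∈ B) (hcK : c ∈ K) : B ⊆ insert u K := by
  have h1 := hK.absorb (hB.diff u) (fun h => h.2 rfl)
    ⟨c, ⟨hcB, fun h => hK.nu (by rw [← Set.mem_singleton_iff.1 h]; exact hcK)⟩, hcK⟩
  intro x hx
  by_cases h : x = u
  · exact Or.inl h
  · exact Or.inr (h1 ⟨hx, h⟩)


end MP3240S
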