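import Pool.Agent.Lib.MP_3240be_co.S62.ExtA

/-!
# MP_3240be_co, board t3s_modules, row EXT, second proof (helper34)
-/

set_option autoImplicit false

namespace MP3240S

open MP3240L
open MP3240Q (Sub)

section Core

variable {n k : ℕ} {H : SimpleGraph (Fin n)} {D : SimpleGraph (Fin k)} {X : Set (Fin n)}

/-- Linked by a `D`-block different from `B`. -/
def Rl (H : SimpleGraph (Fin n)) (D : SimpleGraph (Fin k)) (X : Set (Fin n)) (B : Set (Fin n))
    (a b : Fin n) : Prop :=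
  b ∈ X ∧ ∃ T, DB H D T ∧ T ≠ B ∧ a ∈ T ∧ b ∈ T

/-- The vertices that are reached from `x` without the block `B`. -/
def Cs (H : SimpleGraph (Fin n)) (D : SimpleGraph (Fin k)) (X : Set (Fin n)) (B : Set (Fin n))
    (x : Fin n) : Set (Fin n) :=
  {v | Relation.ReflTransGen (Rl H D X B) x v}

theorem cs_ind {B : Set (Fin n)} {x : Fin n} (P : Fin n → Prop) (h0 : P x)
    (hs : ∀ a b T, a ∈ Cs H D X B x → b ∈ Cs H D X B x → P a → b ∈ X → DB H D T → T ≠ B →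
      a ∈ T → b ∈ T → P b) : ∀ v ∈ Cs H D X B x, P v := by
  intro v hv
  have key : ∀ v, Relation.ReflTransGen (Rl H D X B) x v → v ∈ Cs H D X B x ∧ P v := by
    intro v hv
    induction hv with
    | refl => exact ⟨Relation.ReflTransGen.refl, h0⟩
    | @tail a b hab hbc ih =>
      obtain ⟨hbX, T, h1, h2, h3, h4⟩ := hbc
      have hb : b ∈ Cs H D X B x := hab.tail ⟨hbX, T, h1, h2, h3, h4⟩
      exact ⟨hb, hs a b T ih.1 hb ih.2 hbX h1 h2 h3 h4⟩
  exact (key v hv).2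

theorem cs_step {B : Set (Fin n)} {x a b : Fin n} {T : Set (Fin n)} (ha : a ∈ Cs H D X B x)
    (hb : b ∈ X) (h1 : DB H D T) (h2 : T ≠ B) (h3 : a ∈ T) (h4 : b ∈ T) :
    b ∈ Cs H D X B x :=
  Relation.ReflTransGen.tail ha ⟨hb, T, h1, h2, h3, h4⟩

end Core

/-- Row EXT, second proof. -/
theorem ext_proof' : ExtStatement := by
  classical
  intro h n k m r H κ D hDt X hX hcl z₀ zz hzz hz₀ u K hK hq
  have hH := hDt.conn
  obtain ⟨o, ho, huo, hoK, hosub, _⟩ := hK.block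
  by_cases hDo : Sub D (H.induce o)
  swap
  · refine ⟨o, ho.cl, huo, ?_, hosub, Or.inl ⟨ho, hDo⟩⟩
    rintro rfl
    obtain ⟨x, hx, y, hy, hxy⟩ := ho.1.nt
    exact hxy ((Set.mem_singleton_iff.1 hx).trans (Set.mem_singleton_iff.1 hy).symm)
  -- two vertices in every class
  have htwo : ∀ T, DB H D T → ∀ s v, ∃ w ∈ T, κ w = s ∧ w ≠ v := by
    intro T hT s v
    have h1 := hDt.big T hT s
    have h2 := hDt.one
    by_contra hcon
    push Not at hcon
    have h3 : T ∩ {x | κ x = s} ⊆ {v} := by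
      rintro w ⟨hw, hws⟩
      exact hcon w hw hws
    have h4 := Set.ncard_le_ncard h3 (Set.toFinite _)
    rw [Set.ncard_singleton] at h4
    omega
  have hoD : DB H D o := ⟨ho, hDo⟩
  obtain ⟨s, hs⟩ := hX o hoD
  obtain ⟨y, hyo, hys, hyu⟩ := htwo o hoD (!s) u
  have hyX : y ∉ X := by
    rw [hs y hyo, hys]
    cases s <;> simp
  have hyK : y ∈ K := (hosub hyo).resolve_left hyu
  -- the neighbours
  have hnb : ∀ B, DB H D B → y ∈ B → ∃ x ∈ B, x ≠ u ∧ H.Adj y x ∧ x ∈ X := by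
    intro B hB hyB
    obtain ⟨w, hw, hwk, hwu⟩ := htwo B hB (!(κ y)) u
    have hwy : w ≠ y := by
      rintro rfl
      revert hwk
      cases κ w <;> simp
    obtain ⟨p, _, hp⟩ := exists_path (hB.1.1.diff u) (u := y) (v := w)
      ⟨hyB, hyu⟩ ⟨hw, hwu⟩
    cases p with
    | nil => exact absurd rfl hwy
    | @cons _ x _ hx q =>
      have hxB : x ∈ B \ {u} := hp x (by
        rw [SimpleGraph.Walk.support_cons, List.mem_cons]
        exact Or.inr q.start_mem_support)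
      refine ⟨x, hxB.1, hxB.2, hx, ?_⟩
      obtain ⟨s', hs'⟩ := hX B hB
      have h1 : κ y ≠ s' := fun h => hyX ((hs' y hyB).2 h)
      rw [hs' x hxB.1]
      have h2 := hDt.prop y x hx
      revert h1 h2
      cases κ y <;> cases κ x <;> cases s' <;> simp
  have hnb' : ∀ B, ∃ x, DB H D B → y ∈ B → x ∈ B ∧ x ≠ u ∧ H.Adj y x ∧ x ∈ X := by
    intro B
    by_cases hB : DB H D B ∧ y ∈ B
    · obtain ⟨x, h1, h2, h3, h4⟩ := hnb B hB.1 hB.2
      exact ⟨x, fun _ _ => ⟨h1, h2, h3, h4⟩⟩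
    · exact ⟨u, fun h1 h2 => absurd ⟨h1, h2⟩ hB⟩
  choose xx hxx using hnb'
  let C : Set (Fin n) → Set (Fin n) := fun B => Cs H D X B (xx B)
  have hxC : ∀ B, xx B ∈ C B := fun B => Relation.ReflTransGen.refl
  -- (c1)
  have c1 : ∀ B, DB H D B → y ∈ B → ∀ v ∈ C B, v ∈ X := fun B hB hyB =>
    cs_ind (fun v => v ∈ X) (hxx B hB hyB).2.2.2 fun a b T _ _ _ h _ _ _ _ => h
  -- (c2) the branch at `xx B`
  have c2 : ∀ B, DB H D B → y ∈ B → ∃ K', B \ {xx B} ⊆ K' ∧ y ∈ K' ∧ u ∈ K' ∧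
      ∀ v ∈ C B, v ∉ K' := by
    intro B hB hyB
    obtain ⟨h1, h2, h3, h4⟩ := hxx B hB hyB
    obtain ⟨K', hK', hBK⟩ := exists_branch hH hB.1 h1
    have hyK' : y ∈ K' := hBK ⟨hyB, fun h => h3.ne h⟩
    have huK' : u ∈ K' := by
      rcases hK'.sub ho.1 hyo hyK' huo with h5 | h5
      · exact absurd h5.symm h2
      · exact h5
    refine ⟨K', hBK, hyK', huK', ?_⟩
    refine cs_ind (fun v => v ∉ K') hK'.nu ?_
    intro a b T _ _ ha _ hT hTB haT hbT hb
    have h5 := hK'.sub hT.1.1 hbT hb haT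
    have h6 : a = xx B := h5.resolve_right ha
    subst h6
    exact hTB (Branch.eq hK' hT.1 hB.1 haT ⟨b, hbT, hb⟩ h1 ⟨y, hyB, hyK'⟩)
  have cu : ∀ B, DB H D B → y ∈ B → u ∉ C B := by
    intro B hB hyB hu
    obtain ⟨K', _, _, h3, h4⟩ := c2 B hB hyB
    exact h4 u hu h3
  have c3 : ∀ B, DB H D B → y ∈ B → ∀ v ∈ C B, v ∈ B → v = xx B := by
    intro B hB hyB v hv hvB
    by_contra hne
    obtain ⟨K', h1, _, _, h4⟩ := c2 B hB hyB
    exact h4 v hv (h1 ⟨hvB, hne⟩)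
  -- (c4) the branch at `y`
  have c4 : ∀ B, DB H D B → y ∈ B → ∃ L, Branch H y L ∧ B \ {y} ⊆ L ∧ ∀ v ∈ C B, v ∈ L := by
    intro B hB hyB
    obtain ⟨h1, h2, h3, h4⟩ := hxx B hB hyB
    obtain ⟨L, hL, hBL⟩ := exists_branch hH hB.1 hyB
    refine ⟨L, hL, hBL, ?_⟩
    refine cs_ind (fun v => v ∈ L) (hBL ⟨h1, fun h => h3.ne (Set.mem_singleton_iff.1 h).symm⟩) ?_
    intro a b T _ _ ha hbX hT _ haT hbT
    rcases hL.sub hT.1.1 haT ha hbT with h5 | h5
    · exact absurd (h5 ▸ hbX) hyX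
    · exact h5
  -- a block at `y` that meets `C B`
  have c4' : ∀ B, DB H D B → y ∈ B → ∀ T, MxTwo H T → y ∈ T → ∀ v ∈ C B, v ∈ T → T = B := by
    intro B hB hyB T hT hyT v hv hvT
    obtain ⟨L, hL, h1, h2⟩ := c4 B hB hyB
    obtain ⟨h3, h4, h5, h6⟩ := hxx B hB hyB
    exact Branch.eq hL hT hB.1 hyT ⟨v, hvT, h2 v hv⟩ hyB ⟨xx B, h3, h2 _ (hxC B)⟩
  have c5 : ∀ B B', DB H D B → y ∈ B → DB H D B' → y ∈ B' → ∀ v ∈ C B, v ∈ C B' → B = B' := by
    intro B B' hB hyB hB' hyB' v hv hv'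
    obtain ⟨L, hL, h1, h2⟩ := c4 B hB hyB
    obtain ⟨L', hL', h1', h2'⟩ := c4 B' hB' hyB'
    have h3 : L' ⊆ L := hL.absorb hL'.conn hL'.nu ⟨v, h2' v hv', h2 v hv⟩
    exact Branch.eq hL hB.1 hB'.1 hyB ⟨xx B, (hxx B hB hyB).1, h2 _ (hxC B)⟩ hyB'
      ⟨xx B', (hxx B' hB' hyB').1, h3 (h2' _ (hxC B'))⟩
  -- (c6)
  have c6 : ∀ B, DB H D B → y ∈ B → ∀ v ∈ C B, v ∈ K := by
    intro B hB hyB
    obtain ⟨h1, h2, h3, h4⟩ := hxx B hB hyB
    have h5 : xx B ∈ K := (hK.sub hB.1.1 hyB hyK h1).resolve_left h2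
    refine cs_ind (fun v => v ∈ K) h5 ?_
    intro a b T _ hb ha _ hT _ haT hbT
    refine (hK.sub hT.1.1 haT ha hbT).resolve_left ?_
    rintro rfl
    exact cu B hB hyB hb
  -- (c7)
  have c7 : ∀ B, DB H D B → y ∈ B → (C B).ncard ≤ m + 1 := by
    intro B hB hyB
    obtain ⟨h1, h2, h3, h4⟩ := hxx B hB hyB
    obtain ⟨s', hs'⟩ := hX B hB
    obtain ⟨x', hx'B, hx's, hx'x⟩ := htwo B hB s' (xx B)
    have hx'X : x' ∈ X := (hs' x' hx'B).2 hx's
    have h5 : insert x' (C B) ⊆ {v | Relation.ReflTransGen (Lk H D X) (xx B) v} := by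
      rintro v (rfl | hv)
      · exact Relation.ReflTransGen.single ⟨h4, hx'X, B, hB, h1, hx'B⟩
      · revert v
        refine cs_ind _ Relation.ReflTransGen.refl ?_
        intro a b T ha _ ih hbX hT _ haT hbT
        exact ih.tail ⟨c1 B hB hyB a ha, hbX, T, hT, haT, hbT⟩
    have h6 := (Set.ncard_le_ncard h5 (Set.toFinite _)).trans (hcl (xx B))
    have h7 : x' ∉ C B := fun h => hx'x (c3 B hB hyB x' h hx'B)
    rw [Set.ncard_insert_of_notMem h7 (Set.toFinite _)] at h6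
    omega
  -- the private vertices
  let Pv : Set (Fin n) := {v | v = y ∨ ∃ B, DB H D B ∧ y ∈ B ∧ v ∈ C B}
  have pv_ind : ∀ P : Fin n → Prop, P y → (∀ B, DB H D B → y ∈ B → P y → P (xx B)) →
      (∀ a b T, a ∈ Pv → b ∈ Pv → P a → DB H D T → a ∈ T → b ∈ T → P b) →
      ∀ v ∈ Pv, P v := by
    rintro P h1 h2 h3 v (rfl | ⟨B, hB, hyB, hv⟩)
    · exact h1
    · revert v
      refine cs_ind P (h2 B hB hyB h1) ?_
      intro a b T ha hb hPa _ hT _ haT hbT
      exact h3 a b T (Or.inr ⟨B, hB, hyB, ha⟩) (Or.inr ⟨B, hB, hyB, hb⟩) hPa hT haT hbT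
  have hyPv : y ∈ Pv := Or.inl rfl
  have hxPv : ∀ B, DB H D B → y ∈ B → xx B ∈ Pv := fun B hB hyB => Or.inr ⟨B, hB, hyB, hxC B⟩
  have hPvK : ∀ v ∈ Pv, v ∈ K := by
    rintro v (rfl | ⟨B, hB, hyB, hv⟩)
    · exact hyK
    · exact c6 B hB hyB v hv
  have huPv : u ∉ Pv := fun h => hK.nu (hPvK u h)
  -- the two unions of blocks
  let W : Set (Fin n) := ⋃ p : Pv, star H (fun _ => True) p.1
  have hstW : ∀ p ∈ Pv, star H (fun _ => True) p ⊆ W := fun p hp =>
    Set.subset_iUnion (fun p : Pv => star H (fun _ => True) p.1) ⟨p, hp⟩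
  have hblW : ∀ p ∈ Pv, ∀ B, MxTwo H B → p ∈ B → B ⊆ W := fun p hp B hB hpB =>
    (star_sub hB trivial hpB).trans (hstW p hp)
  have hex : ∀ p ∈ Pv, ∃ B, DB H D B ∧ p ∈ B := by
    refine pv_ind _ ⟨o, hoD, hyo⟩ (fun B hB hyB _ => ⟨B, hB, (hxx B hB hyB).1⟩) ?_
    intro a b T _ _ _ hT _ hbT
    exact ⟨T, hT, hbT⟩
  have hgst : ∀ p ∈ Pv, Good H (fun T => ∃ q ∈ Pv, q ∈ T) (star H (fun _ => True) p) := by
    intro p hp
    obtain ⟨B, hB, hpB⟩ := hex p hp
    exact (star_good ⟨B, hB.1, trivial, hpB⟩).mono fun T hT => ⟨p, hp, hT.2⟩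
  have hN : ∀ p ∈ Pv, ∃ N, Good H (fun T => ∃ q ∈ Pv, q ∈ T) N ∧ y ∈ N ∧ N ⊆ W ∧
      star H (fun _ => True) p ⊆ N := by
    have hyst : y ∈ star H (fun _ => True) y := star_sub ho trivial hyo hyo
    refine pv_ind _ ⟨star H (fun _ => True) y, hgst y hyPv, hyst, hstW y hyPv, subset_rfl⟩ ?_ ?_
    · rintro B hB hyB ⟨N, h1, h2, h3, h4⟩
      obtain ⟨h5, _, _, _⟩ := hxx B hB hyB
      refine ⟨N ∪ star H (fun _ => True) (xx B), h1.union (hgst _ (hxPv B hB hyB)) ?_,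
        Or.inl h2, Set.union_subset h3 (hstW _ (hxPv B hB hyB)), Set.subset_union_right⟩
      exact ⟨xx B, h4 (star_sub hB.1 trivial hyB h5), star_sub hB.1 trivial h5 h5⟩
    · rintro a b T ha hb ⟨N, h1, h2, h3, h4⟩ hT haT hbT
      refine ⟨N ∪ star H (fun _ => True) b, h1.union (hgst b hb) ?_, Or.inl h2,
        Set.union_subset h3 (hstW b hb), Set.subset_union_right⟩
      exact ⟨a, h4 (star_sub hT.1 trivial haT haT), star_sub hT.1 trivial hbT haT⟩
  have hWg : Good H (fun T => ∃ q ∈ Pv, q ∈ T) W := by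
    have hN' : ∀ p : Pv, ∃ N, Good H (fun T => ∃ q ∈ Pv, q ∈ T) N ∧ y ∈ N ∧ N ⊆ W ∧
      star H (fun _ => True) p.1 ⊆ N := fun p => hN p.1 p.2
    choose N h1 h2 h3 h4 using hN'
    have : Nonempty Pv := ⟨⟨y, hyPv⟩⟩
    have h5 := Good.iUnion N h1 h2
    have h6 : (⋃ p, N p) = W := Set.Subset.antisymm (Set.iUnion_subset h3)
      (Set.iUnion_mono fun p => h4 p)
    rwa [h6] at h5
  have hND : ∀ p ∈ Pv, ∃ N, Good H (fun T => Sub D (H.induce T)) N ∧ y ∈ N ∧ p ∈ N := by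
    have hg : Good H (fun T => Sub D (H.induce T)) (star H (fun T => Sub D (H.induce T)) y) :=
      (star_good ⟨o, ho, hDo, hyo⟩).mono fun T hT => hT.1
    have hyst : y ∈ star H (fun T => Sub D (H.induce T)) y := star_sub ho hDo hyo hyo
    refine pv_ind _ ⟨_, hg, hyst, hyst⟩ ?_ ?_
    · rintro B hB hyB _
      exact ⟨_, hg, hyst, star_sub hB.1 hB.2 hyB (hxx B hB hyB).1⟩
    · rintro a b T ha hb ⟨N, h1, h2, h3⟩ hT haT hbT
      exact ⟨N ∪ T, h1.union (Good.block hT.1 hT.2) ⟨a, h3, haT⟩, Or.inl h2, Or.inr hbT⟩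
  have htwoPv : ∀ T, MxTwo H T → ∀ p ∈ Pv, ∀ q ∈ Pv, p ∈ T → q ∈ T → p ≠ q →
      Sub D (H.induce T) := by
    intro T hT p hp q hq hpT hqT hpq
    obtain ⟨N, h1, h2, h3⟩ := hND p hp
    obtain ⟨N', h1', h2', h3'⟩ := hND q hq
    have h4 := h1.union h1' ⟨y, h2, h2'⟩
    exact h4.2 T hT (h4.1.cl T hT.1 p q hpq hpT hqT (Or.inl h3) (Or.inr h3'))
  -- the labels
  have hfinq : Nat.card (qs H D y) ≤ r + 1 := hq y hyK hyX
  have hι : ∃ ι : Set (Fin n) → Fin (r + 1), ∀ B B', DB H D B → y ∈ B → DB H D B' → y ∈ B' →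
      ι B = ι B' → B = B' := by
    have e : qs H D y ↪ Fin (r + 1) :=
      (Finite.equivFin (qs H D y)).toEmbedding.trans (Fin.castLEEmb hfinq)
    refine ⟨fun B => if hB : B ∈ qs H D y then e ⟨B, hB⟩ else 0, ?_⟩
    intro B B' h1 h2 h3 h4 h5
    have hB : B ∈ qs H D y := ⟨h1, h2⟩
    have hB' : B' ∈ qs H D y := ⟨h3, h4⟩
    simp only [hB, hB', dif_pos] at h5
    exact Subtype.ext_iff.1 (e.injective h5)
  obtain ⟨ι, hι⟩ := hι
  have hj : ∀ B, ∃ j : Fin n → Fin (m + 1), DB H D B → y ∈ B → j (xx B) = 0 ∧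
      ∀ v ∈ C B, ∀ w ∈ C B, j v = j w → v = w := by
    intro B
    by_cases hB : DB H D B ∧ y ∈ B
    · have h1 : Nat.card (C B) ≤ m + 1 := c7 B hB.1 hB.2
      have e : C B ↪ Fin (m + 1) :=
        (Finite.equivFin (C B)).toEmbedding.trans (Fin.castLEEmb h1)
      refine ⟨fun v => if hv : v ∈ C B then Equiv.swap (e ⟨xx B, hxC B⟩) 0 (e ⟨v, hv⟩) else 0,
        fun _ _ => ⟨?_, ?_⟩⟩
      · simp only [hxC B, dif_pos]
        exact Equiv.swap_apply_left _ _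
      · intro v hv w hw h2
        simp only [hv, hw, dif_pos] at h2
        exact Subtype.ext_iff.1 (e.injective ((Equiv.swap _ _).injective h2))
    · exact ⟨fun _ => 0, fun h1 h2 => absurd ⟨h1, h2⟩ hB⟩
  choose jj hjj using hj
  let pv : Fin n → Option (Fin n × Fin (m + 1)) := fun x =>
    if x = y then some (z₀, 0) else
      if hx : ∃ B, DB H D B ∧ y ∈ B ∧ x ∈ C B then some (zz (ι hx.choose), jj hx.choose x)
      else none
  have pv_y : pv y = some (z₀, 0) := if_pos rfl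
  have pv_C : ∀ B, DB H D B → y ∈ B → ∀ v ∈ C B, pv v = some (zz (ι B), jj B v) := by
    intro B hB hyB v hv
    have h1 : v ≠ y := by
      rintro rfl
      exact hyX (c1 B hB hyB v hv)
    have hx : ∃ B, DB H D B ∧ y ∈ B ∧ v ∈ C B := ⟨B, hB, hyB, hv⟩
    have h2 : hx.choose = B :=
      c5 _ _ hx.choose_spec.1 hx.choose_spec.2.1 hB hyB v hx.choose_spec.2.2 hv
    show (if v = y then some (z₀, 0) else
      if hx : ∃ B, DB H D B ∧ y ∈ B ∧ v ∈ C B then some (zz (ι hx.choose), jj hx.choose v)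
      else none) = _
    rw [if_neg h1, dif_pos hx, h2]
  have pv_none : ∀ v, v ∉ Pv → pv v = none := by
    intro v hv
    show (if v = y then some (z₀, 0) else
      if hx : ∃ B, DB H D B ∧ y ∈ B ∧ v ∈ C B then some (zz (ι hx.choose), jj hx.choose v)
      else none) = _
    rw [if_neg (fun h => hv (Or.inl h)), dif_neg (fun h => hv (Or.inr h))]
  have pv_iff : ∀ v, pv v ≠ none ↔ v ∈ Pv := by
    intro v
    constructor
    · intro h1
      by_contra h2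
      exact h1 (pv_none v h2)
    · rintro (rfl | ⟨B, hB, hyB, hv⟩)
      · rw [pv_y]
        simp
      · rw [pv_C B hB hyB v hv]
        simp
  have hWK : W ⊆ insert u K := by
    intro x hx
    obtain ⟨p, hp⟩ := Set.mem_iUnion.1 hx
    obtain ⟨B, hB⟩ := Set.mem_iUnion.1 hp
    exact hK.sub B.2.1.1 B.2.2.2 (hPvK p.1 p.2) hB
  have hoW : o ⊆ W := hblW y hyPv o ho hyo
  refine ⟨W, hWg.1, hoW huo, ?_, hWK, Or.inr ⟨pv, ?_, ?_, ?_, ?_, ?_⟩⟩
  · intro h1
    have h2 : y ∈ W := hoW hyo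
    rw [h1] at h2
    exact hyu h2
  · exact pv_none u huPv
  · -- inj
    intro x x' q hx hx'
    have h1 : x ∈ Pv := (pv_iff x).1 (by rw [hx]; simp)
    have h1' : x' ∈ Pv := (pv_iff x').1 (by rw [hx']; simp)
    rw [← hx'] at hx
    rcases h1 with rfl | ⟨B, hB, hyB, hv⟩
    · rcases h1' with rfl | ⟨B', hB', hyB', hv'⟩
      · rfl
      · rw [pv_y, pv_C B' hB' hyB' x' hv'] at hx
        simp only [Option.some.injEq, Prod.mk.injEq] at hx
        exact absurd hx.1.symm (hz₀ _)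
    · rcases h1' with rfl | ⟨B', hB', hyB', hv'⟩
      · rw [pv_y, pv_C B hB hyB x hv] at hx
        simp only [Option.some.injEq, Prod.mk.injEq] at hx
        exact absurd hx.1 (hz₀ _)
      · rw [pv_C B hB hyB x hv, pv_C B' hB' hyB' x' hv'] at hx
        simp only [Option.some.injEq, Prod.mk.injEq] at hx
        have h2 : B = B' := hι B B' hB hyB hB' hyB' (hzz hx.1)
        subst h2
        exact (hjj B hB hyB).2 x hv x' hv' hx.2
  · -- all
    intro x _ hx x' hxx'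
    obtain ⟨T, hT, hsub⟩ := exists_mxTwo (two_adj hxx')
    exact hblW x ((pv_iff x).1 hx) T hT (hsub (by simp)) (hsub (by simp))
  · -- sh
    intro T T' x hT hT' hTW hT'W hxT hxT' hx
    have hxPv' : x ∉ Pv := fun h => (pv_iff x).2 h hx
    obtain ⟨p, hp, hpT⟩ := hWg.2 T hT hTW
    obtain ⟨p', hp', hpT'⟩ := hWg.2 T' hT' hT'W
    have hxy : y ∉ ({x} : Set (Fin n)) := fun h => hxPv' (Or.inl (Set.mem_singleton_iff.1 h).symm)
    obtain ⟨x1, hx1, Kx, hKx, hyKx, _⟩ := (Cl.single (H := H) x).branch hH hxy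
    rw [Set.mem_singleton_iff] at hx1
    subst hx1
    have h1 : ∀ v ∈ Pv, v ∈ Kx := by
      refine pv_ind _ hyKx ?_ ?_
      · intro B hB hyB _
        rcases hKx.cl y hyKx (xx B) (hxx B hB hyB).2.2.1 with h2 | h2
        · exact absurd (h2 ▸ hxPv B hB hyB) hxPv'
        · exact h2
      · intro a b T'' _ hb ha hT'' haT hbT
        rcases hKx.sub hT''.1.1 haT ha hbT with h2 | h2
        · exact absurd (h2 ▸ hb) hxPv'
        · exact h2
    exact Branch.eq hKx hT hT' hxT ⟨p, hpT, h1 p hp⟩ hxT' ⟨p', hpT', h1 p' hp'⟩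
  · -- blk
    intro T hT hTW
    obtain ⟨p, hp, hpT⟩ := hWg.2 T hT hTW
    by_cases hDT : Sub D (H.induce T)
    swap
    · left
      refine ⟨hDT, p, hpT, (pv_iff p).2 hp, ?_⟩
      intro x' hx' hne
      by_contra h1
      exact hDT (htwoPv T hT p hp x' ((pv_iff x').1 h1) hpT hx' (Ne.symm hne))
    right
    have hTD : DB H D T := ⟨hT, hDT⟩
    by_cases hyT : y ∈ T
    · left
      obtain ⟨h1, h2, h3, h4⟩ := hxx T hTD hyT
      refine ⟨hTD, ι T, y, hyT, xx T, h1, h3, pv_y, ?_, ?_⟩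
      · rw [pv_C T hTD hyT (xx T) (hxC T), (hjj T hTD hyT).1]
      · intro x' hx' hne hne'
        by_contra h5
        rcases (pv_iff x').1 h5 with h6 | ⟨B, hB, hyB, hv⟩
        · exact hne' h6
        · have h7 : T = B := c4' B hB hyB T hT hyT x' hv hx'
          subst h7
          exact hne (c3 T hB hyB x' hv hx')
    · right
      rcases hp with rfl | ⟨B, hB, hyB, hv⟩
      · exact absurd hpT hyT
      have hTB : T ≠ B := by
        rintro rfl
        exact hyT hyB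
      refine ⟨hTD, ι B, X, ?_, ?_, ?_⟩
      · intro x hx hxX
        exact ⟨jj B x, pv_C B hB hyB x (cs_step hv hxX hTD hTB hpT hx)⟩
      · intro x hx hxX
        refine pv_none x ?_
        rintro (rfl | ⟨B', hB', hyB', hv'⟩)
        · exact hyT hx
        · exact hxX (c1 B' hB' hyB' x hv')
      · intro x hx x' hx' hxx'
        obtain ⟨s', hs'⟩ := hX T hTD
        rw [hs' x hx, hs' x' hx']
        have h1 := hDt.prop x x' hxx'
        revert h1
        cases κ x <;> cases κ x' <;> cases s' <;> simp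

end MP3240S
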