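import Pool.Agent.Lib.MP_3240be_co.S62.Defs

/-!
# Row GAX (helper4): copies of `D` in the graph of the labels

A copy of `D` without edges between private vertices uses no low of a label of kind One; if it
uses a low of a world, it lies in this world; otherwise `D` is contained in a blob graph.
-/

set_option autoImplicit false

namespace MP3240S

open Finset
open MP3240G (TwoCn Mx Blobbed BIn)
open MP3240Q (Bip SG Sub)

namespace Gax

/-- A property that spreads along edges. -/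
theorem spread {V : Type} {G : SimpleGraph V} (hc : G.Connected) (P : V → Prop)
    (hP : ∀ u v, G.Adj u v → P u → P v) (u v : V) (hu : P u) : P v := by
  obtain ⟨w⟩ := hc.preconnected u v
  induction w with
  | nil => exact hu
  | cons h _ ih => exact ih (hP _ _ h hu)

/-- The same without the vertex `a`. -/
theorem spread' {k : ℕ} {D : SimpleGraph (Fin k)} (hD : TwoCn D) (a : Fin k) (P : Fin k → Prop)
    (hP : ∀ u v, u ≠ a → v ≠ a → D.Adj u v → P u → P v) (u v : Fin k) (hu' : u ≠ a)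
    (hv' : v ≠ a) (hu : P u) : P v :=
  spread (hD.cut a) (fun x => P x.1) (fun x y h hx => hP _ _ x.2 y.2 h hx) ⟨u, hu'⟩ ⟨v, hv'⟩ hu

/-- The vertices. -/
abbrev PV (Λ G : Type) (K n m : ℕ) : Type := RL Λ G K ⊕ (Fin n × Fin (m + 1))

section

variable {Λ G : Type} {K n m : ℕ} (Bl : Λ → SimpleGraph (Fin K))
  (pr : Λ → Fin K → Option (Fin n × Fin (m + 1)))

/-- `p` is in the position `w` of the copy `c` of the label `l`. -/
def Pos (l : Λ) (c : G) (p : PV Λ G K n m) (w : Fin K) : Prop :=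
  (p = Sum.inl (l, c, w) ∧ pr l w = none) ∨ ∃ q, p = Sum.inr q ∧ pr l w = some q

/-- `p p'` is an edge of the copy `c` of the label `l`. -/
def Eg (l : Λ) (c : G) (p p' : PV Λ G K n m) : Prop :=
  ∃ w w' : Fin K, (Bl l).Adj w w' ∧ Pos pr l c p w ∧ Pos pr l c p' w' ∧
    ((∃ v, p = Sum.inl (l, c, v)) ∨ ∃ v, p' = Sum.inl (l, c, v))

variable {Bl pr}

theorem pos_lab {l l' : Λ} {c c' : G} {p : PV Λ G K n m} {w v : Fin K}
    (h : Pos pr l c p w) (hp : p = Sum.inl (l', c', v)) : l = l' ∧ c = c' ∧ w = v := by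
  rcases h with ⟨h, -⟩ | ⟨q, h, -⟩
  · have h1 := Sum.inl_injective (h.symm.trans hp)
    simp only [Prod.mk.injEq] at h1
    exact h1
  · exact absurd (hp.symm.trans h) Sum.inl_ne_inr

theorem pos_low {l : Λ} {c : G} {p : PV Λ G K n m} {w v : Fin K}
    (h : Pos pr l c p w) (hp : p = Sum.inl (l, c, v)) : pr l w = none := by
  rcases h with ⟨-, h⟩ | ⟨q, h, -⟩
  · exact h
  · exact absurd (hp.symm.trans h) Sum.inl_ne_inr

theorem pos_pv {l : Λ} {c : G} {p : PV Λ G K n m} {w : Fin K} {q : Fin n × Fin (m + 1)}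
    (h : Pos pr l c p w) (hp : p = Sum.inr q) : pr l w = some q := by
  rcases h with ⟨h, -⟩ | ⟨q', h, h1⟩
  · exact absurd (h.symm.trans hp) Sum.inl_ne_inr
  · rw [h1, Sum.inr_injective (h.symm.trans hp)]

theorem pos_of_none {l : Λ} {c : G} {p : PV Λ G K n m} {w : Fin K}
    (h : Pos pr l c p w) (hw : pr l w = none) : p = Sum.inl (l, c, w) := by
  rcases h with ⟨h, -⟩ | ⟨q', -, h1⟩
  · exact h
  · rw [hw] at h1
    exact absurd h1.symm (Option.some_ne_none _)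

theorem pos_of_some {l : Λ} {c : G} {p : PV Λ G K n m} {w : Fin K} {q : Fin n × Fin (m + 1)}
    (h : Pos pr l c p w) (hw : pr l w = some q) : p = Sum.inr q := by
  rcases h with ⟨-, h⟩ | ⟨q', h, h1⟩
  · rw [h] at hw
    exact absurd hw.symm (Option.some_ne_none _)
  · rw [hw] at h1
    rw [h, ← Option.some_injective _ h1]

theorem pos_unique (hinj : ∀ l v v' q, pr l v = some q → pr l v' = some q → v = v')
    {l : Λ} {c : G} {p : PV Λ G K n m} {w w' : Fin K} (h : Pos pr l c p w)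
    (h' : Pos pr l c p w') : w = w' := by
  rcases h with ⟨h, -⟩ | ⟨q, h, h1⟩
  · exact (pos_lab h' h).2.2.symm
  · exact hinj l w w' q h1 (pos_pv h' h)

theorem pos_inj {l : Λ} {c : G} {p p' : PV Λ G K n m} {w : Fin K} (h : Pos pr l c p w)
    (h' : Pos pr l c p' w) : p = p' := by
  rcases h with ⟨h, h1⟩ | ⟨q, h, h1⟩
  · rw [h, pos_of_none h' h1]
  · rw [h, pos_of_some h' h1]

theorem eg_symm {l : Λ} {c : G} {p p' : PV Λ G K n m} (h : Eg Bl pr l c p p') :
    Eg Bl pr l c p' p := by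
  obtain ⟨w, w', h1, h2, h3, h4⟩ := h
  exact ⟨w', w, h1.symm, h3, h2, h4.symm⟩

theorem eg_unique {l l' : Λ} {c c' : G} {p p' : PV Λ G K n m} (h : Eg Bl pr l c p p')
    (h' : Eg Bl pr l' c' p p') : l = l' ∧ c = c' := by
  obtain ⟨w, w', -, h2, h3, -⟩ := h
  obtain ⟨v, v', -, -, -, h5⟩ := h'
  rcases h5 with ⟨u, h5⟩ | ⟨u, h5⟩
  · exact ⟨(pos_lab h2 h5).1, (pos_lab h2 h5).2.1⟩
  · exact ⟨(pos_lab h3 h5).1, (pos_lab h3 h5).2.1⟩

/-- An edge at a low lies in the copy of this low. -/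
theorem eg_at {l l' : Λ} {c c' : G} {p p' : PV Λ G K n m} {v : Fin K}
    (h : Eg Bl pr l c p p') (hp : p = Sum.inl (l', c', v)) : l = l' ∧ c = c' := by
  obtain ⟨w, w', -, h2, -, -⟩ := h
  exact ⟨(pos_lab h2 hp).1, (pos_lab h2 hp).2.1⟩

theorem edge1 {p p' : PV Λ G K n m} (h : relA Bl pr p p')
    (hb : ¬ ((∃ q, p = Sum.inr q) ∧ ∃ q, p' = Sum.inr q)) : ∃ l c, Eg Bl pr l c p p' := by
  rcases h with ⟨l, i, v, v', h1, h2, h3, hp, hp'⟩ | ⟨l, i, v, v', q, h1, h2, h3, hp, hp'⟩ |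
    ⟨z, z', -, hp, hp'⟩
  · exact ⟨l, i, v, v', h1, Or.inl ⟨hp, h2⟩, Or.inl ⟨hp', h3⟩, Or.inl ⟨v, hp⟩⟩
  · exact ⟨l, i, v, v', h1, Or.inr ⟨q, hp, h2⟩, Or.inl ⟨hp', h3⟩, Or.inr ⟨v', hp'⟩⟩
  · exact absurd ⟨⟨_, hp⟩, _, hp'⟩ hb

theorem edge {p p' : PV Λ G K n m} (h : (GA Bl pr).Adj p p')
    (hb : ¬ ((∃ q, p = Sum.inr q) ∧ ∃ q, p' = Sum.inr q)) : ∃ l c, Eg Bl pr l c p p' := by
  rcases ((SimpleGraph.fromRel_adj _ _ _).1 h).2 with h1 | h1
  · exact edge1 h1 hb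
  · obtain ⟨l, c, hl⟩ := edge1 h1 (fun hc => hb ⟨hc.2, hc.1⟩)
    exact ⟨l, c, eg_symm hl⟩

end

/-! ### The kinds -/

/-- The kind blob. -/
def KB {K : ℕ} (n m : ℕ) (fam : Set SG) (G : SimpleGraph (Fin K))
    (p : Fin K → Option (Fin n × Fin (m + 1))) (x : SG) (ψ : Fin K → Fin x.1) (a b : Fin x.1)
    (z z' : Fin n) : Prop :=
  x ∈ fam ∧ x.2.Adj a b ∧ z ≠ z' ∧ (∀ v v', G.Adj v v' → x.2.Adj (ψ v) (ψ v')) ∧
    (∀ v v' u u', G.Adj v u → G.Adj v' u' → ψ v = ψ v' → v = v') ∧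
    ∀ v, (∃ u, G.Adj v u) → (ψ v = a ∧ p v = some (z, 0)) ∨ (ψ v = b ∧ p v = some (z', 0)) ∨
      (ψ v ≠ a ∧ ψ v ≠ b ∧ p v = none)

/-- The kind world. -/
def KW {K n m : ℕ} (G : SimpleGraph (Fin K)) (p : Fin K → Option (Fin n × Fin (m + 1)))
    (z : Fin n) : Prop :=
  (∀ v q, p v = some q → q.1 = z) ∧ ∀ v v', G.Adj v v' → (p v = none ↔ p v' ≠ none)

/-- The kind one. -/
def KO {k K n m : ℕ} (D : SimpleGraph (Fin k)) (G : SimpleGraph (Fin K))
    (p : Fin K → Option (Fin n × Fin (m + 1))) : Prop :=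
  ∃ v₀, (∀ v, v ≠ v₀ → p v = none) ∧ ¬ Sub D G

theorem kd_cases {k K n m : ℕ} {fam : Set SG} {D : SimpleGraph (Fin k)}
    {G : SimpleGraph (Fin K)} {p : Fin K → Option (Fin n × Fin (m + 1))}
    (h : Kd n m fam D G p) :
    (∃ x ψ a b z z', KB n m fam G p x ψ a b z z') ∨ (∃ z, KW G p z) ∨ KO D G p := h

section Copy

variable {Λ G : Type} {k K n m : ℕ} {fam : Set SG} {D : SimpleGraph (Fin k)}
  {Bl : Λ → SimpleGraph (Fin K)} {pr : Λ → Fin K → Option (Fin n × Fin (m + 1))}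

/-- No vertex of `D` is a low of a label of kind One. -/
theorem no_one (hD : TwoCn D)
    (hinj : ∀ l v v' q, pr l v = some q → pr l v' = some q → v = v')
    {g : Fin k → PV Λ G K n m} (hg : Function.Injective g)
    (hE : ∀ i j, D.Adj i j → ∃ l c, Eg Bl pr l c (g i) (g j)) {l : Λ} (hl : KO D (Bl l) (pr l))
    (i : Fin k) (c : G) (v : Fin K) : g i ≠ Sum.inl (l, c, v) := by
  intro hi
  obtain ⟨v₀, hv₀, hno⟩ := hl
  have hnb : ∀ j j', D.Adj j j' → (∃ w, g j = Sum.inl (l, c, w)) →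
      ∃ w w', (Bl l).Adj w w' ∧ Pos pr l c (g j) w ∧ Pos pr l c (g j') w' := by
    rintro j j' hjj ⟨w, hw⟩
    obtain ⟨l', c', h⟩ := hE j j' hjj
    obtain ⟨rfl, rfl⟩ := eg_at h hw
    obtain ⟨u, u', h1, h2, h3, -⟩ := h
    exact ⟨u, u', h1, h2, h3⟩
  -- all vertices of `D` are in positions of the copy
  have hall : ∃ a, ∀ j, j ≠ a → ∃ w, g j = Sum.inl (l, c, w) := by
    by_cases hex : ∃ a q, g a = Sum.inr q ∧ pr l v₀ = some q
    · obtain ⟨a, q, ha, hq⟩ := hex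
      refine ⟨a, fun j hj => ?_⟩
      have hia : i ≠ a := by
        rintro rfl
        exact absurd (hi.symm.trans ha) Sum.inl_ne_inr
      refine spread' hD a (fun j => ∃ w, g j = Sum.inl (l, c, w)) ?_ i j hia hj ⟨v, hi⟩
      intro u u' _ hu' huu hu
      obtain ⟨w, w', h1, h2, h3⟩ := hnb u u' huu hu
      rcases h3 with ⟨h3, -⟩ | ⟨q', h3, h4⟩
      · exact ⟨w', h3⟩
      · exfalso
        by_cases hw : w' = v₀
        · rw [hw, hq] at h4
          apply hu'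
          apply hg
          rw [h3, ha, Option.some_injective _ h4]
        · rw [hv₀ w' hw] at h4
          exact Option.some_ne_none _ h4.symm
    · refine ⟨i, fun j _ => ?_⟩
      refine spread hD.conn (fun j => ∃ w, g j = Sum.inl (l, c, w)) ?_ i j ⟨v, hi⟩
      intro u u' huu hu
      obtain ⟨w, w', h1, h2, h3⟩ := hnb u u' huu hu
      rcases h3 with ⟨h3, -⟩ | ⟨q', h3, h4⟩
      · exact ⟨w', h3⟩
      · exfalso
        by_cases hw : w' = v₀
        · rw [hw] at h4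
          exact hex ⟨u', q', h3, h4⟩
        · rw [hv₀ w' hw] at h4
          exact Option.some_ne_none _ h4.symm
  obtain ⟨a, ha⟩ := hall
  have hnt : Nontrivial (Fin k) := by
    have h3 := hD.three
    exact Fin.nontrivial_iff_two_le.2 (by omega)
  have hpos : ∀ j, ∃ w, Pos pr l c (g j) w := by
    intro j
    by_cases hj : j = a
    · obtain ⟨j', hj'⟩ := hD.conn.preconnected.exists_adj_of_nontrivial j
      obtain ⟨w, w', -, -, h3⟩ := hnb j' j hj'.symm (ha j' (by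
        rintro rfl
        exact hj'.ne hj))
      exact ⟨w', h3⟩
    · obtain ⟨j', hj'⟩ := hD.conn.preconnected.exists_adj_of_nontrivial j
      obtain ⟨w, w', -, h2, -⟩ := hnb j j' hj' (ha j hj)
      exact ⟨w, h2⟩
  choose t ht using hpos
  apply hno
  refine ⟨t, ?_, ?_⟩
  · intro j j' hjj
    apply hg
    have h1 := ht j'
    rw [← hjj] at h1
    exact pos_inj (ht j) h1
  · intro j j' hjj
    have key : ∀ j j', D.Adj j j' → (∃ w, g j = Sum.inl (l, c, w)) → (Bl l).Adj (t j) (t j') := by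
      intro j j' hjj hj
      obtain ⟨w, w', h1, h2, h3⟩ := hnb j j' hjj hj
      rw [pos_unique hinj (ht j) h2, pos_unique hinj (ht j') h3]
      exact h1
    by_cases hj : j = a
    · refine (key j' j hjj.symm (ha j' ?_)).symm
      rintro rfl
      exact hjj.ne hj
    · exact key j j' hjj (ha j hj)

/-- If a vertex of `D` is a low of the world `z` then `D` lies in this world. -/
theorem in_world (hD : TwoCn D) (hkd : ∀ l, Kd n m fam D (Bl l) (pr l))
    (hinj : ∀ l v v' q, pr l v = some q → pr l v' = some q → v = v')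
    {g : Fin k → PV Λ G K n m} (hg : Function.Injective g)
    (hE : ∀ i j, D.Adj i j → ∃ l c, Eg Bl pr l c (g i) (g j)) {l : Λ} {z : Fin n}
    (hl : KW (Bl l) (pr l) z) {i : Fin k} {c : G} {v : Fin K} (hi : g i = Sum.inl (l, c, v)) :
    (∃ z, ∀ i q, g i = Sum.inr q → q.1 = z) ∧
      ∀ i j, D.Adj i j → ((∃ q, g i = Sum.inr q) ↔ ¬ ∃ q, g j = Sum.inr q) := by
  have hstep : ∀ j j', D.Adj j j' →
      ((∃ l' c' v', g j = Sum.inl (l', c', v') ∧ KW (Bl l') (pr l') z) ∨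
        (∃ q, g j = Sum.inr (z, q) ∧ q ≠ 0)) →
      (∃ l' c' v', g j' = Sum.inl (l', c', v') ∧ KW (Bl l') (pr l') z) ∨
        ∃ q, g j' = Sum.inr (z, q) := by
    rintro j j' hjj (⟨l', c', v', hj, hk⟩ | ⟨q, hj, hq⟩)
    · obtain ⟨l₂, c₂, h⟩ := hE j j' hjj
      obtain ⟨rfl, rfl⟩ := eg_at h hj
      obtain ⟨w, w', -, -, h3, -⟩ := h
      rcases h3 with ⟨h3, -⟩ | ⟨q, h3, h4⟩
      · exact Or.inl ⟨_, _, _, h3, hk⟩
      · refine Or.inr ⟨q.2, ?_⟩
        rw [h3, ← hk.1 w' q h4]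
    · obtain ⟨l₂, c₂, w, w', h1, h2, h3, h4⟩ := hE j j' hjj
      have h5 : pr l₂ w = some (z, q) := pos_pv h2 hj
      obtain ⟨v, hv⟩ : ∃ v, g j' = Sum.inl (l₂, c₂, v) := by
        rcases h4 with ⟨v, h4⟩ | h4
        · exact absurd (h4.symm.trans hj) Sum.inl_ne_inr
        · exact h4
      rcases kd_cases (hkd l₂) with ⟨x, ψ, a, b, y, y', hb⟩ | ⟨y, hy⟩ | ho
      · exfalso
        rcases hb.2.2.2.2.2 w ⟨w', h1⟩ with ⟨-, h6⟩ | ⟨-, h6⟩ | ⟨-, -, h6⟩
        · rw [h5] at h6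
          exact hq (congrArg Prod.snd (Option.some_injective _ h6))
        · rw [h5] at h6
          exact hq (congrArg Prod.snd (Option.some_injective _ h6))
        · rw [h5] at h6
          exact Option.some_ne_none _ h6
      · refine Or.inl ⟨l₂, c₂, v, hv, ?_⟩
        have h6 : z = y := hy.1 w _ h5
        rw [h6]
        exact hy
      · exact absurd hv (no_one hD hinj hg hE ho j' c₂ v)
  have hall : ∀ j, (∃ l' c' v', g j = Sum.inl (l', c', v') ∧ KW (Bl l') (pr l') z) ∨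
      ∃ q, g j = Sum.inr (z, q) := by
    intro j
    by_cases hex : ∃ a, g a = Sum.inr (z, 0)
    · obtain ⟨a, ha⟩ := hex
      by_cases hj : j = a
      · exact Or.inr ⟨0, by rw [hj, ha]⟩
      · have hia : i ≠ a := by
          rintro rfl
          exact absurd (hi.symm.trans ha) Sum.inl_ne_inr
        refine spread' hD a (fun j => (∃ l' c' v', g j = Sum.inl (l', c', v') ∧
          KW (Bl l') (pr l') z) ∨ ∃ q, g j = Sum.inr (z, q)) ?_ i j hia hj
          (Or.inl ⟨l, c, v, hi, hl⟩)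
        intro u u' hu _ huu hP
        refine hstep u u' huu ?_
        rcases hP with hP | ⟨q, hq⟩
        · exact Or.inl hP
        · refine Or.inr ⟨q, hq, ?_⟩
          rintro rfl
          exact hu (hg (hq.trans ha.symm))
    · refine spread hD.conn (fun j => (∃ l' c' v', g j = Sum.inl (l', c', v') ∧
          KW (Bl l') (pr l') z) ∨ ∃ q, g j = Sum.inr (z, q)) ?_ i j (Or.inl ⟨l, c, v, hi, hl⟩)
      intro u u' huu hP
      refine hstep u u' huu ?_
      rcases hP with hP | ⟨q, hq⟩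
      · exact Or.inl hP
      · refine Or.inr ⟨q, hq, ?_⟩
        rintro rfl
        exact hex ⟨u, hq⟩
  constructor
  · refine ⟨z, fun j q hj => ?_⟩
    rcases hall j with ⟨l', c', v', h, -⟩ | ⟨q', h⟩
    · exact absurd (h.symm.trans hj) Sum.inl_ne_inr
    · have h1 := Sum.inr_injective (h.symm.trans hj)
      rw [← h1]
  · intro j j' hjj
    obtain ⟨l₂, c₂, w, w', h1, h2, h3, h4⟩ := hE j j' hjj
    constructor
    · rintro ⟨q, hq⟩ ⟨q', hq'⟩
      rcases h4 with ⟨v, h4⟩ | ⟨v, h4⟩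
      · exact absurd (h4.symm.trans hq) Sum.inl_ne_inr
      · exact absurd (h4.symm.trans hq') Sum.inl_ne_inr
    · intro hno
      rcases hall j with ⟨l', c', v', hj, hk⟩ | ⟨q', hj⟩
      · exfalso
        have h5 := pos_lab h2 hj
        obtain ⟨rfl, rfl, -⟩ := h5
        have h6 := pos_low h2 hj
        have h7 : pr l₂ w' ≠ none := (hk.2 w w' h1).1 h6
        rcases h3 with ⟨-, h3⟩ | ⟨q, h3, -⟩
        · exact h7 h3
        · exact hno ⟨q, h3⟩
      · exact ⟨_, hj⟩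

/-- If all edges lie in blobs then `D` is contained in a blob graph. -/
theorem blobbed (hD : TwoCn D) (hbip : ∀ x ∈ fam, Bip x.2) (hDf : (⟨k, D⟩ : SG) ∈ fam)
    (hinj : ∀ l v v' q, pr l v = some q → pr l v' = some q → v = v')
    {g : Fin k → PV Λ G K n m} (hg : Function.Injective g)
    (hE : ∀ i j, D.Adj i j → ∃ l c, Eg Bl pr l c (g i) (g j))
    (hB : ∀ i j, D.Adj i j → ∀ l c, Eg Bl pr l c (g i) (g j) →
      ∃ x ψ a b z z', KB n m fam (Bl l) (pr l) x ψ a b z z') : Blobbed fam D := by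
  classical
  have hnt : Nontrivial (Fin k) := by
    have h3 := hD.three
    exact Fin.nontrivial_iff_two_le.2 (by omega)
  obtain ⟨e₁, e₂, he⟩ : ∃ e₁ e₂, D.Adj e₁ e₂ := by
    obtain ⟨i, -⟩ := hnt.exists_pair_ne
    obtain ⟨j, hj⟩ := hD.conn.preconnected.exists_adj_of_nontrivial i
    exact ⟨i, j, hj⟩
  obtain ⟨κ, hκ⟩ := hbip _ hDf
  obtain ⟨l0, c0, -⟩ := hE e₁ e₂ he
  -- the members
  have hU : ∀ l, ∃ (x : SG) (ψ : Fin K → Fin x.1) (a b : Fin x.1), x ∈ fam ∧ x.2.Adj a b ∧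
      ((∃ x ψ a b z z', KB n m fam (Bl l) (pr l) x ψ a b z z') →
        ∃ z z', KB n m fam (Bl l) (pr l) x ψ a b z z') := by
    intro l
    by_cases h : ∃ x ψ a b z z', KB n m fam (Bl l) (pr l) x ψ a b z z'
    · obtain ⟨x, ψ, a, b, z, z', h⟩ := h
      exact ⟨x, ψ, a, b, h.1, h.2.1, fun _ => ⟨z, z', h⟩⟩
    · exact ⟨⟨k, D⟩, fun _ => e₁, e₁, e₂, hDf, he, fun h' => absurd h' h⟩
  choose U ψ a b hUf hUa hU using hU
  have hpt : ∀ i j, ∃ lc : Λ × G, D.Adj i j → Eg Bl pr lc.1 lc.2 (g i) (g j) := by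
    intro i j
    by_cases hij : D.Adj i j
    · obtain ⟨l, c, hl⟩ := hE i j hij
      exact ⟨(l, c), fun _ => hl⟩
    · exact ⟨(l0, c0), fun h => absurd h hij⟩
  choose pt hpt using hpt
  have hφ : ∀ (lc : Λ × G) (i : Fin k), ∃ w : Fin K, (∃ w', Pos pr lc.1 lc.2 (g i) w') →
      Pos pr lc.1 lc.2 (g i) w := by
    intro lc i
    by_cases h : ∃ w', Pos pr lc.1 lc.2 (g i) w'
    · obtain ⟨w, hw⟩ := h
      exact ⟨w, fun _ => hw⟩
    · have hK : Nonempty (Fin K) := by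
        obtain ⟨l, c, w, -⟩ := hE e₁ e₂ he
        exact ⟨w⟩
      exact ⟨Classical.choice hK, fun h' => absurd h' h⟩
  choose φ hφ using hφ
  -- an end of an edge of the part `lc`
  have hBIn : ∀ (lc : Λ × G) (i : Fin k), BIn D pt lc i →
      Pos pr lc.1 lc.2 (g i) (φ lc i) ∧ (∃ u, (Bl lc.1).Adj (φ lc i) u) ∧
      ∃ z z', KB n m fam (Bl lc.1) (pr lc.1) (U lc.1) (ψ lc.1) (a lc.1) (b lc.1) z z' := by
    rintro lc i ⟨j, hij, rfl⟩
    have h0 := hpt i j hij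
    obtain ⟨w, w', h1, h2, -⟩ := h0
    have h3 := hφ (pt i j) i ⟨w, h2⟩
    refine ⟨h3, ⟨w', ?_⟩, hU _ (hB i j hij _ _ (hpt i j hij))⟩
    rw [pos_unique hinj h3 h2]
    exact h1
  refine ⟨Λ × G, pt, fun lc => U lc.1, fun lc => a lc.1, fun lc => b lc.1,
    fun lc i => ψ lc.1 (φ lc i), κ, ?_, ?_, ?_, ?_, ?_⟩
  · intro lc
    exact ⟨hUf _, hUa _⟩
  · intro i j hij
    have h1 := hpt i j hij
    have h2 := hpt j i hij.symm
    refine ⟨hκ i j hij, ?_, ?_⟩
    · have h3 := eg_unique h1 (eg_symm h2)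
      exact Prod.ext h3.1 h3.2
    · obtain ⟨z, z', hk⟩ := hU _ (hB i j hij _ _ h1)
      obtain ⟨w, w', h3, h4, h5, -⟩ := h1
      have h7 : φ (pt i j) i = w := pos_unique hinj (hφ _ i ⟨w, h4⟩) h4
      have h8 : φ (pt i j) j = w' := pos_unique hinj (hφ _ j ⟨w', h5⟩) h5
      show (U (pt i j).1).2.Adj (ψ (pt i j).1 (φ (pt i j) i)) (ψ (pt i j).1 (φ (pt i j) j))
      rw [h7, h8]
      exact hk.2.2.2.1 w w' h3
  · intro lc i j hi hj hij
    apply hg
    obtain ⟨h1, ⟨u, hu⟩, z, z', hk⟩ := hBIn lc i hi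
    obtain ⟨h2, ⟨u', hu'⟩, -⟩ := hBIn lc j hj
    have h3 : φ lc i = φ lc j := hk.2.2.2.2.1 _ _ u u' hu hu' hij
    rw [h3] at h1
    exact pos_inj h1 h2
  · intro lc lc' i hne hi hi'
    obtain ⟨h1, h2, z, z', hk⟩ := hBIn lc i hi
    obtain ⟨h1', -⟩ := hBIn lc' i hi'
    rcases hk.2.2.2.2.2 _ h2 with ⟨h3, -⟩ | ⟨h3, -⟩ | ⟨-, -, h3⟩
    · exact Or.inl h3
    · exact Or.inr h3
    · exfalso
      have h4 := pos_of_none h1 h3
      have h5 := pos_lab h1' h4
      exact hne (Prod.ext h5.1 h5.2.1).symm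
  · intro lc i j hi hj hia hjb
    obtain ⟨h1, h2, z, z', hk⟩ := hBIn lc i hi
    obtain ⟨h1', h2', -⟩ := hBIn lc j hj
    have hab : a lc.1 ≠ b lc.1 := hk.2.1.ne
    have hi2 : g i = Sum.inr (z, 0) := by
      rcases hk.2.2.2.2.2 _ h2 with ⟨-, h3⟩ | ⟨h3, -⟩ | ⟨h3, -, -⟩
      · exact pos_of_some h1 h3
      · exact absurd (hia.symm.trans h3) hab
      · exact absurd hia h3
    have hj2 : g j = Sum.inr (z', 0) := by
      rcases hk.2.2.2.2.2 _ h2' with ⟨h3, -⟩ | ⟨-, h3⟩ | ⟨-, h3, -⟩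
      · exact absurd (h3.symm.trans hjb) hab
      · exact pos_of_some h1' h3
      · exact absurd hjb h3
    have hnadj : ¬ D.Adj i j := by
      intro hij
      obtain ⟨l, c, w, w', -, -, -, h4⟩ := hE i j hij
      rcases h4 with ⟨v, h4⟩ | ⟨v, h4⟩
      · exact absurd (h4.symm.trans hi2) Sum.inl_ne_inr
      · exact absurd (h4.symm.trans hj2) Sum.inl_ne_inr
    refine ⟨hnadj, ?_⟩
    intro hκij
    -- the positions of the edges at `i` spread over `D - i`
    obtain ⟨κ', hκ'⟩ := hbip _ hk.1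
    have hij : j ≠ i := by
      rintro rfl
      have h3 := Sum.inr_injective (hi2.symm.trans hj2)
      exact hk.2.2.1 (congrArg Prod.fst h3)
    obtain ⟨i', hii', hpi⟩ := hi
    have hstep : ∀ u u', D.Adj u u' → u' ≠ i → (∃ v, g u' = Sum.inl (lc.1, lc.2, v)) ∨
        (∃ v, g u = Sum.inl (lc.1, lc.2, v)) → ∀ w, Pos pr lc.1 lc.2 (g u) w →
        xor (κ u) (κ' (ψ lc.1 w)) = xor (κ i) (κ' (a lc.1)) →
        ∃ v, g u' = Sum.inl (lc.1, lc.2, v) ∧
          xor (κ u') (κ' (ψ lc.1 v)) = xor (κ i) (κ' (a lc.1)) := by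
      intro u u' huu hu' hlow w hw hxor
      obtain ⟨l, c, heg⟩ := hE u u' huu
      obtain ⟨rfl, rfl⟩ : l = lc.1 ∧ c = lc.2 := by
        rcases hlow with ⟨v, hv⟩ | ⟨v, hv⟩
        · exact eg_at (eg_symm heg) hv
        · exact eg_at heg hv
      obtain ⟨w₁, w₂, h3, h4, h5, -⟩ := heg
      have hw1 : w = w₁ := pos_unique hinj hw h4
      have h6 : κ u ≠ κ u' := hκ u u' huu
      have h7 : κ' (ψ lc.1 w₁) ≠ κ' (ψ lc.1 w₂) := hκ' _ _ (hk.2.2.2.1 _ _ h3)
      have h8 : xor (κ u') (κ' (ψ lc.1 w₂)) = xor (κ i) (κ' (a lc.1)) := by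
        rw [← hxor, hw1]
        revert h6 h7
        cases κ u <;> cases κ u' <;> cases κ' (ψ lc.1 w₁) <;> cases κ' (ψ lc.1 w₂) <;> simp
      rcases hk.2.2.2.2.2 w₂ ⟨w₁, h3.symm⟩ with ⟨-, h9⟩ | ⟨h9, h10⟩ | ⟨-, -, h9⟩
      · exfalso
        apply hu'
        apply hg
        rw [pos_of_some h5 h9, hi2]
      · exfalso
        have h11 : u' = j := by
          apply hg
          rw [pos_of_some h5 h10, hj2]
        rw [h11, h9, ← hκij] at h8
        have h12 : κ' (a lc.1) ≠ κ' (b lc.1) := hκ' _ _ hk.2.1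
        revert h8 h12
        cases κ i <;> cases κ' (a lc.1) <;> cases κ' (b lc.1) <;> simp
      · exact ⟨w₂, pos_of_none h5 h9, h8⟩
    -- the first vertex
    have h0 : ∃ v, g i' = Sum.inl (lc.1, lc.2, v) := by
      have h3 := hpt i i' hii'
      rw [hpi] at h3
      obtain ⟨w, w', -, -, -, h4⟩ := h3
      rcases h4 with ⟨v, h4⟩ | h4
      · exact absurd (h4.symm.trans hi2) Sum.inl_ne_inr
      · exact h4
    have hwi : ψ lc.1 (φ lc i) = a lc.1 := hia
    have hstart := hstep i i' hii' hii'.ne' (Or.inl h0) _ h1 (by rw [hwi])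
    have hend := spread' hD i (fun u => ∃ v, g u = Sum.inl (lc.1, lc.2, v) ∧
      xor (κ u) (κ' (ψ lc.1 v)) = xor (κ i) (κ' (a lc.1))) (by
        rintro u u' - hu' huu ⟨v, hv, hx⟩
        have hP : Pos pr lc.1 lc.2 (g u) v := by
          obtain ⟨l, c, heg⟩ := hE u u' huu
          obtain ⟨rfl, rfl⟩ := eg_at heg hv
          obtain ⟨w₁, w₂, -, h4, -⟩ := heg
          have := (pos_lab h4 hv).2.2
          rw [← this]
          exact h4
        exact hstep u u' huu hu' (Or.inr ⟨v, hv⟩) v hP hx) i' j hii'.ne' hij hstart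
    obtain ⟨v, hv, -⟩ := hend
    exact absurd (hv.symm.trans hj2) Sum.inl_ne_inr

end Copy

end Gax

open Gax in
/-- Row GAX. -/
theorem gax_proof : GaxStatement := by
  intro k n m K Λ G fam D Bl pr hD hbip hmx hbl hkd hinj g hg hEE
  have hE : ∀ i j, D.Adj i j → ∃ l c, Eg Bl pr l c (g i) (g j) :=
    fun i j hij => edge (hEE i j hij).1 (hEE i j hij).2
  by_cases hw : ∃ i l c v z, g i = Sum.inl (l, c, v) ∧ KW (Bl l) (pr l) z
  · obtain ⟨i, l, c, v, z, hi, hk⟩ := hw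
    exact in_world hD hkd hinj hg hE hk hi
  · exfalso
    apply hbl
    refine blobbed hD hbip hmx.1 hinj hg hE ?_
    rintro i j hij l c ⟨w, w', h1, h2, h3, h4⟩
    rcases kd_cases (hkd l) with h | ⟨z, hz⟩ | ho
    · exact h
    · exfalso
      rcases h4 with ⟨v, h4⟩ | ⟨v, h4⟩
      · exact hw ⟨i, l, c, v, z, h4, hz⟩
      · exact hw ⟨j, l, c, v, z, h4, hz⟩
    · exfalso
      rcases h4 with ⟨v, h4⟩ | ⟨v, h4⟩
      · exact no_one hD hinj hg hE ho i c v h4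
      · exact no_one hD hinj hg hE ho j c v h4

end MP3240S
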