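import Pool.Agent.Lib.MP_3240be_co.S62.Defs

/-!
# MP_3240be_co, Theorem T2*, row GEN (helper98)

Greedy choice of copies for the blocks of a step.
-/

set_option autoImplicit false

namespace MP3240S

open MP3240L (Two MxTwo Cl two_adj exists_mxTwo)

/-- Greedy choice: finitely many families of copies. -/
theorem gen_greedy {n : ℕ} {X : Type} {B : Type} (mem : B → Fin n → Prop)
    (np : Fin n → Prop) (g : B → Fin (n + 1) → Fin n → X)
    (sh : ∀ b b' x, mem b x → mem b' x → np x → b = b')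
    (dis : ∀ b ν ν' i i', mem b i → mem b i' → np i → g b ν i = g b ν' i' → ν = ν')
    (s : Finset B) : ∃ ν : B → Fin (n + 1), ∀ b ∈ s, ∀ b' ∈ s, b ≠ b' → ∀ i i', mem b i →
      mem b' i' → np i → np i' → g b (ν b) i ≠ g b' (ν b') i' := by
  classical
  induction s using Finset.induction_on with
  | empty => exact ⟨fun _ => 0, fun b hb => absurd hb (Finset.notMem_empty b)⟩
  | insert b₀ s hb₀ ih =>
    obtain ⟨ν, hν⟩ := ih
    obtain ⟨ν₀, h₀⟩ : ∃ ν₀ : Fin (n + 1), ∀ b ∈ s, ∀ i i', mem b₀ i → mem b i' → np i → np i' →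
        g b₀ ν₀ i ≠ g b (ν b) i' := by
      by_contra hcon
      have hcon' : ∀ μ : Fin (n + 1), ∃ (b : B) (i i' : Fin n), b ∈ s ∧ mem b₀ i ∧ mem b i' ∧
          np i ∧ np i' ∧ g b₀ μ i = g b (ν b) i' := by
        intro μ
        by_contra h1
        refine hcon ⟨μ, fun b hb i i' hi hi' hni hni' he => h1 ⟨b, i, i', hb, hi, hi', hni, hni',
          he⟩⟩
      choose bb ii ii' hs hi hi' hni hni' he using hcon'
      obtain ⟨μ, μ', hne, heq⟩ := Fintype.exists_ne_map_eq_of_card_lt ii' (by simp)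
      have hb : bb μ = bb μ' := sh _ _ (ii' μ) (hi' μ) (by rw [heq]; exact hi' μ') (hni' μ)
      refine hne (dis b₀ μ μ' (ii μ) (ii μ') (hi μ) (hi μ') (hni μ) ?_)
      rw [he μ, he μ', hb, heq]
    refine ⟨Function.update ν b₀ ν₀, ?_⟩
    intro b hb b' hb' hbb i i' hi hi' hni hni'
    rw [Finset.mem_insert] at hb hb'
    rcases hb with rfl | hb
    · rcases hb' with rfl | hb'
      · exact absurd rfl hbb
      · rw [Function.update_self, Function.update_of_ne (Ne.symm hbb)]
        exact h₀ b' hb' i i' hi hi' hni hni'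
    · have hb1 : b ≠ b₀ := by
        rintro rfl
        exact hb₀ hb
      rcases hb' with rfl | hb'
      · rw [Function.update_self, Function.update_of_ne hbb]
        exact fun h => h₀ b hb i' i hi' hi hni' hni h.symm
      · have hb2 : b' ≠ b₀ := by
          rintro rfl
          exact hb₀ hb'
        rw [Function.update_of_ne hb1, Function.update_of_ne hb2]
        exact hν b hb b' hb' hbb i i' hi hi' hni hni'

/-- Row GEN. -/
theorem gen_proof : GenStatement := by
  classical
  intro n H L Q S C c W y pv _ clW yW hWy pvy pinj pall sh fam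
  -- another vertex of `W`
  obtain ⟨z, zW, hzy⟩ : ∃ z ∈ W, z ≠ y := by
    by_contra h
    refine hWy (Set.Subset.antisymm (fun x hx => ?_) (Set.singleton_subset_iff.2 yW))
    by_contra hx'
    exact h ⟨x, hx, hx'⟩
  have other : ∀ x ∈ W, ∃ x' ∈ W, x' ≠ x := by
    intro x hx
    by_cases h : x = y
    · exact ⟨z, zW, by rw [h]; exact hzy⟩
    · exact ⟨y, yW, fun h' => h h'.symm⟩
  -- the blocks inside `W`
  let B : Type := {T : Set (Fin n) // MxTwo H T ∧ T ⊆ W}
  have : Finite B := inferInstanceAs (Finite {T : Set (Fin n) // MxTwo H T ∧ T ⊆ W})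
  have : Fintype B := Fintype.ofFinite B
  have fam' : ∀ b : B, ∃ g : Fin (n + 1) → Fin n → L ⊕ Q,
      (∀ ν, Set.InjOn (g ν) b.1 ∧
        (∀ i ∈ b.1, ∀ j ∈ b.1, H.Adj i j → S.Adj (g ν i) (g ν j) ∧ C (g ν i) (g ν j) = c) ∧
        ∀ i ∈ b.1, (∀ q, pv i = some q → g ν i = Sum.inr q) ∧
          (pv i = none → ∃ l, g ν i = Sum.inl l)) ∧
      ∀ ν ν' i i', i ∈ b.1 → i' ∈ b.1 → pv i = none → g ν i = g ν' i' → ν = ν' :=
    fun b => fam b.1 b.2.1 b.2.2
  choose g hg hd using fam'
  have sh' : ∀ (b b' : B) (x : Fin n), x ∈ b.1 → x ∈ b'.1 → pv x = none → b = b' :=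
    fun b b' x hx hx' hpx => Subtype.ext (sh b.1 b'.1 x b.2.1 b'.2.1 b.2.2 b'.2.2 hx hx' hpx)
  obtain ⟨ν, hν⟩ := gen_greedy (fun (b : B) x => x ∈ b.1) (fun x => pv x = none) g sh' hd
    Finset.univ
  -- the block of a vertex
  have hblk : ∀ x ∈ W, ∃ b : B, x ∈ b.1 := by
    intro x hx
    obtain ⟨T, hT, hxT, hTW⟩ := clW.exists_block hx (other x hx)
    exact ⟨⟨T, hT, hTW⟩, hxT⟩
  obtain ⟨b₀, -⟩ := hblk y yW
  have hblk' : ∀ x, ∃ b : B, x ∈ W → x ∈ b.1 := by
    intro x
    by_cases hx : x ∈ W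
    · obtain ⟨b, hb⟩ := hblk x hx
      exact ⟨b, fun _ => hb⟩
    · exact ⟨b₀, fun h => absurd h hx⟩
  choose T hT using hblk'
  let f : Fin n → L ⊕ Q := fun x =>
    match pv x with
    | some q => Sum.inr q
    | none => g (T x) (ν (T x)) x
  have f_some : ∀ x q, pv x = some q → f x = Sum.inr q := by
    intro x q h
    simp only [f, h]
  have f_none : ∀ x, pv x = none → f x = g (T x) (ν (T x)) x := by
    intro x h
    simp only [f, h]
  have f_blk : ∀ (b : B) x, x ∈ b.1 → f x = g b (ν b) x := by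
    intro b x hx
    rcases hp : pv x with _ | q
    · rw [f_none x hp, sh' (T x) b x (hT x (b.2.2 hx)) hx hp]
    · rw [f_some x q hp, ((hg b (ν b)).2.2 x hx).1 q hp]
  have f_pt : ∀ x ∈ W, pv x = none → ∃ l, f x = Sum.inl l := by
    intro x hx hp
    rw [f_none x hp]
    exact ((hg (T x) (ν (T x))).2.2 x (hT x hx)).2 hp
  refine ⟨f, ?_, ?_, f_pt y yW pvy, ?_⟩
  · intro x hx x' hx' he
    rcases hp : pv x with _ | q
    · rcases hp' : pv x' with _ | q'
      · by_cases hTT : T x = T x'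
        · rw [f_none x hp, f_none x' hp', hTT] at he
          refine (hg (T x') (ν (T x'))).1 ?_ (hT x' hx') he
          rw [← hTT]
          exact hT x hx
        · rw [f_none x hp, f_none x' hp'] at he
          exact absurd he (hν (T x) (Finset.mem_univ _) (T x') (Finset.mem_univ _) hTT x x'
            (hT x hx) (hT x' hx') hp hp')
      · obtain ⟨l, hl⟩ := f_pt x hx hp
        rw [hl, f_some x' q' hp'] at he
        exact absurd he (by simp)
    · rcases hp' : pv x' with _ | q'
      · obtain ⟨l, hl⟩ := f_pt x' hx' hp'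
        rw [hl, f_some x q hp] at he
        exact absurd he (by simp)
      · rw [f_some x q hp, f_some x' q' hp'] at he
        rw [Sum.inr.injEq] at he
        exact pinj x x' q hp (by rw [he]; exact hp')
  · intro i hi j hj hij
    obtain ⟨U, hU, hsub⟩ := exists_mxTwo (two_adj hij)
    have hiU : i ∈ U := hsub (by simp)
    have hjU : j ∈ U := hsub (by simp)
    have hUW : U ⊆ W := clW.cl U hU.1 i j hij.ne hiU hjU hi hj
    let b : B := ⟨U, hU, hUW⟩
    rw [f_blk b i hiU, f_blk b j hjU]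
    exact (hg b (ν b)).2.1 i hiU j hjU hij
  · rintro x hx ⟨x', hx', hadj⟩
    by_cases hp : pv x = none
    · exact f_pt x hx hp
    · exact absurd (pall x hx hp x' hadj) hx'

end MP3240S
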