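import Pool.Agent.Lib.MP_3240be_co.S62.Defs

/-!
# MP_3240be_co, Theorem T2*, row GEX: a step of paper (C3) is a step of the gadget (helper9)
-/

set_option autoImplicit false

namespace MP3240S

open MP3240L (Two MxTwo Cl)
open MP3240Q (Mono SG Sub Hang)

/-- What the row GEN needs for one block. -/
def GexSup {n : ℕ} (H : SimpleGraph (Fin n)) {L Q : Type} (S : SimpleGraph (L ⊕ Q))
    (C : L ⊕ Q → L ⊕ Q → Bool) (c : Bool) (pv : Fin n → Option Q) (T : Set (Fin n)) : Prop :=
  ∃ g : Fin (n + 1) → Fin n → L ⊕ Q,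
    (∀ ν, Set.InjOn (g ν) T ∧
      (∀ i ∈ T, ∀ j ∈ T, H.Adj i j → S.Adj (g ν i) (g ν j) ∧ C (g ν i) (g ν j) = c) ∧
      ∀ i ∈ T, (∀ q, pv i = some q → g ν i = Sum.inr q) ∧
        (pv i = none → ∃ l, g ν i = Sum.inl l)) ∧
    ∀ ν ν' i i', i ∈ T → i' ∈ T → pv i = none → g ν i = g ν' i' → ν = ν'

/-- A supply from `N` copies of a model of the block. -/
theorem gex_model {n : ℕ} {H : SimpleGraph (Fin n)} {L Q : Type} {S : SimpleGraph (L ⊕ Q)}
    {C : L ⊕ Q → L ⊕ Q → Bool} {c : Bool} {pv : Fin n → Option Q} {T : Set (Fin n)} {t N : ℕ}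
    (hN : n + 1 ≤ N) (hne : Nonempty (Fin t)) (e : Fin t → Fin n) (he : Function.Injective e)
    (hr : Set.range e = T) (g : Fin N → Fin t → L ⊕ Q) (hg : ∀ ν, Function.Injective (g ν))
    (hadj : ∀ ν i j, H.Adj (e i) (e j) → S.Adj (g ν i) (g ν j) ∧ C (g ν i) (g ν j) = c)
    (h1 : ∀ ν i q, pv (e i) = some q → g ν i = Sum.inr q)
    (h2 : ∀ ν i, pv (e i) = none → ∃ l, g ν i = Sum.inl l)
    (h3 : ∀ ν ν' i i', pv (e i) = none → g ν i = g ν' i' → ν = ν') : GexSup H S C c pv T := by
  have hli : ∀ i, Function.invFun e (e i) = i := Function.leftInverse_invFun he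
  have hT : ∀ y ∈ T, ∃ i, e i = y := by
    intro y hy
    rw [← hr] at hy
    exact hy
  refine ⟨fun ν y => g (Fin.castLE hN ν) (Function.invFun e y), ?_, ?_⟩
  · intro ν
    refine ⟨?_, ?_, ?_⟩
    · intro y hy y' hy' hyy
      obtain ⟨i, rfl⟩ := hT y hy
      obtain ⟨i', rfl⟩ := hT y' hy'
      have h4 : g (Fin.castLE hN ν) (Function.invFun e (e i)) =
          g (Fin.castLE hN ν) (Function.invFun e (e i')) := hyy
      rw [hli, hli] at h4
      rw [hg _ h4]
    · intro y hy y' hy' hyy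
      obtain ⟨i, rfl⟩ := hT y hy
      obtain ⟨i', rfl⟩ := hT y' hy'
      show S.Adj (g (Fin.castLE hN ν) (Function.invFun e (e i)))
          (g (Fin.castLE hN ν) (Function.invFun e (e i'))) ∧
        C (g (Fin.castLE hN ν) (Function.invFun e (e i)))
          (g (Fin.castLE hN ν) (Function.invFun e (e i'))) = c
      rw [hli, hli]
      exact hadj _ i i' hyy
    · intro y hy
      obtain ⟨i, rfl⟩ := hT y hy
      show (∀ q, pv (e i) = some q →
          g (Fin.castLE hN ν) (Function.invFun e (e i)) = Sum.inr q) ∧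
        (pv (e i) = none → ∃ l, g (Fin.castLE hN ν) (Function.invFun e (e i)) = Sum.inl l)
      rw [hli]
      exact ⟨fun q hq => h1 _ i q hq, fun hq => h2 _ i hq⟩
  · intro ν ν' y y' hy hy' hp hyy
    obtain ⟨i, rfl⟩ := hT y hy
    obtain ⟨i', rfl⟩ := hT y' hy'
    have h4 : g (Fin.castLE hN ν) (Function.invFun e (e i)) =
        g (Fin.castLE hN ν') (Function.invFun e (e i')) := hyy
    rw [hli, hli] at h4
    have h5 := h3 _ _ i i' hp h4
    exact Fin.castLE_injective hN h5

theorem gex_idx {n N : ℕ} (hN : (n + 1) * (n + 1) ≤ N) (ν : Fin (n + 1)) (y : Fin n) :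
    ν.1 * (n + 1) + y.1 < N := by
  have h1 : ν.1 ≤ n := by omega
  have h2 := Nat.mul_le_mul_right (n + 1) h1
  have h3 : (n + 1) * (n + 1) = n * (n + 1) + (n + 1) := by ring
  omega

theorem gex_idx_inj {n : ℕ} {ν ν' : Fin (n + 1)} {y y' : Fin n}
    (h : ν.1 * (n + 1) + y.1 = ν'.1 * (n + 1) + y'.1) : ν = ν' ∧ y = y' := by
  have h1 : (ν.1 * (n + 1) + y.1) / (n + 1) = ν.1 := by
    rw [Nat.mul_comm, Nat.mul_add_div (Nat.succ_pos n), Nat.div_eq_of_lt (by omega), Nat.add_zero]
  have h2 : (ν'.1 * (n + 1) + y'.1) / (n + 1) = ν'.1 := by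
    rw [Nat.mul_comm, Nat.mul_add_div (Nat.succ_pos n), Nat.div_eq_of_lt (by omega), Nat.add_zero]
  have h3 : ν.1 = ν'.1 := by rw [← h1, ← h2, h]
  refine ⟨Fin.ext h3, Fin.ext ?_⟩
  rw [h3] at h
  omega

/-- A supply from the world of one label. -/
theorem gex_world {n : ℕ} {H : SimpleGraph (Fin n)} {L Q : Type} {S : SimpleGraph (L ⊕ Q)}
    {C : L ⊕ Q → L ⊕ Q → Bool} {c : Bool} {pv : Fin n → Option Q} {T : Set (Fin n)} {N : ℕ}
    (hN : (n + 1) * (n + 1) ≤ N) (hC : ∀ x x', C x x' = C x' x)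
    (hpv : ∀ x x' q, pv x = some q → pv x' = some q → x = x') (w : Fin N → L)
    (hw : Function.Injective w)
    (hadj : ∀ x ∈ T, ∀ q, pv x = some q → ∀ i, S.Adj (Sum.inr q) (Sum.inl (w i)) ∧
      C (Sum.inr q) (Sum.inl (w i)) = c)
    (hT : ∀ x ∈ T, ∀ x' ∈ T, H.Adj x x' → (pv x = none ↔ pv x' ≠ none)) :
    GexSup H S C c pv T := by
  have key : ∀ (ν : Fin (n + 1)) (x : Fin n),
      (∃ q, pv x = some q ∧ (match pv x with
        | some q => Sum.inr q
        | none => (Sum.inl (w ⟨ν.1 * (n + 1) + x.1, gex_idx hN ν x⟩) : L ⊕ Q)) = Sum.inr q) ∨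
      (pv x = none ∧ (match pv x with
        | some q => Sum.inr q
        | none => (Sum.inl (w ⟨ν.1 * (n + 1) + x.1, gex_idx hN ν x⟩) : L ⊕ Q)) =
          Sum.inl (w ⟨ν.1 * (n + 1) + x.1, gex_idx hN ν x⟩)) := by
    intro ν x
    cases hx : pv x with
    | none => exact Or.inr ⟨rfl, rfl⟩
    | some q => exact Or.inl ⟨q, rfl, rfl⟩
  obtain ⟨g, hg⟩ : ∃ g : Fin (n + 1) → Fin n → L ⊕ Q, ∀ ν x,
      (∃ q, pv x = some q ∧ g ν x = Sum.inr q) ∨
      (pv x = none ∧ g ν x = Sum.inl (w ⟨ν.1 * (n + 1) + x.1, gex_idx hN ν x⟩)) :=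
    ⟨fun ν x => match pv x with
        | some q => Sum.inr q
        | none => (Sum.inl (w ⟨ν.1 * (n + 1) + x.1, gex_idx hN ν x⟩) : L ⊕ Q), key⟩
  have hlow : ∀ (ν ν' : Fin (n + 1)) (x x' : Fin n),
      (Sum.inl (w ⟨ν.1 * (n + 1) + x.1, gex_idx hN ν x⟩) : L ⊕ Q) =
        Sum.inl (w ⟨ν'.1 * (n + 1) + x'.1, gex_idx hN ν' x'⟩) → ν = ν' ∧ x = x' := by
    intro ν ν' x x' h
    exact gex_idx_inj (congrArg Fin.val (hw (Sum.inl.inj h)))
  refine ⟨g, ?_, ?_⟩
  · intro ν
    refine ⟨?_, ?_, ?_⟩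
    · intro x hx x' hx' hxx
      rcases hg ν x with ⟨q, h1, h2⟩ | ⟨h1, h2⟩
      · rcases hg ν x' with ⟨q', h1', h2'⟩ | ⟨h1', h2'⟩
        · rw [h2, h2'] at hxx
          rw [← Sum.inr.inj hxx] at h1'
          exact hpv x x' q h1 h1'
        · rw [h2, h2'] at hxx
          exact absurd hxx Sum.inr_ne_inl
      · rcases hg ν x' with ⟨q', h1', h2'⟩ | ⟨h1', h2'⟩
        · rw [h2, h2'] at hxx
          exact absurd hxx Sum.inl_ne_inr
        · rw [h2, h2'] at hxx
          exact (hlow ν ν x x' hxx).2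
    · intro x hx x' hx' hxx
      have h0 := hT x hx x' hx' hxx
      rcases hg ν x with ⟨q, h1, h2⟩ | ⟨h1, h2⟩
      · rcases hg ν x' with ⟨q', h1', h2'⟩ | ⟨h1', h2'⟩
        · exfalso
          have h3 : pv x = none := h0.2 (by rw [h1']; exact Option.some_ne_none q')
          rw [h3] at h1
          exact absurd h1.symm (Option.some_ne_none q)
        · rw [h2, h2']
          exact hadj x hx q h1 _
      · rcases hg ν x' with ⟨q', h1', h2'⟩ | ⟨h1', h2'⟩
        · rw [h2, h2']
          obtain ⟨h3, h4⟩ := hadj x' hx' q' h1' ⟨ν.1 * (n + 1) + x.1, gex_idx hN ν x⟩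
          exact ⟨h3.symm, by rw [hC]; exact h4⟩
        · exact absurd h1' (h0.1 h1)
    · intro x hx
      rcases hg ν x with ⟨q, h1, h2⟩ | ⟨h1, h2⟩
      · refine ⟨?_, ?_⟩
        · intro q' hq'
          rw [h1] at hq'
          rw [h2, Option.some.inj hq']
        · intro h3
          rw [h1] at h3
          exact absurd h3 (Option.some_ne_none q)
      · refine ⟨?_, ?_⟩
        · intro q' hq'
          rw [h1] at hq'
          exact absurd hq'.symm (Option.some_ne_none q')
        · intro _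
          exact ⟨_, h2⟩
  · intro ν ν' x x' _ _ hp hxx
    rcases hg ν x with ⟨q, h1, h2⟩ | ⟨h1, h2⟩
    · rw [hp] at h1
      exact absurd h1.symm (Option.some_ne_none q)
    · rcases hg ν' x' with ⟨q', h1', h2'⟩ | ⟨h1', h2'⟩
      · rw [h2, h2'] at hxx
        exact absurd hxx Sum.inl_ne_inr
      · rw [h2, h2'] at hxx
        exact (hlow ν ν' x x' hxx).1

/-- Row GEX. -/
theorem gex_proof (hGen : GenStatement) : GexStatement := by
  intro h n k m r H κ D hD 𝓛 hL z₀ zz _ hz₀ L Q S C c zf N hC hN hF hcol W u pv clW uW hWu hE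
  have hN' : n + 1 ≤ N := le_trans (Nat.le_mul_of_pos_left _ (Nat.succ_pos n)) hN
  -- the private vertices
  have hsome : ∀ x q, (pv x).map zf = some q → ∃ p, pv x = some p ∧ zf p = q := by
    intro x q hq
    exact Option.map_eq_some_iff.1 hq
  have hnone : ∀ x, (pv x).map zf = none ↔ pv x = none := by
    intro x
    exact Option.map_eq_none_iff
  have hinj : ∀ x x' q, (pv x).map zf = some q → (pv x').map zf = some q → x = x' := by
    intro x x' q hq hq'
    obtain ⟨p, h1, h2⟩ := hsome x q hq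
    obtain ⟨p', h1', h2'⟩ := hsome x' q hq'
    have h3 : p = p' := hF.inj (h2.trans h2'.symm)
    subst h3
    exact hE.inj x x' p h1 h1'
  refine hGen n H L Q S C c W u (fun x => (pv x).map zf) hC clW uW hWu ((hnone u).2 hE.pu)
    hinj ?_ ?_ ?_
  · intro x hx hp
    exact hE.all x hx fun h1 => hp ((hnone x).2 h1)
  · intro T T' x hT hT' hTW hTW' hx hx' hp
    exact hE.sh T T' x hT hT' hTW hTW' hx hx' ((hnone x).1 hp)
  · intro T hT hTW
    show GexSup H S C c (fun x => (pv x).map zf) T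
    rcases hE.blk T hT hTW with ⟨hns, x, hx, hpx, hot⟩ | ⟨hDB, i, y, hy, x, hx, hyx, hpy, hpx, hot⟩ |
      ⟨hDB, i, X, hX1, hX2, hX3⟩
    · -- a small block
      obtain ⟨U, hU, e, he, hr, hadj⟩ := hL T ⟨hT, hns⟩
      obtain ⟨p, hp⟩ := Option.ne_none_iff_exists'.1 hpx
      obtain ⟨w, hw⟩ : ∃ w, e w = x := by
        rw [← hr] at hx
        exact hx
      have hmem : ∀ i, e i ∈ T := fun i => hr ▸ Set.mem_range_self i
      have hnw : ∀ i, (pv (e i)).map zf = none → i ≠ w := by
        rintro i hi rfl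
        rw [hw, hp] at hi
        exact absurd hi (Option.some_ne_none _)
      obtain ⟨g, hg1, hg2, hg3, hg4⟩ := hF.hang p U hU w
      refine gex_model hN' ⟨w⟩ e he hr g (fun ν => (hg1 ν).1) ?_ ?_ ?_ ?_
      · intro ν i j hij
        exact (hg1 ν).2 i j ((hadj i j).1 hij)
      · intro ν i q hq
        obtain ⟨p', hp', hq'⟩ := hsome (e i) q hq
        have h1 : e i = x := by
          by_contra h2
          rw [hot (e i) (hmem i) h2] at hp'
          exact absurd hp'.symm (Option.some_ne_none p')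
        have h2 : i = w := he (h1.trans hw.symm)
        subst h2
        rw [h1, hp] at hp'
        rw [hg2, ← hq', Option.some.inj hp']
      · intro ν i hi
        exact hg3 ν i (hnw i hi)
      · intro ν ν' i i' hi hii
        exact hg4 ν ν' i i' (hnw i hi) hii
    · -- a blob
      obtain ⟨e, he, hr, hadj⟩ := hD.iso T hDB
      obtain ⟨a, ha⟩ : ∃ a, e a = y := by
        rw [← hr] at hy
        exact hy
      obtain ⟨b, hb⟩ : ∃ b, e b = x := by
        rw [← hr] at hx
        exact hx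
      have hab : D.Adj a b := (hadj a b).1 (by rw [ha, hb]; exact hyx)
      have hmem : ∀ i, e i ∈ T := fun i => hr ▸ Set.mem_range_self i
      have hna : ∀ i, (pv (e i)).map zf = none → i ≠ a := by
        rintro i hi rfl
        rw [ha, hpy] at hi
        exact absurd hi (Option.some_ne_none _)
      have hnb : ∀ i, (pv (e i)).map zf = none → i ≠ b := by
        rintro i hi rfl
        rw [hb, hpx] at hi
        exact absurd hi (Option.some_ne_none _)
      obtain ⟨g, hg1, hg2⟩ := hF.blob z₀ (zz i) a b (Ne.symm (hz₀ i)) hab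
      refine gex_model (t := k) hN' ⟨a⟩ e he hr g (fun ν => (hg1 ν).1) ?_ ?_ ?_ ?_
      · intro ν j j' hjj
        obtain ⟨_, h1, h2, _, h4⟩ := hg1 ν
        by_cases hc1 : j = a ∧ j' = b
        · obtain ⟨rfl, rfl⟩ := hc1
          rw [h1, h2]
          exact ⟨hF.zz z₀ (zz i) (Ne.symm (hz₀ i)), hcol i⟩
        · by_cases hc2 : j = b ∧ j' = a
          · obtain ⟨rfl, rfl⟩ := hc2
            rw [h1, h2]
            exact ⟨hF.zz (zz i) z₀ (hz₀ i), by rw [hC]; exact hcol i⟩
          · exact h4 j j' ((hadj j j').1 hjj) hc1 hc2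
      · intro ν j q hq
        obtain ⟨_, h1, h2, _, _⟩ := hg1 ν
        obtain ⟨p', hp', hq'⟩ := hsome (e j) q hq
        by_cases hjb : e j = x
        · have h5 : j = b := he (hjb.trans hb.symm)
          subst h5
          rw [hjb, hpx] at hp'
          rw [h2, ← hq', ← Option.some.inj hp']
        · by_cases hja : e j = y
          · have h5 : j = a := he (hja.trans ha.symm)
            subst h5
            rw [hja, hpy] at hp'
            rw [h1, ← hq', ← Option.some.inj hp']
          · rw [hot (e j) (hmem j) hjb hja] at hp'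
            exact absurd hp'.symm (Option.some_ne_none p')
      · intro ν j hj
        exact (hg1 ν).2.2.2.1 j (hna j hj) (hnb j hj)
      · intro ν ν' j j' hj hjj
        exact hg2 ν ν' j j' (hna j hj) (hnb j hj) hjj
    · -- a world
      obtain ⟨w, hw1, hw2⟩ := hF.world (zz i)
      have hXn : ∀ x ∈ T, (pv x).map zf = none ↔ x ∉ X := by
        intro x hx
        rw [hnone]
        constructor
        · intro h1 h2
          obtain ⟨j, hj⟩ := hX1 x hx h2
          rw [h1] at hj
          exact absurd hj.symm (Option.some_ne_none _)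
        · exact hX2 x hx
      refine gex_world hN hC hinj w hw1 ?_ ?_
      · intro x hx q hq i'
        have hxX : x ∈ X := by
          by_contra h1
          have h2 := (hXn x hx).2 h1
          rw [h2] at hq
          exact absurd hq.symm (Option.some_ne_none q)
        obtain ⟨j, hj⟩ := hX1 x hx hxX
        rw [hj] at hq
        rw [← Option.some.inj hq]
        exact hw2 i' j
      · intro x hx x' hx' hxx
        rw [hXn x hx, ne_eq, hXn x' hx', not_not]
        have h1 := hX3 x hx x' hx' hxx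
        constructor
        · intro h2
          by_contra h3
          exact h2 (h1.2 h3)
        · intro h2 h3
          exact h1.1 h3 h2

end MP3240S
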