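import Pool.Agent.Lib.MP_3240be_co.S62.Defs
import Pool.Agent.Lib.MP_3240be_co.Q22.Nfh

set_option autoImplicit false

/-!
# Theorem T2*, row GLC: the intended colouring of the host
-/

namespace MP3240S

open MP3240Q (em Gl Lin em_inj' em_shared)
open Pool.Agent.Lib.MP_3240be_co.H82 (exists_colouring)

/-- Row GLC. -/
theorem glc_proof : GlcStatement := by
  classical
  intro L Q I M S C₀ δ hsym hδ hlin
  have hei : ∀ m, Function.Injective (em δ m : L ⊕ Q → I ⊕ (M × Q)) := em_inj' hδ
  obtain ⟨C, hC1, hC2⟩ := exists_colouring (J := M) (U := fun _ => L ⊕ Q) (fun _ => S)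
    (fun m => em δ m) (fun _ => C₀) (fun _ => hsym) (by
      intro m m' u v u' v' huv hu'v' h1 h2
      by_cases hm : m = m'
      · subst hm
        rw [hei m h1, hei m h2]
      · exfalso
        obtain ⟨l, l', rfl, _, e1⟩ := em_shared hm h1
        obtain ⟨s, s', rfl, _, e2⟩ := em_shared hm h2
        have e3 := hδ m (hlin m m' l l' s s' hm e1 e2)
        rw [e3] at huv
        exact huv.ne rfl)
  exact ⟨C, hC1, fun m u v huv => hC2 m u v huv⟩

end MP3240S
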