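import Pool.Agent.Lib.MP_3240be_co.S62.Defs

set_option autoImplicit false

/-!
# Theorem T2*, row GRF: all labels are complete, paper (C3), (C4)
-/

namespace MP3240S

open Finset
open MP3240L (Two MxTwo Cl Branch gr fam)
open MP3240G (Prs)
open MP3240Q (Mono SG Sub)

/-- A block which is present on points is a step of the gadget. -/
theorem Grf.prs_step {n : ℕ} {H : SimpleGraph (Fin n)} {L Q : Type} {S : SimpleGraph (L ⊕ Q)}
    {C : L ⊕ Q → L ⊕ Q → Bool} {c : Bool} {W : Set (Fin n)} {u : Fin n} (hu : u ∈ W) {x : SG}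
    (hM : Mdl H W x) (hP : Prs S C c x) : GSt H S C c W u := by
  classical
  obtain ⟨e, he, hr, hadj⟩ := hM
  obtain ⟨g, hgi, hg⟩ := hP
  have hex : ∀ v ∈ W, ∃ i, e i = v := fun v hv => by
    rw [← hr] at hv
    exact hv
  obtain ⟨i0, hi0⟩ := hex u hu
  set b : Fin n → Fin x.1 := fun v => if h : v ∈ W then (hex v h).choose else i0 with hb
  have hbW : ∀ v ∈ W, e (b v) = v := by
    intro v hv
    have : b v = (hex v hv).choose := by
      simp only [hb, dif_pos hv]
    rw [this]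
    exact (hex v hv).choose_spec
  refine ⟨fun v => Sum.inl (g (b v)), ?_, ?_, ⟨_, rfl⟩, fun v _ _ => ⟨_, rfl⟩⟩
  · intro v hv v' hv' h
    have h1 : b v = b v' := hgi h
    rw [← hbW v hv, ← hbW v' hv', h1]
  · intro i hi j hj hij
    have h1 : x.2.Adj (b i) (b j) := by
      rw [← hadj, hbW i hi, hbW j hj]
      exact hij
    exact hg _ _ h1

/-- Row GRF. -/
theorem grf_proof (hI : GriStatement) (hE : ExtStatement) (hG : GexStatement)
    (hP : PckStatement) : GrfStatement := by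
  classical
  intro h n k m₁ m r H κ D X y₀ y₁ hD hN 𝓛 h𝓛 L Q S C c zf N hsym hNN hPr hFull
  -- the graph of the edges of colour `c` on the passengers
  let β : SimpleGraph (Fin n) :=
    { Adj := fun z z' => z ≠ z' ∧ C (Sum.inr (zf (z, 0))) (Sum.inr (zf (z', 0))) = c
      symm := ⟨fun z z' hz => ⟨hz.1.symm, (hsym _ _).trans hz.2⟩⟩
      loopless := ⟨fun z hz => hz.1 rfl⟩ }
  by_cases hβ : ∀ z, {z' | β.Adj z z'}.ncard ≤ r
  · right
    obtain ⟨π, hπ⟩ := hP h n k r H κ D hD y₀ y₁ hN.ne hN.q0 hN.q1 β hβ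
    refine ⟨fun x => Sum.inr (zf (π x, 0)), ?_, ?_⟩
    · intro x x' hx
      have h1 := hFull.inj (Sum.inr_injective hx)
      exact π.injective (Prod.ext_iff.1 h1).1
    · intro x x' hx
      have hne : π x ≠ π x' := fun he => hx.ne (π.injective he)
      refine ⟨hFull.zz _ _ hne, ?_⟩
      have h1 := hπ x x' hx
      have h2 : ¬ C (Sum.inr (zf (π x, 0))) (Sum.inr (zf (π x', 0))) = c := fun h2 => h1 ⟨hne, h2⟩
      exact Bool.eq_not_of_ne h2
  · left
    push Not at hβ
    obtain ⟨z₀, hz₀⟩ := hβ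
    -- `r + 1` neighbours of `z₀`
    obtain ⟨T, hTs, hTc⟩ := Set.exists_subset_card_eq (Nat.succ_le_of_lt hz₀)
    have hTf : T.Finite := Set.toFinite T
    have hcard : hTf.toFinset.card = r + 1 := by
      rw [← Set.ncard_eq_toFinset_card T hTf]
      exact hTc
    let eq := hTf.toFinset.equivFinOfCardEq hcard
    let zz : Fin (r + 1) → Fin n := fun i => (eq.symm i).1
    have hzzT : ∀ i, zz i ∈ T := fun i => (Set.Finite.mem_toFinset hTf).1 (eq.symm i).2
    have hzzβ : ∀ i, β.Adj z₀ (zz i) := fun i => hTs (hzzT i)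
    have hzzi : Function.Injective zz := fun i j hij =>
      eq.symm.injective (Subtype.ext hij)
    have hzz0 : ∀ i, zz i ≠ z₀ := fun i => (hzzβ i).1.symm
    refine hI n H (GSt H S C c) y₀ (fun _ => True) hD.conn trivial ?_
    intro u K hB hρ _
    obtain ⟨W, clW, uW, hWu, hWK, hcase⟩ := hE h n k m r H κ D hD X hN.hub hN.clb z₀ zz hzzi hzz0
      u K hB (fun y hy hyX => hN.mx y (fun he => hρ (he ▸ hy)) hyX)
    refine ⟨W, clW, uW, hWu, hWK, ?_, fun _ _ _ => trivial⟩
    rcases hcase with hSB | ⟨pv, hpv⟩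
    · obtain ⟨x, hx, hM⟩ := h𝓛 W hSB
      exact Grf.prs_step uW hM (hPr x hx)
    · exact hG h n k m r H κ D hD 𝓛 h𝓛 z₀ zz hzzi hzz0 L Q S C c zf N hsym hNN hFull
        (fun i => (hzzβ i).2) W u pv clW uW hWu hpv

end MP3240S
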