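import Pool.Agent.Lib.MP_3240be_co.S62.Defs
import Pool.Agent.Lib.MP_3240be_co.S62.Grf

/-!
# MP_3240be_co, board t3s_modules, row GRA (helper94)

All blocks are present on points.
-/

set_option autoImplicit false

namespace MP3240S

open MP3240L (Two MxTwo Cl Branch)
open MP3240G (Prs)
open MP3240Q (Mono SG Sub)

/-- Row GRA. -/
theorem gra_proof (hI : GriStatement) : GraStatement := by
  intro n H L Q S C c hH hbl
  obtain ⟨ρ⟩ := hH.nonempty
  refine hI n H (GSt H S C c) ρ (fun _ => True) hH trivial ?_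
  intro u K hK _ _
  obtain ⟨T, hT, huT, ⟨x, hxT, hxK⟩, hsub, _⟩ := hK.block
  obtain ⟨y, hM, hP⟩ := hbl T hT
  refine ⟨T, hT.cl, huT, ?_, hsub, Grf.prs_step huT hM hP, fun _ _ _ => trivial⟩
  intro h
  rw [h, Set.mem_singleton_iff] at hxT
  exact hK.nu (hxT ▸ hxK)

end MP3240S
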