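import Pool.Agent.Lib.MP_3240be_co.S62.Defs

/-!
# MP_3240be_co, board t3s_modules, row GRI (helper34)
-/

set_option autoImplicit false

namespace MP3240S

open MP3240L (Two MxTwo Cl Branch)

theorem gri_proof : GriStatement := by
  intro n H st ρ P hH hρ hstep
  have key := Cl.glue hH (fun A => Gr H st A ∧ ∀ x ∈ A, (∃ x', x' ∉ A ∧ H.Adj x x') → P x) ρ
    ⟨Gr.start ρ, fun x hx _ => by rw [Set.mem_singleton_iff.1 hx]; exact hρ⟩ ?_
  · exact key.1
  rintro A hA hρA ⟨hGr, hinv⟩ u hu K hK hKA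
  obtain ⟨z, hz, huz⟩ := hK.adj
  obtain ⟨W, h1, h2, h3, h4, h5, h6⟩ := hstep u K hK (fun h => hKA ρ h hρA)
    (hinv u hu ⟨z, hKA z hz, huz⟩)
  have h7 : ∃ x ∈ W, x ≠ u := by
    by_contra hcon
    push Not at hcon
    exact h3 (Set.Subset.antisymm (fun x hx => hcon x hx) (Set.singleton_subset_iff.2 h2))
  have h8 : ∀ x ∈ A, x ∈ W → x = u := by
    intro x hx hxW
    rcases h4 hxW with h | h
    · exact h
    · exact absurd hx (hKA x h)
  refine ⟨W, h1, h2, h7, h4, Gr.next A W u hGr hA h1 hu h2 h8 h5, ?_⟩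
  rintro x hx ⟨x', hx', hxx⟩
  rcases hx with hx | hx
  · exact hinv x hx ⟨x', fun h => hx' (Or.inl h), hxx⟩
  · exact h6 x hx ⟨x', fun h => hx' (Or.inr h), hxx⟩

end MP3240S
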