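import Pool.Agent.Lib.MP_3240be_co.S62.Defs

/-!
# MP_3240be_co, Theorem T2*: row GRK (helper53), the piece `K_(M, N)`
-/

set_option autoImplicit false

namespace MP3240S

open Finset
open MP3240L (Two MxTwo Cl Branch gr fam)
open MP3240G (TwoCn Bi Tiny Nc IsNc Mx Fam Blobbed WP WS Prs)
open MP3240Q (Mono Bip SG Sub em Gl Lin XS Hang)

namespace Grk

/-- Steps may be exchanged if the new condition follows for closed sets. -/
theorem gr_map {n : ℕ} {H : SimpleGraph (Fin n)} {st st' : Set (Fin n) → Fin n → Prop}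
    (hst : ∀ W y, y ∈ W → st W y → st' W y) {A : Set (Fin n)} (hA : Gr H st A) :
    Gr H st' A := by
  induction hA with
  | start ρ => exact Gr.start ρ
  | next A W y _ clA clW yA yW h hs ih =>
    exact Gr.next A W y ih clA clW yA yW h (hst W y yW hs)

/-- A small block is present. -/
theorem small {n : ℕ} {H : SimpleGraph (Fin n)} {L Q : Type} {S : SimpleGraph (L ⊕ Q)}
    {C : L ⊕ Q → L ⊕ Q → Bool} {c : Bool} {W : Set (Fin n)} {y : Fin n} (hy : y ∈ W)
    {x : SG} (hm : Mdl H W x) (hp : Prs S C c x) : GSt H S C c W y := by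
  classical
  obtain ⟨e, he, hr, hadj⟩ := hm
  obtain ⟨f, hf⟩ := hp
  have hne : Nonempty (Fin x.1) := by
    rw [← hr] at hy
    obtain ⟨i, -⟩ := hy
    exact ⟨i⟩
  have hinv : ∀ v ∈ W, e (Function.invFun e v) = v := by
    intro v hv
    rw [← hr] at hv
    exact Function.invFun_eq hv
  refine ⟨fun v => Sum.inl (f (Function.invFun e v)), ?_, ?_, ⟨_, rfl⟩, fun _ _ _ => ⟨_, rfl⟩⟩
  · intro v hv w hw hvw
    have h1 := hf.1 hvw
    rw [← hinv v hv, ← hinv w hw, h1]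
  · intro i hi j hj hij
    refine hf.2 _ _ ?_
    rw [← hadj, hinv i hi, hinv j hj]
    exact hij

/-- An injection of two disjoint sets: the first goes to the first places. -/
theorem places {n h M : ℕ} (R P : Set (Fin n)) (hd : ∀ x ∈ R, x ∉ P) (hR : R.ncard ≤ h)
    (hRP : (R ∪ P).ncard ≤ M) : ∃ φ : Fin n → ℕ, (∀ x ∈ R ∪ P, φ x < M) ∧
      (∀ x ∈ R, φ x < h) ∧ Set.InjOn φ (R ∪ P) := by
  classical
  have hR1 : (univ.filter (fun x => x ∈ R)).card = R.ncard := by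
    rw [← Set.ncard_coe_finset]
    congr 1
    ext x
    simp
  have hP1 : (univ.filter (fun x => x ∈ P)).card = P.ncard := by
    rw [← Set.ncard_coe_finset]
    congr 1
    ext x
    simp
  have hsum : R.ncard + P.ncard = (R ∪ P).ncard := by
    rw [Set.ncard_union_eq (Set.disjoint_left.2 hd) (Set.toFinite _) (Set.toFinite _)]
  let e1 := (univ.filter (fun x => x ∈ R)).equivFin
  let e2 := (univ.filter (fun x => x ∈ P)).equivFin
  have m1 : ∀ x, x ∈ R → x ∈ univ.filter (fun x => x ∈ R) := fun x hx =>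
    mem_filter.2 ⟨mem_univ _, hx⟩
  have m2 : ∀ x, x ∈ P → x ∈ univ.filter (fun x => x ∈ P) := fun x hx =>
    mem_filter.2 ⟨mem_univ _, hx⟩
  let φ : Fin n → ℕ := fun x =>
    if hx : x ∈ R then (e1 ⟨x, m1 x hx⟩).1
    else if hx' : x ∈ P then R.ncard + (e2 ⟨x, m2 x hx'⟩).1 else 0
  have f1 : ∀ x (hx : x ∈ R), φ x = (e1 ⟨x, m1 x hx⟩).1 := fun x hx => dif_pos hx
  have f2 : ∀ x (hx : x ∈ P), φ x = R.ncard + (e2 ⟨x, m2 x hx⟩).1 := by
    intro x hx
    have h1 : x ∉ R := fun h2 => hd x h2 hx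
    show (if hx : x ∈ R then _ else _) = _
    rw [dif_neg h1, dif_pos hx]
  have b1 : ∀ x, x ∈ R → φ x < R.ncard := by
    intro x hx
    rw [f1 x hx]
    have := (e1 ⟨x, m1 x hx⟩).2
    omega
  have b2 : ∀ x, x ∈ P → R.ncard ≤ φ x ∧ φ x < R.ncard + P.ncard := by
    intro x hx
    rw [f2 x hx]
    have := (e2 ⟨x, m2 x hx⟩).2
    omega
  refine ⟨φ, ?_, ?_, ?_⟩
  · intro x hx
    rcases hx with hx | hx
    · have := b1 x hx
      omega
    · have := b2 x hx
      omega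
  · intro x hx
    have := b1 x hx
    omega
  · intro x hx y hy hxy
    rcases hx with hx | hx <;> rcases hy with hy | hy
    · rw [f1 x hx, f1 y hy] at hxy
      have h1 := e1.injective (Fin.ext hxy)
      exact congrArg Subtype.val h1
    · have h1 := b1 x hx
      have h2 := b2 y hy
      omega
    · have h1 := b1 y hy
      have h2 := b2 x hx
      omega
    · rw [f2 x hx, f2 y hy] at hxy
      have h1 := e2.injective (Fin.ext (Nat.add_left_cancel hxy))
      exact congrArg Subtype.val h1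

/-- A step with a piece `K_(M, N)`. -/
theorem piece {h M n : ℕ} {H : SimpleGraph (Fin n)} {κ : Fin n → Bool}
    (hκ : ∀ i j, H.Adj i j → κ i ≠ κ j) {L Q : Type} {S : SimpleGraph (L ⊕ Q)}
    {C : L ⊕ Q → L ⊕ Q → Bool} {c : Bool} (hC : ∀ x x', C x x' = C x' x)
    (hK : KP S C c M h n) {W : Set (Fin n)} {y : Fin n} (hy : y ∈ W) {s : Bool}
    {Pv : Set (Fin n)} (h1 : Pv ⊆ W ∩ {x | κ x = s}) (h2 : y ∉ Pv)
    (h3 : (W ∩ {x | κ x = s}).ncard ≤ M) (h4 : ((W ∩ {x | κ x = s}) \ Pv).ncard ≤ h)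
    (h5 : ∀ x ∈ Pv, ∀ x', H.Adj x x' → x' ∈ W) : GSt H S C c W y := by
  classical
  obtain ⟨hb, lw, hbi, lwi, hpt, hne, hadj⟩ := hK
  obtain ⟨φ, p1, p2, p3⟩ := places (h := h) (M := M) ((W ∩ {x | κ x = s}) \ Pv) Pv
    (fun x hx => hx.2) h4 (by rwa [Set.sdiff_union_of_subset h1])
  rw [Set.sdiff_union_of_subset h1] at p1 p3
  let F : Fin n → L ⊕ Q := fun v =>
    if hv : v ∈ W ∩ {x | κ x = s} then hb ⟨φ v, p1 v hv⟩ else Sum.inl (lw v)
  have F1 : ∀ v (hv : v ∈ W ∩ {x | κ x = s}), F v = hb ⟨φ v, p1 v hv⟩ := fun v hv => dif_pos hv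
  have F2 : ∀ v, v ∉ W ∩ {x | κ x = s} → F v = Sum.inl (lw v) := fun v hv => dif_neg hv
  have hpoint : ∀ x ∈ W, x ∉ Pv → ∃ l, F x = Sum.inl l := by
    intro x hx hxP
    by_cases hx2 : x ∈ W ∩ {x | κ x = s}
    · rw [F1 x hx2]
      exact hpt _ (p2 x ⟨hx2, hxP⟩)
    · exact ⟨_, F2 x hx2⟩
  have key : ∀ i ∈ W, ∀ j ∈ W, H.Adj i j → κ i = s →
      S.Adj (F i) (F j) ∧ C (F i) (F j) = c := by
    intro i hi j hj hij hs
    have hj2 : j ∉ W ∩ {x | κ x = s} := by
      intro hj2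
      have e : κ j = s := hj2.2
      exact hκ i j hij (hs.trans e.symm)
    rw [F1 i ⟨hi, hs⟩, F2 j hj2]
    exact hadj _ _
  refine ⟨F, ?_, ?_, hpoint y hy h2, ?_⟩
  · intro v hv w hw hvw
    by_cases hv2 : v ∈ W ∩ {x | κ x = s}
    · by_cases hw2 : w ∈ W ∩ {x | κ x = s}
      · rw [F1 v hv2, F1 w hw2] at hvw
        have e := congrArg Fin.val (hbi hvw)
        exact p3 hv2 hw2 e
      · rw [F1 v hv2, F2 w hw2] at hvw
        exact absurd hvw (hne _ _)
    · by_cases hw2 : w ∈ W ∩ {x | κ x = s}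
      · rw [F2 v hv2, F1 w hw2] at hvw
        exact absurd hvw.symm (hne _ _)
      · rw [F2 v hv2, F2 w hw2] at hvw
        exact lwi (Sum.inl_injective hvw)
  · intro i hi j hj hij
    by_cases hs : κ i = s
    · exact key i hi j hj hij hs
    · have hs' : κ j = s := by
        have e := hκ i j hij
        revert hs e
        cases κ i <;> cases κ j <;> cases s <;> simp
      obtain ⟨e1, e2⟩ := key j hj i hi hij.symm hs'
      exact ⟨e1.symm, (hC _ _).trans e2⟩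
  · rintro x hx ⟨x', hx', hadj'⟩
    exact hpoint x hx fun hxP => hx' (h5 x hxP x' hadj')

end Grk

open Grk in
/-- Row GRK. -/
theorem grk_proof : GrkStatement := by
  intro h M n k H κ D hκ hG 𝓛 h𝓛 L Q S C c hC hP hK
  refine gr_map ?_ hG
  rintro W y hy (hs | ⟨s, Pv, h1, h2, h3, h4, h5⟩)
  · obtain ⟨x, hx, hm⟩ := h𝓛 W hs
    exact small hy hm (hP x hx)
  · exact piece hκ hC hK hy h1 h2 h3 h4 h5

end MP3240S
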