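import Pool.Agent.Lib.MP_3240be_co.S62.Defs

/-!
# MP_3240be_co, board t3s_modules, row GRS (helper88)

The star piece, paper (C1).
-/

set_option autoImplicit false

namespace MP3240S

open MP3240L (Two MxTwo Cl Branch two_adj exists_mxTwo sep exists_path)
open MP3240G (Prs)
open MP3240Q (Mono SG Sub Hang)

/-- A copy of the block `T` in the points. -/
theorem grs_point {n : ℕ} {L Q : Type} {H : SimpleGraph (Fin n)} {S : SimpleGraph (L ⊕ Q)}
    {C : L ⊕ Q → L ⊕ Q → Bool} {c : Bool} {T : Set (Fin n)} {x : SG} (hx : Mdl H T x)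
    (hP : Prs S C c x) {y : Fin n} (hy : y ∈ T) : GSt H S C c T y := by
  classical
  obtain ⟨e, he, hr, hadj⟩ := hx
  obtain ⟨f, hf, hm⟩ := hP
  have hinv : ∀ i ∈ T, ∃ a, e a = i := by
    intro i hi
    rw [← hr] at hi
    exact hi
  have hinv' : ∀ i : Fin n, ∃ a : Fin x.1, i ∈ T → e a = i := by
    intro i
    by_cases hi : i ∈ T
    · obtain ⟨a, ha⟩ := hinv i hi
      exact ⟨a, fun _ => ha⟩
    · obtain ⟨a, _⟩ := hinv y hy
      exact ⟨a, fun h => absurd h hi⟩
  choose v hv using hinv'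
  refine ⟨fun i => Sum.inl (f (v i)), ?_, ?_, ⟨f (v y), rfl⟩, fun z _ _ => ⟨f (v z), rfl⟩⟩
  · intro i hi j hj hij
    have h1 : v i = v j := hf hij
    rw [← hv i hi, ← hv j hj, h1]
  · intro i hi j hj hij
    refine hm (v i) (v j) ?_
    rw [← hadj, hv i hi, hv j hj]
    exact hij

/-- The family of copies of the block `T` at the private vertex `q` in the place of `s`. -/
theorem grs_fam {n : ℕ} {L Q : Type} {H : SimpleGraph (Fin n)} {S : SimpleGraph (L ⊕ Q)}
    {C : L ⊕ Q → L ⊕ Q → Bool} {c : Bool} {q : Q} {T : Set (Fin n)} {x : SG} (hx : Mdl H T x)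
    (hH : ∀ w : Fin x.1, Hang x.2 S C c (n + 1) q w) {s : Fin n} (hs : s ∈ T)
    (pv : Fin n → Option Q) (hpv : ∀ i, pv i = if i = s then some q else none) :
    ∃ g : Fin (n + 1) → Fin n → L ⊕ Q,
      (∀ ν, Set.InjOn (g ν) T ∧
        (∀ i ∈ T, ∀ j ∈ T, H.Adj i j → S.Adj (g ν i) (g ν j) ∧ C (g ν i) (g ν j) = c) ∧
        ∀ i ∈ T, (∀ q, pv i = some q → g ν i = Sum.inr q) ∧
          (pv i = none → ∃ l, g ν i = Sum.inl l)) ∧
      ∀ ν ν' i i', i ∈ T → i' ∈ T → pv i = none → g ν i = g ν' i' → ν = ν' := by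
  classical
  obtain ⟨e, he, hr, hadj⟩ := hx
  have hinv : ∀ i ∈ T, ∃ a, e a = i := by
    intro i hi
    rw [← hr] at hi
    exact hi
  have hinv' : ∀ i : Fin n, ∃ a : Fin x.1, i ∈ T → e a = i := by
    intro i
    by_cases hi : i ∈ T
    · obtain ⟨a, ha⟩ := hinv i hi
      exact ⟨a, fun _ => ha⟩
    · obtain ⟨a, _⟩ := hinv s hs
      exact ⟨a, fun h => absurd h hi⟩
  choose v hv using hinv'
  obtain ⟨g, hm, hq, hl, hd⟩ := hH (v s)
  have hne : ∀ i ∈ T, pv i = none → v i ≠ v s := by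
    intro i hi hn h
    have h1 : i = s := by rw [← hv i hi, ← hv s hs, h]
    rw [hpv i, if_pos h1] at hn
    exact absurd hn (by simp)
  refine ⟨fun ν i => g ν (v i), ?_, ?_⟩
  · intro ν
    refine ⟨?_, ?_, ?_⟩
    · intro i hi j hj hij
      have h1 : v i = v j := (hm ν).1 hij
      rw [← hv i hi, ← hv j hj, h1]
    · intro i hi j hj hij
      refine (hm ν).2 (v i) (v j) ?_
      rw [← hadj, hv i hi, hv j hj]
      exact hij
    · intro i hi
      refine ⟨?_, fun hn => hl ν (v i) (hne i hi hn)⟩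
      intro q' hq'
      rw [hpv i] at hq'
      by_cases his : i = s
      · rw [if_pos his] at hq'
        have h2 : q = q' := Option.some.inj hq'
        show g ν (v i) = Sum.inr q'
        rw [his, hq ν, h2]
      · rw [if_neg his] at hq'
        exact absurd hq' (by simp)
  · intro ν ν' i i' hi hi' hn h
    exact hd ν ν' (v i) (v i') (hne i hi hn) h

/-- Row GRS. -/
theorem grs_proof (h1 : GriStatement) (h2 : GenStatement) : GrsStatement := by
  classical
  intro h n k H κ D hD 𝓛 h𝓛 L Q S C c q hC hP hstar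
  obtain ⟨ρ⟩ := hD.conn.nonempty
  refine h1 n H (GSt H S C c) ρ (fun _ => True) hD.conn trivial ?_
  intro u K hK _ _
  obtain ⟨T, hT, huT, hTK, hTuK, _⟩ := hK.block
  by_cases hsub : Sub D (H.induce T)
  · -- a `D`-block
    obtain ⟨s, hsT, hsu⟩ : ∃ s ∈ T, s ≠ u := by
      obtain ⟨x, hx, y, hy, hxy⟩ := hT.1.nt
      by_cases hxu : x = u
      · exact ⟨y, hy, fun h => hxy (hxu.trans h.symm)⟩
      · exact ⟨x, hx, hxu⟩
    have hsK : s ∈ K := by
      rcases hTuK hsT with h3 | h3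
      · exact absurd h3 hsu
      · exact h3
    let B : Type := {T' : Set (Fin n) // MxTwo H T' ∧ s ∈ T'}
    let A : B → Set (Fin n) := fun b => b.1
    have : Nonempty B := ⟨⟨T, hT, hsT⟩⟩
    have hW : Cl H (⋃ b, A b) := Cl.iUnion A (fun b => b.2.1.cl) (v := s) fun b => b.2.2
    have hin : ∀ T', MxTwo H T' → s ∈ T' → T' ⊆ ⋃ b, A b := fun T' hT' hs' =>
      Set.subset_iUnion A ⟨T', hT', hs'⟩
    have hsW : s ∈ ⋃ b, A b := hin T hT hsT hsT
    have huW : u ∈ ⋃ b, A b := hin T hT hsT huT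
    have hmem : ∀ T', MxTwo H T' → T' ⊆ (⋃ b, A b) → s ∈ T' := by
      intro T' hT' hT'W
      by_contra hns
      obtain ⟨a, ha, b, hb, hab⟩ := hT'.1.nt
      obtain ⟨Ta, hTa⟩ := Set.mem_iUnion.1 (hT'W ha)
      obtain ⟨Tb, hTb⟩ := Set.mem_iUnion.1 (hT'W hb)
      by_cases hTT : Ta.1 = Tb.1
      · have h4 : b ∈ Ta.1 := by
          rw [hTT]
          exact hTb
        have h3 : T' = Ta.1 := hT'.eq Ta.2.1 hab ha hTa hb h4
        exact hns (by rw [h3]; exact Ta.2.2)
      · have h5 : ∀ x ∈ Ta.1, x ∈ Tb.1 → x = s := by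
          intro x hx hx'
          by_contra hxs
          exact hTT (Ta.2.1.eq Tb.2.1 hxs hx hx' Ta.2.2 Tb.2.2)
        obtain ⟨p, _, hp⟩ := exists_path hT'.1.conn hb ha
        exact hns (hp s (sep Ta.2.1.1.conn Tb.2.1 Ta.2.2 Tb.2.2 h5 hTb hTa p))
    refine ⟨⋃ b, A b, hW, huW, ?_, ?_, ?_, fun _ _ _ => trivial⟩
    · intro h3
      rw [h3] at hsW
      exact hsu hsW
    · intro x hx
      obtain ⟨b, hb⟩ := Set.mem_iUnion.1 hx
      by_cases hbT : b.1 = T
      · exact hTuK (by rw [← hbT]; exact hb)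
      · have hub : u ∉ b.1 := fun hub =>
          hbT (b.2.1.eq hT hsu b.2.2 hsT hub huT)
        exact Or.inr (hK.absorb b.2.1.1.conn hub ⟨s, b.2.2, hsK⟩ hb)
    · -- the step
      have hpn : ∀ x : Fin n, (if x = s then some q else none : Option Q) ≠ none → x = s := by
        intro x hx
        by_contra hxs
        exact hx (if_neg hxs)
      have hpn' : ∀ x : Fin n, (if x = s then some q else none : Option Q) = none → x ≠ s := by
        intro x hx hxs
        rw [if_pos hxs] at hx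
        exact absurd hx (by simp)
      refine h2 n H L Q S C c (⋃ b, A b) u (fun x => if x = s then some q else none) hC hW huW
        ?_ ?_ ?_ ?_ ?_ ?_
      · intro h3
        rw [h3] at hsW
        exact hsu hsW
      · exact if_neg (Ne.symm hsu)
      · intro x x' q' hx hx'
        have h3 : x = s := hpn x (by
          intro h4
          rw [h4] at hx
          exact absurd hx (by simp))
        have h3' : x' = s := hpn x' (by
          intro h4
          rw [h4] at hx'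
          exact absurd hx' (by simp))
        rw [h3, h3']
      · intro x _ hx x' hxx'
        have h3 : x = s := hpn x hx
        rw [h3] at hxx'
        obtain ⟨T', hT', hsub'⟩ := exists_mxTwo (two_adj hxx')
        exact hin T' hT' (hsub' (by simp)) (hsub' (by simp))
      · intro T₁ T₂ x hT₁ hT₂ h3 h4 hx₁ hx₂ hx
        exact hT₁.eq hT₂ (hpn' x hx) hx₁ hx₂ (hmem T₁ hT₁ h3) (hmem T₂ hT₂ h4)
      · intro T' hT' hT'W
        have hsT' := hmem T' hT' hT'W
        by_cases hs' : Sub D (H.induce T')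
        · exact grs_fam (hD.iso T' ⟨hT', hs'⟩) hstar.1 hsT' _ fun _ => rfl
        · obtain ⟨x, hx, hxm⟩ := h𝓛 T' ⟨hT', hs'⟩
          exact grs_fam hxm (hstar.2 x hx) hsT' _ fun _ => rfl
  · obtain ⟨x, hx, hxm⟩ := h𝓛 T ⟨hT, hsub⟩
    refine ⟨T, hT.cl, huT, ?_, hTuK, grs_point hxm (hP x hx) huT, fun _ _ _ => trivial⟩
    intro h3
    obtain ⟨a, ha, b, hb, hab⟩ := hT.1.nt
    rw [h3] at ha hb
    exact hab (ha.trans hb.symm)

end MP3240S
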