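import Pool.Agent.Lib.MP_3240be_co.S62.Defs
import Pool.Agent.Lib.MP_3240be_co.Q22.Lbs

/-!
# Row LBX: the labels exist
-/

set_option autoImplicit false

namespace MP3240S

open Finset
open MP3240G (TwoCn)
open MP3240Q (SG Sub lbs_pull lbs_surj)

/-- `D` without the edges at `w`. -/
def LDm {k : ℕ} (D : SimpleGraph (Fin k)) (w : Fin k) : SimpleGraph (Fin k) :=
  SimpleGraph.fromRel fun v v' => D.Adj v v' ∧ v ≠ w ∧ v' ≠ w

theorem ldm_adj {k : ℕ} {D : SimpleGraph (Fin k)} {w v v' : Fin k} :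
    (LDm D w).Adj v v' ↔ D.Adj v v' ∧ v ≠ w ∧ v' ≠ w := by
  unfold LDm
  rw [SimpleGraph.fromRel_adj]
  constructor
  · rintro ⟨-, h | h⟩
    · exact h
    · exact ⟨h.1.symm, h.2.2, h.2.1⟩
  · intro h
    exact ⟨h.1.ne, Or.inl h⟩

/-- The star with the centre `0` and the leaves `1, .., m + 1`. -/
def LWd (K m : ℕ) : SimpleGraph (Fin K) :=
  SimpleGraph.fromRel fun v v' => v.1 = 0 ∧ 1 ≤ v'.1 ∧ v'.1 ≤ m + 1

theorem lwd_adj {K m : ℕ} {v v' : Fin K} : (LWd K m).Adj v v' ↔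
    (v.1 = 0 ∧ 1 ≤ v'.1 ∧ v'.1 ≤ m + 1) ∨ (v'.1 = 0 ∧ 1 ≤ v.1 ∧ v.1 ≤ m + 1) := by
  unfold LWd
  rw [SimpleGraph.fromRel_adj]
  constructor
  · rintro ⟨-, h⟩
    exact h
  · intro h
    refine ⟨?_, h⟩
    rintro rfl
    omega

/-- The labels. -/
abbrev LLX {k : ℕ} (n m : ℕ) (D : SimpleGraph (Fin k)) (𝓛 : Set SG) : Type :=
  {c : (Fin n × Fin n) × (Fin k × Fin k) // c.1.1 ≠ c.1.2 ∧ D.Adj c.2.1 c.2.2} ⊕
    (Fin n ⊕ (((Fin n × Fin (m + 1)) × ((g : 𝓛) × Fin g.1.1)) ⊕ Fin k))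

theorem lbx_proof : LbxStatement := by
  classical
  intro k n m fam D 𝓛 hD hfam h𝓛 hsm hn
  have : Finite 𝓛 := h𝓛
  -- every vertex of `D` has a neighbour
  have hnb : ∀ i, ∃ j, D.Adj i j := by
    intro i
    have h3 := hD.three
    obtain ⟨j, hj⟩ : ∃ j : Fin k, i ≠ j := by
      by_cases h : i.1 = 0
      · exact ⟨⟨1, by omega⟩, fun e => by rw [e] at h; exact one_ne_zero h⟩
      · exact ⟨⟨0, by omega⟩, fun e => h (by rw [e])⟩
    obtain ⟨p⟩ := hD.conn.preconnected i j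
    cases p with
    | nil => exact absurd rfl hj
    | cons h _ => exact ⟨_, h⟩
  obtain ⟨K, hk, hm, hs⟩ : ∃ K, k ≤ K ∧ m + 2 ≤ K ∧ ∀ x ∈ 𝓛, x.1 ≤ K := by
    obtain ⟨B, hB⟩ := (h𝓛.image (fun x : SG => x.1)).bddAbove
    refine ⟨max k (max (m + 2) B), le_max_left _ _,
      le_trans (le_max_left _ _) (le_max_right _ _), fun x hx => ?_⟩
    exact le_trans (hB ⟨x, hx, rfl⟩) (le_trans (le_max_right _ _) (le_max_right _ _))
  have hinj : ∀ {t : ℕ} (h : t ≤ K), Function.Injective (Fin.castLE h) :=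
    fun h => Fin.castLE_injective h
  let Bl : LLX n m D 𝓛 → SimpleGraph (Fin K) := fun c => match c with
    | Sum.inl _ => D.map (Fin.castLEEmb hk)
    | Sum.inr (Sum.inl _) => LWd K m
    | Sum.inr (Sum.inr (Sum.inl ⟨_, g, _⟩)) => g.1.2.map (Fin.castLEEmb (hs g.1 g.2))
    | Sum.inr (Sum.inr (Sum.inr w)) => (LDm D w).map (Fin.castLEEmb hk)
  let pr : LLX n m D 𝓛 → Fin K → Option (Fin n × Fin (m + 1)) := fun c v => match c with
    | Sum.inl c => if v = Fin.castLE hk c.1.2.1 then some (c.1.1.1, 0) else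
        if v = Fin.castLE hk c.1.2.2 then some (c.1.1.2, 0) else none
    | Sum.inr (Sum.inl z) => if h : 1 ≤ v.1 ∧ v.1 ≤ m + 1 then
        some (z, ⟨v.1 - 1, by omega⟩) else none
    | Sum.inr (Sum.inr (Sum.inl ⟨p, g, w⟩)) =>
        if v = Fin.castLE (hs g.1 g.2) w then some p else none
    | Sum.inr (Sum.inr (Sum.inr _)) => none
  have prl : ∀ c v, pr (Sum.inl c) v = if v = Fin.castLE hk c.1.2.1 then some (c.1.1.1, 0) else
        if v = Fin.castLE hk c.1.2.2 then some (c.1.1.2, 0) else none := fun _ _ => rfl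
  have prw : ∀ z v, pr (Sum.inr (Sum.inl z)) v = if h : 1 ≤ v.1 ∧ v.1 ≤ m + 1 then
        some (z, ⟨v.1 - 1, by omega⟩) else none := fun _ _ => rfl
  have prh : ∀ p g w v, pr (Sum.inr (Sum.inr (Sum.inl ⟨p, g, w⟩))) v =
      if v = Fin.castLE (hs g.1 g.2) w then some p else none := fun _ _ _ _ => rfl
  have prs : ∀ w v, pr (Sum.inr (Sum.inr (Sum.inr w))) v = none := fun _ _ => rfl
  -- values of `prw`
  have prw' : ∀ z v q, pr (Sum.inr (Sum.inl z)) v = some q →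
      1 ≤ v.1 ∧ v.1 ≤ m + 1 ∧ q.1 = z ∧ q.2.1 = v.1 - 1 := by
    intro z v q hq
    rw [prw] at hq
    split_ifs at hq with h
    have := Option.some.inj hq
    rw [← this]
    exact ⟨h.1, h.2, rfl, rfl⟩
  have prwn : ∀ z v, (pr (Sum.inr (Sum.inl z)) v = none ↔ ¬ (1 ≤ v.1 ∧ v.1 ≤ m + 1)) := by
    intro z v
    rw [prw]
    split_ifs with h
    · exact ⟨fun h' => absurd h' (by simp), fun h' => absurd h h'⟩
    · exact ⟨fun _ => h, fun _ => rfl⟩
  refine ⟨K, LLX n m D 𝓛, inferInstance, Bl, pr, ⟨?_, ?_, ?_, ?_, ?_, ?_⟩,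
    ⟨Sum.inr (Sum.inl ⟨0, by omega⟩)⟩, by omega⟩
  · -- the kinds
    rintro (⟨⟨⟨z, z'⟩, a, b⟩, hz, hab⟩ | z | ⟨p, g, w⟩ | w)
    · left
      let ψ : Fin K → Fin k := fun v => if h : v.1 < k then ⟨v.1, h⟩ else a
      have hψ : ∀ v : Fin k, ψ (Fin.castLE hk v) = v := by
        intro v
        have hv : (Fin.castLE hk v).1 < k := v.2
        show (if h : (Fin.castLE hk v).1 < k then (⟨(Fin.castLE hk v).1, h⟩ : Fin k) else a) = v
        rw [dif_pos hv]
        rfl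
      have hG : ∀ v v', (Bl (Sum.inl ⟨⟨⟨z, z'⟩, a, b⟩, hz, hab⟩)).Adj v v' →
          ∃ u u', D.Adj u u' ∧ Fin.castLE hk u = v ∧ Fin.castLE hk u' = v' := by
        intro v v' h
        exact (SimpleGraph.map_adj _ _ _ _).1 h
      refine ⟨⟨k, D⟩, ψ, a, b, z, z', hfam, hab, hz, ?_, ?_, ?_⟩
      · intro v v' h
        obtain ⟨u, u', huu, rfl, rfl⟩ := hG v v' h
        rw [hψ, hψ]
        exact huu
      · intro v v' y y' h h' e
        obtain ⟨u, _, _, rfl, _⟩ := hG v y h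
        obtain ⟨u', _, _, rfl, _⟩ := hG v' y' h'
        rw [hψ, hψ] at e
        rw [e]
      · rintro v ⟨y, h⟩
        obtain ⟨u, _, _, rfl, _⟩ := hG v y h
        rw [hψ, prl]
        by_cases h1 : u = a
        · left
          refine ⟨h1, ?_⟩
          rw [if_pos (by rw [h1])]
        · right
          by_cases h2 : u = b
          · left
            refine ⟨h2, ?_⟩
            rw [if_neg fun e => h1 (hinj hk e), if_pos (by rw [h2])]
          · right
            refine ⟨h1, h2, ?_⟩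
            rw [if_neg fun e => h1 (hinj hk e), if_neg fun e => h2 (hinj hk e)]
    · right; left
      refine ⟨z, fun v q hq => (prw' z v q hq).2.2.1, ?_⟩
      intro v v' h
      rw [Ne, prwn, prwn]
      rcases lwd_adj.1 h with h1 | h1
      · constructor
        · intro _ h2; exact h2 ⟨h1.2.1, h1.2.2⟩
        · intro _ h2; omega
      · constructor
        · intro h2; exact absurd ⟨h1.2.1, h1.2.2⟩ h2
        · intro h2
          exfalso
          apply h2
          omega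
    · right; right
      refine ⟨Fin.castLE (hs g.1 g.2) w, ?_, ?_⟩
      · intro v hv
        rw [prh, if_neg hv]
      · rintro ⟨f, hf, hadj⟩
        obtain ⟨f', hf', -, hadj'⟩ := lbs_pull (hs g.1 g.2) hnb f hf (fun i j h => hadj i j h)
        exact hsm g.1 g.2 ⟨f', hf', hadj'⟩
    · right; right
      refine ⟨Fin.castLE hk w, fun v _ => prs w v, ?_⟩
      rintro ⟨f, hf, hadj⟩
      obtain ⟨f', hf', -, hadj'⟩ := lbs_pull hk hnb f hf (fun i j h => hadj i j h)
      obtain ⟨y, hy⟩ := hnb w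
      obtain ⟨i, j, hij, hi, -⟩ := lbs_surj f' hf'
        (fun i j h => (ldm_adj.1 (hadj' i j h)).1) w y hy
      exact (ldm_adj.1 (hadj' i j hij)).2.1 hi
  · -- injectivity
    rintro (⟨⟨⟨z, z'⟩, a, b⟩, hz, hab⟩ | z | ⟨p, g, w⟩ | w) v v' q hv hv'
    · rw [prl] at hv hv'
      have hne : ((z, 0) : Fin n × Fin (m + 1)) ≠ (z', 0) := fun e => hz (congrArg Prod.fst e)
      split_ifs at hv with h1 h2 <;> split_ifs at hv' with h3 h4
      · rw [h1, h3]
      · exact absurd ((Option.some.inj hv).trans (Option.some.inj hv').symm) hne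
      · exact absurd ((Option.some.inj hv').trans (Option.some.inj hv).symm) hne
      · rw [h2, h4]
    · have h1 := prw' z v q hv
      have h2 := prw' z v' q hv'
      apply Fin.ext
      omega
    · rw [prh] at hv hv'
      split_ifs at hv with h1
      split_ifs at hv' with h2
      rw [h1, h2]
    · exact absurd ((prs w v).symm.trans hv) (by simp)
  · -- blobs
    intro z z' a b hz hab
    refine ⟨Sum.inl ⟨⟨⟨z, z'⟩, a, b⟩, hz, hab⟩, Fin.castLE hk, hinj hk, ?_, ?_, ?_, ?_⟩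
    · intro v v' h
      exact (SimpleGraph.map_adj _ _ _ _).2 ⟨v, v', h, rfl, rfl⟩
    · rw [prl, if_pos rfl]
    · rw [prl, if_neg fun e => hab.ne (hinj hk e).symm, if_pos rfl]
    · intro v h1 h2
      rw [prl, if_neg fun e => h1 (hinj hk e), if_neg fun e => h2 (hinj hk e)]
  · -- worlds
    intro z
    refine ⟨Sum.inr (Sum.inl z), ⟨0, by omega⟩, ?_, ?_⟩
    · rw [prwn]
      intro h
      exact absurd h.1 (by simp)
    · intro j
      have hj := j.2
      refine ⟨⟨j.1 + 1, by omega⟩, ?_, ?_⟩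
      · refine lwd_adj.2 (Or.inr ⟨rfl, ?_, ?_⟩)
        · show 1 ≤ j.1 + 1
          omega
        · show j.1 + 1 ≤ m + 1
          omega
      · rw [prw, dif_pos ⟨by show 1 ≤ j.1 + 1; omega, by show j.1 + 1 ≤ m + 1; omega⟩]
        rfl
  · -- hanging pieces
    intro p x hx w
    refine ⟨Sum.inr (Sum.inr (Sum.inl ⟨p, ⟨x, hx⟩, w⟩)), Fin.castLE (hs x hx), hinj _, ?_, ?_, ?_⟩
    · intro v v' h
      exact (SimpleGraph.map_adj _ _ _ _).2 ⟨v, v', h, rfl, rfl⟩
    · exact (prh p ⟨x, hx⟩ w _).trans (if_pos rfl)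
    · intro v hv
      exact (prh p ⟨x, hx⟩ w _).trans (if_neg fun e => hv (hinj (hs x hx) e))
  · -- the star pieces
    intro w
    refine ⟨Sum.inr (Sum.inr (Sum.inr w)), Fin.castLE hk, hinj hk, ?_, fun v _ => prs w (Fin.castLE hk v)⟩
    intro v v' h1 h2 h
    exact (SimpleGraph.map_adj _ _ _ _).2 ⟨v, v', ldm_adj.2 ⟨h, h1, h2⟩, rfl, rfl⟩

end MP3240S
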