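import Pool.Agent.Lib.MP_3240be_co.S62.Defs
import Pool.Agent.Lib.MP_3240be_co.Q22.Nfh

set_option autoImplicit false

/-!
# MP_3240be_co, Theorem T2*, row LOC: a set without cut vertices lies in one copy
-/

namespace MP3240S

open MP3240L (Two)
open MP3240Q (Mono em Gl Lin em_inj' em_shared)
open Pool.Agent.Lib.MP_3240be_co.H36.Chrom (Sparse Leaf)

/-- Closed sets in a connected induced subgraph. -/
theorem loc_closed {V : Type} {H : SimpleGraph V} {R : Set V} (h : (H.induce R).Connected)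
    (A : V → Prop) (hA : ∃ x ∈ R, A x) (hcl : ∀ x ∈ R, ∀ y ∈ R, H.Adj x y → A x → A y) :
    ∀ y ∈ R, A y := by
  intro y hy
  obtain ⟨x, hx, hAx⟩ := hA
  obtain ⟨w⟩ := h.preconnected ⟨x, hx⟩ ⟨y, hy⟩
  have main : ∀ (u v : R) (w : (H.induce R).Walk u v), A u.1 → A v.1 := by
    intro u v w
    induction w with
    | nil => exact fun h => h
    | @cons a b c hadj w ih => exact fun h => ih (hcl a.1 a.2 b.1 b.2 hadj h)
  exact main _ _ w hAx

/-- Every vertex of a set without cut vertices has a neighbour in this set. -/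
theorem loc_nbr {V : Type} {H : SimpleGraph V} {T : Set V} (hT : Two H T) :
    ∀ x ∈ T, ∃ y ∈ T, H.Adj x y := by
  intro x hx
  by_contra hcon
  push Not at hcon
  have hall := loc_closed hT.conn (fun y => y = x) ⟨x, hx, rfl⟩ (by
    intro u _ v hv huv hu
    exact absurd (hu ▸ huv) (hcon v hv))
  obtain ⟨a, ha, b, hb, hab⟩ := hT.nt
  exact hab ((hall a ha).trans (hall b hb).symm)

/-- A set without cut vertices in a union of pieces glued at single vertices along a sparse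
family lies in one piece. -/
theorem loc_two {n : ℕ} {H : SimpleGraph (Fin n)} {T : Set (Fin n)} (hT : Two H T) (M : Type)
    (mm : Fin n → Fin n → M) (In : M → Fin n → Prop)
    (hIn : ∀ i ∈ T, ∀ j ∈ T, H.Adj i j → In (mm i j) i ∧ In (mm i j) j)
    (hleaf : ∀ S : Finset M, 2 ≤ S.card → S.card ≤ n * n → ∃ m ∈ S, ∀ i j, In m i → In m j →
      (∃ m' ∈ S, m' ≠ m ∧ In m' i) → (∃ m' ∈ S, m' ≠ m ∧ In m' j) → i = j) :
    ∃ m, ∀ i ∈ T, ∀ j ∈ T, H.Adj i j → mm i j = m := by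
  classical
  obtain ⟨x0, hx0, -⟩ := hT.nt
  obtain ⟨y0, hy0, hxy0⟩ := loc_nbr hT x0 hx0
  let S : Finset M := ((Finset.univ : Finset (Fin n × Fin n)).filter
    (fun p => p.1 ∈ T ∧ p.2 ∈ T ∧ H.Adj p.1 p.2)).image (fun p => mm p.1 p.2)
  have hS : ∀ i ∈ T, ∀ j ∈ T, H.Adj i j → mm i j ∈ S := fun i hi j hj hij =>
    Finset.mem_image.2 ⟨(i, j), Finset.mem_filter.2 ⟨Finset.mem_univ _, hi, hj, hij⟩, rfl⟩
  have hS' : ∀ m ∈ S, ∃ i ∈ T, ∃ j ∈ T, H.Adj i j ∧ mm i j = m := by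
    intro m hm
    obtain ⟨⟨i, j⟩, hij, he⟩ := Finset.mem_image.1 hm
    obtain ⟨-, hi, hj, hadj⟩ := Finset.mem_filter.1 hij
    exact ⟨i, hi, j, hj, hadj, he⟩
  have hScard : S.card ≤ n * n := by
    refine Finset.card_image_le.trans ((Finset.card_filter_le _ _).trans ?_)
    rw [Finset.card_univ, Fintype.card_prod, Fintype.card_fin]
  by_cases hS2 : 2 ≤ S.card
  · exfalso
    obtain ⟨m, hm, hI1⟩ := hleaf S hS2 hScard
    have hI : ∀ i j, (In m i ∧ ∃ m' ∈ S, m' ≠ m ∧ In m' i) →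
        (In m j ∧ ∃ m' ∈ S, m' ≠ m ∧ In m' j) → i = j := fun i j hi hj =>
      hI1 i j hi.1 hj.1 hi.2 hj.2
    obtain ⟨R, hRT, hRc, hR1, hR2⟩ : ∃ R : Set (Fin n), R ⊆ T ∧ (H.induce R).Connected ∧
        (∀ x ∈ R, ¬ (In m x ∧ ∃ m' ∈ S, m' ≠ m ∧ In m' x)) ∧
        ∀ x ∈ T, x ∉ R → In m x ∧ ∃ m' ∈ S, m' ≠ m ∧ In m' x := by
      by_cases hex : ∃ a ∈ T, In m a ∧ ∃ m' ∈ S, m' ≠ m ∧ In m' a
      · obtain ⟨a, ha, hPa⟩ := hex
        refine ⟨T \ {a}, Set.sdiff_subset, hT.cut a ha, ?_, ?_⟩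
        · intro x hx hPx
          exact hx.2 (hI _ _ hPx hPa)
        · intro x hx hxR
          have hxa : x = a := by
            by_contra hne
            exact hxR ⟨hx, hne⟩
          rw [hxa]
          exact hPa
      · push Not at hex
        refine ⟨T, subset_rfl, hT.conn, ?_, fun x hx hxR => absurd hx hxR⟩
        rintro x hx ⟨h1, m', h2, h3, h4⟩
        exact hex x hx h1 m' h2 h3 h4
    have hall : ∀ y ∈ R, In m y := by
      refine loc_closed hRc (fun y => In m y) ?_ ?_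
      · obtain ⟨p, hp, q, hq, hpq, he⟩ := hS' m hm
        have hin := hIn p hp q hq hpq
        rw [he] at hin
        by_cases hpR : p ∈ R
        · exact ⟨p, hpR, hin.1⟩
        · by_cases hqR : q ∈ R
          · exact ⟨q, hqR, hin.2⟩
          · exact absurd (hI _ _ (hR2 p hp hpR) (hR2 q hq hqR)) hpq.ne
      · intro x hx y hy hxy hmx
        by_cases h1 : mm x y = m
        · have := (hIn x (hRT hx) y (hRT hy) hxy).2
          rwa [h1] at this
        · exact absurd ⟨hmx, mm x y, hS x (hRT hx) y (hRT hy) hxy, h1,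
            (hIn x (hRT hx) y (hRT hy) hxy).1⟩ (hR1 x hx)
    have hallT : ∀ y ∈ T, In m y := by
      intro y hy
      by_cases hyR : y ∈ R
      · exact hall y hyR
      · exact (hR2 y hy hyR).1
    obtain ⟨m', hm', hne'⟩ : ∃ m' ∈ S, m' ≠ m := by
      by_contra hcon
      push Not at hcon
      have : S ⊆ {m} := fun l hl => Finset.mem_singleton.2 (hcon l hl)
      have := Finset.card_le_card this
      rw [Finset.card_singleton] at this
      omega
    obtain ⟨p, hp, q, hq, hpq, he⟩ := hS' m' hm'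
    have hin := hIn p hp q hq hpq
    rw [he] at hin
    exact hpq.ne (hI _ _ ⟨hallT p hp, m', hm', hne', hin.1⟩ ⟨hallT q hq, m', hm', hne', hin.2⟩)
  · refine ⟨mm x0 y0, fun i hi j hj hij => ?_⟩
    by_contra hne
    apply hS2
    exact Finset.one_lt_card.2 ⟨_, hS i hi j hj hij, _, hS x0 hx0 y0 hy0 hxy0, hne⟩

/-- Row LOC. -/
theorem loc_proof : LocStatement := by
  classical
  intro n H L Q I M S C₀ δ C₁ hδ _ hsp hC c f hf T hT
  have hei : ∀ m, Function.Injective (em δ m : L ⊕ Q → I ⊕ (M × Q)) := em_inj' hδ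
  have hedge : ∀ x ∈ T, ∀ y ∈ T, H.Adj x y → ∃ m u v, S.Adj u v ∧ em δ m u = f x ∧
      em δ m v = f y := by
    intro x _ y _ hxy
    exact (hf.2 _ _ hxy).1.2
  obtain ⟨x0, hx0, -⟩ := hT.nt
  obtain ⟨y0, hy0, hxy0⟩ := loc_nbr hT x0 hx0
  obtain ⟨m0, u0, v0, -, -, -⟩ := hedge x0 hx0 y0 hy0 hxy0
  have hex : ∀ x y, ∃ m, x ∈ T → y ∈ T → H.Adj x y → ∃ u v, S.Adj u v ∧ em δ m u = f x ∧
      em δ m v = f y := by
    intro x y
    by_cases h : x ∈ T ∧ y ∈ T ∧ H.Adj x y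
    · obtain ⟨m, u, v, h1⟩ := hedge x h.1 y h.2.1 h.2.2
      exact ⟨m, fun _ _ _ => ⟨u, v, h1⟩⟩
    · exact ⟨m0, fun h1 h2 h3 => absurd ⟨h1, h2, h3⟩ h⟩
  choose mm hmm using hex
  obtain ⟨m, hm⟩ := loc_two hT M mm (fun m v => ∃ u, em δ m u = f v)
    (fun x hx y hy hxy => by
      obtain ⟨u, v, _, h1, h2⟩ := hmm x y hx hy hxy
      exact ⟨⟨u, h1⟩, ⟨v, h2⟩⟩)
    (by
      intro T' hT1 hT2
      obtain ⟨m, hmT, _, _, _, hleaf, _⟩ := hsp T' hT1 (by omega)
      refine ⟨m, hmT, ?_⟩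
      rintro x y ⟨u, hu⟩ ⟨v, hv⟩ ⟨m', hm'T, hm', u', hu'⟩ ⟨m'', hm''T, hm'', v', hv'⟩
      obtain ⟨l, l', rfl, _, e1⟩ := em_shared (Ne.symm hm') (hu.trans hu'.symm)
      obtain ⟨s, s', rfl, _, e2⟩ := em_shared (Ne.symm hm'') (hv.trans hv'.symm)
      have e3 := hδ m (hleaf m' hm'T m'' hm''T hm' hm'' l l' s s' e1 e2)
      apply hf.1
      rw [← hu, ← hv, e3])
  have hin : ∀ v, ∃ u, v ∈ T → em δ m u = f v := by
    intro v
    by_cases hv : v ∈ T
    · obtain ⟨w, hw, hvw⟩ := loc_nbr hT v hv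
      obtain ⟨u, u', _, h1, _⟩ := hmm v w hv hw hvw
      rw [hm v hv w hw hvw] at h1
      exact ⟨u, fun _ => h1⟩
    · exact ⟨u0, fun h => absurd h hv⟩
  choose g hg using hin
  refine ⟨m, g, fun x hx => (hg x hx).symm, ?_⟩
  intro x hx y hy hxy
  obtain ⟨u, u', huu, h1, h2⟩ := hmm x y hx hy hxy
  rw [hm x hx y hy hxy] at h1 h2
  have e1 : u = g x := hei m (h1.trans (hg x hx).symm)
  have e2 : u' = g y := hei m (h2.trans (hg y hy).symm)
  rw [e1, e2] at huu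
  refine ⟨huu, ?_⟩
  have h3 := hC m (g x) (g y) huu
  rw [hg x hx, hg y hy] at h3
  rw [← h3]
  exact (hf.2 _ _ hxy).2

end MP3240S
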