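import Pool.Agent.Lib.MP_3240be_co.S62.Defs

/-!
# Row OUX (helper73): the three cases of paper 3

(N1) a private common hub is not `col` to the role lows: the star piece; (N2) all common hubs are
`col` and a private vertex of the piece has `N` `col` neighbours: `K_(h + e + 1, N)`; (N3)
otherwise `N` copies of every label have no `col` edge.
-/

set_option autoImplicit false

namespace MP3240S

open Finset
open MP3240G (WP)
open MP3240Q (Mono SG Hang)

namespace Oux

/-- The vertices of the gadget. -/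
abbrev VX (h e n m : ℕ) (I M : Type) : Type :=
  WP h I M ⊕ ((M × (Fin n × Fin (m + 1))) ⊕ Fin e)

variable {h Nw e n m K N₂ : ℕ} {Λ I M : Type}

/-- The role low. -/
def lo (δ : M → Fin Nw ⊕ RL Λ (Fin N₂) K → I) (mm : M) (r : RL Λ (Fin N₂) K) :
    VX h e n m I M :=
  Sum.inl (.low (δ mm (Sum.inr r)))

/-- The private vertex of the piece. -/
def pv (mm : M) (q : Fin n × Fin (m + 1)) : VX h e n m I M := Sum.inr (Sum.inl (mm, q))

variable {Bl : Λ → SimpleGraph (Fin K)} {pr : Λ → Fin K → Option (Fin n × Fin (m + 1))}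
  {δ : M → Fin Nw ⊕ RL Λ (Fin N₂) K → I} {mm : M}

theorem lo_inj (hδ : Function.Injective (δ mm)) {r r' : RL Λ (Fin N₂) K}
    (hr : lo (h := h) (e := e) (n := n) (m := m) δ mm r = lo δ mm r') : r = r' :=
  Sum.inr_injective (hδ (WP.low.inj (Sum.inl_injective hr)))

theorem ga_ll {l : Λ} (i : Fin N₂) {v v' : Fin K} (h1 : (Bl l).Adj v v') (h2 : pr l v = none)
    (h3 : pr l v' = none) : (GA Bl pr).Adj (Sum.inl (l, i, v)) (Sum.inl (l, i, v')) :=
  (SimpleGraph.fromRel_adj _ _ _).2 ⟨fun hh => h1.ne (congrArg (fun r => r.2.2)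
    (Sum.inl_injective hh)), Or.inl (Or.inl ⟨l, i, v, v', h1, h2, h3, rfl, rfl⟩)⟩

theorem ga_ql {l : Λ} (i : Fin N₂) {v v' : Fin K} {q : Fin n × Fin (m + 1)}
    (h1 : (Bl l).Adj v v') (h2 : pr l v = some q) (h3 : pr l v' = none) :
    (GA Bl pr).Adj (Sum.inr q) (Sum.inl (l, i, v')) :=
  (SimpleGraph.fromRel_adj _ _ _).2 ⟨Sum.inr_ne_inl,
    Or.inl (Or.inr (Or.inl ⟨l, i, v, v', q, h1, h2, h3, rfl, rfl⟩))⟩

theorem ga_zz {z z' : Fin n} (hz : z ≠ z') :
    (GA (G := Fin N₂) Bl pr).Adj (Sum.inr (z, 0)) (Sum.inr (z', 0)) :=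
  (SimpleGraph.fromRel_adj _ _ _).2 ⟨fun hh => hz (congrArg Prod.fst (Sum.inr_injective hh)),
    Or.inl (Or.inr (Or.inr ⟨z, z', hz, rfl, rfl⟩))⟩

theorem wx_ll (hδ : Function.Injective (δ mm)) {r r' : RL Λ (Fin N₂) K}
    (h1 : (GA Bl pr).Adj (Sum.inl r) (Sum.inl r')) :
    (WX (h := h) (e := e) (GA Bl pr) δ).Adj (lo δ mm r) (lo δ mm r') :=
  (SimpleGraph.fromRel_adj _ _ _).2 ⟨fun hh => h1.ne (congrArg Sum.inl (lo_inj hδ hh)),
    Or.inl ⟨mm, r, r', h1, rfl, rfl⟩⟩

theorem wx_ql {q : Fin n × Fin (m + 1)} {r : RL Λ (Fin N₂) K}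
    (h1 : (GA Bl pr).Adj (Sum.inr q) (Sum.inl r)) :
    (WX (h := h) (e := e) (GA Bl pr) δ).Adj (pv mm q) (lo δ mm r) :=
  (SimpleGraph.fromRel_adj _ _ _).2 ⟨Sum.inr_ne_inl, Or.inl ⟨r, h1, rfl⟩⟩

theorem wx_qq {q q' : Fin n × Fin (m + 1)}
    (h1 : (GA (G := Fin N₂) Bl pr).Adj (Sum.inr q) (Sum.inr q')) :
    (WX (h := h) (e := e) (GA Bl pr) δ).Adj (pv mm q) (pv mm q') :=
  (SimpleGraph.fromRel_adj _ _ _).2 ⟨fun hh => h1.ne (congrArg Sum.inr
    (congrArg Prod.snd (Sum.inl_injective (Sum.inr_injective hh)))), Or.inl ⟨rfl, h1⟩⟩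

theorem wx_yl (j : Fin h) (r : RL Λ (Fin N₂) K) :
    (WX (h := h) (e := e) (GA Bl pr) δ).Adj (Sum.inl (.y j)) (lo δ mm r) := by
  refine (SimpleGraph.fromRel_adj _ _ _).2 ⟨fun hh => ?_, Or.inl trivial⟩
  have h1 := Sum.inl_injective hh
  cases h1

theorem wx_el (j : Fin e) (r : RL Λ (Fin N₂) K) :
    (WX (h := h) (e := e) (GA Bl pr) δ).Adj (Sum.inr (Sum.inr j)) (lo δ mm r) :=
  (SimpleGraph.fromRel_adj _ _ _).2 ⟨Sum.inr_ne_inl, Or.inl trivial⟩

/-- (N1): a hanging graph at a private common hub. -/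
theorem hang_e (hδ : Function.Injective (δ mm)) {C : VX h e n m I M → VX h e n m I M → Bool}
    (hC : ∀ x y, C x y = C y x) {c : Bool} {N : ℕ} (hN : N ≤ N₂)
    (hlow : ∀ r r', (GA Bl pr).Adj (Sum.inl r) (Sum.inl r') →
      C (lo δ mm r) (lo δ mm r') = c)
    (j : Fin e) (hj : ∀ r, C (Sum.inr (Sum.inr j)) (lo δ mm r) = c) {t : ℕ}
    (U : SimpleGraph (Fin t)) (w : Fin t) (l : Λ) (f : Fin t → Fin K)
    (hf : Function.Injective f)
    (hadj : ∀ v v', v ≠ w → v' ≠ w → U.Adj v v' → (Bl l).Adj (f v) (f v'))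
    (hpr : ∀ v, v ≠ w → pr l (f v) = none) :
    Hang U (WX (h := h) (e := e) (GA Bl pr) δ) C c N (Sum.inr j) w := by
  classical
  obtain ⟨g, hg⟩ : ∃ g : Fin N → Fin t → VX h e n m I M, g = fun ν v =>
      if v = w then Sum.inr (Sum.inr j) else lo δ mm (l, Fin.castLE hN ν, f v) := ⟨_, rfl⟩
  have hgw : ∀ ν, g ν w = Sum.inr (Sum.inr j) := by
    intro ν
    rw [hg]
    exact if_pos rfl
  have hgv : ∀ ν v, v ≠ w → g ν v = lo δ mm (l, Fin.castLE hN ν, f v) := by
    intro ν v hv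
    rw [hg]
    exact if_neg hv
  refine ⟨g, fun ν => ⟨?_, ?_⟩, hgw, fun ν v hv => ⟨_, hgv ν v hv⟩, ?_⟩
  · intro v v' hvv
    by_cases h1 : v = w
    · by_cases h2 : v' = w
      · exact h1.trans h2.symm
      · rw [h1, hgw, hgv ν v' h2] at hvv
        exact absurd hvv Sum.inr_ne_inl
    · by_cases h2 : v' = w
      · rw [h2, hgw, hgv ν v h1] at hvv
        exact absurd hvv Sum.inl_ne_inr
      · rw [hgv ν v h1, hgv ν v' h2] at hvv
        exact hf (congrArg (fun r => r.2.2) (lo_inj hδ hvv))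
  · intro v v' hvv
    by_cases h1 : v = w
    · have h2 : v' ≠ w := fun hh => hvv.ne (h1.trans hh.symm)
      rw [h1, hgw, hgv ν v' h2]
      exact ⟨wx_el j _, hj _⟩
    · by_cases h2 : v' = w
      · rw [h2, hgw, hgv ν v h1]
        exact ⟨(wx_el j _).symm, (hC _ _).trans (hj _)⟩
      · rw [hgv ν v h1, hgv ν v' h2]
        have h3 := ga_ll (Fin.castLE hN ν) (hadj v v' h1 h2 hvv) (hpr v h1) (hpr v' h2)
        exact ⟨wx_ll hδ h3, hlow _ _ h3⟩
  · intro ν ν' v v' hv hvv
    by_cases h2 : v' = w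
    · rw [h2, hgw, hgv ν v hv] at hvv
      exact absurd hvv Sum.inl_ne_inr
    · rw [hgv ν v hv, hgv ν' v' h2] at hvv
      have h3 := congrArg (fun r => r.2.1) (lo_inj hδ hvv)
      exact Fin.castLE_injective hN h3

/-- (N3): good indices of a label. -/
theorem good {C : VX h e n m I M → VX h e n m I M → Bool} {col : Bool} {N : ℕ}
    (hN : N + (n * (m + 1)) * N ≤ N₂)
    (hfew : ∀ q : Fin n × Fin (m + 1), ¬ ∃ g : Fin N → RL Λ (Fin N₂) K,
      Function.Injective g ∧ ∀ j, (GA Bl pr).Adj (Sum.inr q) (Sum.inl (g j)) ∧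
        C (pv mm q) (lo δ mm (g j)) = col) (l : Λ) :
    ∃ ι : Fin N → Fin N₂, Function.Injective ι ∧ ∀ ν q v,
      (GA Bl pr).Adj (Sum.inr q) (Sum.inl (l, ι ν, v)) →
        C (pv mm q) (lo δ mm (l, ι ν, v)) = !col := by
  classical
  obtain ⟨B, hB⟩ : ∃ B : Fin n × Fin (m + 1) → Finset (Fin N₂), B = fun q =>
      univ.filter (fun i => ∃ v, (GA Bl pr).Adj (Sum.inr q) (Sum.inl (l, i, v)) ∧
        C (pv mm q) (lo δ mm (l, i, v)) = col) := ⟨_, rfl⟩
  have hcard : ∀ q, (B q).card ≤ N := by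
    intro q
    by_contra hcon
    push Not at hcon
    obtain ⟨T, hT, hTc⟩ := exists_subset_card_eq hcon.le
    have eT : T ≃ Fin N := T.equivFinOfCardEq hTc
    have hS : ∀ i : T, ∃ v, (GA Bl pr).Adj (Sum.inr q) (Sum.inl (l, i.1, v)) ∧
        C (pv mm q) (lo δ mm (l, i.1, v)) = col := by
      intro i
      have := hT i.2
      rw [hB, mem_filter] at this
      exact this.2
    choose v hv using hS
    refine hfew q ⟨fun j => (l, (eT.symm j).1, v (eT.symm j)), ?_, fun j => hv (eT.symm j)⟩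
    intro j j' hjj
    have h1 : (eT.symm j).1 = (eT.symm j').1 := congrArg (fun r => r.2.1) hjj
    exact eT.symm.injective (Subtype.ext h1)
  have hbad : (univ.biUnion B).card ≤ (n * (m + 1)) * N := by
    refine (card_biUnion_le_card_mul _ _ N (fun q _ => hcard q)).trans ?_
    simp
  have hgood : N ≤ ((univ : Finset (Fin N₂)) \ univ.biUnion B).card := by
    have h2 : (univ : Finset (Fin N₂)).card = N₂ := by simp
    have h3 := le_card_sdiff (univ.biUnion B) (univ : Finset (Fin N₂))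
    omega
  obtain ⟨T, hT, hTc⟩ := exists_subset_card_eq hgood
  have eT : T ≃ Fin N := T.equivFinOfCardEq hTc
  refine ⟨fun j => (eT.symm j).1, fun j j' hjj => eT.symm.injective (Subtype.ext hjj), ?_⟩
  intro ν q v hadj
  have h1 : (eT.symm ν).1 ∉ B q := by
    intro h2
    have h3 := hT (eT.symm ν).2
    rw [mem_sdiff] at h3
    exact h3.2 (mem_biUnion.2 ⟨q, mem_univ _, h2⟩)
  have h4 : C (pv mm q) (lo δ mm (l, (eT.symm ν).1, v)) ≠ col := by
    intro h5
    apply h1
    rw [hB, mem_filter]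
    exact ⟨mem_univ _, v, hadj, h5⟩
  revert h4
  cases C (pv mm q) (lo δ mm (l, (eT.symm ν).1, v)) <;> cases col <;> simp

/-- The copy of the label `l` with index `i`. -/
def cp (pr : Λ → Fin K → Option (Fin n × Fin (m + 1))) (δ : M → Fin Nw ⊕ RL Λ (Fin N₂) K → I)
    (mm : M) (l : Λ) (i : Fin N₂) (v : Fin K) : VX h e n m I M :=
  match pr l v with
  | some q => pv mm q
  | none => lo δ mm (l, i, v)

theorem cp_some {l : Λ} (i : Fin N₂) {v : Fin K} {q : Fin n × Fin (m + 1)}
    (hq : pr l v = some q) : cp (h := h) (e := e) pr δ mm l i v = pv mm q := by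
  unfold cp
  rw [hq]

theorem cp_none {l : Λ} (i : Fin N₂) {v : Fin K} (hq : pr l v = none) :
    cp (h := h) (e := e) pr δ mm l i v = lo δ mm (l, i, v) := by
  unfold cp
  rw [hq]

theorem cp_inj (hδ : Function.Injective (δ mm)) {l : Λ}
    (hinj : ∀ v v' q, pr l v = some q → pr l v' = some q → v = v') (i : Fin N₂) :
    Function.Injective (cp (h := h) (e := e) pr δ mm l i) := by
  intro v v' hvv
  rcases hq : pr l v with _ | q <;> rcases hq' : pr l v' with _ | q'
  · rw [cp_none i hq, cp_none i hq'] at hvv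
    exact congrArg (fun r => r.2.2) (lo_inj hδ hvv)
  · rw [cp_none i hq, cp_some i hq'] at hvv
    exact absurd hvv Sum.inl_ne_inr
  · rw [cp_some i hq, cp_none i hq'] at hvv
    exact absurd hvv Sum.inr_ne_inl
  · rw [cp_some i hq, cp_some i hq'] at hvv
    have h1 : q = q' := congrArg Prod.snd (Sum.inl_injective (Sum.inr_injective hvv))
    exact hinj v v' q hq (h1 ▸ hq')

theorem cp_dis (hδ : Function.Injective (δ mm)) {l : Λ} {i i' : Fin N₂} {v v' : Fin K}
    (hq : pr l v = none)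
    (hvv : cp (h := h) (e := e) pr δ mm l i v = cp pr δ mm l i' v') : i = i' := by
  rcases hq' : pr l v' with _ | q'
  · rw [cp_none i hq, cp_none i' hq'] at hvv
    exact congrArg (fun r => r.2.1) (lo_inj hδ hvv)
  · rw [cp_none i hq, cp_some i' hq'] at hvv
    exact absurd hvv Sum.inl_ne_inr

/-- The edges of a good copy. -/
theorem cp_adj (hδ : Function.Injective (δ mm)) {C : VX h e n m I M → VX h e n m I M → Bool}
    (hC : ∀ x y, C x y = C y x) {c : Bool}
    (hlow : ∀ r r', (GA Bl pr).Adj (Sum.inl r) (Sum.inl r') →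
      C (lo δ mm r) (lo δ mm r') = c) {l : Λ} {i : Fin N₂}
    (hi : ∀ q v, (GA Bl pr).Adj (Sum.inr q) (Sum.inl (l, i, v)) →
      C (pv mm q) (lo δ mm (l, i, v)) = c) {v v' : Fin K} (hvv : (Bl l).Adj v v')
    (hn : pr l v = none ∨ pr l v' = none) :
    (WX (h := h) (e := e) (GA Bl pr) δ).Adj (cp pr δ mm l i v) (cp pr δ mm l i v') ∧
      C (cp pr δ mm l i v) (cp pr δ mm l i v') = c := by
  rcases hq : pr l v with _ | q <;> rcases hq' : pr l v' with _ | q'
  · rw [cp_none i hq, cp_none i hq']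
    have h1 := ga_ll i hvv hq hq'
    exact ⟨wx_ll hδ h1, hlow _ _ h1⟩
  · rw [cp_none i hq, cp_some i hq']
    have h1 := ga_ql i hvv.symm hq' hq
    exact ⟨(wx_ql h1).symm, (hC _ _).trans (hi _ _ h1)⟩
  · rw [cp_some i hq, cp_none i hq']
    have h1 := ga_ql i hvv hq hq'
    exact ⟨wx_ql h1, hi _ _ h1⟩
  · rcases hn with h1 | h1
    · rw [hq] at h1
      exact absurd h1 (Option.some_ne_none _)
    · rw [hq'] at h1
      exact absurd h1 (Option.some_ne_none _)

end Oux

open Oux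

/-- Row OUX. -/
theorem oux_proof : OuxStatement := by
  intro h Nw e k n m K N N₂ fam D 𝓛 Λ Bl pr hLab hn hN I M δ hδ' C hC col t mm hlow hy ht
  classical
  have hδ := hδ' mm
  have hlow' : ∀ r r', (GA Bl pr).Adj (Sum.inl r) (Sum.inl r') →
      C (lo δ mm r) (lo δ mm r') = !col := hlow
  by_cases h1 : ∃ j, t j ≠ col
  · -- (N1)
    obtain ⟨j, hj⟩ := h1
    have hj' : t j = !col := by
      revert hj
      cases t j <;> cases col <;> simp
    have hjr : ∀ r, C (Sum.inr (Sum.inr j)) (lo δ mm r) = !col := fun r => (ht j r).trans hj'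
    have hN' : N ≤ N₂ := (Nat.le_add_right _ _).trans hN
    refine Or.inl ⟨!col, Sum.inr j, ?_, ?_⟩
    · intro w
      obtain ⟨l, f, hf, hadj, hpr⟩ := hLab.star w
      exact hang_e hδ hC hN' hlow' j hjr D w l f hf hadj hpr
    · intro x hx w
      obtain ⟨l, f, hf, hadj, -, hpr⟩ := hLab.hang (⟨0, hn⟩, 0) x hx w
      exact hang_e hδ hC hN' hlow' j hjr x.2 w l f hf (fun v v' _ _ hvv => hadj v v' hvv) hpr
  push Not at h1
  by_cases h2 : ∃ q : Fin n × Fin (m + 1), ∃ g : Fin N → RL Λ (Fin N₂) K,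
      Function.Injective g ∧ ∀ j, (GA Bl pr).Adj (Sum.inr q) (Sum.inl (g j)) ∧
        C (pv mm q) (lo δ mm (g j)) = col
  · -- (N2)
    obtain ⟨q, g, hg, hgj⟩ := h2
    refine Or.inr (Or.inl ⟨col, fun i =>
      if h3 : i.1 < h then Sum.inl (.y ⟨i.1, h3⟩)
      else if h4 : i.1 - h < e then Sum.inr (Sum.inr ⟨i.1 - h, h4⟩)
      else Sum.inr (Sum.inl (mm, q)), fun j => .low (δ mm (Sum.inr (g j))), ?_, ?_, ?_, ?_, ?_⟩)
    · intro i i' hii
      have hi := i.2
      have hi' := i'.2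
      apply Fin.ext
      by_cases a1 : i.1 < h
      · by_cases b1 : i'.1 < h
        · simp only [a1, b1, dif_pos] at hii
          have h5 := WP.y.inj (Sum.inl_injective hii)
          have h6 := Fin.mk.inj h5
          exact h6
        · by_cases b2 : i'.1 - h < e
          · simp only [a1, b1, b2, dif_pos, dif_neg, not_false_eq_true] at hii
            exact absurd hii Sum.inl_ne_inr
          · simp only [a1, b1, b2, dif_pos, dif_neg, not_false_eq_true] at hii
            exact absurd hii Sum.inl_ne_inr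
      · by_cases a2 : i.1 - h < e
        · by_cases b1 : i'.1 < h
          · simp only [a1, a2, b1, dif_pos, dif_neg, not_false_eq_true] at hii
            exact absurd hii Sum.inr_ne_inl
          · by_cases b2 : i'.1 - h < e
            · simp only [a1, a2, b1, b2, dif_pos, dif_neg, not_false_eq_true] at hii
              have h5 := congrArg Fin.val (Sum.inr_injective (Sum.inr_injective hii))
              simp only at h5
              omega
            · simp only [a1, a2, b1, b2, dif_pos, dif_neg, not_false_eq_true] at hii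
              exact absurd (Sum.inr_injective hii) Sum.inr_ne_inl
        · by_cases b1 : i'.1 < h
          · simp only [a1, a2, b1, dif_pos, dif_neg, not_false_eq_true] at hii
            exact absurd hii Sum.inr_ne_inl
          · by_cases b2 : i'.1 - h < e
            · simp only [a1, a2, b1, b2, dif_pos, dif_neg, not_false_eq_true] at hii
              exact absurd (Sum.inr_injective hii) Sum.inl_ne_inr
            · omega
    · intro j j' hjj
      exact hg (Sum.inr_injective (hδ (WP.low.inj hjj)))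
    · intro i hi
      exact ⟨.y ⟨i.1, hi⟩, dif_pos hi⟩
    · intro i j hij
      by_cases a1 : i.1 < h
      · simp only [a1, dif_pos] at hij
        have h5 := Sum.inl_injective hij
        cases h5
      · by_cases a2 : i.1 - h < e
        · simp only [a1, a2, dif_pos, dif_neg, not_false_eq_true] at hij
          exact absurd hij Sum.inr_ne_inl
        · simp only [a1, a2, dif_neg, not_false_eq_true] at hij
          exact absurd hij Sum.inr_ne_inl
    · intro i j
      by_cases a1 : i.1 < h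
      · simp only [a1, dif_pos]
        exact ⟨wx_yl _ _, hy _ _⟩
      · by_cases a2 : i.1 - h < e
        · simp only [a1, a2, dif_pos, dif_neg, not_false_eq_true]
          exact ⟨wx_el _ _, (ht _ _).trans (h1 _)⟩
        · simp only [a1, a2, dif_neg, not_false_eq_true]
          exact ⟨wx_ql (hgj j).1, (hgj j).2⟩
  -- (N3)
  have hfew : ∀ q : Fin n × Fin (m + 1), ¬ ∃ g : Fin N → RL Λ (Fin N₂) K,
      Function.Injective g ∧ ∀ j, (GA Bl pr).Adj (Sum.inr q) (Sum.inl (g j)) ∧
        C (pv mm q) (lo δ mm (g j)) = col := fun q hq => h2 ⟨q, hq⟩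
  have hgood := good (δ := δ) (mm := mm) (C := C) hN hfew
  choose ι hι hιq using hgood
  refine Or.inr (Or.inr ⟨!col, fun q => Sum.inl (mm, q), ?_, ?_, ?_, ?_, ?_⟩)
  · intro q q' hqq
    exact congrArg Prod.snd (Sum.inl_injective hqq)
  · intro z z' hz
    exact wx_qq (ga_zz hz)
  · intro z z' a b hz hab
    obtain ⟨l, f, hf, hadj, ha, hb, hv⟩ := hLab.blob z z' a b hz hab
    refine ⟨fun ν v => cp pr δ mm l (ι l ν) (f v), fun ν => ⟨?_, ?_, ?_, ?_, ?_⟩, ?_⟩
    · exact (cp_inj hδ (hLab.inj l) _).comp hf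
    · exact cp_some _ ha
    · exact cp_some _ hb
    · intro v h3 h4
      exact ⟨_, cp_none _ (hv v h3 h4)⟩
    · intro v v' hvv h3 h4
      refine cp_adj hδ hC hlow' (fun q v => hιq l ν q v) (hadj v v' hvv) ?_
      by_cases h5 : v = a
      · right
        refine hv v' (fun h6 => hvv.ne (h5.trans h6.symm)) (fun h6 => h3 ⟨h5, h6⟩)
      · by_cases h6 : v = b
        · right
          refine hv v' (fun h7 => h4 ⟨h6, h7⟩) (fun h7 => hvv.ne (h6.trans h7.symm))
        · left
          exact hv v h5 h6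
    · intro ν ν' v v' h3 h4 hvv
      exact hι l (cp_dis hδ (hv v h3 h4) hvv)
  · intro z
    obtain ⟨l, v, hv, hj⟩ := hLab.world z
    refine ⟨fun ν => .low (δ mm (Sum.inr (l, ι l ν, v))), ?_, ?_⟩
    · intro ν ν' hνν
      have h3 := Sum.inr_injective (hδ (WP.low.inj hνν))
      exact hι l (congrArg (fun r : RL Λ (Fin N₂) K => r.2.1) h3)
    · intro i j
      obtain ⟨v', hvv, hv'⟩ := hj j
      have h3 := ga_ql (N₂ := N₂) (ι l i) hvv hv' hv
      exact ⟨wx_ql h3, hιq l i _ _ h3⟩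
  · intro p x hx w
    obtain ⟨l, f, hf, hadj, hw, hv⟩ := hLab.hang p x hx w
    refine ⟨fun ν v => cp pr δ mm l (ι l ν) (f v), fun ν => ⟨?_, ?_⟩, ?_, ?_, ?_⟩
    · exact (cp_inj hδ (hLab.inj l) _).comp hf
    · intro v v' hvv
      refine cp_adj hδ hC hlow' (fun q v => hιq l ν q v) (hadj v v' hvv) ?_
      by_cases h5 : v = w
      · right
        exact hv v' (fun h6 => hvv.ne (h5.trans h6.symm))
      · left
        exact hv v h5
    · intro ν
      exact cp_some _ hw
    · intro ν v h3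
      exact ⟨_, cp_none _ (hv v h3)⟩
    · intro ν ν' v v' h3 hvv
      exact hι l (cp_dis hδ (hv v h3) hvv)

end MP3240S
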