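import Pool.Agent.Lib.MP_3240be_co.S62.Defs
import Pool.Agent.Lib.MP_3240be_co.P32.Pck

set_option autoImplicit false

/-!
# MP_3240be_co, T2*: row PCK (helper32)
-/

namespace MP3240S

open Finset
open MP3240L (Two MxTwo Cl IsBlock small mx_isBlock)

theorem ncard_cls {n : ℕ} (κ : Fin n → Bool) (S : Finset (Fin n)) (s : Bool) :
    ((S : Set (Fin n)) ∩ {x | κ x = s}).ncard = (S.filter (fun v => κ v = s)).card := by
  classical
  rw [← Set.ncard_coe_finset, Finset.coe_filter]
  congr 1

theorem pck_proof : PckStatement := by
  classical
  intro h n k r H κ D hD y₀ y₁ hy h0 h1 β hβ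
  have hsm : ∀ S, IsBlock H S → small κ S ≤ h + 1 := by
    intro S hS
    obtain ⟨s, hs⟩ := hD.cls _ (MP3240L.isBlock_mx hS)
    rw [ncard_cls] at hs
    unfold small
    rw [min_le_iff]
    cases s
    · exact Or.inr hs
    · exact Or.inl hs
  have side : ∀ y, r + 1 ≤ (qs H D y).ncard →
      ∃ E : Fin (r + 1) → Finset (Fin n), Function.Injective E ∧
        ∀ i, IsBlock H (E i) ∧ y ∈ E i ∧ h + 1 ≤ small κ (E i) := by
    intro y hq
    obtain ⟨Q, hQ, hQc⟩ := Set.exists_subset_card_eq hq
    have hfin : Q.Finite := Set.toFinite _
    have hQc' : hfin.toFinset.card = r + 1 := by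
      rw [← hQc, Set.ncard_eq_toFinset_card Q hfin]
    let e := hfin.toFinset.equivFinOfCardEq hQc'
    have hm : ∀ i, ((e.symm i : Set (Fin n))) ∈ Q := fun i => by
      have := (e.symm i).2
      rwa [Set.Finite.mem_toFinset] at this
    refine ⟨fun i => (e.symm i : Set (Fin n)).toFinset, ?_, ?_⟩
    · intro i j hij
      have h2 : (e.symm i : Set (Fin n)) = (e.symm j : Set (Fin n)) := by
        have h3 := congrArg (fun S : Finset (Fin n) => (S : Set (Fin n))) hij
        simpa using h3
      exact e.symm.injective (Subtype.ext h2)
    · intro i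
      obtain ⟨hdb, hyi⟩ := hQ (hm i)
      have hcoe : (((e.symm i : Set (Fin n)).toFinset : Finset (Fin n)) : Set (Fin n)) =
          (e.symm i : Set (Fin n)) := Set.coe_toFinset _
      have hb : ∀ s, h + 1 ≤
          (((e.symm i : Set (Fin n)).toFinset).filter (fun v => κ v = s)).card := by
        intro s
        rw [← ncard_cls, hcoe]
        exact hD.big _ hdb s
      have h3 : 3 ≤ ((e.symm i : Set (Fin n)).toFinset).card := by
        have h4 : (((e.symm i : Set (Fin n)).toFinset).filter (fun v => κ v = true)).card +
            (((e.symm i : Set (Fin n)).toFinset).filter (fun v => ¬ κ v = true)).card =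
            ((e.symm i : Set (Fin n)).toFinset).card :=
          Finset.card_filter_add_card_filter_not _
        have h5 : ((e.symm i : Set (Fin n)).toFinset).filter (fun v => ¬ κ v = true) =
            ((e.symm i : Set (Fin n)).toFinset).filter (fun v => κ v = false) := by
          refine Finset.filter_congr ?_
          intro v _
          simp
        rw [h5] at h4
        have h6 := hb true
        have h7 := hb false
        have h8 := hD.one
        omega
      refine ⟨mx_isBlock (by rw [hcoe]; exact hdb.1) h3, ?_, ?_⟩
      · rw [Set.mem_toFinset]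
        exact hyi
      · unfold small
        rw [le_min_iff]
        exact ⟨hb true, hb false⟩
  exact MP3240P.packing hD.conn hD.prop (by have := hD.one; omega) hsm hy (side y₀ h0)
    (side y₁ h1) β hβ

end MP3240S
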