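import Pool.Agent.Lib.MP_3240be_co.S62.Defs

/-! Row PGN of the board t3s_modules (helper92): the gadget for `D` with `IsNc`. -/

set_option autoImplicit false

namespace MP3240S

open MP3240L (Two MxTwo Cl Branch gr fam)
open MP3240G (TwoCn Bi Tiny Nc IsNc Mx Fam Blobbed WP WS Prs Big)
open MP3240Q (Mono Bip SG Sub em Gl Lin XS Hang TypStatement LinStatement)
open Pool.Agent.Lib.MP_3240be_co.H36.Chrom (Sparse)

namespace PgnH

section

variable {h Nw e : ℕ} {I M R Z : Type} (Ga : SimpleGraph (R ⊕ Z)) (δ : M → Fin Nw ⊕ R → I)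

theorem cX_symm (x y : WP h I M ⊕ ((M × Z) ⊕ Fin e)) : cX x y = cX y x := by
  classical
  unfold cX
  exact Bool.eq_iff_iff.2 (by
    rw [decide_eq_true_iff, decide_eq_true_iff]
    exact or_comm)

theorem cX_true {x y : WP h I M ⊕ ((M × Z) ⊕ Fin e)} (hc : cX x y = true) :
    redX x y ∨ redX y x := by
  classical
  unfold cX at hc
  exact decide_eq_true_iff.1 hc

theorem wx_adj {x y : WP h I M ⊕ ((M × Z) ⊕ Fin e)} (hc : (WX Ga δ).Adj x y) :
    relX Ga δ x y ∨ relX Ga δ y x := by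
  unfold WX at hc
  rw [SimpleGraph.fromRel_adj] at hc
  exact hc.2

end

/-- The common hubs, private ones included. -/
def Hb {h e : ℕ} {I M Z : Type} : Set (WP h I M ⊕ ((M × Z) ⊕ Fin e)) :=
  Set.range (fun j : Fin h => Sum.inl (WP.y j)) ∪ Set.range (fun j : Fin e => Sum.inr (Sum.inr j))

/-- The lows. -/
def Lw {h e : ℕ} {I M Z : Type} : Set (WP h I M ⊕ ((M × Z) ⊕ Fin e)) :=
  Set.range (fun i : I => Sum.inl (WP.low i))

theorem ga_priv {Λ G : Type} {K n m : ℕ} {Bl : Λ → SimpleGraph (Fin K)}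
    {pr : Λ → Fin K → Option (Fin n × Fin (m + 1))} {q q' : Fin n × Fin (m + 1)}
    (hq : (GA Bl pr : SimpleGraph (RL Λ G K ⊕ (Fin n × Fin (m + 1)))).Adj (Sum.inr q)
      (Sum.inr q')) : q.2 = 0 ∧ q'.2 = 0 := by
  unfold GA at hq
  rw [SimpleGraph.fromRel_adj] at hq
  rcases hq.2 with h | h
  · rcases h with ⟨_, _, _, _, _, _, _, h1, _⟩ | ⟨_, _, _, _, _, _, _, _, _, h1⟩ |
      ⟨z, z', _, h1, h2⟩
    · exact absurd h1 (by simp)
    · exact absurd h1 (by simp)
    · rw [Sum.inr_injective h1, Sum.inr_injective h2]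
      exact ⟨rfl, rfl⟩
  · rcases h with ⟨_, _, _, _, _, _, _, h1, _⟩ | ⟨_, _, _, _, _, _, _, _, _, h1⟩ |
      ⟨z, z', _, h1, h2⟩
    · exact absurd h1 (by simp)
    · exact absurd h1 (by simp)
    · rw [Sum.inr_injective h1, Sum.inr_injective h2]
      exact ⟨rfl, rfl⟩

theorem ncard_range_le {α : Type} (a : ℕ) (f : Fin a → α) : (Set.range f).ncard ≤ a := by
  rw [← Set.image_univ]
  refine le_trans (Set.ncard_image_le Set.finite_univ) ?_
  rw [Set.ncard_univ, Nat.card_eq_fintype_card, Fintype.card_fin]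

theorem rbase {h k n m m₁ K Nw e : ℕ} {Λ G I M : Type} (D : SimpleGraph (Fin k))
    (htwo : TwoCn D) (Bl : Λ → SimpleGraph (Fin K))
    (pr : Λ → Fin K → Option (Fin n × Fin (m + 1))) (δ : M → Fin Nw ⊕ RL Λ G K → I)
    (hn : 1 ≤ n) (he : h + e = m₁) :
    RBase n h m₁ D (WX (h := h) (e := e) (GA Bl pr) δ) cX Hb Lw := by
  classical
  refine ⟨cX_symm, ?_, ?_, ?_, ?_, ?_, ?_, ?_, ?_, ?_⟩
  · rintro (⟨mm, z, i⟩ | j)
    · right
      by_cases hi : i = 0
      · subst hi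
        refine ⟨Set.range (fun z' : Fin n => Sum.inl (mm, (z', 0))), Set.finite_range _,
          ncard_range_le _ _, ⟨z, rfl⟩, ?_⟩
        rintro _ ⟨z', rfl⟩ y hy hc
        rcases cX_true hc with h1 | h1
        · rcases y with y | ⟨m', z₁, i'⟩ | y
          · exact h1.elim
          · rcases wx_adj _ _ hy with h2 | h2
            · obtain ⟨h3, h4⟩ := h2
              obtain ⟨-, h5⟩ := ga_priv h4
              have h3' : mm = m' := h3
              have h5' : i' = 0 := h5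
              subst h3' h5'
              exact ⟨_, ⟨z₁, rfl⟩, rfl⟩
            · obtain ⟨h3, h4⟩ := h2
              obtain ⟨h5, -⟩ := ga_priv h4
              have h3' : m' = mm := h3
              have h5' : i' = 0 := h5
              subst h3' h5'
              exact ⟨_, ⟨z₁, rfl⟩, rfl⟩
          · exact h1.elim
        · rcases y with (y | y | ⟨y, y'⟩) | ⟨m', z₁, i'⟩ | y
          · exact h1.elim
          · exact h1.elim
          · exact h1.elim
          · rcases wx_adj _ _ hy with h2 | h2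
            · obtain ⟨h3, h4⟩ := h2
              obtain ⟨-, h5⟩ := ga_priv h4
              have h3' : mm = m' := h3
              have h5' : i' = 0 := h5
              subst h3' h5'
              exact ⟨_, ⟨z₁, rfl⟩, rfl⟩
            · obtain ⟨h3, h4⟩ := h2
              obtain ⟨h5, -⟩ := ga_priv h4
              have h3' : m' = mm := h3
              have h5' : i' = 0 := h5
              subst h3' h5'
              exact ⟨_, ⟨z₁, rfl⟩, rfl⟩
          · exact h1.elim
      · refine ⟨{Sum.inl (mm, (z, i))}, Set.finite_singleton _, ?_, rfl, ?_⟩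
        · rw [Set.ncard_singleton]; exact hn
        · rintro _ rfl y hy hc
          exfalso
          rcases y with (y | y | ⟨y, y'⟩) | ⟨m', z₁, i'⟩ | y
          · rcases cX_true hc with h1 | h1 <;> exact h1.elim
          · rcases cX_true hc with h1 | h1 <;> exact h1.elim
          · rcases cX_true hc with h1 | h1 <;> exact h1.elim
          · rcases wx_adj _ _ hy with h2 | h2
            · exact hi (ga_priv h2.2).1
            · exact hi (ga_priv h2.2).2
          · rcases cX_true hc with h1 | h1 <;> exact h1.elim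
    · left
      exact Or.inr ⟨j, rfl⟩
  · exact (Set.finite_range _).union (Set.finite_range _)
  · refine le_trans (Set.ncard_union_le _ _) ?_
    have h1 := ncard_range_le h (fun j : Fin h =>
      (Sum.inl (WP.y j) : WP h I M ⊕ ((M × (Fin n × Fin (m + 1))) ⊕ Fin e)))
    have h2 := ncard_range_le e (fun j : Fin e =>
      (Sum.inr (Sum.inr j) : WP h I M ⊕ ((M × (Fin n × Fin (m + 1))) ⊕ Fin e)))
    omega
  · have h1 := ncard_range_le h (fun j : Fin h => (WP.y j : WP h I M))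
    refine le_trans (Set.ncard_le_ncard ?_ (Set.finite_range _)) h1
    rintro l (⟨j, hj⟩ | ⟨j, hj⟩)
    · exact ⟨j, Sum.inl_injective hj⟩
    · exact absurd hj (by simp)
  · rintro _ ⟨i, rfl⟩
    exact ⟨_, rfl⟩
  · rintro _ ⟨i, rfl⟩ (⟨j, hj⟩ | ⟨j, hj⟩)
    · exact absurd (Sum.inl_injective hj) (by simp)
    · exact absurd hj (by simp)
  · rintro _ (⟨j, rfl⟩ | ⟨j, rfl⟩) y hy -
    · rcases wx_adj _ _ hy with h2 | h2
      · rcases y with (y | y | ⟨y, y'⟩) | ⟨m', z₁, i'⟩ | y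
        · exact h2.elim
        · exact ⟨y, rfl⟩
        · exact h2.elim
        · exact h2.elim
        · exact h2.elim
      · rcases y with (y | y | ⟨y, y'⟩) | ⟨m', z₁, i'⟩ | y <;> exact h2.elim
    · rcases wx_adj _ _ hy with h2 | h2
      · rcases y with (y | y | ⟨y, y'⟩) | ⟨m', z₁, i'⟩ | y
        · exact h2.elim
        · exact ⟨y, rfl⟩
        · exact h2.elim
        · exact h2.elim
        · exact h2.elim
      · rcases y with (y | y | ⟨y, y'⟩) | ⟨m', z₁, i'⟩ | y <;> exact h2.elim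
  · rintro _ ⟨i, rfl⟩ y - hc
    rcases y with (y | y | ⟨y, y'⟩) | ⟨m', z₁, i'⟩ | y
    · exact Or.inl ⟨y, rfl⟩
    · rcases cX_true hc with h1 | h1 <;> exact h1.elim
    · rcases cX_true hc with h1 | h1 <;> exact h1.elim
    · rcases cX_true hc with h1 | h1 <;> exact h1.elim
    · exact Or.inr ⟨y, rfl⟩
  · intro f hf
    have hk := htwo.three
    obtain ⟨j, hj⟩ : ∃ j, D.Adj ⟨0, by omega⟩ j := by
      have h1 : (⟨0, by omega⟩ : Fin k) ≠ ⟨1, by omega⟩ := by
        intro e'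
        exact absurd (Fin.mk.inj e') (by omega)
      have : Nontrivial (Fin k) := ⟨⟨_, _, h1⟩⟩
      exact htwo.conn.preconnected.exists_adj_of_nontrivial _
    refine ⟨⟨0, by omega⟩, ?_⟩
    have h2 := (hf.2 _ _ hj).2
    generalize f ⟨0, by omega⟩ = x at h2
    generalize f j = y at h2
    rcases x with (x | x | ⟨x, x'⟩) | x
    · exact Or.inl (Or.inl ⟨x, rfl⟩)
    · exact Or.inr (Or.inl ⟨x, rfl⟩)
    · exfalso
      rcases y with (y | y | ⟨y, y'⟩) | ⟨m', z₁, i'⟩ | y <;>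
        (rcases cX_true h2 with h1 | h1 <;> exact h1.elim)
    · exact Or.inr (Or.inr ⟨x, rfl⟩)

/-- The worlds. -/
def wd {M : Type} {n m e : ℕ} : (M × (Fin n × Fin (m + 1))) ⊕ Fin e → (M × Fin n) ⊕ Fin e
  | .inl q => .inl (q.1, q.2.1)
  | .inr j => .inr j

theorem bbase {h k n m K Nw e : ℕ} {Λ G I M : Type} (fam : Set SG) (D : SimpleGraph (Fin k))
    (htwo : TwoCn D) (κ : Fin k → Bool) (hκ : Bi D κ h) (hbip : ∀ x ∈ fam, Bip x.2)
    (hmx : Mx fam ⟨k, D⟩) (hnob : ¬ Blobbed fam D) (𝓛 : Set SG)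
    (Bl : Λ → SimpleGraph (Fin K))
    (pr : Λ → Fin K → Option (Fin n × Fin (m + 1))) (hlab : Lab fam D 𝓛 Bl pr)
    (δ : M → Fin Nw ⊕ RL Λ G K → I) (hδ : ∀ m, Function.Injective (δ m))
    (hs : Sparse (k * k) δ) (hgax : GaxStatement) (hwxb : WxbStatement) :
    BBase (m + 1) D (WX (h := h) (e := e) (GA Bl pr) δ) cX (wd (M := M) (n := n) (m := m)
      (e := e)) := by
  classical
  refine ⟨cX_symm, ?_, ?_, ?_⟩
  · rintro (⟨mm, z⟩ | j)
    · refine (Set.finite_range (fun i : Fin (m + 1) =>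
        (Sum.inl (mm, (z, i)) : (M × (Fin n × Fin (m + 1))) ⊕ Fin e))).subset ?_
      rintro (⟨mm', z', i⟩ | j) hq
      · have h1 : (Sum.inl (mm', z') : (M × Fin n) ⊕ Fin e) = Sum.inl (mm, z) := hq
        obtain ⟨rfl, rfl⟩ := Prod.mk.inj (Sum.inl_injective h1)
        exact ⟨i, rfl⟩
      · exact absurd hq (by simp [wd])
    · refine (Set.finite_singleton
        (Sum.inr j : (M × (Fin n × Fin (m + 1))) ⊕ Fin e)).subset ?_
      rintro (⟨mm', z', i⟩ | j') hq
      · exact absurd hq (by simp [wd])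
      · have h1 : (Sum.inr j' : (M × Fin n) ⊕ Fin e) = Sum.inr j := hq
        rw [Sum.inr_injective h1]
        rfl
  · rintro (⟨mm, z⟩ | j)
    · refine le_trans (Set.ncard_le_ncard ?_ (Set.finite_range _))
        (ncard_range_le (m + 1) (fun i : Fin (m + 1) =>
        (Sum.inl (mm, (z, i)) : (M × (Fin n × Fin (m + 1))) ⊕ Fin e)))
      rintro (⟨mm', z', i⟩ | j) hq
      · have h1 : (Sum.inl (mm', z') : (M × Fin n) ⊕ Fin e) = Sum.inl (mm, z) := hq
        obtain ⟨rfl, rfl⟩ := Prod.mk.inj (Sum.inl_injective h1)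
        exact ⟨i, rfl⟩
      · exact absurd hq (by simp [wd])
    · have h2 : ({q | wd q = Sum.inr j} : Set ((M × (Fin n × Fin (m + 1))) ⊕ Fin e)) ⊆
        {Sum.inr j} := by
        rintro (⟨mm', z', i⟩ | j') hq
        · exact absurd hq (by simp [wd])
        · have h1 : (Sum.inr j' : (M × Fin n) ⊕ Fin e) = Sum.inr j := hq
          rw [Sum.inr_injective h1]
          rfl
      refine le_trans (Set.ncard_le_ncard h2 (Set.finite_singleton _)) ?_
      rw [Set.ncard_singleton]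
      omega
  · intro f hf
    obtain ⟨mm, g, hg1, hg2, hg3⟩ := hwxb k h Nw e D κ htwo hκ I M (RL Λ G K)
      (Fin n × Fin (m + 1)) (GA Bl pr) δ hδ hs f hf
    obtain ⟨⟨z, hz⟩, halt⟩ := hgax k n m K Λ G fam D Bl pr htwo hbip hmx hnob hlab.kd hlab.inj
      g hg1 hg3
    have hiff : ∀ i, (∃ q, f i = Sum.inr q) ↔ ∃ q, g i = Sum.inr q := by
      intro i
      rw [hg2 i]
      rcases g i with r | ζ
      · simp [px]
      · simp [px]
    refine ⟨⟨Sum.inl (mm, z), ?_⟩, ?_⟩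
    · intro i q hq
      rw [hg2 i] at hq
      rcases hgi : g i with r | ζ
      · rw [hgi] at hq
        exact absurd hq (by simp [px])
      · rw [hgi] at hq
        have h1 : (Sum.inl (mm, ζ) : (M × (Fin n × Fin (m + 1))) ⊕ Fin e) = q :=
          Sum.inr_injective hq
        rw [← h1]
        have h2 := hz i ζ hgi
        show Sum.inl (mm, ζ.1) = Sum.inl (mm, z)
        rw [h2]
    · intro i j hij
      rw [hiff i, hiff j]
      exact halt i j hij

end PgnH

/-- Row PGN. -/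
theorem pgn (htyp : TypStatement) (hlbx : LbxStatement) (hgax : GaxStatement)
    (hlin : LinStatement) (hwxn : WxnStatement) (houx : OuxStatement) (hwxb : WxbStatement) :
    PgnStatement := by
  classical
  intro h k n m m₁ N fam D 𝓛 hFam hNc h𝓛 hsub hn hN hm
  have hbig : Big h ⟨k, D⟩ := hFam.big _ hFam.mx.1
  have htwo : TwoCn D := hbig.1
  obtain ⟨κ, hκ, hnc⟩ := hNc
  obtain ⟨K, Λ, hΛf, Bl, pr, hlab, hΛ, hK⟩ := hlbx k n m fam D 𝓛 htwo hFam.mx.1 h𝓛 hsub hn
  let N₂ : ℕ := N + (n * (m + 1)) * N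
  let Nw : ℕ := k * 2 ^ h
  let R : Type := RL Λ (Fin N₂) K
  let Z : Type := Fin n × Fin (m + 1)
  let Ga : SimpleGraph (R ⊕ Z) := GA Bl pr
  obtain ⟨e, he⟩ : ∃ e, h + e = m₁ := ⟨m₁ - h, by omega⟩
  have hk3 : 3 ≤ k := htwo.three
  have hNw : 2 ≤ Nw := by
    have h2 : 1 ≤ 2 ^ h := Nat.one_le_two_pow
    have h3 : k * 1 ≤ k * 2 ^ h := Nat.mul_le_mul_left k h2
    show 2 ≤ k * 2 ^ h
    omega
  have hN2 : 1 ≤ N₂ := le_trans hN (Nat.le_add_right _ _)
  let l0 : Fin Nw ⊕ R := Sum.inl ⟨0, by omega⟩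
  let l1 : Fin Nw ⊕ R := Sum.inl ⟨1, by omega⟩
  have hl01 : l0 ≠ l1 := by
    intro e
    have := Fin.mk.inj (Sum.inl_injective e)
    omega
  have hfR : Finite R := by
    show Finite (Λ × Fin N₂ × Fin K)
    infer_instance
  have hnR : Nonempty R := by
    obtain ⟨l⟩ := hΛ
    exact ⟨(l, ⟨0, hN2⟩, ⟨0, by omega⟩)⟩
  obtain ⟨I, M, hfI, hfM, δ, hδi, hδs, hδt⟩ := htyp (max (k * k) 2) (k + 2) 2 (Fin Nw ⊕ R)
    (WS h Nw R Z ⊕ Fin e → WS h Nw R Z ⊕ Fin e → Bool) l0 l1 hl01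
  have hδs' : Sparse (k * k) δ := by
    intro S hS1 hS2
    exact hδs S hS1 (le_trans hS2 (le_max_left _ _))
  have hδl : Lin δ := hlin _ _ _ δ (max (k * k) 2) (le_max_right _ _) hδs
  refine ⟨WP h I M, (M × Z) ⊕ Fin e, inferInstance, inferInstance, WX Ga δ, ?_, ?_⟩
  · refine ⟨cX, PgnH.Hb, PgnH.Lw, (M × Fin n) ⊕ Fin e, PgnH.wd, ?_, ?_⟩
    · exact PgnH.rbase D htwo Bl pr δ hn he
    · refine PgnH.bbase fam D htwo κ hκ ?_ hFam.mx hFam.nob 𝓛 Bl pr hlab δ hδi hδs' hgax hwxb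
      intro x hx
      obtain ⟨-, κ', hκ'⟩ := hFam.big x hx
      exact ⟨κ', hκ'.prop⟩
  · intro C hC
    obtain ⟨φ, x, hx⟩ := hδt (fun m s s' => C (wx δ m s) (wx δ m s'))
    rcases hwxn h k Nw e k D κ hFam.one hκ hnc le_rfl le_rfl I M R Z Ga δ hδi hδl hnR C hC
      (fun m => (fun s s' => C (wx δ m s) (wx δ m s')) = φ) φ
      (fun m hm s s' => congrFun (congrFun hm s) s') x hx with
      ⟨c, f, hf⟩ | ⟨col, t, mm, -, h1, h2, h3⟩
    · exact Or.inl ⟨c, f, hf⟩
    · right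
      refine ⟨?_, fun c x hx => absurd hx (Set.notMem_empty x)⟩
      have h4 := houx h Nw e k n m K N N₂ fam D 𝓛 Λ Bl pr hlab hn le_rfl I M δ hδi C hC col t mm
        h1 h2 h3
      rw [he] at h4
      exact h4

end MP3240S
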