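import Pool.Agent.Lib.MP_3240be_co.S62.Defs
import Pool.Agent.Lib.MP_3240be_co.H36.Chrom.Hyper
import Pool.Agent.Lib.MP_3240be_co.Q22.Lbs

set_option autoImplicit false

/-!
# MP_3240be_co, Theorem T2*, row PTA: the pattern for two cross-connected graphs
-/

namespace MP3240S

open MP3240G (TwoCn Bi Mx Fam Blobbed Prs)
open MP3240Q (Mono Bip SG Sub Hang GY Fr2 EB2 ER2 Pt2)
open Pool.Agent.Lib.MP_3240be_co.H82 (TC)
open Pool.Agent.Lib.MP_3240be_co.H36.Chrom (Sparse good)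

/-- The complete graph on the passengers. -/
def ptH {n m n' : ℕ} (φ : Fin n × Fin (m + 1) ≃ Fin n') : SimpleGraph (Fin n') where
  Adj q q' := ∃ z z', z ≠ z' ∧ q = φ (z, 0) ∧ q' = φ (z', 0)
  symm := ⟨fun _ _ ⟨z, z', h, h1, h2⟩ => ⟨z', z, h.symm, h2, h1⟩⟩
  loopless := ⟨fun _ ⟨_, _, h, h1, h2⟩ =>
    h (congrArg Prod.fst (φ.injective (h1.symm.trans h2)))⟩

section Copy

variable {Λ P G M : Type} {n m K N : ℕ} {pr : Λ → Fin K → Option (Fin n × Fin (m + 1))}
  {l : Λ} {i i' : G} {v v' : Fin K} {q : Fin n × Fin (m + 1)}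

/-- The vertex `v` of the copy `i` of the label `l`. -/
def ptF (P M : Type) (N : ℕ) (pr : Λ → Fin K → Option (Fin n × Fin (m + 1))) (l : Λ) (i : G)
    (v : Fin K) : GY Λ P G M K N ⊕ (Fin n × Fin (m + 1)) :=
  match pr l v with
  | some q => Sum.inr q
  | none => Sum.inl (GY.l l i v)

theorem ptF_some (h : pr l v = some q) : ptF P M N pr l i v = Sum.inr q := by
  unfold ptF
  rw [h]

theorem ptF_none (h : pr l v = none) : ptF P M N pr l i v = Sum.inl (GY.l l i v) := by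
  unfold ptF
  rw [h]

theorem ptF_inj (hinj : ∀ v v' q, pr l v = some q → pr l v' = some q → v = v') :
    Function.Injective (ptF P M N pr l i) := by
  intro v v' h
  rcases hv : pr l v with _ | q <;> rcases hv' : pr l v' with _ | q'
  · rw [ptF_none hv, ptF_none hv'] at h
    have h1 := Sum.inl_injective h
    injection h1
  · rw [ptF_none hv, ptF_some hv'] at h
    simp at h
  · rw [ptF_some hv, ptF_none hv'] at h
    simp at h
  · rw [ptF_some hv, ptF_some hv'] at h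
    have h1 := Sum.inr_injective h
    rw [← h1] at hv'
    exact hinj v v' q hv hv'

theorem ptF_copy (hv : pr l v = none)
    (h : ptF P M N pr l i v = ptF P M N pr l i' v') : i = i' := by
  rw [ptF_none hv] at h
  rcases hv' : pr l v' with _ | q'
  · rw [ptF_none hv'] at h
    have h1 := Sum.inl_injective h
    injection h1
  · rw [ptF_some hv'] at h
    simp at h

end Copy

section Adj

variable {Λ P G M : Type} {n m n' K N : ℕ} {pr : Λ → Fin K → Option (Fin n × Fin (m + 1))}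
  {Bl : Λ → SimpleGraph (Fin K)}

theorem pt_fr (φ : Fin n × Fin (m + 1) ≃ Fin n') {l : Λ} {v v' : Fin K}
    {q : Fin n × Fin (m + 1)} (h : (Bl l).Adj v v') (h1 : pr l v = some q)
    (h2 : pr l v' = none) : Fr2 Bl (fun c v => (pr c v).map φ) l (φ q) v' := by
  refine ⟨v, h, ?_, ?_⟩
  · show (pr l v).map φ = some (φ q)
    rw [h1]
    rfl
  · show (pr l v').map φ = none
    rw [h2]
    rfl

theorem ptF_adj (φ : Fin n × Fin (m + 1) ≃ Fin n')
    (S : SimpleGraph (GY Λ P G M K N ⊕ (Fin n × Fin (m + 1))))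
    (C : GY Λ P G M K N ⊕ (Fin n × Fin (m + 1)) → GY Λ P G M K N ⊕ (Fin n × Fin (m + 1)) → Bool)
    (hC : ∀ x y, C x y = C y x) (b : Bool)
    (hS : ∀ x y, EB2 Bl (fun c v => (pr c v).map φ) (Sum.map id φ x) (Sum.map id φ y) →
      S.Adj x y)
    (h0 : ∀ d d', EB2 Bl (fun c v => (pr c v).map φ)
      (Sum.inl d : GY Λ P G M K N ⊕ Fin n') (Sum.inl d') → C (Sum.inl d) (Sum.inl d') = b)
    (l : Λ) (i : G)
    (hfr : ∀ q v, Fr2 Bl (fun c v => (pr c v).map φ) l (φ q) v →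
      C (Sum.inr q) (Sum.inl (GY.l l i v)) = b)
    (v v' : Fin K) (hadj : (Bl l).Adj v v') (hnone : pr l v = none ∨ pr l v' = none) :
    S.Adj (ptF P M N pr l i v) (ptF P M N pr l i v') ∧
      C (ptF P M N pr l i v) (ptF P M N pr l i v') = b := by
  have key : ∀ v v', (Bl l).Adj v v' → pr l v' = none →
      S.Adj (ptF P M N pr l i v) (ptF P M N pr l i v') ∧
        C (ptF P M N pr l i v) (ptF P M N pr l i v') = b := by
    intro v v' h h'
    rw [ptF_none h']
    rcases hv : pr l v with _ | q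
    · rw [ptF_none hv]
      have h1 : EB2 Bl (fun c v => (pr c v).map φ)
          (Sum.inl (GY.l l i v) : GY Λ P G M K N ⊕ Fin n') (Sum.inl (GY.l l i v')) := by
        refine Or.inl ⟨l, i, v, v', h, ?_, ?_, rfl, rfl⟩
        · show (pr l v).map φ = none
          rw [hv]
          rfl
        · show (pr l v').map φ = none
          rw [h']
          rfl
      exact ⟨hS _ _ h1, h0 _ _ h1⟩
    · rw [ptF_some hv]
      have h1 := pt_fr φ h hv h'
      exact ⟨hS _ _ (Or.inr (Or.inl ⟨l, i, φ q, v', h1, rfl, rfl⟩)), hfr q v' h1⟩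
  rcases hnone with h | h
  · obtain ⟨h1, h2⟩ := key v' v hadj.symm h
    exact ⟨h1.symm, by rw [hC]; exact h2⟩
  · exact key v v' hadj h

end Adj

theorem hang_tr {Y Q Q' : Type} {t : ℕ} (U : SimpleGraph (Fin t)) (S' : SimpleGraph (Y ⊕ Q'))
    (φ : Q ≃ Q') (C : Y ⊕ Q → Y ⊕ Q → Bool) (c : Bool) (N : ℕ) (q : Q) (w : Fin t)
    (h : Hang U S' (fun x y => C (Sum.map id φ.symm x) (Sum.map id φ.symm y)) c N (φ q) w) :
    Hang U (S'.comap (Sum.map id φ)) C c N q w := by
  obtain ⟨g, h1, h2, h3, h4⟩ := h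
  have hinj : Function.Injective (Sum.map (id : Y → Y) φ.symm) :=
    Function.Injective.sumMap Function.injective_id φ.symm.injective
  have hb : ∀ x : Y ⊕ Q', Sum.map (id : Y → Y) φ (Sum.map id φ.symm x) = x := by
    rintro (x | x) <;> simp
  refine ⟨fun ν v => Sum.map id φ.symm (g ν v), fun ν => ⟨?_, ?_⟩, ?_, ?_, ?_⟩
  · exact hinj.comp (h1 ν).1
  · intro i j hij
    obtain ⟨h5, h6⟩ := (h1 ν).2 i j hij
    refine ⟨?_, h6⟩
    rw [SimpleGraph.comap_adj, hb, hb]
    exact h5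
  · intro ν
    show Sum.map id φ.symm (g ν w) = _
    rw [h2]
    simp
  · intro ν v hv
    obtain ⟨l, hl⟩ := h3 ν v hv
    refine ⟨l, ?_⟩
    show Sum.map id φ.symm (g ν v) = _
    rw [hl]
    rfl
  · intro ν ν' v v' hv e
    exact h4 ν ν' v v' hv (hinj e)

/-- The asymmetric pattern: red pieces for `A` and `𝓡`, blue labels for `B` and `𝓛`. -/
def PtaSt : Prop :=
  ∀ (k k' n m N : ℕ) (fam : Set SG) (A : SimpleGraph (Fin k)) (B : SimpleGraph (Fin k'))
    (𝓡 𝓛 : Set SG), TC True A → TC True B → TwoCn B → (∀ x ∈ fam, Bip x.2) → Mx fam ⟨k', B⟩ →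
    ¬ Blobbed fam B → 𝓡.Finite → (∀ x ∈ 𝓡, ¬ Sub A x.2) → 𝓛.Finite → (∀ x ∈ 𝓛, ¬ Sub B x.2) →
    1 ≤ n → 1 ≤ N →
    ∃ (Y : Type) (_ : Finite Y) (P : SimpleGraph (Y ⊕ (Fin n × Fin (m + 1))))
      (c₁ : Y ⊕ (Fin n × Fin (m + 1)) → Y ⊕ (Fin n × Fin (m + 1)) → Bool),
      (∀ x y, c₁ x y = c₁ y x) ∧
      (∀ q y, P.Adj (Sum.inr q) y → c₁ (Sum.inr q) y = true →
        q.2 = 0 ∧ ∃ z : Fin n, y = Sum.inr (z, 0)) ∧
      (∀ f : Fin k → Y ⊕ (Fin n × Fin (m + 1)), Mono P c₁ A true f →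
        ∃ i q, f i = Sum.inr q) ∧
      (∀ f : Fin k' → Y ⊕ (Fin n × Fin (m + 1)), Mono P c₁ B false f →
        (∃ z : Fin n, ∀ i q, f i = Sum.inr q → q.1 = z) ∧
          ∀ i j, B.Adj i j → ((∃ q, f i = Sum.inr q) ↔ ¬ ∃ q, f j = Sum.inr q)) ∧
      ∀ (C : Y ⊕ (Fin n × Fin (m + 1)) → Y ⊕ (Fin n × Fin (m + 1)) → Bool)
        (β : Bool → Bool), (∀ x y, C x y = C y x) → β false ≠ β true →
        (∀ d d', P.Adj (Sum.inl d) (Sum.inl d') →
          C (Sum.inl d) (Sum.inl d') = β (c₁ (Sum.inl d) (Sum.inl d'))) →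
        (∃ q, Star A 𝓡 N P C (β true) q) ∨
          ∃ zf : Fin n × Fin (m + 1) → Fin n × Fin (m + 1), Full B 𝓛 N P C (β false) zf

theorem pta_core (hL : LbxStatement) (hG : GaxStatement) (hR : RpxStatement)
    (hS : MP3240Q.Sy2Statement) (hA : MP3240Q.Al2Statement) (hRc : MP3240Q.RclStatement)
    (hCs : MP3240Q.CstStatement) : PtaSt := by
  classical
  intro k k' n m N fam A B 𝓡 𝓛 hTA hTB htwo hbip hmx hnob hfinR h𝓡 hfinL h𝓛 hn hN1
  have hnbA : ∀ i, ∃ j, A.Adj i j := hTA.nbr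
  have hnb : ∀ i, ∃ j, B.Adj i j := hTB.nbr
  obtain ⟨K₁, hK1, hkK1, hsK1⟩ : ∃ K₁, 1 ≤ K₁ ∧ k ≤ K₁ ∧ ∀ x ∈ 𝓡, x.1 ≤ K₁ := by
    obtain ⟨b, hb⟩ := (hfinR.image (fun x : SG => x.1)).bddAbove
    refine ⟨max (k + 1) b, by omega, by omega, fun x hx => ?_⟩
    exact le_trans (hb ⟨x, hx, rfl⟩) (le_max_right _ _)
  obtain ⟨K, Λ, hΛ, Bl, pr, hLab, hΛn, hK⟩ := hL k' n m fam B (insert ⟨K₁, ⊥⟩ 𝓛) htwo hmx.1
    (hfinL.insert _) (by
      intro x hx
      rcases Set.mem_insert_iff.1 hx with rfl | hx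
      · rintro ⟨f, -, hf⟩
        obtain ⟨x0⟩ := hTB.ne
        obtain ⟨y0, h0⟩ := hnb x0
        exact hf _ _ h0
      · exact h𝓛 x hx) hn
  have hfR : Finite 𝓡 := hfinR
  have hKK : K₁ ≤ K := by
    obtain ⟨l, e, he, -⟩ := hLab.hang (⟨0, hn⟩, 0) ⟨K₁, ⊥⟩ (Set.mem_insert _ _) ⟨0, hK1⟩
    simpa using Fintype.card_le_of_injective e he
  have hk : k ≤ K := hkK1.trans hKK
  have hs : ∀ x ∈ 𝓡, x.1 ≤ K := fun x hx => (hsK1 x hx).trans hKK
  let PK := Fin k ⊕ ((g : 𝓡) × Fin g.1.1)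
  let Rd : PK → SimpleGraph (Fin K) := fun c => match c with
    | Sum.inl _ => A.map (Fin.castLEEmb hk)
    | Sum.inr ⟨g, _⟩ => g.1.2.map (Fin.castLEEmb (hs g.1 g.2))
  let rt : PK → Fin K := fun c => match c with
    | Sum.inl w => Fin.castLE hk w
    | Sum.inr ⟨g, w⟩ => Fin.castLE (hs g.1 g.2) w
  have hrfree : ∀ ρ, ¬ ∃ f : Fin k → Fin K, Function.Injective f ∧ (∀ i, f i ≠ rt ρ) ∧
      ∀ i j, A.Adj i j → (Rd ρ).Adj (f i) (f j) := by
    rintro (w | ⟨g, w⟩) ⟨f, hf, hno, hadj⟩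
    · obtain ⟨f', hf', hff, hadj'⟩ := MP3240Q.lbs_pull hk hnbA f hf (fun i j h => hadj i j h)
      obtain ⟨i, hi⟩ := (Finite.injective_iff_surjective.1 hf') w
      exact hno i (by rw [hff, hi])
    · obtain ⟨f', hf', hff, hadj'⟩ := MP3240Q.lbs_pull (hs g.1 g.2) hnbA f hf
        (fun i j h => hadj i j h)
      exact h𝓡 g.1 g.2 ⟨f', hf', hadj'⟩
  let φ : Fin n × Fin (m + 1) ≃ Fin (n * (m + 1)) := finProdFinEquiv
  let pr' : Λ → Fin K → Option (Fin (n * (m + 1))) := fun c v => (pr c v).map φ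
  have : Nonempty (Option (Fin (n * (m + 1)) × Fin K) × Fin (N + 2)) := ⟨(none, 0)⟩
  obtain ⟨G, M, hGf, hMf, δ, hδ, hcol, hsp⟩ :=
    good (k * k) (PK × Fin N × Fin K) (Option (Fin (n * (m + 1)) × Fin K) × Fin (N + 2))
  have hsp' : Sparse (k * k) δ := fun S h1 h2 => hsp S h1 (by omega)
  have hs2 := hS Λ PK G M (n * (m + 1)) K N (ptH φ) Bl pr' Rd rt δ hδ
  have hBs : ∀ s t, EB2 Bl pr' (s : GY Λ PK G M K N ⊕ Fin (n * (m + 1))) t → EB2 Bl pr' t s :=
    fun s t => (hs2 s t).1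
  have hRs : ∀ s t, ER2 (ptH φ) pr' Rd rt δ s t → ER2 (ptH φ) pr' Rd rt δ t s :=
    fun s t => (hs2 s t).2.1
  have hBi : ∀ s, ¬ EB2 Bl pr' (s : GY Λ PK G M K N ⊕ Fin (n * (m + 1))) s :=
    fun s => (hs2 s s).2.2.1
  have hRi : ∀ s, ¬ ER2 (ptH φ) pr' Rd rt δ s s := fun s => (hs2 s s).2.2.2.1
  have hdisj : ∀ s t, EB2 Bl pr' s t → ¬ ER2 (ptH φ) pr' Rd rt δ s t :=
    fun s t => (hs2 s t).2.2.2.2
  have hPt : ∀ s t, (Pt2 (ptH φ) Bl pr' Rd rt δ).Adj s t ↔
      (EB2 Bl pr' s t ∨ ER2 (ptH φ) pr' Rd rt δ s t) := by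
    intro s t
    rw [Pt2, SimpleGraph.fromRel_adj]
    constructor
    · rintro ⟨_, (h | h) | (h | h)⟩
      · exact Or.inl h
      · exact Or.inr h
      · exact Or.inl (hBs _ _ h)
      · exact Or.inr (hRs _ _ h)
    · intro h
      refine ⟨?_, Or.inl h⟩
      rintro rfl
      rcases h with h | h
      · exact hBi _ h
      · exact hRi _ h
  have hERq : ∀ q t, ER2 (ptH φ) pr' Rd rt δ (Sum.inr q) t →
      ∃ q', (ptH φ).Adj q q' ∧ t = Sum.inr q' := by
    rintro q t (⟨q1, q2, h1, h2, h3⟩ | ⟨_, _, _, _, _, _, _, _, _, _, _, h, _⟩)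
    · refine ⟨q2, ?_, h3⟩
      rw [Sum.inr_injective h2]
      exact h1
    · simp at h
  have hinjm : Function.Injective
      (Sum.map (id : GY Λ PK G M K N → GY Λ PK G M K N) φ) :=
    Function.Injective.sumMap Function.injective_id φ.injective
  refine ⟨GY Λ PK G M K N, inferInstance,
    (Pt2 (ptH φ) Bl pr' Rd rt δ).comap (Sum.map id φ),
    fun s t => decide (ER2 (ptH φ) pr' Rd rt δ (Sum.map id φ s) (Sum.map id φ t)),
    ?_, ?_, ?_, ?_, ?_⟩
  · -- symm
    intro x y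
    exact decide_eq_decide.2 ⟨hRs _ _, hRs _ _⟩
  · -- the red edges at the private vertices
    intro q y _ hq
    obtain ⟨q', ⟨z, z', hz, h1, h2⟩, h3⟩ := hERq (φ q) _ (of_decide_eq_true hq)
    have h4 : q = (z, 0) := φ.injective h1
    refine ⟨by rw [h4], z', ?_⟩
    apply hinjm
    rw [h3, h2]
    rfl
  · -- red copies
    rintro f ⟨hf, hfE⟩
    obtain ⟨i, q, hi⟩ := hR Λ PK G M k (n * (m + 1)) K N A (ptH φ) pr' Rd rt δ hTA hrfree hδ hsp'
      (fun v => Sum.map id φ (f v)) (hinjm.comp hf)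
      (fun i j hij => of_decide_eq_true (hfE i j hij).2)
    refine ⟨i, φ.symm q, ?_⟩
    apply hinjm
    rw [hi]
    simp
  · -- blue copies
    rintro f ⟨hf, hfE⟩
    have hEB : ∀ i j, B.Adj i j → EB2 Bl pr' (Sum.map id φ (f i)) (Sum.map id φ (f j)) := by
      intro i j hij
      obtain ⟨h1, h2⟩ := hfE i j hij
      rw [SimpleGraph.comap_adj] at h1
      rcases (hPt _ _).1 h1 with h | h
      · exact h
      · exact absurd h (of_decide_eq_false h2)
    let τ : RL Λ G K ⊕ (Fin n × Fin (m + 1)) → GY Λ PK G M K N ⊕ (Fin n × Fin (m + 1)) :=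
      fun x => match x with
      | Sum.inl (c, i, v) => Sum.inl (GY.l c i v)
      | Sum.inr q => Sum.inr q
    have hprn : ∀ c v, pr' c v = none → pr c v = none := by
      intro c v hv
      exact Option.map_eq_none_iff.1 hv
    have hprs : ∀ c v q, pr' c v = some (φ q) → pr c v = some q := by
      intro c v q hv
      obtain ⟨q', h1, h2⟩ := Option.map_eq_some_iff.1 hv
      rw [h1, φ.injective h2]
    have hτ1 : ∀ i, ∃ x, τ x = f i := by
      intro i
      obtain ⟨j, hij⟩ := hnb i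
      rcases hfi : f i with d | q
      · have h1 := hEB i j hij
        rw [hfi] at h1
        rcases h1 with ⟨c, i', v, v', _, _, _, h2, _⟩ | ⟨_, _, _, _, _, h2, _⟩ |
          ⟨c, i', q', v, _, _, h2⟩
        · have h3 : d = GY.l c i' v := Sum.inl_injective h2
          exact ⟨Sum.inl (c, i', v), by rw [h3]⟩
        · simp at h2
        · have h3 : d = GY.l c i' v := Sum.inl_injective h2
          exact ⟨Sum.inl (c, i', v), by rw [h3]⟩
      · exact ⟨Sum.inr q, rfl⟩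
    choose g hg using hτ1
    have hginj : Function.Injective g := by
      intro i j hij
      apply hf
      rw [← hg, ← hg, hij]
    have hgr : ∀ i q, f i = Sum.inr q → g i = Sum.inr q := by
      intro i q hi
      have h1 := hg i
      rcases hgi : g i with ⟨c, i', v⟩ | q'
      · rw [hgi, hi] at h1
        simp [τ] at h1
      · rw [hgi, hi] at h1
        have h2 : q' = q := Sum.inr_injective h1
        rw [h2]
    have hrg : ∀ i q, g i = Sum.inr q → f i = Sum.inr q := by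
      intro i q hi
      rw [← hg i, hi]
    have hlg : ∀ i c i' v, f i = Sum.inl (GY.l c i' v) → g i = Sum.inl (c, i', v) := by
      intro i c i' v hi
      have h1 := hg i
      rcases hgi : g i with ⟨c2, i2, v2⟩ | q'
      · rw [hgi, hi] at h1
        have h2 : GY.l c2 i2 v2 = GY.l c i' v := Sum.inl_injective h1
        injection h2 with h3 h4 h5
        rw [h3, h4, h5]
      · rw [hgi, hi] at h1
        simp [τ] at h1
    have hfl : ∀ i d, Sum.map id φ (f i) = Sum.inl d → f i = Sum.inl d := by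
      intro i d hd
      apply hinjm
      rw [hd]
      rfl
    have hfr : ∀ i q, Sum.map id φ (f i) = Sum.inr q → f i = Sum.inr (φ.symm q) := by
      intro i q hd
      apply hinjm
      rw [hd]
      simp
    have hGA : ∀ i j, B.Adj i j → (GA Bl pr).Adj (g i) (g j) ∧
        ¬ ((∃ q, g i = Sum.inr q) ∧ ∃ q, g j = Sum.inr q) := by
      intro i j hij
      have hne : g i ≠ g j := fun h => hij.ne (hginj h)
      rw [GA, SimpleGraph.fromRel_adj]
      rcases hEB i j hij with ⟨c, i', v, v', h1, h2, h3, h4, h5⟩ | ⟨c, i', q, v, h1, h4, h5⟩ |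
        ⟨c, i', q, v, h1, h4, h5⟩
      · have h6 := hlg i _ _ _ (hfl i _ h4)
        have h7 := hlg j _ _ _ (hfl j _ h5)
        refine ⟨⟨hne, Or.inl (Or.inl ⟨c, i', v, v', h1, hprn _ _ h2, hprn _ _ h3, h6, h7⟩)⟩, ?_⟩
        rintro ⟨⟨q, hq⟩, -⟩
        rw [h6] at hq
        simp at hq
      · have h6 := hgr i _ (hfr i _ h4)
        have h7 := hlg j _ _ _ (hfl j _ h5)
        obtain ⟨v₀, h8, h9, h10⟩ := h1
        refine ⟨⟨hne, Or.inl (Or.inr (Or.inl ⟨c, i', v₀, v, φ.symm q, h8,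
          hprs _ _ _ (by rw [Equiv.apply_symm_apply]; exact h9), hprn _ _ h10, h6, h7⟩))⟩, ?_⟩
        rintro ⟨-, ⟨q', hq⟩⟩
        rw [h7] at hq
        simp at hq
      · have h6 := hgr j _ (hfr j _ h4)
        have h7 := hlg i _ _ _ (hfl i _ h5)
        obtain ⟨v₀, h8, h9, h10⟩ := h1
        refine ⟨⟨hne, Or.inr (Or.inr (Or.inl ⟨c, i', v₀, v, φ.symm q, h8,
          hprs _ _ _ (by rw [Equiv.apply_symm_apply]; exact h9), hprn _ _ h10, h6, h7⟩))⟩, ?_⟩
        rintro ⟨⟨q', hq⟩, -⟩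
        rw [h7] at hq
        simp at hq
    obtain ⟨⟨z, hz⟩, h2⟩ := hG k' n m K Λ G fam B Bl pr htwo hbip hmx hnob hLab.kd hLab.inj
      g hginj hGA
    refine ⟨⟨z, fun i q hi => hz i q (hgr i q hi)⟩, fun i j hij => ?_⟩
    have h3 : ∀ i, (∃ q, f i = Sum.inr q) ↔ ∃ q, g i = Sum.inr q := fun i =>
      ⟨fun ⟨q, hq⟩ => ⟨q, hgr i q hq⟩, fun ⟨q, hq⟩ => ⟨q, hrg i q hq⟩⟩
    rw [h3, h3]
    exact h2 i j hij
  · -- the arrow
    intro C β hC hne hβ
    let C' : GY Λ PK G M K N ⊕ Fin (n * (m + 1)) → GY Λ PK G M K N ⊕ Fin (n * (m + 1)) → Bool :=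
      fun x y => C (Sum.map id φ.symm x) (Sum.map id φ.symm y)
    have hC' : ∀ s t, C' s t = C' t s := fun s t => hC _ _
    have h0 : ∀ d d', EB2 Bl pr' (Sum.inl d : GY Λ PK G M K N ⊕ Fin (n * (m + 1)))
        (Sum.inl d') → C (Sum.inl d) (Sum.inl d') = β false := by
      intro d d' h
      rw [hβ d d' ((hPt _ _).2 (Or.inl h))]
      exact congrArg β (decide_eq_false (hdisj _ _ h))
    have h1 : ∀ d d', ER2 (ptH φ) pr' Rd rt δ (Sum.inl d) (Sum.inl d') →
        C (Sum.inl d) (Sum.inl d') = β true := by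
      intro d d' h
      rw [hβ d d' ((hPt _ _).2 (Or.inr h))]
      exact congrArg β (decide_eq_true h)
    have hττ : ∃ τ τ' : PK × Fin N × Fin K, τ ≠ τ' := by
      obtain ⟨x0⟩ := hTA.ne
      refine ⟨(Sum.inl x0, ⟨0, by omega⟩, ⟨0, by omega⟩),
        (Sum.inl x0, ⟨0, by omega⟩, ⟨1, by omega⟩), ?_⟩
      intro h
      simp at h
    have hal := hA Λ PK G M (n * (m + 1)) K N Bl pr' δ hττ hδ hcol C' (β false) (β true) hne
    by_cases hRC : ∃ c q v m', Fr2 Bl pr' c q v ∧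
        ∀ τ, C' (Sum.inr q) (Sum.inl (GY.l c (δ m' τ) v)) = β true
    · left
      obtain ⟨c, q, v, m', hFr, hm⟩ := hRC
      have hang := hRc Λ PK G M (n * (m + 1)) K N (ptH φ) Bl pr' Rd rt δ hδ C' (β true) hC' h1
        c q v m' hFr hm
      refine ⟨φ.symm q, fun w => ?_, fun x hx w => ?_⟩
      · apply hang_tr
        rw [Equiv.apply_symm_apply]
        exact (hCs _ _ k K N hk A (Pt2 (ptH φ) Bl pr' Rd rt δ) C' (β true)).2 q w
          (hang (Sum.inl w))
      · apply hang_tr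
        rw [Equiv.apply_symm_apply]
        exact (hCs _ _ x.1 K N (hs x hx) x.2 (Pt2 (ptH φ) Bl pr' Rd rt δ) C' (β true)).2 q w
          (hang (Sum.inr ⟨⟨x, hx⟩, w⟩))
    · right
      have hBC : ∀ c, ∃ g : Fin (N + 1) → G, Function.Injective g ∧ ∀ s q v,
          Fr2 Bl pr' c (φ q) v → C (Sum.inr q) (Sum.inl (GY.l c (g s) v)) = β false := by
        intro c
        rcases hal c with ⟨g, hg, h⟩ | h
        · refine ⟨g, hg, fun s q v hq => ?_⟩
          have h2 := h s (φ q) v hq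
          have h3 : C' (Sum.inr (φ q)) (Sum.inl (GY.l c (g s) v)) =
              C (Sum.inr q) (Sum.inl (GY.l c (g s) v)) := by
            show C (Sum.map id φ.symm (Sum.inr (φ q))) _ = _
            rw [Sum.map_inr, Equiv.symm_apply_apply]
            rfl
          rw [← h3]
          exact h2
        · exact absurd ⟨c, h⟩ hRC
      choose gg hgg hfree using hBC
      have hadj : ∀ l (s : Fin (N + 1)) v v', (Bl l).Adj v v' → pr l v = none ∨ pr l v' = none →
          ((Pt2 (ptH φ) Bl pr' Rd rt δ).comap (Sum.map id φ)).Adj (ptF PK M N pr l (gg l s) v)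
            (ptF PK M N pr l (gg l s) v') ∧
          C (ptF PK M N pr l (gg l s) v) (ptF PK M N pr l (gg l s) v') = β false := by
        intro l s v v' h h'
        exact ptF_adj φ _ C hC (β false) (fun x y hxy => (hPt _ _).2 (Or.inl hxy)) h0 l
          (gg l s) (fun q v hq => hfree l s q v hq) v v' h h'
      refine ⟨id, ?_⟩
      refine ⟨Function.injective_id, ?_, ?_, ?_, ?_⟩
      · intro z z' hz
        exact (hPt _ _).2 (Or.inr (Or.inl ⟨φ (z, 0), φ (z', 0), ⟨z, z', hz, rfl, rfl⟩, rfl, rfl⟩))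
      · intro z z' a b hz hab
        obtain ⟨l, e, he, h2, h3, h4, h5⟩ := hLab.blob z z' a b hz hab
        refine ⟨fun ν v => ptF PK M N pr l (gg l ν.castSucc) (e v), fun ν => ⟨?_, ?_, ?_, ?_, ?_⟩,
          ?_⟩
        · exact (ptF_inj (hLab.inj l)).comp he
        · exact ptF_some h3
        · exact ptF_some h4
        · intro v hva hvb
          exact ⟨_, ptF_none (h5 v hva hvb)⟩
        · intro v v' hvv h6 h7
          apply hadj l _ _ _ (h2 v v' hvv)
          by_cases hv : v ≠ a ∧ v ≠ b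
          · exact Or.inl (h5 v hv.1 hv.2)
          · right
            apply h5
            · rintro rfl
              have hvb : v = b := by
                by_contra hvb
                exact hv ⟨hvv.ne, hvb⟩
              exact h7 ⟨hvb, rfl⟩
            · rintro rfl
              have hva : v = a := by
                by_contra hva
                exact hv ⟨hva, hvv.ne⟩
              exact h6 ⟨hva, rfl⟩
        · intro ν ν' v v' hva hvb h
          have h6 := hgg l (ptF_copy (h5 v hva hvb) h)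
          exact Fin.castSucc_injective _ h6
      · intro z
        obtain ⟨l, v, h2, h3⟩ := hLab.world z
        refine ⟨fun i => GY.l l (gg l i.castSucc) v, ?_, fun i j => ?_⟩
        · intro i i' h
          have h4 : GY.l l (gg l i.castSucc) v = (GY.l l (gg l i'.castSucc) v : GY Λ PK G M K N) :=
            h
          injection h4 with _ h5 _
          exact Fin.castSucc_injective _ (hgg l h5)
        · obtain ⟨v', h4, h5⟩ := h3 j
          have h6 := hadj l i.castSucc v' v h4 (Or.inr h2)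
          rw [ptF_some h5, ptF_none h2] at h6
          exact h6
      · intro p x hx w
        obtain ⟨l, e, he, h2, h3, h4⟩ := hLab.hang p x (Set.mem_insert_of_mem _ hx) w
        refine ⟨fun ν v => ptF PK M N pr l (gg l ν.castSucc) (e v), fun ν => ⟨?_, ?_⟩, fun ν => ?_,
          ?_, ?_⟩
        · exact (ptF_inj (hLab.inj l)).comp he
        · intro v v' hvv
          apply hadj l _ _ _ (h2 v v' hvv)
          by_cases hv : v = w
          · right
            apply h4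
            rintro rfl
            exact hvv.ne hv
          · exact Or.inl (h4 v hv)
        · exact ptF_some h3
        · intro ν v hv
          exact ⟨_, ptF_none (h4 v hv)⟩
        · intro ν ν' v v' hv h
          have h6 := hgg l (ptF_copy (h4 v hv) h)
          exact Fin.castSucc_injective _ h6

/-- Row PTX from row PTA. -/
theorem ptx_of_pta (h : PtaSt) : PtxStatement := by
  intro h0 k n m N fam D 𝓛 hF hT hfin h𝓛 hn hN1
  have htwo : TwoCn D := (hF.big _ hF.mx.1).1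
  have hbip : ∀ x ∈ fam, Bip x.2 := by
    intro x hx
    obtain ⟨-, κ, hκ⟩ := hF.big x hx
    exact ⟨κ, hκ.prop⟩
  obtain ⟨Y, hY, P, c₁, h1, h2, h3, h4, h5⟩ := h k k n m N fam D D 𝓛 𝓛 hT hT htwo hbip hF.mx
    hF.nob hfin h𝓛 hfin h𝓛 hn hN1
  refine ⟨Y, hY, P, c₁, h1, h2, h3, h4, fun C β hC hne hβ => ?_⟩
  rcases h5 C β hC hne hβ with ⟨q, hq⟩ | ⟨zf, hz⟩
  · exact Or.inl ⟨_, q, hq⟩
  · exact Or.inr ⟨_, zf, hz⟩

end MP3240S
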