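import Pool.Agent.Lib.MP_3240be_co.S62.Pta

set_option autoImplicit false

/-!
# MP_3240be_co, Theorem T2*, row PTX: the pattern for a cross-connected `D`
-/

namespace MP3240S

theorem ptx_proof (hL : LbxStatement) (hG : GaxStatement) (hR : RpxStatement)
    (hS : MP3240Q.Sy2Statement) (hA : MP3240Q.Al2Statement) (hRc : MP3240Q.RclStatement)
    (hCs : MP3240Q.CstStatement) : PtxStatement :=
  ptx_of_pta (pta_core hL hG hR hS hA hRc hCs)

end MP3240S
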