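import Pool.Agent.Lib.MP_3240be_co.S62.Defs

/-!
# MP_3240be_co, Theorem T2*, row RDN (helper98)

The red part of the intended colouring does not contain `H`.
-/

set_option autoImplicit false

namespace MP3240S

open MP3240L (Two MxTwo Cl Branch two_adj exists_mxTwo exists_path)
open MP3240Q (Mono Sub em Lin)

/-- A connected set in one copy with one vertex in `Hb ∪ Lw` alternates between `Hb` and `Lw`. -/
theorem rdn_alt {n : ℕ} {H : SimpleGraph (Fin n)} {κ : Fin n → Bool} {L Q : Type}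
    {S : SimpleGraph (L ⊕ Q)} {C₀ : L ⊕ Q → L ⊕ Q → Bool} {Hb Lw : Set (L ⊕ Q)}
    (prop : ∀ i j, H.Adj i j → κ i ≠ κ j)
    (hub : ∀ x ∈ Hb, ∀ y, S.Adj x y → C₀ x y = true → y ∈ Lw)
    (lw : ∀ x ∈ Lw, ∀ y, S.Adj x y → C₀ x y = true → y ∈ Hb)
    {T : Set (Fin n)} (hT : (H.induce T).Connected) (g : Fin n → L ⊕ Q)
    (hg : ∀ x ∈ T, ∀ y ∈ T, H.Adj x y → S.Adj (g x) (g y) ∧ C₀ (g x) (g y) = true)
    (s : Bool) {x₀ : Fin n} (hx₀ : x₀ ∈ T)
    (h0 : (κ x₀ = s ∧ g x₀ ∈ Hb) ∨ (κ x₀ ≠ s ∧ g x₀ ∈ Lw)) :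
    ∀ x ∈ T, (κ x = s ∧ g x ∈ Hb) ∨ (κ x ≠ s ∧ g x ∈ Lw) := by
  intro x hx
  obtain ⟨p, _, hp⟩ := exists_path hT hx₀ hx
  have key : ∀ {a b : Fin n} (p : H.Walk a b), (∀ w ∈ p.support, w ∈ T) →
      ((κ a = s ∧ g a ∈ Hb) ∨ (κ a ≠ s ∧ g a ∈ Lw)) →
      ((κ b = s ∧ g b ∈ Hb) ∨ (κ b ≠ s ∧ g b ∈ Lw)) := by
    intro a b p
    induction p with
    | nil => exact fun _ h => h
    | @cons a b c hab p ih =>
      intro h1 ha
      have haT : a ∈ T := h1 a (by rw [SimpleGraph.Walk.support_cons]; simp)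
      have hbT : b ∈ T := h1 b (by
        rw [SimpleGraph.Walk.support_cons, List.mem_cons]
        exact Or.inr p.start_mem_support)
      refine ih (fun w hw => h1 w (by
        rw [SimpleGraph.Walk.support_cons, List.mem_cons]; exact Or.inr hw)) ?_
      have h2 := prop a b hab
      obtain ⟨h3, h4⟩ := hg a haT b hbT hab
      rcases ha with ⟨ha1, ha2⟩ | ⟨ha1, ha2⟩
      · right
        refine ⟨fun h => h2 (ha1.trans h.symm), hub _ ha2 _ h3 h4⟩
      · left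
        refine ⟨?_, lw _ ha2 _ h3 h4⟩
        cases hs : s <;> cases hb : κ b <;> cases hc : κ a <;> simp_all
  exact key p hp h0

/-- Row RDN. -/
theorem rdn_proof (gri : GriStatement) : RdnStatement := by
  classical
  intro h M n k n' H κ D hD L Q I M' S C₀ Hb Lw δ f hB δinj _ finj hloc hpriv
  -- an edge of `H`
  obtain ⟨T₀, hT₀⟩ := hD.ex
  obtain ⟨a₀, ha₀, b₀, hb₀, hab₀⟩ := hT₀.1.1.nt
  -- private vertices are hubs; a neighbour of a private vertex is a point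
  have em_inr : ∀ m (z : L ⊕ Q) (p : M' × Q), em δ m z = Sum.inr p → z = Sum.inr p.2 ∧ m = p.1 := by
    intro m z p hz
    rcases z with l | q
    · exact absurd hz (by simp [MP3240Q.em])
    · simp only [MP3240Q.em, Sum.inr.injEq] at hz
      rw [← hz]
      exact ⟨rfl, rfl⟩
  have em_inl : ∀ m (z : L ⊕ Q) (i : I), em δ m z = Sum.inl i → ∃ l, z = Sum.inl l := by
    intro m z i hz
    rcases z with l | q
    · exact ⟨l, rfl⟩
    · exact absurd hz (by simp [MP3240Q.em])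
  have nbr : ∀ x y, H.Adj x y → (∃ p, f x = Sum.inr p) → ∃ i, f y = Sum.inl i := by
    rintro x y hxy ⟨p, hp⟩
    obtain ⟨m, g, hg1, hg2⟩ := hloc _ (two_adj hxy)
    have hx := hg1 x (by simp)
    have hy := hg1 y (by simp)
    obtain ⟨h1, h2⟩ := hg2 x (by simp) y (by simp) hxy
    obtain ⟨hz, hm⟩ := em_inr m (g x) p (by rw [← hx, hp])
    have hHb : g x ∈ Hb := by
      rw [hz]
      exact hpriv x p.1 p.2 hp
    obtain ⟨l, hl⟩ := hB.low _ (hB.hub _ hHb _ h1 h2)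
    refine ⟨δ m l, ?_⟩
    rw [hy, hl]
    rfl
  obtain ⟨ρ, hρ⟩ : ∃ ρ, ∃ i, f ρ = Sum.inl i := by
    by_contra hcon
    have hall : ∀ x, ∃ p, f x = Sum.inr p := by
      intro x
      rcases hx : f x with i | p
      · exact absurd ⟨x, i, hx⟩ hcon
      · exact ⟨p, rfl⟩
    obtain ⟨w, _, hw⟩ := exists_path hT₀.1.1.conn ha₀ hb₀
    cases w with
    | nil => exact hab₀ rfl
    | @cons _ z _ haz w => exact hcon ⟨z, nbr a₀ z haz (hall a₀)⟩
  refine gri n H (RR H κ D h M) ρ (fun u => ∃ i, f u = Sum.inl i) hD.conn hρ ?_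
  intro u K hK _ hu
  obtain ⟨o, ho, huo, ⟨v, hvo, hvK⟩, hoK, _⟩ := hK.block
  have hou : o ≠ {u} := by
    intro h1
    rw [h1, Set.mem_singleton_iff] at hvo
    exact hK.nu (hvo ▸ hvK)
  obtain ⟨m, g, hg1, hg2⟩ := hloc o ho.1
  by_cases hc : ∃ x ∈ o, g x ∈ Hb ∨ g x ∈ Lw
  · -- the closure of `o` under the blocks at private vertices
    obtain ⟨x₀, hx₀, hc⟩ := hc
    obtain ⟨s, hs⟩ : ∃ s : Bool, (κ x₀ = s ∧ g x₀ ∈ Hb) ∨ (κ x₀ ≠ s ∧ g x₀ ∈ Lw) := by
      rcases hc with hc | hc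
      · exact ⟨κ x₀, Or.inl ⟨rfl, hc⟩⟩
      · refine ⟨!κ x₀, Or.inr ⟨?_, hc⟩⟩
        cases κ x₀ <;> simp
    have halt := rdn_alt hD.prop hB.hub hB.lw ho.1.conn g hg2 s hx₀ hs
    let Inv : Set (Fin n) → Prop := fun A => ∀ x ∈ A, ∃ z : L ⊕ Q, f x = em δ m z ∧
      ((κ x = s ∧ z ∈ Hb) ∨ (κ x ≠ s ∧ z ∈ Lw))
    obtain ⟨W, hW, hmax⟩ := (Set.toFinite
      {A : Set (Fin n) | Cl H A ∧ o ⊆ A ∧ A ⊆ insert u K ∧ Inv A}).exists_maximal
      ⟨o, ho.cl, Set.Subset.refl o, hoK, fun x hx => ⟨g x, hg1 x hx, halt x hx⟩⟩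
    obtain ⟨clW, hoW, hWK, hinv⟩ := hW
    have hclos : ∀ x ∈ W, (∃ p, f x = Sum.inr p) → ∀ x', H.Adj x x' → x' ∈ W := by
      rintro x hx ⟨p, hp⟩ x' hadj
      obtain ⟨T, hT, hsub⟩ := exists_mxTwo (two_adj hadj)
      have hxT : x ∈ T := hsub (by simp)
      have hxT' : x' ∈ T := hsub (by simp)
      -- the copy of `T`
      obtain ⟨m', g', hg1', hg2'⟩ := hloc T hT.1
      obtain ⟨z, hz1, hz2⟩ := hinv x hx
      obtain ⟨hz3, hm⟩ := em_inr m z p (by rw [← hz1, hp])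
      obtain ⟨hz4, hm'⟩ := em_inr m' (g' x) p (by rw [← hg1' x hxT, hp])
      have hmm : m' = m := hm'.trans hm.symm
      have hz5 : κ x = s ∧ g' x ∈ Hb := by
        rcases hz2 with ⟨h1, h2⟩ | ⟨_, h2⟩
        · refine ⟨h1, ?_⟩
          rw [hz4, ← hz3]
          exact h2
        · obtain ⟨l, hl⟩ := hB.low _ h2
          rw [hl] at hz3
          exact absurd hz3 (by simp)
      have halt' := rdn_alt hD.prop hB.hub hB.lw hT.1.conn g' hg2' s hxT (Or.inl hz5)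
      have hxu : x ≠ u := by
        rintro rfl
        obtain ⟨i, hi⟩ := hu
        rw [hp] at hi
        exact absurd hi (by simp)
      have hxK : x ∈ K := (hWK hx).resolve_left hxu
      have hTK : T ⊆ insert u K := by
        intro w hw
        by_cases hwu : w = u
        · exact Or.inl hwu
        · exact Or.inr (hK.absorb (hT.1.diff u) (fun h => h.2 rfl) ⟨x, ⟨hxT, hxu⟩, hxK⟩
            ⟨hw, hwu⟩)
      have hle : W ∪ T ≤ W := hmax ⟨clW.union hT.cl ⟨x, hx, hxT⟩,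
        hoW.trans Set.subset_union_left, Set.union_subset hWK hTK, by
          rintro w (hw | hw)
          · exact hinv w hw
          · exact ⟨g' w, by rw [hg1' w hw, hmm], halt' w hw⟩⟩ Set.subset_union_left
      exact hle (Or.inr hxT')
    refine ⟨W, clW, hoW huo, ?_, hWK, Or.inr ⟨s, {x | x ∈ W ∧ ∃ p, f x = Sum.inr p}, ?_, ?_, ?_,
      ?_, ?_⟩, ?_⟩
    · intro h1
      refine hou (Set.Subset.antisymm (h1 ▸ hoW) (Set.singleton_subset_iff.2 huo))
    · rintro x ⟨hx, p, hp⟩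
      refine ⟨hx, ?_⟩
      obtain ⟨z, hz1, hz2⟩ := hinv x hx
      obtain ⟨hz3, _⟩ := em_inr m z p (by rw [← hz1, hp])
      rcases hz2 with ⟨h1, _⟩ | ⟨_, h2⟩
      · exact h1
      · obtain ⟨l, hl⟩ := hB.low _ h2
        rw [hl] at hz3
        exact absurd hz3 (by simp)
    · rintro ⟨_, p, hp⟩
      obtain ⟨i, hi⟩ := hu
      rw [hp] at hi
      exact absurd hi (by simp)
    · -- at most `M` hubs
      have : Nonempty (L ⊕ Q) := ⟨g u⟩
      have hz : ∀ x, ∃ z : L ⊕ Q, x ∈ W → f x = em δ m z ∧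
          ((κ x = s ∧ z ∈ Hb) ∨ (κ x ≠ s ∧ z ∈ Lw)) := by
        intro x
        by_cases hx : x ∈ W
        · obtain ⟨z, hz⟩ := hinv x hx
          exact ⟨z, fun _ => hz⟩
        · exact ⟨g u, fun h => absurd h hx⟩
      choose z hz using hz
      refine le_trans (Set.ncard_le_ncard_of_injOn z ?_ ?_ hB.fin) hB.card
      · rintro x ⟨hx, hxs⟩
        rcases (hz x hx).2 with h1 | h1
        · exact h1.2
        · exact absurd hxs h1.1
      · rintro x ⟨hx, _⟩ x' ⟨hx', _⟩ he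
        apply finj
        rw [(hz x hx).1, (hz x' hx').1, he]
    · -- at most `h` of them are points
      have : Nonempty (L ⊕ Q) := ⟨g u⟩
      have hz : ∀ x, ∃ z : L ⊕ Q, x ∈ W → f x = em δ m z ∧
          ((κ x = s ∧ z ∈ Hb) ∨ (κ x ≠ s ∧ z ∈ Lw)) := by
        intro x
        by_cases hx : x ∈ W
        · obtain ⟨z, hz⟩ := hinv x hx
          exact ⟨z, fun _ => hz⟩
        · exact ⟨g u, fun h => absurd h hx⟩
      choose z hz using hz
      have hfin : ((Sum.inl : L → L ⊕ Q) '' {l | (Sum.inl l : L ⊕ Q) ∈ Hb}).Finite :=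
        (hB.fin.subset (by
          rintro _ ⟨l, hl, rfl⟩
          exact hl))
      refine le_trans (Set.ncard_le_ncard_of_injOn z ?_ ?_ hfin) ?_
      · rintro x ⟨⟨hx, hxs⟩, hxp⟩
        have h1 : z x ∈ Hb := by
          rcases (hz x hx).2 with h1 | h1
          · exact h1.2
          · exact absurd hxs h1.1
        rcases hfx : f x with i | p
        · obtain ⟨l, hl⟩ := em_inl m (z x) i (by rw [← (hz x hx).1, hfx])
          rw [hl]
          exact ⟨l, by rw [hl] at h1; exact h1, rfl⟩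
        · exact absurd ⟨hx, p, hfx⟩ hxp
      · rintro x ⟨⟨hx, _⟩, _⟩ x' ⟨⟨hx', _⟩, _⟩ he
        apply finj
        rw [(hz x hx).1, (hz x' hx').1, he]
      · rw [Set.ncard_image_of_injective _ Sum.inl_injective]
        exact hB.pub
    · rintro x ⟨hx, hp⟩ x' hadj
      exact hclos x hx hp x' hadj
    · rintro x hx ⟨x', hx', hadj⟩
      rcases hfx : f x with i | p
      · exact ⟨i, rfl⟩
      · exact absurd (hclos x hx ⟨p, hfx⟩ x' hadj) hx'
  · -- no vertex of `o` is in `Hb ∪ Lw`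
    have hnp : ∀ x ∈ o, ∃ i, f x = Sum.inl i := by
      intro x hx
      rcases hfx : f x with i | p
      · exact ⟨i, rfl⟩
      · exfalso
        obtain ⟨hz, _⟩ := em_inr m (g x) p (by rw [← hg1 x hx, hfx])
        refine hc ⟨x, hx, Or.inl ?_⟩
        rw [hz]
        exact hpriv x p.1 p.2 hfx
    refine ⟨o, ho.cl, huo, hou, hoK, Or.inl ⟨ho, ?_⟩, fun x hx _ => hnp x hx⟩
    rintro ⟨e, einj, he⟩
    have hmono : Mono S C₀ D true (fun i => g (e i).1) := by
      refine ⟨?_, ?_⟩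
      · intro i j hij
        apply einj
        apply Subtype.ext
        apply finj
        rw [hg1 _ (e i).2, hg1 _ (e j).2]
        exact congrArg _ hij
      · intro i j hij
        exact hg2 _ (e i).2 _ (e j).2 (he i j hij)
    obtain ⟨i, h1 | h1 | ⟨q, h1⟩⟩ := hB.dd _ hmono
    · exact hc ⟨_, (e i).2, Or.inl h1⟩
    · exact hc ⟨_, (e i).2, Or.inr h1⟩
    · obtain ⟨i', hi'⟩ := hnp _ (e i).2
      rw [hg1 _ (e i).2, h1] at hi'
      exact absurd hi' (by simp [MP3240Q.em])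

end MP3240S
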