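import Pool.Agent.Lib.MP_3240be_co.S62.Defs
import Pool.Agent.Lib.MP_3240be_co.Q22.Rp2

/-!
# MP_3240be_co, board t3s_modules: row RPX

A red copy of `D` uses a passenger.
-/

set_option autoImplicit false

namespace MP3240S

open MP3240Q (GY rho2 ER2 rp2Lab rp2_lab rp2_common rp2_inj OneStatement)
open Pool.Agent.Lib.MP_3240be_co.H82 (TC)
open Pool.Agent.Lib.MP_3240be_co.H36.Chrom (Sparse)

/-- Row RPX. -/
theorem rpx_proof (hone : OneStatement) : RpxStatement := by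
  classical
  intro Λ P G M k n K N D H pr Rd rt δ hD hR hδ hsp f hf hE
  by_contra hq
  push Not at hq
  -- all edges in red pieces
  have hpc : ∀ i j, D.Adj i j → ∃ (c : Λ) (v : Fin K) (ρ : P) (ν : Fin N) (m : M)
      (y y' : Fin K), y ≠ rt ρ ∧ y' ≠ rt ρ ∧ (Rd ρ).Adj y y' ∧
      f i = Sum.inl (rho2 Rd rt δ c v ρ ν m y) ∧ f j = Sum.inl (rho2 Rd rt δ c v ρ ν m y') := by
    intro i j hij
    rcases hE i j hij with ⟨q', _, _, hs, _⟩ |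
      ⟨c, v, ρ, ν, m, y, y', _, h2, h3, h4, hs, ht⟩
    · exact absurd hs (hq _ _)
    · exact ⟨c, v, ρ, ν, m, y, y', h2, h3, h4, hs, ht⟩
  obtain ⟨x0⟩ := hD.ne
  obtain ⟨x1, hx01⟩ := hD.nbr x0
  obtain ⟨c, v, ρ0, ν0, m0, y0, y0', -, -, -, hf0, hf0'⟩ := hpc x0 x1 hx01
  have hallx := hD.conn (fun i => ∃ d, f i = Sum.inl d ∧ rp2Lab d = (c, v))
    ⟨x0, _, hf0, rp2_lab _ _ _ _ _ _⟩ (by
      rintro i j hij ⟨d, hd1, hd2⟩
      obtain ⟨c1, v1, ρ1, ν1, m1, y1, y1', -, -, -, h1, h2⟩ := hpc i j hij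
      rw [hd1] at h1
      have := Sum.inl_injective h1
      rw [this, rp2_lab] at hd2
      exact ⟨_, h2, by rw [rp2_lab, hd2]⟩)
  have hpc' : ∀ i j, ∃ m, D.Adj i j → ∃ ρ ν y y', y ≠ rt ρ ∧ y' ≠ rt ρ ∧ (Rd ρ).Adj y y' ∧
      f i = Sum.inl (rho2 Rd rt δ c v ρ ν m y) ∧
      f j = Sum.inl (rho2 Rd rt δ c v ρ ν m y') := by
    intro i j
    by_cases hij : D.Adj i j
    · obtain ⟨c1, v1, ρ1, ν1, m1, y1, y1', e1, e2, e3, h1, h2⟩ := hpc i j hij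
      obtain ⟨d, hd1, hd2⟩ := hallx i
      rw [h1] at hd1
      rw [← Sum.inl_injective hd1, rp2_lab] at hd2
      simp only [Prod.mk.injEq] at hd2
      obtain ⟨rfl, rfl⟩ := hd2
      exact ⟨m1, fun _ => ⟨ρ1, ν1, y1, y1', e1, e2, e3, h1, h2⟩⟩
    · exact ⟨m0, fun h => absurd h hij⟩
  choose mm hmm using hpc'
  obtain ⟨m, hm⟩ := hone True k D hD M mm
    (fun m i => ∃ ρ ν y, f i = Sum.inl (rho2 Rd rt δ c v ρ ν m y)) (by
      intro i j hij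
      obtain ⟨ρ, ν, y, y', _, _, _, h3, h4⟩ := hmm i j hij
      exact ⟨⟨ρ, ν, y, h3⟩, ⟨ρ, ν, y', h4⟩⟩) (by
      intro S hS2 hScard
      obtain ⟨m, hm, -, -, -, hleaf, -⟩ := hsp S hS2 hScard
      refine ⟨m, hm, ?_⟩
      rintro i j ⟨ρ, ν, y, hiy⟩ ⟨ρ1, ν1, z, hjz⟩ ⟨m', hm', hne', ρ', ν', y', hiy'⟩
        ⟨m'', hm'', hne'', ρ1', ν1', z', hjz'⟩
      have k1 := rp2_common c v ρ ρ' ν ν' m m' y y' hne'.symm
        (Sum.inl_injective (hiy.symm.trans hiy'))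
      have k2 := rp2_common c v ρ1 ρ1' ν1 ν1' m m'' z z' hne''.symm
        (Sum.inl_injective (hjz.symm.trans hjz'))
      have k3 := hleaf m' hm' m'' hm'' hne' hne'' (ρ, ν, y) (ρ', ν', y') (ρ1, ν1, z)
        (ρ1', ν1', z') k1.1 k2.1
      apply hf
      rw [hiy, hjz, k1.2, k2.2, k3])
  -- a single hyperedge: all edges in one piece
  have hpm : ∀ i j, D.Adj i j → ∃ ρ ν y y', y ≠ rt ρ ∧ y' ≠ rt ρ ∧ (Rd ρ).Adj y y' ∧
      f i = Sum.inl (rho2 Rd rt δ c v ρ ν m y) ∧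
      f j = Sum.inl (rho2 Rd rt δ c v ρ ν m y') := by
    intro i j hij
    obtain ⟨ρ, ν, y, y', h1, h2, h3, h4, h5⟩ := hmm i j hij
    rw [hm i j hij] at h4 h5
    exact ⟨ρ, ν, y, y', h1, h2, h3, h4, h5⟩
  obtain ⟨ρ1, ν1, y1, y1', k1, k2, k3, k4, k5⟩ := hpm x0 x1 hx01
  have hall2 := hD.conn (fun i => ∃ y, y ≠ rt ρ1 ∧ f i = Sum.inl (rho2 Rd rt δ c v ρ1 ν1 m y))
    ⟨x0, y1, k1, k4⟩ (by
      rintro i j hij ⟨y, hy, hfi⟩
      obtain ⟨ρ, ν, z, z', h1, h2, h3, h4, h5⟩ := hpm i j hij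
      obtain ⟨e1, e2, e3⟩ := rp2_inj c v ρ1 ρ ν1 ν m y z (hδ m)
        (Sum.inl_injective (hfi.symm.trans h4))
      subst e1 e2
      exact ⟨z', h2, h5⟩)
  choose g hg1 hg2 using hall2
  apply hR ρ1
  refine ⟨g, ?_, hg1, ?_⟩
  · intro i j hij
    apply hf
    rw [hg2, hg2, hij]
  · intro i j hij
    obtain ⟨ρ, ν, z, z', h1, h2, h3, h4, h5⟩ := hpm i j hij
    obtain ⟨e1, e2, e3⟩ := rp2_inj c v ρ1 ρ ν1 ν m (g i) z (hδ m)
      (Sum.inl_injective ((hg2 i).symm.trans h4))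
    subst e1 e2
    obtain ⟨-, -, e6⟩ := rp2_inj c v ρ1 ρ1 ν1 ν1 m (g j) z' (hδ m)
      (Sum.inl_injective ((hg2 j).symm.trans h5))
    rw [e3, e6]
    exact h3

end MP3240S
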