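import Pool.Agent.Lib.MP_3240be_co.H62.Main
import Pool.Agent.Lib.MP_3240be_co.S62.Asm
import Pool.Agent.Lib.MP_3240be_co.S62.Ars
import Pool.Agent.Lib.MP_3240be_co.S62.At2
import Pool.Agent.Lib.MP_3240be_co.S62.Bdn
import Pool.Agent.Lib.MP_3240be_co.S62.Cax
import Pool.Agent.Lib.MP_3240be_co.S62.Ctx
import Pool.Agent.Lib.MP_3240be_co.S62.Dat
import Pool.Agent.Lib.MP_3240be_co.S62.Emb
import Pool.Agent.Lib.MP_3240be_co.S62.ExtB
import Pool.Agent.Lib.MP_3240be_co.S62.Gax
import Pool.Agent.Lib.MP_3240be_co.S62.Gdx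
import Pool.Agent.Lib.MP_3240be_co.S62.Gen
import Pool.Agent.Lib.MP_3240be_co.S62.Gex
import Pool.Agent.Lib.MP_3240be_co.S62.Glc
import Pool.Agent.Lib.MP_3240be_co.S62.Gra
import Pool.Agent.Lib.MP_3240be_co.S62.Grf
import Pool.Agent.Lib.MP_3240be_co.S62.Gri
import Pool.Agent.Lib.MP_3240be_co.S62.Grk
import Pool.Agent.Lib.MP_3240be_co.S62.Grs
import Pool.Agent.Lib.MP_3240be_co.S62.Lbx
import Pool.Agent.Lib.MP_3240be_co.S62.Loc
import Pool.Agent.Lib.MP_3240be_co.S62.Mox
import Pool.Agent.Lib.MP_3240be_co.S62.Noh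
import Pool.Agent.Lib.MP_3240be_co.S62.Num
import Pool.Agent.Lib.MP_3240be_co.S62.Oux
import Pool.Agent.Lib.MP_3240be_co.S62.Pck
import Pool.Agent.Lib.MP_3240be_co.S62.Pgc
import Pool.Agent.Lib.MP_3240be_co.S62.Pgn
import Pool.Agent.Lib.MP_3240be_co.S62.Pta
import Pool.Agent.Lib.MP_3240be_co.S62.Ptx
import Pool.Agent.Lib.MP_3240be_co.S62.Rdn
import Pool.Agent.Lib.MP_3240be_co.S62.Rpx
import Pool.Agent.Lib.MP_3240be_co.S62.Unx
import Pool.Agent.Lib.MP_3240be_co.S62.Wxb
import Pool.Agent.Lib.MP_3240be_co.S62.Wxn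

/-!
# MP_3240be_co, Theorem T2* (unconditional)

For a connected bipartite graph `H` with a cycle in which every two cross-connected large blocks
contain each other, and every connected graph `H'` with more vertices than `H` that contains
`H`, some graph arrows `H` but not `H'`.
-/

set_option autoImplicit false

namespace MP3240S

theorem rpx_all : RpxStatement := rpx_proof MP3240Q.one_proof

theorem pta_all : PtaSt :=
  pta_core lbx_proof gax_proof rpx_all MP3240Q.sy2_proof (MP3240Q.al2_proof MP3240Q.col_proof)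
    MP3240Q.rcl_proof MP3240Q.cst_proof

theorem ptx_all : PtxStatement := ptx_of_pta pta_all

theorem pgc_all : PgcStatement := pgc_proof (ctx_proof ptx_all) at2_proof

theorem wxn_all : WxnStatement := wxn_proof MP3240G.wgp_all MP3240G.khn_all

theorem wxb_all : WxbStatement :=
  wxb_proof MP3240G.lrg_proof MP3240W.pc2_proof MP3240W.two_proof MP3240Q.lin_proof

theorem pgn_all : PgnStatement :=
  pgn MP3240G.typ_all lbx_proof gax_proof MP3240Q.lin_proof wxn_all oux_proof wxb_all

theorem gdx_all : GdxStatement :=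
  gdx_proof pgn_all pgc_all mox_proof unx_proof cax_proof MP3240G.kgd_all MP3240G.gmc_proof
    MP3240G.lrg_proof

theorem gra_all : GraStatement := gra_proof gri_proof

theorem grs_all : GrsStatement := grs_proof gri_proof gen_proof

theorem grf_all : GrfStatement := grf_proof gri_proof ext_proof' (gex_proof gen_proof) pck_proof

theorem ars_all : ArsStatement := ars gra_all grs_all grk_proof grf_all

theorem emb_all : EmxStatement := emb_proof MP3240Q.mon_proof MP3240Q.fre_proof

theorem noh_all : NohStatement := noh glc_proof loc_proof (rdn_proof gri_proof) bdn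

theorem dat_all : DatStatement := dat_proof MP3240G.cho_all

/-- Theorem T2*. -/
theorem main : MainStatement :=
  main_proof num_proof ars_all emb_all noh_all gdx_all dat_all MP3240G.typ_all
    MP3240Q.lin_proof

end MP3240S
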