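import Pool.Agent.Lib.MP_3240be_co.S62.Defs
import Pool.Agent.Lib.MP_3240be_co.H62.Wga

/-!
# MP_3240be_co, board t3s_modules: row WXN

Purity with the private common hubs.
-/

set_option autoImplicit false

namespace MP3240S

open Finset
open MP3240G (TwoCn Bi Nc WP WS WG relG ws WgpStatement KhnStatement)
open MP3240Q (Mono SG XS Lin)

namespace Wxn

variable {h Nw e : ℕ} {I M R Z : Type}

/-- The world gadget in the extended world gadget. -/
def ι (e : ℕ) (a : WP h I M ⊕ (M × Z)) : WP h I M ⊕ ((M × Z) ⊕ Fin e) := Sum.map id Sum.inl a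

theorem ι_rel (Ga : SimpleGraph (R ⊕ Z)) (δ : M → Fin Nw ⊕ R → I) (a b : WP h I M ⊕ (M × Z))
    (hr : relG Ga δ a b) : relX (e := e) Ga δ (ι e a) (ι e b) := by
  rcases a with (j | i | ⟨m, j⟩) | q <;> rcases b with (j' | i' | ⟨m', j'⟩) | q'
  all_goals exact hr

theorem ι_adj (Ga : SimpleGraph (R ⊕ Z)) (δ : M → Fin Nw ⊕ R → I) (a b : WP h I M ⊕ (M × Z))
    (hab : (WG Ga δ).Adj a b) : (WX (e := e) Ga δ).Adj (ι e a) (ι e b) := by
  rw [WG, SimpleGraph.fromRel_adj] at hab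
  rw [WX, SimpleGraph.fromRel_adj]
  refine ⟨?_, hab.2.imp (ι_rel Ga δ a b) (ι_rel Ga δ b a)⟩
  intro h
  apply hab.1
  rcases a with a | a <;> rcases b with b | b
  · exact congrArg Sum.inl (Sum.inl.inj h)
  · exact absurd h (by simp [ι])
  · exact absurd h (by simp [ι])
  · exact congrArg Sum.inr (Sum.inl.inj (Sum.inr.inj h))

theorem ι_ws (δ : M → Fin Nw ⊕ R → I) (m : M) (s : WS h Nw R Z) :
    ι e (ws δ m s) = wx δ m (Sum.inl s) := by
  rcases s with j | j | t | ζ <;> rfl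

end Wxn

open Wxn in
/-- Row WXN. -/
theorem wxn_proof (h1 : WgpStatement) (h2 : KhnStatement) : WxnStatement := by
  classical
  intro h K Nw e k D κ hh hBi hNc hkK hKN I M R Z Ga δ hinj hlin hR C hC χ Cφ hχ x hx
  set C' : WP h I M ⊕ (M × Z) → WP h I M ⊕ (M × Z) → Bool := fun a b => C (ι e a) (ι e b) with hC'
  set Cφ' : WS h Nw R Z → WS h Nw R Z → Bool := fun s s' => Cφ (Sum.inl s) (Sum.inl s') with hCφ'
  have hχ' : ∀ m, χ m → ∀ s s', C' (ws δ m s) (ws δ m s') = Cφ' s s' := by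
    intro m hm s s'
    show C (ι e (ws δ m s)) (ι e (ws δ m s')) = _
    rw [ι_ws, ι_ws]
    exact hχ m hm _ _
  have hx1 : XS δ χ (K + 2) 1 x := by
    intro l
    obtain ⟨g, hg, hg'⟩ := hx l
    exact ⟨g, hg, fun i => ⟨(hg' i).1, (hg' i).2.1, fun _ => trivial⟩⟩
  have hfirst : ∀ (c : Bool) (f : Fin k → WP h I M),
      Mono (WG Ga δ) C' D c (fun v => Sum.inl (f v)) →
      Mono (WX Ga δ) C D c (fun v => Sum.inl (f v)) := by
    intro c f hf
    refine ⟨?_, fun i j hij => ⟨?_, (hf.2 i j hij).2⟩⟩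
    · intro i j hij
      exact hf.1 (congrArg Sum.inl (Sum.inl.inj hij))
    · exact ι_adj Ga δ _ _ (hf.2 i j hij).1
  rcases h1 h K Nw (fun _ => ⟨k, D⟩) (fun _ => κ) hh (fun _ => ⟨hBi, hkK⟩) ⟨true, hNc⟩ hKN I M R Z
    Ga δ hinj C' (fun a b => hC _ _) χ Cφ' hχ' x hx1 with ⟨c, f, hf⟩ | ⟨col, hcol⟩
  · exact Or.inl ⟨c, f, hfirst c f hf⟩
  by_cases hno : ∃ (c : Bool) (f : Fin k → WP h I M),
      Mono (WG Ga δ) C' D c (fun v => Sum.inl (f v))
  · obtain ⟨c, f, hf⟩ := hno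
    exact Or.inl ⟨c, f, hfirst c f hf⟩
  right
  have hx' : ∀ l, ∃ g : Fin (K + 2) → M, Function.Injective g ∧
      ∀ i, χ (g i) ∧ δ (g i) l = x := fun l => by
    obtain ⟨g, hg, hg'⟩ := hx l
    exact ⟨g, hg, fun i => ⟨(hg' i).1, (hg' i).2.1⟩⟩
  obtain ⟨α0, hα0⟩ : ∃ α, κ α = true := by
    have h3 : 0 < (univ.filter (fun v => κ v = true)).card := by
      rw [hBi.cardA]
      exact Nat.succ_pos _
    obtain ⟨α, hα⟩ := Finset.card_pos.1 h3
    exact ⟨α, (Finset.mem_filter.1 hα).2⟩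
  have hKpos : 0 < K := lt_of_lt_of_le (Fin.pos α0) hkK
  have hNw : 0 < Nw := lt_of_lt_of_le (Nat.mul_pos hKpos (Nat.two_pow_pos h)) hKN
  obtain ⟨g0, -, hg0'⟩ := hx' (Sum.inl ⟨0, hNw⟩)
  have hm : χ (g0 0) := (hg0' 0).1
  refine ⟨col, fun j => C (Sum.inr (Sum.inr j)) (Sum.inl (.low x)), g0 0, hm, fun r r' hrr => ?_,
    fun j r => hcol (g0 0) hm _ j, fun j r => ?_⟩
  · by_contra hne
    have hc : C' (Sum.inl (.low (δ (g0 0) (Sum.inr r)))) (Sum.inl (.low (δ (g0 0) (Sum.inr r')))) =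
        col := by
      show C (Sum.inl (.low (δ (g0 0) (Sum.inr r)))) (Sum.inl (.low (δ (g0 0) (Sum.inr r')))) = col
      revert hne
      cases C (Sum.inl (.low (δ (g0 0) (Sum.inr r)))) (Sum.inl (.low (δ (g0 0) (Sum.inr r')))) <;>
        cases col <;> simp
    have hφ : Cφ' (.s (Sum.inr r)) (.s (Sum.inr r')) = col := by
      rw [← hχ' (g0 0) hm]
      exact hc
    obtain ⟨g, hg, hg'⟩ := hx' (Sum.inr r)
    have hrne : r ≠ r' := fun e => by
      subst e
      exact Ga.loopless.irrefl _ hrr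
    have hinjN : Function.Injective (fun i : Fin (K + 2) =>
        (Sum.inl (.low (δ (g i) (Sum.inr r'))) : WP h I M ⊕ (M × Z))) := by
      intro i j hij
      have e1 : δ (g i) (Sum.inr r') = δ (g j) (Sum.inr r') := by simpa using hij
      by_contra hne'
      have e2 := hlin (g i) (g j) (Sum.inr r) (Sum.inr r) (Sum.inr r') (Sum.inr r')
        (fun e => hne' (hg e)) ((hg' i).2.trans (hg' j).2.symm) e1
      have e3 := hinj (g i) e2
      exact hrne (Sum.inr.inj e3)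
    obtain ⟨f, hf, hfα, hfP⟩ := MP3240G.Wga.copy h2 hBi hkK Ga δ C' (fun a b => hC _ _) col
      (Sum.inl (.low x))
      (fun j e => by simp at e)
      (univ.image (fun i : Fin (K + 2) =>
        (Sum.inl (.low (δ (g i) (Sum.inr r'))) : WP h I M ⊕ (M × Z))))
      (by
        rw [Finset.card_image_of_injective _ hinjN, Finset.card_univ, Fintype.card_fin]
        omega)
      (fun z hz => by
        obtain ⟨i, -, rfl⟩ := Finset.mem_image.1 hz
        exact ⟨_, rfl, fun j => hcol (g i) (hg' i).1 _ j⟩)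
      (fun z hz => by
        obtain ⟨i, -, rfl⟩ := Finset.mem_image.1 hz
        refine ⟨?_, ?_⟩
        · rw [WG, SimpleGraph.fromRel_adj]
          refine ⟨fun e => ?_, Or.inl ⟨g i, r, r', hrr, (hg' i).2, rfl⟩⟩
          have e1 : x = δ (g i) (Sum.inr r') := by simpa using e
          rw [← (hg' i).2] at e1
          exact hrne (Sum.inr.inj (hinj (g i) e1))
        · have e1 : C' (Sum.inl (.low (δ (g i) (Sum.inr r))))
              (Sum.inl (.low (δ (g i) (Sum.inr r')))) = Cφ' (.s (Sum.inr r)) (.s (Sum.inr r')) :=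
            hχ' (g i) (hg' i).1 (.s (Sum.inr r)) (.s (Sum.inr r'))
          rw [(hg' i).2] at e1
          exact e1.trans hφ)
      α0 hα0
    have hfP' : ∀ v, ∃ l, f v = Sum.inl l := by
      intro v
      by_cases hv : v = α0
      · exact ⟨_, by rw [hv, hfα]⟩
      · exact hfP v hv
    choose fl hfl using hfP'
    refine hno ⟨col, fl, ?_⟩
    have e4 : (fun v => Sum.inl (fl v)) = f := funext fun v => (hfl v).symm
    rw [e4]
    exact hf
  · obtain ⟨g, -, hg'⟩ := hx' (Sum.inr r)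
    have e1 : C (Sum.inr (Sum.inr j)) (Sum.inl (.low (δ (g0 0) (Sum.inr r)))) =
        Cφ (Sum.inr j) (Sum.inl (.s (Sum.inr r))) :=
      hχ (g0 0) hm (Sum.inr j) (Sum.inl (.s (Sum.inr r)))
    have e2 : C (Sum.inr (Sum.inr j)) (Sum.inl (.low (δ (g 0) (Sum.inr r)))) =
        Cφ (Sum.inr j) (Sum.inl (.s (Sum.inr r))) :=
      hχ (g 0) (hg' 0).1 (Sum.inr j) (Sum.inl (.s (Sum.inr r)))
    rw [(hg' 0).2] at e2
    rw [e1, ← e2]

end MP3240S
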